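import Pool.Agent.EWH.Blocks

/-!
# Sets of supercells: the coded set and the main test
-/

set_option autoImplicit false

namespace Pool.Agent.EWH

open Turing Pool.Agent.TM2Lib

/-- the set of supercells which belongs to the codes `β` -/
def scells (b V d : ℕ) (β : ℕ → ℕ) : Finset ℕ :=
  (Finset.range (b ^ d)).image fun j => j + b ^ d * en V d fun p => β (dg b j p)

/-- `Z` is the set of supercells of `β` -/
structure Rpr (b V d : ℕ) (β : ℕ → ℕ) (Z : Finset ℕ) : Prop where
  vals : ∀ z ∈ Z, ∀ p < d, cp b V d z p = β (dg b (z % b ^ d) p)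
  ex : ∀ j < b ^ d, ∃ z ∈ Z, z % b ^ d = j

/-- the elements of the coded set -/
def cc (n g : ℕ) (β : ℕ → ℕ) (i : ℕ) : ℕ := dg n (β (i / g)) (i % g)

section

variable {n k g b V d : ℕ}

theorem IsBlk.rpr (hb : 0 < b) {Z : Finset ℕ} (hZ : Z.card = b ^ d)
    (h : IsBlk n k g b V d Z) : ∃ β : ℕ → ℕ, Rpr b V d β Z := by
  have hi : ∀ i, ∃ v, i < b → ∀ z ∈ Z, z % b ^ d = dgn b d i → cp b V d z 0 = v := by
    intro i
    by_cases hib : i < b
    · obtain ⟨z, hz, hj⟩ := exists_index hb hZ h.uniq (j := dgn b d i) (en_lt fun _ _ => hib)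
      exact ⟨cp b V d z 0, fun _ x hx e => by rw [h.uniq x hx z hz (e.trans hj.symm)]⟩
    · exact ⟨0, fun h' => absurd h' hib⟩
  choose β hβ using hi
  refine ⟨β, fun z hz p hp => ?_, fun j hj => exists_index hb hZ h.uniq hj⟩
  obtain ⟨z', hz', hj'⟩ := exists_index hb hZ h.uniq (dgn_lt (d := d) hb (z % b ^ d) p)
  rw [h.comp z hz z' hz' p hp hj', hβ _ (dg_lt hb _ _) z' hz' hj']

theorem scells_mod {j w : ℕ} (hj : j < b ^ d) : (j + b ^ d * w) % b ^ d = j := by
  rw [Nat.add_mul_mod_self_left, Nat.mod_eq_of_lt hj]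

theorem scells_div {j w : ℕ} (hj : j < b ^ d) : (j + b ^ d * w) / b ^ d = w := by
  rw [Nat.add_mul_div_left _ _ (by omega), Nat.div_eq_of_lt hj, Nat.zero_add]

theorem mem_scells {β : ℕ → ℕ} {z : ℕ} : z ∈ scells b V d β ↔
    ∃ j < b ^ d, j + b ^ d * (en V d fun p => β (dg b j p)) = z := by
  unfold scells
  simp only [Finset.mem_image, Finset.mem_range]

theorem scells_uniq {β : ℕ → ℕ} : ∀ z ∈ scells b V d β, ∀ z' ∈ scells b V d β,
    z % b ^ d = z' % b ^ d → z = z' := by
  intro z hz z' hz' h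
  obtain ⟨j, hj, rfl⟩ := mem_scells.1 hz
  obtain ⟨j', hj', rfl⟩ := mem_scells.1 hz'
  rw [scells_mod hj, scells_mod hj'] at h
  rw [h]

theorem scells_card {β : ℕ → ℕ} : (scells b V d β).card = b ^ d := by
  unfold scells
  rw [Finset.card_image_of_injOn, Finset.card_range]
  intro j hj j' hj' h
  have hj1 : j < b ^ d := by simpa using hj
  have hj1' : j' < b ^ d := by simpa using hj'
  have h1 := congrArg (fun z => z % b ^ d) h
  simp only [scells_mod hj1, scells_mod hj1'] at h1
  exact h1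

theorem scells_rpr {β : ℕ → ℕ} (hβ : ∀ i, β i < V) : Rpr b V d β (scells b V d β) := by
  constructor
  · intro z hz p hp
    obtain ⟨j, hj, rfl⟩ := mem_scells.1 hz
    unfold cp
    rw [scells_mod hj, scells_div hj, dg_en (fun q _ => hβ _) hp]
  · intro j hj
    exact ⟨_, mem_scells.2 ⟨j, hj, rfl⟩, scells_mod hj⟩

theorem scells_lt {β : ℕ → ℕ} (hβ : ∀ i, β i < V) {z : ℕ} (hz : z ∈ scells b V d β) :
    z < b ^ d * V ^ d := by
  obtain ⟨j, hj, rfl⟩ := mem_scells.1 hz
  have h1 : (en V d fun p => β (dg b j p)) < V ^ d := en_lt fun p _ => hβ _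
  calc j + b ^ d * (en V d fun p => β (dg b j p)) < b ^ d + b ^ d * (en V d fun p => β (dg b j p)) := by
        omega
    _ = b ^ d * ((en V d fun p => β (dg b j p)) + 1) := by ring
    _ ≤ b ^ d * V ^ d := Nat.mul_le_mul_left _ h1

theorem scells_blk (hb : 0 < b) {β : ℕ → ℕ} (hβ : ∀ i, β i < V)
    (hinj : ∀ z ∈ scells b V d β, ∀ qs : List ℕ, qs.length = d → (∀ q ∈ qs, q < g) →
      injQ n k g b V d z qs = true) : IsBlk n k g b V d (scells b V d β) := by
  have hr := scells_rpr (b := b) (d := d) hβ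
  refine ⟨fun z hz => gdB_iff.2 ⟨scells_lt hβ hz, hinj z hz⟩, scells_uniq, ?_⟩
  intro z hz z' hz' p hp hj
  have hd : 0 < d := by omega
  rw [hr.vals z hz p hp, hr.vals z' hz' 0 hd, hj]
  congr 1
  unfold dgn
  exact (dg_en (fun _ _ => dg_lt hb _ _) hd).symm

/-! ### the elements -/

theorem getD_lt {qs : List ℕ} (hq : ∀ q ∈ qs, q < g) {p : ℕ} (hp : p < qs.length) :
    qs.getD p 0 < g := hq _ (getD_mem hp)

theorem Rpr.cD_eq {β : ℕ → ℕ} {Z : Finset ℕ} (h : Rpr b V d β Z) {z : ℕ} (hz : z ∈ Z) {qs : List ℕ}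
    (h1 : qs.length = d) (h2 : ∀ q ∈ qs, q < g) {p : ℕ} (hp : p < d) :
    cD n b V d z qs p = cc n g β (cI b g d z qs p) := by
  have h3 : qs.getD p 0 < g := getD_lt h2 (by omega)
  unfold cD cc cI
  rw [h.vals z hz p hp, Nat.add_comm, Nat.add_mul_div_right _ _ (by omega), Nat.div_eq_of_lt h3,
    Nat.zero_add, Nat.add_mul_mod_self_right, Nat.mod_eq_of_lt h3]

/-- each `d`-tuple of elements occurs in a supercell -/
theorem Rpr.exists_tuple {β : ℕ → ℕ} {Z : Finset ℕ} (h : Rpr b V d β Z) (hg : 0 < g)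
    (hk : k ≤ b * g) {f : ℕ → ℕ} (hf : ∀ p < d, f p < k) :
    ∃ z ∈ Z, ∃ qs : List ℕ, qs.length = d ∧ (∀ q ∈ qs, q < g) ∧
      ∀ p < d, cI b g d z qs p = f p := by
  have hfb : ∀ p < d, f p / g < b := fun p hp =>
    Nat.div_lt_of_lt_mul (by rw [Nat.mul_comm]; exact lt_of_lt_of_le (hf p hp) hk)
  obtain ⟨z, hz, hj⟩ := h.ex (en b d fun p => f p / g) (en_lt hfb)
  refine ⟨z, hz, (List.range d).map fun p => f p % g, by simp, ?_, ?_⟩
  · intro q hq
    rw [List.mem_map] at hq
    obtain ⟨p, _, rfl⟩ := hq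
    exact Nat.mod_lt _ hg
  · intro p hp
    unfold cI
    rw [hj, dg_en hfb hp]
    have h1 : ((List.range d).map fun p => f p % g).getD p 0 = f p % g := by
      rw [List.getD_eq_getElem _ _ (by simpa using hp)]
      simp
    rw [h1, Nat.mul_comm]
    exact Nat.div_add_mod (f p) g

theorem Rpr.inj_iff {β : ℕ → ℕ} {Z : Finset ℕ} (h : Rpr b V d β Z) (hg : 0 < g) (hd : 2 ≤ d)
    (hk : k ≤ b * g) :
    (∀ z ∈ Z, ∀ qs : List ℕ, qs.length = d → (∀ q ∈ qs, q < g) →
      injQ n k g b V d z qs = true) ↔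
    ∀ i < k, ∀ i' < k, cc n g β i = cc n g β i' → i = i' := by
  constructor
  · intro H i hi i' hi' e
    obtain ⟨z, hz, qs, h1, h2, h3⟩ := h.exists_tuple hg hk
      (f := fun p => if p = 0 then i else i') (fun p _ => by
        split_ifs
        · exact hi
        · exact hi')
    have h4 := injQ_iff.1 (H z hz qs h1 h2) 0 (by omega) 1 (by omega)
    rw [h.cD_eq hz h1 h2 (by omega), h.cD_eq hz h1 h2 (by omega), h3 0 (by omega),
      h3 1 (by omega)] at h4
    simpa using h4 hi hi' e
  · intro H z hz qs h1 h2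
    refine injQ_iff.2 fun p hp p' hp' hi hi' e => ?_
    rw [h.cD_eq hz h1 h2 hp, h.cD_eq hz h1 h2 hp'] at e
    exact H _ hi _ hi' e

/-! ### the main test -/

/-- the relation of the structure, for the tuple which is given by `us` (modulo `n`) and by the
chosen elements -/
def relB (A : Str) (t b V d z : ℕ) (us qs : List ℕ) : Bool :=
  (A.rels.getD 0 []).any (eqL ((List.range (t + d)).map fun x =>
    if x < t then us.getD x 0 % A.n else cD A.n b V d z qs (x - t)))

theorem any_eqL {A : Str} {i : ℕ} {l : List ℕ} : (A.rels.getD i []).any (eqL l) = true ↔ A.R i l := by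
  simp only [List.any_eq_true, eqL_iff, Str.R]
  constructor
  · rintro ⟨x, hx, h⟩; rw [h]; exact hx
  · intro h; exact ⟨_, h, rfl⟩

theorem range_split {t d m : ℕ} {us : List ℕ} (hus : us.length = t) (f : ℕ → ℕ) :
    ((List.range (t + d)).map fun x => if x < t then us.getD x 0 % m else f (x - t)) =
      us.map (· % m) ++ (List.range d).map f := by
  rw [List.range_add, List.map_append, List.map_map]
  congr 1
  · refine List.ext_getElem (by simp [hus]) fun i h1 h2 => ?_
    have hi : i < t := by simpa using h1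
    rw [List.getElem_map, List.getElem_range, if_pos hi, List.getElem_map,
      List.getD_eq_getElem _ _ (by omega)]
  · refine List.map_congr_left fun i _ => ?_
    simp only [Function.comp_apply]
    rw [if_neg (by omega), Nat.add_sub_cancel_left]

theorem relB_iff {A : Str} {t z : ℕ} {us qs : List ℕ} (hus : us.length = t) :
    relB A t b V d z us qs = true ↔
      A.R 0 (us.map (· % A.n) ++ (List.range d).map (cD A.n b V d z qs)) := by
  unfold relB
  rw [any_eqL, range_split hus]

/-- the main test -/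
def mtB (e : Bool) (A : Str) (t k g b V d : ℕ) (us : List ℕ) (z : ℕ) : Bool :=
  xor e (allQ g d fun qs => !((List.range d).all fun p => decide (cI b g d z qs p < k)) ||
    xor e (relB A t b V d z us qs))

theorem mtB_false {A : Str} {t z : ℕ} {us : List ℕ} : mtB false A t k g b V d us z = true ↔
    ∀ qs : List ℕ, qs.length = d → (∀ q ∈ qs, q < g) → (∀ p < d, cI b g d z qs p < k) →
      relB A t b V d z us qs = true := by
  unfold mtB
  rw [Bool.false_xor, allQ_iff]
  refine forall_congr' fun qs => forall_congr' fun _ => forall_congr' fun _ => ?_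
  rw [Bool.false_xor, Bool.or_eq_true, Bool.not_eq_true', ← Bool.not_eq_true]
  simp only [List.all_eq_true, List.mem_range, decide_eq_true_eq]
  tauto

theorem mtB_true {A : Str} {t z : ℕ} {us : List ℕ} : mtB true A t k g b V d us z = true ↔
    ∃ qs : List ℕ, qs.length = d ∧ (∀ q ∈ qs, q < g) ∧ (∀ p < d, cI b g d z qs p < k) ∧
      relB A t b V d z us qs = true := by
  unfold mtB
  rw [Bool.true_xor, Bool.not_eq_true', ← Bool.not_eq_true, allQ_iff]
  push Not
  refine exists_congr fun qs => and_congr_right fun _ => and_congr_right fun _ => ?_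
  rw [Bool.true_xor, Ne, Bool.or_eq_true, not_or, Bool.not_eq_true', Bool.not_eq_true',
    Bool.not_eq_false, Bool.not_eq_false]
  simp only [List.all_eq_true, List.mem_range, decide_eq_true_eq]

theorem list_eq_range {l : List ℕ} {d : ℕ} (hl : l.length = d) :
    l = (List.range d).map fun p => l.getD p 0 := by
  refine List.ext_getElem (by simp [hl]) fun i h1 h2 => ?_
  rw [List.getElem_map, List.getElem_range, List.getD_eq_getElem _ _ h1]

/-- tuples of elements of the coded set -/
theorem Rpr.tuples {β : ℕ → ℕ} {Z : Finset ℕ} (h : Rpr b V d β Z) (hg : 0 < g)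
    (hk : k ≤ b * g) (P : List ℕ → Prop) :
    (∀ ys : List ℕ, ys.length = d → (∀ y ∈ ys, y ∈ (Finset.range k).image (cc n g β)) → P ys) ↔
    ∀ z ∈ Z, ∀ qs : List ℕ, qs.length = d → (∀ q ∈ qs, q < g) → (∀ p < d, cI b g d z qs p < k) →
      P ((List.range d).map (cD n b V d z qs)) := by
  constructor
  · intro H z hz qs h1 h2 h3
    refine H _ (by simp) fun y hy => ?_
    rw [List.mem_map] at hy
    obtain ⟨p, hp, rfl⟩ := hy
    have hp' : p < d := List.mem_range.1 hp
    rw [h.cD_eq hz h1 h2 hp', Finset.mem_image]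
    exact ⟨_, Finset.mem_range.2 (h3 p hp'), rfl⟩
  · intro H ys h1 h2
    have h3 : ∀ p, ∃ i, p < d → i < k ∧ cc n g β i = ys.getD p 0 := by
      intro p
      by_cases hp : p < d
      · have h4 := h2 _ (getD_mem (l := ys) (i := p) (by omega))
        rw [Finset.mem_image] at h4
        obtain ⟨i, hi, e⟩ := h4
        exact ⟨i, fun _ => ⟨Finset.mem_range.1 hi, e⟩⟩
      · exact ⟨0, fun h' => absurd h' hp⟩
    choose f hf using h3
    obtain ⟨z, hz, qs, q1, q2, q3⟩ := h.exists_tuple hg hk (f := f) fun p hp => (hf p hp).1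
    have h5 := H z hz qs q1 q2 fun p hp => by rw [q3 p hp]; exact (hf p hp).1
    have h6 : (List.range d).map (cD n b V d z qs) = ys := by
      rw [list_eq_range h1]
      refine List.map_congr_left fun p hp => ?_
      have hp' : p < d := List.mem_range.1 hp
      rw [h.cD_eq hz q1 q2 hp', q3 p hp', (hf p hp').2]
    rwa [h6] at h5

theorem forall_one_cell {Z : Finset ℕ} (F : ℕ → Prop) :
    (∀ cs : List ℕ, cs.length = 1 → (∀ c ∈ cs, c ∈ Z) → F (cs.getD 0 0)) ↔ ∀ z ∈ Z, F z := by
  constructor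
  · intro h z hz
    exact h [z] rfl (by simpa using hz)
  · intro h cs h1 h2
    exact h _ (h2 _ (getD_mem (by omega)))

theorem exists_one_cell {Z : Finset ℕ} (F : ℕ → Prop) :
    (∃ cs : List ℕ, cs.length = 1 ∧ (∀ c ∈ cs, c ∈ Z) ∧ F (cs.getD 0 0)) ↔ ∃ z ∈ Z, F z := by
  constructor
  · rintro ⟨cs, h1, h2, h3⟩
    exact ⟨_, h2 _ (getD_mem (by omega)), h3⟩
  · rintro ⟨z, hz, h⟩
    exact ⟨[z], rfl, by simpa using hz, h⟩

theorem Rpr.main_iff {β : ℕ → ℕ} {Z : Finset ℕ} {A : Str} {r : ℕ} (h : Rpr b V d β Z) (hg : 0 < g)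
    (hk : k ≤ b * g) (e : Bool) (he : e = true ↔ Even r) {us : List ℕ} (hus : us.length = r + 2) :
    (if Even r then ∃ cs : List ℕ, cs.length = 1 ∧ (∀ c' ∈ cs, c' ∈ Z) ∧
        mtB e A (r + 2) k g b V d us (cs.getD 0 0) = true
      else ∀ cs : List ℕ, cs.length = 1 → (∀ c' ∈ cs, c' ∈ Z) →
        mtB e A (r + 2) k g b V d us (cs.getD 0 0) = true) ↔
    (if Even (r + 2) then ∃ ys : List ℕ, ys.length = d ∧
        (∀ y ∈ ys, y ∈ (Finset.range k).image (cc A.n g β)) ∧ A.R 0 (us.map (· % A.n) ++ ys)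
      else ∀ ys : List ℕ, ys.length = d →
        (∀ y ∈ ys, y ∈ (Finset.range k).image (cc A.n g β)) → A.R 0 (us.map (· % A.n) ++ ys)) := by
  have heven : Even (r + 2) ↔ Even r := by
    rw [Nat.even_add]; simp
  rw [if_congr heven rfl rfl]
  by_cases hr : Even r
  · obtain rfl : e = true := he.2 hr
    rw [if_pos hr, if_pos hr,
      exists_one_cell (fun z => mtB true A (r + 2) k g b V d us z = true)]
    have h1 := not_congr (h.tuples (n := A.n) hg hk fun ys => ¬ A.R 0 (us.map (· % A.n) ++ ys))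
    push Not at h1
    rw [h1]
    refine exists_congr fun z => and_congr_right fun _ => ?_
    rw [mtB_true]
    refine exists_congr fun qs => and_congr_right fun _ => and_congr_right fun _ =>
      and_congr_right fun _ => ?_
    exact relB_iff hus
  · obtain rfl : e = false := by
      cases e with
      | false => rfl
      | true => exact absurd (he.1 rfl) hr
    rw [if_neg hr, if_neg hr,
      forall_one_cell (fun z => mtB false A (r + 2) k g b V d us z = true),
      h.tuples (n := A.n) hg hk fun ys => A.R 0 (us.map (· % A.n) ++ ys)]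
    refine forall_congr' fun z => forall_congr' fun _ => ?_
    rw [mtB_false]
    refine forall_congr' fun qs => forall_congr' fun _ => forall_congr' fun _ =>
      forall_congr' fun _ => ?_
    exact relB_iff hus

end

end Pool.Agent.EWH
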