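import Pool.Agent.EWH.BlockF

/-!
# The block reduction
-/

set_option autoImplicit false

namespace Pool.Agent.EWH

open Turing Pool.Agent.TM2Lib

/-- constraints (if the first number is odd) or the main test -/
def tstB (e : Bool) (A : Str) (t k g b V d : ℕ) (us cs : List ℕ) : Bool :=
  if us.headD 0 % 2 = 1 then
    if e then conEB A.n k g b V d (us.headD 0 / 2) (cs.getD 0 0)
    else conUB A.n k g b V d (us.headD 0 / 2) (us.getD 1 0) (cs.getD 0 0)
  else mtB e A t k g b V d (us.map fun u => u / 2) (cs.getD 0 0)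

theorem full_iffB {A : Str} {r k g b V d N : ℕ} (hb : 0 < b) (hV : 0 < V)
    (hN : (d + 1) * (b ^ d * V) ≤ N) (e : Bool)
    (he : e = true ↔ Even r) {Z : Finset ℕ} (hZ : Z.card = b ^ d) :
    (Pre (2 * N) (r + 2) true fun us => if Even r then
      ∃ cs : List ℕ, cs.length = 1 ∧ (∀ c' ∈ cs, c' ∈ Z) ∧
        tstB e A (r + 2) k g b V d us cs = true
      else ∀ cs : List ℕ, cs.length = 1 → (∀ c' ∈ cs, c' ∈ Z) →
        tstB e A (r + 2) k g b V d us cs = true) ↔
    IsBlk A.n k g b V d Z ∧ Pre N (r + 2) true fun us => if Even r then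
      ∃ cs : List ℕ, cs.length = 1 ∧ (∀ c' ∈ cs, c' ∈ Z) ∧
        mtB e A (r + 2) k g b V d us (cs.getD 0 0) = true
      else ∀ cs : List ℕ, cs.length = 1 → (∀ c' ∈ cs, c' ∈ Z) →
        mtB e A (r + 2) k g b V d us (cs.getD 0 0) = true := by
  have hB : 0 < b ^ d := Nat.pow_pos hb
  have hNpos : 0 < N := lt_of_lt_of_le (by positivity) hN
  have hN1 : (d + 1) * b ^ d ≤ N := by
    refine le_trans (Nat.mul_le_mul_left _ ?_) hN
    exact Nat.le_mul_of_pos_right _ hV
  have hN2 : V ≤ 2 * N := by
    have h1 : V ≤ (d + 1) * (b ^ d * V) :=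
      (Nat.le_mul_of_pos_left V hB).trans (Nat.le_mul_of_pos_left _ (by omega))
    omega
  have hsplit := Pre.split (N := N) (t := r + 1)
    (fun l => if Even r then ∃ y ∈ Z, conEB A.n k g b V d (l.headD 0) y = true
      else ∀ y ∈ Z, conUB A.n k g b V d (l.headD 0) (l.getD 1 0) y = true)
    (fun us => if Even r then
      ∃ cs : List ℕ, cs.length = 1 ∧ (∀ c' ∈ cs, c' ∈ Z) ∧
        mtB e A (r + 2) k g b V d us (cs.getD 0 0) = true
      else ∀ cs : List ℕ, cs.length = 1 → (∀ c' ∈ cs, c' ∈ Z) →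
        mtB e A (r + 2) k g b V d us (cs.getD 0 0) = true)
  refine Iff.trans (Pre.congr fun us hus _ => ?_) (hsplit.trans (and_congr_left fun _ => ?_))
  · have hg : (us.headD 0 / 2 :: us.tail).getD 1 0 = us.getD 1 0 := by
      cases us with
      | nil => simp at hus
      | cons u l => rfl
    by_cases hu : us.headD 0 % 2 = 1
    · rw [if_pos hu]
      by_cases hr : Even r
      · obtain rfl : e = true := he.2 hr
        rw [if_pos hr, if_pos hr]
        have h1 : ∀ cs, tstB true A (r + 2) k g b V d us cs =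
            conEB A.n k g b V d (us.headD 0 / 2) (cs.getD 0 0) := fun cs => by
          unfold tstB; rw [if_pos hu, if_pos rfl]
        simp only [h1]
        exact exists_one_cell fun y => conEB A.n k g b V d (us.headD 0 / 2) y = true
      · obtain rfl : e = false := by
          cases e with
          | false => rfl
          | true => exact absurd (he.1 rfl) hr
        rw [if_neg hr, if_neg hr]
        have h1 : ∀ cs, tstB false A (r + 2) k g b V d us cs =
            conUB A.n k g b V d (us.headD 0 / 2) (us.getD 1 0) (cs.getD 0 0) := fun cs => by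
          unfold tstB; rw [if_pos hu, if_neg (by simp)]
        simp only [h1]
        rw [hg]
        exact forall_one_cell fun y =>
          conUB A.n k g b V d (us.headD 0 / 2) (us.getD 1 0) y = true
    · rw [if_neg hu]
      have h1 : ∀ cs, tstB e A (r + 2) k g b V d us cs =
          mtB e A (r + 2) k g b V d (us.map fun u => u / 2) (cs.getD 0 0) :=
        fun cs => by unfold tstB; rw [if_neg hu]
      simp only [h1]
  · by_cases hr : Even r
    · simp only [if_pos hr, List.headD_cons]
      rw [← conEB_iff hb hV hN hZ]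
      refine forall_congr' fun z => forall_congr' fun _ => ?_
      exact Pre.const (by omega) _ _ _
    · simp only [if_neg hr, List.headD_cons]
      rw [← conUB_iff (N' := 2 * N) hb hV hN1 hN2 hZ]
      refine forall_congr' fun z => forall_congr' fun _ => ?_
      rw [pre_false]
      refine exists_congr fun v => and_congr_right fun _ => ?_
      simp only [List.getD_cons_succ, List.getD_cons_zero]
      exact Pre.const (by omega) _ _ _

/-- enumeration of a set -/
theorem exists_enum {n k : ℕ} (hn : 0 < n) {S : Finset ℕ} (h1 : S ⊆ Finset.range n)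
    (h2 : S.card = k) : ∃ c : ℕ → ℕ, (∀ i, c i < n) ∧ S = (Finset.range k).image c := by
  subst h2
  refine ⟨fun i => (S.sort (· ≤ ·)).getD i 0, fun i => ?_, ?_⟩
  · by_cases hi : i < (S.sort (· ≤ ·)).length
    · have h3 := getD_mem hi
      rw [Finset.mem_sort] at h3
      exact Finset.mem_range.1 (h1 h3)
    · simp only
      rw [List.getD_eq_default _ _ (by omega)]
      exact hn
  · ext y
    rw [Finset.mem_image]
    constructor
    · intro hy
      rw [← Finset.mem_sort (· ≤ ·)] at hy
      obtain ⟨i, hi, e⟩ := List.mem_iff_getElem.1 hy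
      rw [Finset.length_sort] at hi
      refine ⟨i, Finset.mem_range.2 hi, ?_⟩
      rw [List.getD_eq_getElem _ _ (by rw [Finset.length_sort]; exact hi), e]
    · rintro ⟨i, hi, rfl⟩
      rw [← Finset.mem_sort (· ≤ ·)]
      exact getD_mem (by rw [Finset.length_sort]; exact Finset.mem_range.1 hi)

theorem cc_en {n g : ℕ} {c : ℕ → ℕ} (hg : 0 < g) (hc : ∀ i, c i < n) (i : ℕ) :
    cc n g (fun j => en n g fun q => c (j * g + q)) i = c i := by
  unfold cc
  rw [dg_en (fun q _ => hc _) (Nat.mod_lt _ hg), Nat.mul_comm, Nat.div_add_mod]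

theorem blk_yes {r d : ℕ} (hd : 2 ≤ d) (A : Str) (k : Un) {g b V N : ℕ} (hg : 0 < g) (hb : 0 < b)
    (hk : k.n ≤ b * g) (hV : A.n ^ g ≤ V) (hN1 : A.n ≤ N) (hN2 : (d + 1) * (b ^ d * V) ≤ N)
    (hN3 : b ^ d * V ^ d ≤ 2 * N) (hNpos : 0 < 2 * N) (e : Bool) (he : e = true ↔ Even r) :
    (WD (canon (t := r + 2) (Nat.succ_pos _) d)).yes (A, k) ↔
      (WD (canon (t := r + 2) (Nat.succ_pos _) 1)).yes
      (mkStr (2 * N) hNpos (r + 2 + 1) (fun l =>
        tstB e A (r + 2) k.n g b V d (nums (takeL (r + 2) l)) (nums (l.drop (r + 2)))),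
        ⟨b ^ d⟩) := by
  have hn := A.pos
  have hV0 : 0 < V := lt_of_lt_of_le (Nat.pow_pos hn) hV
  rw [canon_yes, canon_yes]
  -- the main part
  have hmain : ∀ (β : ℕ → ℕ) (Z : Finset ℕ), Rpr b V d β Z →
      ((Pre N (r + 2) true fun us => if Even r then
        ∃ cs : List ℕ, cs.length = 1 ∧ (∀ c' ∈ cs, c' ∈ Z) ∧
          mtB e A (r + 2) k.n g b V d us (cs.getD 0 0) = true
        else ∀ cs : List ℕ, cs.length = 1 → (∀ c' ∈ cs, c' ∈ Z) →
          mtB e A (r + 2) k.n g b V d us (cs.getD 0 0) = true) ↔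
      CanonSat (r + 2) d A.n ((Finset.range k.n).image (cc A.n g β)) (A.R 0)) := by
    intro β Z hr
    unfold CanonSat
    rw [← Pre.map (N := N) (N' := A.n) (h := fun u => u % A.n) (fun u _ => Nat.mod_lt _ hn)
      (fun u hu => ⟨u, lt_of_lt_of_le hu hN1, Nat.mod_eq_of_lt hu⟩)]
    exact Pre.congr fun us hus _ => hr.main_iff hg hk e he hus
  have hcard : ∀ {c : ℕ → ℕ}, ((Finset.range k.n).image c).card = k.n ↔
      ∀ i < k.n, ∀ i' < k.n, c i = c i' → i = i' := by
    intro c
    constructor
    · intro h i hi i' hi' e'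
      have h1 := Finset.card_image_iff.1 (h.trans (Finset.card_range k.n).symm)
      exact h1 (by simpa using hi) (by simpa using hi') e'
    · intro h
      rw [Finset.card_image_of_injOn, Finset.card_range]
      intro i hi i' hi' e'
      exact h i (by simpa using hi) i' (by simpa using hi') e'
  constructor
  · rintro ⟨S, hS1, hS2, hsat⟩
    obtain ⟨c, hc1, hc2⟩ := exists_enum hn hS1 hS2
    set β : ℕ → ℕ := fun j => en A.n g fun q => c (j * g + q) with hβ
    have hβV : ∀ i, β i < V := fun i => lt_of_lt_of_le (en_lt fun q _ => hc1 _) hV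
    have hcc : cc A.n g β = c := funext fun i => cc_en hg hc1 i
    have hr := scells_rpr (b := b) (d := d) hβV
    have hinj := (hr.inj_iff (n := A.n) hg hd hk).2 (by
      rw [hcc]
      exact hcard.1 (by rw [← hc2]; exact hS2))
    have hsub : scells b V d β ⊆ Finset.range (2 * N) := fun z hz =>
      Finset.mem_range.2 (lt_of_lt_of_le (scells_lt hβV hz) hN3)
    refine ⟨scells b V d β, hsub, scells_card, ?_⟩
    refine (canon_mk hNpos _ hsub).2 ?_
    refine (full_iffB hb hV0 hN2 e he scells_card).2 ⟨scells_blk hb hβV hinj, ?_⟩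
    refine (hmain β _ hr).2 ?_
    rw [hcc, ← hc2]
    exact hsat
  · rintro ⟨Z, hsub, hZ, hsat⟩
    have h1 := (canon_mk hNpos _ hsub).1 hsat
    obtain ⟨hblk, h2⟩ := (full_iffB hb hV0 hN2 e he hZ).1 h1
    obtain ⟨β, hr⟩ := hblk.rpr hb hZ
    have hinj := (hr.inj_iff (n := A.n) hg hd hk).1 fun z hz => (gdB_iff.1 (hblk.gd z hz)).2
    refine ⟨_, ?_, hcard.2 hinj, (hmain β Z hr).1 h2⟩
    intro y hy
    rw [Finset.mem_image] at hy
    obtain ⟨i, _, rfl⟩ := hy
    exact Finset.mem_range.2 (dg_lt hn _ _)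

end Pool.Agent.EWH
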