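import Pool.Agent.EWH.BlockG

/-!
# The block reduction: computation
-/

set_option autoImplicit false

namespace Pool.Agent.EWH

open Turing Pool.Agent.TM2Lib

section

variable {α : Type} [Enc α]

theorem u_cI {b g z : α → ℕ} (hb : UPoly b) (hg : UPoly g) (d : ℕ) (hz : UPoly z)
    {qs : α → List Un} (hqs : Poly qs) (p : ℕ) :
    UPoly (fun a => cI (b a) (g a) d (z a) (nums (qs a)) p) :=
  ((u_dg hb (hz.mod (u_pow hb d)) (UPoly.const p)).mul hg).add (u_getD hqs p)

theorem u_cp {b V z p : α → ℕ} (hb : UPoly b) (hV : UPoly V) (d : ℕ) (hz : UPoly z)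
    (hp : UPoly p) : UPoly (fun a => cp (b a) (V a) d (z a) (p a)) :=
  u_dg hV (hz.div (u_pow hb d)) hp

theorem u_cD {n b V z : α → ℕ} (hn : UPoly n) (hb : UPoly b) (hV : UPoly V) (d : ℕ) (hz : UPoly z)
    {qs : α → List Un} (hqs : Poly qs) (p : ℕ) :
    UPoly (fun a => cD (n a) (b a) (V a) d (z a) (nums (qs a)) p) :=
  u_dg hn (u_cp hb hV d hz (UPoly.const p)) (u_getD hqs p)

theorem p_allQ {g : α → ℕ} (hg : UPoly g) (d : ℕ) {F : α → List ℕ → Bool}
    (hF : Poly (fun p : α × List Un => F p.1 (nums p.2))) :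
    Poly (fun a => allQ (g a) d (F a)) :=
  Poly.all (h := fun p : α × List Un => F p.1 (nums p.2)) (p_allL hg d) hF

theorem p_injQ {n k g b V z : α → ℕ} (hn : UPoly n) (hk : UPoly k) (hg : UPoly g) (hb : UPoly b)
    (hV : UPoly V) (d : ℕ) (hz : UPoly z) {qs : α → List Un} (hqs : Poly qs) :
    Poly (fun a => injQ (n a) (k a) (g a) (b a) (V a) d (z a) (nums (qs a))) :=
  p_all_const _ fun p => p_all_const _ fun p' =>
    ((((u_cI hb hg d hz hqs p).lt hk).not.or ((u_cI hb hg d hz hqs p').lt hk).not).or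
      ((u_cD hn hb hV d hz hqs p).eq (u_cD hn hb hV d hz hqs p')).not).or
      ((u_cI hb hg d hz hqs p).eq (u_cI hb hg d hz hqs p'))

theorem p_gdB {n k g b V z : α → ℕ} (hn : UPoly n) (hk : UPoly k) (hg : UPoly g) (hb : UPoly b)
    (hV : UPoly V) (d : ℕ) (hz : UPoly z) :
    Poly (fun a => gdB (n a) (k a) (g a) (b a) (V a) d (z a)) :=
  (hz.lt ((u_pow hb d).mul (u_pow hV d))).and
    (p_allQ (F := fun a => injQ (n a) (k a) (g a) (b a) (V a) d (z a)) hg d
      (p_injQ (hn.comp Poly.fst) (hk.comp Poly.fst) (hg.comp Poly.fst) (hb.comp Poly.fst)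
        (hV.comp Poly.fst) d (hz.comp Poly.fst) Poly.snd))

theorem u_dgn {b x p : α → ℕ} (hb : UPoly b) (hx : UPoly x) (hp : UPoly p) (d : ℕ) :
    UPoly (fun a => dgn (b a) d (dg (b a) (x a) (p a))) :=
  u_sum (Finset.range d) fun i => (u_dg hb hx hp).mul (u_pow hb i)

theorem p_conEB {n k g b V u z : α → ℕ} (hn : UPoly n) (hk : UPoly k) (hg : UPoly g)
    (hb : UPoly b) (hV : UPoly V) (d : ℕ) (hu : UPoly u) (hz : UPoly z) :
    Poly (fun a => conEB (n a) (k a) (g a) (b a) (V a) d (u a) (z a)) := by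
  have hm := hu.mod (UPoly.const (d + 1))
  have hdv := hu.div (UPoly.const (d + 1))
  have hB := u_pow hb d
  have h1 := TM2Lib.Poly.ite (hm.eq (UPoly.const d))
    (((hz.mod hB).eq (hdv.mod hB)).and (p_gdB hn hk hg hb hV d hz))
    ((((hz.mod hB).eq (hdv.mod hB)).and ((u_cp hb hV d hz hm).eq (hdv.div hB)).not).or
      (((hz.mod hB).eq (u_dgn hb (hdv.mod hB) hm d)).and
        ((u_cp hb hV d hz (UPoly.const 0)).eq (hdv.div hB))))
  refine h1.of_eq fun a => ?_
  unfold conEB
  by_cases h : u a % (d + 1) = d <;> simp [h]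

theorem p_conUB {n k g b V u v z : α → ℕ} (hn : UPoly n) (hk : UPoly k) (hg : UPoly g)
    (hb : UPoly b) (hV : UPoly V) (d : ℕ) (hu : UPoly u) (hv : UPoly v) (hz : UPoly z) :
    Poly (fun a => conUB (n a) (k a) (g a) (b a) (V a) d (u a) (v a) (z a)) := by
  have hm := hu.mod (UPoly.const (d + 1))
  have hdv := hu.div (UPoly.const (d + 1))
  have hB := u_pow hb d
  have h1 := TM2Lib.Poly.ite (hm.eq (UPoly.const d))
    (((hz.mod hB).eq (hdv.mod hB)).not.or (p_gdB hn hk hg hb hV d hz))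
    ((((hz.mod hB).eq (hdv.mod hB)).not.or ((u_cp hb hV d hz hm).eq hv)).and
      (((hz.mod hB).eq (u_dgn hb (hdv.mod hB) hm d)).not.or
        ((u_cp hb hV d hz (UPoly.const 0)).eq hv)))
  refine h1.of_eq fun a => ?_
  unfold conUB
  by_cases h : u a % (d + 1) = d <;> simp [h]

theorem p_relB {A : α → Str} (hA : Poly A) (t : ℕ) {b V z : α → ℕ} (hb : UPoly b) (hV : UPoly V)
    (d : ℕ) (hz : UPoly z) {us qs : α → List Un} (hus : Poly us) (hqs : Poly qs) :
    Poly (fun a => relB (A a) t (b a) (V a) d (z a) (nums (us a)) (nums (qs a))) := by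
  have hn : UPoly (fun a => (A a).n) := (Poly.strData hA).fst'
  have h1 : Poly (fun a => (A a).rels.getD 0 []) :=
    Poly.getD (Poly.strData hA).snd' (UPoly.const 0) (p_const [])
  have h2 : ∀ x : ℕ, UPoly (fun a => if x < t then (nums (us a)).getD x 0 % (A a).n else
      cD (A a).n (b a) (V a) d (z a) (nums (qs a)) (x - t)) := by
    intro x
    by_cases h : x < t
    · simp only [if_pos h]
      exact (u_getD hus x).mod hn
    · simp only [if_neg h]
      exact u_cD hn hb hV d hz hqs (x - t)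
  exact Poly.any (h := fun p : α × List Un => eqL ((List.range (t + d)).map fun x =>
    if x < t then (nums (us p.1)).getD x 0 % (A p.1).n else
      cD (A p.1).n (b p.1) (V p.1) d (z p.1) (nums (qs p.1)) (x - t)) p.2) h1
    (p_eqL (α := α × List Un) (e := fun p x => if x < t then (nums (us p.1)).getD x 0 % (A p.1).n
      else cD (A p.1).n (b p.1) (V p.1) d (z p.1) (nums (qs p.1)) (x - t))
      (fun x => (h2 x).comp Poly.fst) (List.range (t + d)) Poly.snd)

theorem p_mtB (e : Bool) {A : α → Str} (hA : Poly A) (t : ℕ) {k g b V z : α → ℕ} (hk : UPoly k)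
    (hg : UPoly g) (hb : UPoly b) (hV : UPoly V) (d : ℕ) (hz : UPoly z) {us : α → List Un}
    (hus : Poly us) :
    Poly (fun a => mtB e (A a) t (k a) (g a) (b a) (V a) d (nums (us a)) (z a)) := by
  have h1 : Poly (fun p : α × List Un => (List.range d).all fun q =>
      decide (cI (b p.1) (g p.1) d (z p.1) (nums p.2) q < k p.1)) :=
    p_all_const _ fun q => (u_cI (hb.comp Poly.fst) (hg.comp Poly.fst) d (hz.comp Poly.fst)
      Poly.snd q).lt (hk.comp Poly.fst)
  have h2 : Poly (fun p : α × List Un =>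
      relB (A p.1) t (b p.1) (V p.1) d (z p.1) (nums (us p.1)) (nums p.2)) :=
    p_relB (hA.comp Poly.fst) t (hb.comp Poly.fst) (hV.comp Poly.fst) d (hz.comp Poly.fst)
      (hus.comp Poly.fst) Poly.snd
  unfold mtB
  cases e with
  | false =>
    simp only [Bool.false_xor]
    exact p_allQ (F := fun a qs => !((List.range d).all fun p =>
      decide (cI (b a) (g a) d (z a) qs p < k a)) ||
        relB (A a) t (b a) (V a) d (z a) (nums (us a)) qs) hg d (h1.not.or h2)
  | true =>
    simp only [Bool.true_xor]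
    exact (p_allQ (F := fun a qs => !((List.range d).all fun p =>
      decide (cI (b a) (g a) d (z a) qs p < k a)) ||
        !relB (A a) t (b a) (V a) d (z a) (nums (us a)) qs) hg d (h1.not.or h2.not)).not

theorem p_tstB (e : Bool) {A : α → Str} (hA : Poly A) (t : ℕ) {k g b V : α → ℕ} (hk : UPoly k)
    (hg : UPoly g) (hb : UPoly b) (hV : UPoly V) (d : ℕ) {us cs : α → List Un}
    (hus : Poly us) (hcs : Poly cs) :
    Poly (fun a => tstB e (A a) t (k a) (g a) (b a) (V a) d (nums (us a)) (nums (cs a))) := by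
  have hn : UPoly (fun a => (A a).n) := (Poly.strData hA).fst'
  have hh : UPoly (fun a => (nums (us a)).headD 0) := (u_getD hus 0).of_eq fun a => by
    rw [headD_eq]
  have hu := hh.div (UPoly.const 2)
  have hz := u_getD hcs 0
  have hus2 : Poly (fun a => (us a).map fun u : Un => (⟨u.n / 2⟩ : Un)) :=
    p_map (h := fun p : α × Un => (⟨p.2.n / 2⟩ : Un)) hus ((UPoly.n.comp Poly.snd).div (UPoly.const 2))
  have hmt := p_mtB e hA t hk hg hb hV d hz hus2
  have h4 := TM2Lib.Poly.ite ((hh.mod (UPoly.const 2)).eq (UPoly.const 1))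
    (TM2Lib.Poly.ite (p_const e) (p_conEB hn hk hg hb hV d hu hz)
      (p_conUB hn hk hg hb hV d hu (u_getD hus 1) hz)) hmt
  refine h4.of_eq fun a => ?_
  have hm : nums ((us a).map fun u : Un => (⟨u.n / 2⟩ : Un)) = (nums (us a)).map fun u => u / 2 :=
    nums_map (us a) fun u => u / 2
  rw [hm]
  unfold tstB
  by_cases h : (nums (us a)).headD 0 % 2 = 1 <;> simp

end

end Pool.Agent.EWH
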