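import Pool.Agent.EWH.NF

/-!
# The reduction with a general main test
-/

set_option autoImplicit false

namespace Pool.Agent.EWH

open Turing Pool.Agent.TM2Lib

/-- constraints (if the first number is odd) or the main test -/
def tstG (e : Bool) (k m : ℕ) (mt : List ℕ → List ℕ → Bool) (us cs : List ℕ) : Bool :=
  if us.headD 0 % 2 = 1 then
    if e then conE k m (us.headD 0 / 2) (cs.getD 0 0)
    else conU k m (us.headD 0 / 2) (us.getD 1 0) (cs.getD 0 0)
  else mt (us.map fun u => u / 2) cs

theorem full_iffG {r d m : ℕ} (hd : 0 < d) {k N : ℕ} (hN : (k + 1) * (m + 3) ≤ N) (e : Bool)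
    (he : e = true ↔ Even r) (mt : List ℕ → List ℕ → Bool) {Z : Finset ℕ}
    (hZ : Z.card = k + 1) :
    (Pre (2 * N) (r + 2) true fun us => if Even r then
      ∃ cs : List ℕ, cs.length = d ∧ (∀ c' ∈ cs, c' ∈ Z) ∧ tstG e k m mt us cs = true
      else ∀ cs : List ℕ, cs.length = d → (∀ c' ∈ cs, c' ∈ Z) → tstG e k m mt us cs = true) ↔
    IsCells k m Z ∧ Pre N (r + 2) true fun us => if Even r then
      ∃ cs : List ℕ, cs.length = d ∧ (∀ c' ∈ cs, c' ∈ Z) ∧ mt us cs = true
      else ∀ cs : List ℕ, cs.length = d → (∀ c' ∈ cs, c' ∈ Z) → mt us cs = true := by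
  have hNpos : 0 < N := lt_of_lt_of_le (by positivity) hN
  have hsplit := Pre.split (N := N) (t := r + 1)
    (fun l => if Even r then ∃ y ∈ Z, conE k m (l.headD 0) y = true
      else ∀ y ∈ Z, conU k m (l.headD 0) (l.getD 1 0) y = true)
    (fun us => if Even r then
      ∃ cs : List ℕ, cs.length = d ∧ (∀ c' ∈ cs, c' ∈ Z) ∧ mt us cs = true
      else ∀ cs : List ℕ, cs.length = d → (∀ c' ∈ cs, c' ∈ Z) → mt us cs = true)
  refine Iff.trans (Pre.congr fun us hus _ => ?_) (hsplit.trans (and_congr_left fun _ => ?_))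
  · have hg : (us.headD 0 / 2 :: us.tail).getD 1 0 = us.getD 1 0 := by
      cases us with
      | nil => simp at hus
      | cons u l => rfl
    by_cases hu : us.headD 0 % 2 = 1
    · rw [if_pos hu]
      by_cases hr : Even r
      · obtain rfl : e = true := he.2 hr
        rw [if_pos hr, if_pos hr]
        have h1 : ∀ cs, tstG true k m mt us cs =
            conE k m (us.headD 0 / 2) (cs.getD 0 0) := fun cs => by
          unfold tstG; rw [if_pos hu, if_pos rfl]
        simp only [h1]
        exact exists_first hd Z fun y => conE k m (us.headD 0 / 2) y = true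
      · obtain rfl : e = false := by
          cases e with
          | false => rfl
          | true => exact absurd (he.1 rfl) hr
        rw [if_neg hr, if_neg hr]
        have h1 : ∀ cs, tstG false k m mt us cs =
            conU k m (us.headD 0 / 2) (us.getD 1 0) (cs.getD 0 0) := fun cs => by
          unfold tstG; rw [if_pos hu, if_neg (by simp)]
        simp only [h1]
        rw [hg]
        exact forall_first hd Z fun y => conU k m (us.headD 0 / 2) (us.getD 1 0) y = true
    · rw [if_neg hu]
      have h1 : ∀ cs, tstG e k m mt us cs = mt (us.map fun u => u / 2) cs :=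
        fun cs => by unfold tstG; rw [if_neg hu]
      simp only [h1]
  · by_cases hr : Even r
    · simp only [if_pos hr, List.headD_cons]
      rw [← conE_iff hN hZ]
      refine forall_congr' fun z => forall_congr' fun _ => ?_
      exact Pre.const (by omega) _ _ _
    · simp only [if_neg hr, List.headD_cons]
      rw [← conU_iff hN (N' := 2 * N) (by omega) hZ]
      refine forall_congr' fun z => forall_congr' fun _ => ?_
      rw [pre_false]
      refine exists_congr fun v => and_congr_right fun _ => ?_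
      simp only [List.getD_cons_succ, List.getD_cons_zero]
      exact Pre.const (by omega) _ _ _

/-- the meaning of the canonical formula in a structure given by a test -/
theorem canon_mk {r d M : ℕ} (hM : 0 < M) (T : List ℕ → List ℕ → Bool) {Z : Finset ℕ}
    (hZ : Z ⊆ Finset.range M) :
    (CanonSat (r + 2) d M Z ((mkStr M hM (r + 2 + d) fun l =>
        T (nums (takeL (r + 2) l)) (nums (l.drop (r + 2)))).R 0) ↔
      Pre M (r + 2) true fun us => if Even r then
        ∃ cs : List ℕ, cs.length = d ∧ (∀ c' ∈ cs, c' ∈ Z) ∧ T us cs = true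
        else ∀ cs : List ℕ, cs.length = d → (∀ c' ∈ cs, c' ∈ Z) → T us cs = true) := by
  have heven : Even (r + 2) ↔ Even r := by
    rw [Nat.even_add]; simp
  unfold CanonSat
  refine Pre.congr fun us hus hus' => ?_
  have h1 : ∀ cs : List ℕ, cs.length = d → (∀ c' ∈ cs, c' ∈ Z) →
      ((mkStr M hM (r + 2 + d) fun l =>
        T (nums (takeL (r + 2) l)) (nums (l.drop (r + 2)))).R 0 (us ++ cs) ↔
          T us cs = true) := by
    intro cs hcs hcs'
    rw [mkStr_R]
    have h2 : takeL (r + 2) ((us ++ cs).map Un.mk) = us.map Un.mk := by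
      rw [← hus]; exact takeL_append
    have h3 : ((us ++ cs).map Un.mk).drop (r + 2) = cs.map Un.mk := by
      rw [← List.map_drop, ← hus, List.drop_left]
    rw [h2, h3, nums_mk, nums_mk]
    refine and_iff_right ⟨by simp [hus, hcs], fun u hu => ?_⟩
    rw [List.mem_append] at hu
    rcases hu with hu | hu
    · exact hus' u hu
    · exact Finset.mem_range.1 (hZ (hcs' u hu))
  rw [if_congr heven rfl rfl]
  by_cases hr : Even r
  · rw [if_pos hr, if_pos hr]
    refine exists_congr fun cs => and_congr_right fun hcs => and_congr_right fun hcs' => ?_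
    exact h1 cs hcs hcs'
  · rw [if_neg hr, if_neg hr]
    refine forall_congr' fun cs => forall_congr' fun hcs => forall_congr' fun hcs' => ?_
    exact h1 cs hcs hcs'

theorem gen_yes {s r d : ℕ} (φ : PiForm s (r + 2)) {L : List (QF s (Fin φ.bs.sum))}
    (hL : Equ φ L) (hd : 0 < d) (e : Bool) (he : e = true ↔ Even r) (A : Str) (k : Un)
    {N N0 : ℕ} (hN3 : (k.n + 1) * (A.n ^ s + 3) ≤ N)
    (hN4 : (k.n + 1) * ((A.n ^ s + 2) * (A.n ^ s + 2)) ≤ 2 * N) (hbs : ∀ b ∈ φ.bs, A.n ^ b ≤ N0)
    (hNpos : 0 < 2 * N) (mt : List ℕ → List ℕ → Bool)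
    (hmain : ∀ (c : ℕ → ℕ) (S : Finset ℕ), Chain (A.n ^ s) k.n c → S.card = k.n →
      Rep k.n c S →
      ((Pre N (r + 2) true fun us => if Even r then
        ∃ cs : List ℕ, cs.length = d ∧ (∀ c' ∈ cs, c' ∈ cells k.n (A.n ^ s) c) ∧ mt us cs = true
        else ∀ cs : List ℕ, cs.length = d → (∀ c' ∈ cs, c' ∈ cells k.n (A.n ^ s) c) →
          mt us cs = true) ↔
      Pre N0 (r + 2) true fun us => MatOk φ L A us
        ((ws φ.bs (L.flatMap QF.atoms) A.n us).map fun w => decide (w ∈ S)))) :
    (WD φ).yes (A, k) ↔ (WD (canon (t := r + 2) (Nat.succ_pos _) d)).yes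
      (mkStr (2 * N) hNpos (r + 2 + d) (fun l =>
        tstG e k.n (A.n ^ s) mt (nums (takeL (r + 2) l)) (nums (l.drop (r + 2)))),
        ⟨k.n + 1⟩) := by
  rw [wd_yes φ hL A k hbs, canon_yes]
  constructor
  · rintro ⟨S, hS1, hS2, hyes⟩
    obtain ⟨c, h, hS⟩ := chain_of_set hS1 hS2
    have hsub : cells k.n (A.n ^ s) c ⊆ Finset.range (2 * N) := by
      intro y hy
      exact Finset.mem_range.2 (lt_of_lt_of_le (cells_lt h hy) hN4)
    refine ⟨cells k.n (A.n ^ s) c, hsub, cells_card, ?_⟩
    refine (canon_mk hNpos _ hsub).2 ?_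
    exact (full_iffG hd hN3 e he mt cells_card).2 ⟨cells_isCells h, (hmain c S h hS2 hS).2 hyes⟩
  · rintro ⟨Z, hsub, hcard, hsat⟩
    have h1 := (canon_mk hNpos _ hsub).1 hsat
    obtain ⟨hcells, h2⟩ := (full_iffG hd hN3 e he mt hcard).1 h1
    obtain ⟨c, h, rfl⟩ := hcells.exists_chain
    obtain ⟨S, hS1, hS2, hS⟩ := set_of_chain h
    exact ⟨S, hS1, hS2, (hmain c S h hS2 hS).1 h2⟩

/-- computation of the test -/
theorem p_tstG {α : Type} [Enc α] (e : Bool) {k m : α → ℕ} (hk : UPoly k) (hm : UPoly m)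
    {mt : α → List ℕ → List ℕ → Bool} {us cs : α → List Un} (hus : Poly us) (hcs : Poly cs)
    (hmt : Poly (fun a => mt a ((nums (us a)).map fun u => u / 2) (nums (cs a)))) :
    Poly (fun a => tstG e (k a) (m a) (mt a) (nums (us a)) (nums (cs a))) := by
  have hh : UPoly (fun a => (nums (us a)).headD 0) := (u_getD hus 0).of_eq fun a => by
    rw [headD_eq]
  have hz := hh.div (UPoly.const 2)
  have h4 := TM2Lib.Poly.ite ((hh.mod (UPoly.const 2)).eq (UPoly.const 1))
    (TM2Lib.Poly.ite (p_const e) (p_conE hk hm hz (u_getD hcs 0))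
      (p_conU hk hm hz (u_getD hus 1) (u_getD hcs 0))) hmt
  refine h4.of_eq fun a => ?_
  unfold tstG
  by_cases h : (nums (us a)).headD 0 % 2 = 1 <;> simp

end Pool.Agent.EWH
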