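import Pool.Agent.EWH.Digits
import Pool.Agent.EWH.Gen

/-!
# Blocks and supercells

A set of `k` numbers below `n` is divided into `b` blocks of `g` numbers; a block is coded by a number
below `V` (with `n ^ g ≤ V`). A supercell is a number `j + b ^ d * w`: its index `j < b ^ d` is a
`d`-tuple of numbers of blocks, `w < V ^ d` is the `d`-tuple of the codes of these blocks.
-/

set_option autoImplicit false

namespace Pool.Agent.EWH

open Turing Pool.Agent.TM2Lib

/-- component number `p` of a supercell -/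
def cp (b V d z p : ℕ) : ℕ := dg V (z / b ^ d) p

/-- the index all of whose digits are `i` -/
def dgn (b d i : ℕ) : ℕ := en b d fun _ => i

/-- the number of the element of the set which is the element number `qs p` of the component `p` -/
def cI (b g d z : ℕ) (qs : List ℕ) (p : ℕ) : ℕ := dg b (z % b ^ d) p * g + qs.getD p 0

/-- this element -/
def cD (n b V d z : ℕ) (qs : List ℕ) (p : ℕ) : ℕ := dg n (cp b V d z p) (qs.getD p 0)

/-- a condition for each choice of elements in the components -/
def allQ (g d : ℕ) (F : List ℕ → Bool) : Bool := (allL g d).all fun l => F (nums l)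

theorem allQ_iff {g d : ℕ} {F : List ℕ → Bool} : allQ g d F = true ↔
    ∀ qs : List ℕ, qs.length = d → (∀ q ∈ qs, q < g) → F qs = true := by
  unfold allQ
  rw [List.all_eq_true]
  constructor
  · intro h qs h1 h2
    have h3 := h (qs.map Un.mk) (mem_allL.2 ⟨by simpa using h1, by
      intro u hu
      rw [List.mem_map] at hu
      obtain ⟨q, hq, rfl⟩ := hu
      exact h2 q hq⟩)
    rwa [nums_mk] at h3
  · intro h l hl
    obtain ⟨h1, h2⟩ := mem_allL.1 hl
    refine h _ (by simpa [nums] using h1) fun q hq => ?_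
    unfold nums at hq
    rw [List.mem_map] at hq
    obtain ⟨u, hu, rfl⟩ := hq
    exact h2 u hu

/-- the elements are different -/
def injQ (n k g b V d z : ℕ) (qs : List ℕ) : Bool :=
  (List.range d).all fun p => (List.range d).all fun p' =>
    !(decide (cI b g d z qs p < k)) || !(decide (cI b g d z qs p' < k)) ||
      !(decide (cD n b V d z qs p = cD n b V d z qs p')) ||
      decide (cI b g d z qs p = cI b g d z qs p')

theorem injQ_iff {n k g b V d z : ℕ} {qs : List ℕ} : injQ n k g b V d z qs = true ↔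
    ∀ p < d, ∀ p' < d, cI b g d z qs p < k → cI b g d z qs p' < k →
      cD n b V d z qs p = cD n b V d z qs p' → cI b g d z qs p = cI b g d z qs p' := by
  unfold injQ
  simp only [List.all_eq_true, List.mem_range, Bool.or_eq_true, Bool.not_eq_true',
    decide_eq_true_eq, decide_eq_false_iff_not]
  refine forall_congr' fun p => forall_congr' fun _ => forall_congr' fun p' =>
    forall_congr' fun _ => ?_
  tauto

/-- good supercells -/
def gdB (n k g b V d z : ℕ) : Bool :=
  decide (z < b ^ d * V ^ d) && allQ g d (injQ n k g b V d z)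

theorem gdB_iff {n k g b V d z : ℕ} : gdB n k g b V d z = true ↔ z < b ^ d * V ^ d ∧
    ∀ qs : List ℕ, qs.length = d → (∀ q ∈ qs, q < g) → injQ n k g b V d z qs = true := by
  unfold gdB
  rw [Bool.and_eq_true, decide_eq_true_eq, allQ_iff]

/-- sets of supercells which code a set -/
structure IsBlk (n k g b V d : ℕ) (Z : Finset ℕ) : Prop where
  gd : ∀ z ∈ Z, gdB n k g b V d z = true
  uniq : ∀ z ∈ Z, ∀ z' ∈ Z, z % b ^ d = z' % b ^ d → z = z'
  comp : ∀ z ∈ Z, ∀ z' ∈ Z, ∀ p < d, z' % b ^ d = dgn b d (dg b (z % b ^ d) p) →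
    cp b V d z p = cp b V d z' 0

section

variable {n k g b V d : ℕ}

theorem dgn_lt (hb : 0 < b) (x p : ℕ) : dgn b d (dg b x p) < b ^ d :=
  en_lt fun _ _ => dg_lt hb x p

/-- all indices occur -/
theorem exists_index {Z : Finset ℕ} (hb : 0 < b) (hZ : Z.card = b ^ d)
    (h : ∀ z ∈ Z, ∀ z' ∈ Z, z % b ^ d = z' % b ^ d → z = z') {j : ℕ} (hj : j < b ^ d) :
    ∃ z ∈ Z, z % b ^ d = j := by
  have hB : 0 < b ^ d := Nat.pow_pos hb
  have h1 : (Z.image (fun z => z % b ^ d)).card = Z.card :=
    Finset.card_image_of_injOn fun z hz z' hz' e => h z hz z' hz' e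
  have h2 : Z.image (fun z => z % b ^ d) ⊆ Finset.range (b ^ d) := by
    intro j hj
    rw [Finset.mem_image] at hj
    obtain ⟨z, _, rfl⟩ := hj
    exact Finset.mem_range.2 (Nat.mod_lt _ hB)
  have h3 := Finset.eq_of_subset_of_card_le h2 (by rw [h1, hZ, Finset.card_range])
  have h4 : j ∈ Z.image (fun z => z % b ^ d) := by rw [h3]; exact Finset.mem_range.2 hj
  rw [Finset.mem_image] at h4
  obtain ⟨z, hz, e⟩ := h4
  exact ⟨z, hz, e⟩

/-- The constraint number `u`, existential form. -/
def conEB (n k g b V d u z : ℕ) : Bool :=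
  if u % (d + 1) = d then decide (z % b ^ d = u / (d + 1) % b ^ d) && gdB n k g b V d z
  else (decide (z % b ^ d = u / (d + 1) % b ^ d) &&
      !decide (cp b V d z (u % (d + 1)) = u / (d + 1) / b ^ d)) ||
    (decide (z % b ^ d = dgn b d (dg b (u / (d + 1) % b ^ d) (u % (d + 1)))) &&
      decide (cp b V d z 0 = u / (d + 1) / b ^ d))

/-- The constraint number `u`, universal form. -/
def conUB (n k g b V d u v z : ℕ) : Bool :=
  if u % (d + 1) = d then !decide (z % b ^ d = u / (d + 1) % b ^ d) || gdB n k g b V d z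
  else (!decide (z % b ^ d = u / (d + 1) % b ^ d) || decide (cp b V d z (u % (d + 1)) = v)) &&
    (!decide (z % b ^ d = dgn b d (dg b (u / (d + 1) % b ^ d) (u % (d + 1)))) ||
      decide (cp b V d z 0 = v))

theorem code_mod {c j κ : ℕ} (hκ : κ ≤ c) : (κ + (c + 1) * j) % (c + 1) = κ := by
  rw [Nat.add_mul_mod_self_left]
  exact Nat.mod_eq_of_lt (by omega)

theorem code_div {c j κ : ℕ} (hκ : κ ≤ c) : (κ + (c + 1) * j) / (c + 1) = j := by
  rw [Nat.add_mul_div_left _ _ (by omega), Nat.div_eq_of_lt (by omega), Nat.zero_add]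

theorem conEB_iff (hb : 0 < b) (hV : 0 < V) {N : ℕ} (hN : (d + 1) * (b ^ d * V) ≤ N)
    {Z : Finset ℕ} (hZ : Z.card = b ^ d) :
    (∀ u < N, ∃ z ∈ Z, conEB n k g b V d u z = true) ↔ IsBlk n k g b V d Z := by
  have hB : 0 < b ^ d := Nat.pow_pos hb
  constructor
  · intro h
    have h1 : ∀ j < b ^ d, ∃ z ∈ Z, z % b ^ d = j ∧ gdB n k g b V d z = true := by
      intro j hj
      have hu : d + (d + 1) * j < N := by
        refine lt_of_lt_of_le ?_ hN
        calc d + (d + 1) * j < (d + 1) * (j + 1) := by rw [mul_add]; omega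
          _ ≤ (d + 1) * (b ^ d * V) := by
            refine Nat.mul_le_mul_left _ ?_
            calc j + 1 ≤ b ^ d * 1 := by omega
              _ ≤ b ^ d * V := Nat.mul_le_mul_left _ hV
      obtain ⟨z, hz, hc⟩ := h _ hu
      unfold conEB at hc
      rw [if_pos (code_mod le_rfl), code_div le_rfl, Nat.mod_eq_of_lt hj, Bool.and_eq_true,
        decide_eq_true_eq] at hc
      exact ⟨z, hz, hc⟩
    have h2 : Finset.range (b ^ d) ⊆
        (Z.filter fun z => gdB n k g b V d z = true).image (fun z => z % b ^ d) := by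
      intro j hj
      obtain ⟨z, hz, h3, h4⟩ := h1 j (Finset.mem_range.1 hj)
      rw [Finset.mem_image]
      exact ⟨z, Finset.mem_filter.2 ⟨hz, h4⟩, h3⟩
    have h3 := Finset.card_le_card h2
    rw [Finset.card_range] at h3
    have h4 := (Finset.card_image_le (s := Z.filter fun z => gdB n k g b V d z = true)
      (f := fun z => z % b ^ d))
    have h5 : (Z.filter fun z => gdB n k g b V d z = true).card ≤ Z.card := Finset.card_filter_le _ _
    have h6 : Z.filter (fun z => gdB n k g b V d z = true) = Z :=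
      Finset.eq_of_subset_of_card_le (Finset.filter_subset _ _) (by omega)
    have hgd : ∀ z ∈ Z, gdB n k g b V d z = true := by
      intro z hz
      rw [← h6] at hz
      exact (Finset.mem_filter.1 hz).2
    have huniq : ∀ z ∈ Z, ∀ z' ∈ Z, z % b ^ d = z' % b ^ d → z = z' := by
      have h7 : (Z.image (fun z => z % b ^ d)).card = Z.card := by
        rw [h6] at h3 h4
        omega
      intro z hz z' hz' ht
      exact (Finset.card_image_iff.1 h7) hz hz' ht
    refine ⟨hgd, huniq, ?_⟩
    intro z hz z' hz' p hp hj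
    set v := cp b V d z p with hv
    have hvV : v < V := dg_lt hV _ _
    have hu : p + (d + 1) * (z % b ^ d + b ^ d * v) < N := by
      refine lt_of_lt_of_le ?_ hN
      have hj' : z % b ^ d < b ^ d := Nat.mod_lt _ hB
      calc p + (d + 1) * (z % b ^ d + b ^ d * v) < (d + 1) * (z % b ^ d + b ^ d * v + 1) := by
            rw [mul_add _ _ 1]; omega
        _ ≤ (d + 1) * (b ^ d * V) := by
          refine Nat.mul_le_mul_left _ ?_
          calc z % b ^ d + b ^ d * v + 1 ≤ b ^ d * (v + 1) := by rw [mul_add]; omega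
            _ ≤ b ^ d * V := Nat.mul_le_mul_left _ hvV
    obtain ⟨x, hx, hc⟩ := h _ hu
    unfold conEB at hc
    rw [if_neg (by rw [code_mod hp.le]; omega), code_mod hp.le, code_div hp.le,
      Nat.add_mul_mod_self_left, Nat.mod_mod, Nat.add_mul_div_left _ _ hB,
      Nat.div_eq_of_lt (Nat.mod_lt _ hB), Nat.zero_add] at hc
    simp only [Bool.or_eq_true, Bool.and_eq_true, Bool.not_eq_true', decide_eq_true_eq,
      decide_eq_false_iff_not] at hc
    rcases hc with ⟨hc1, hc2⟩ | ⟨hc1, hc2⟩
    · rw [huniq x hx z hz hc1] at hc2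
      exact absurd rfl hc2
    · rw [huniq x hx z' hz' (hc1.trans hj.symm)] at hc2
      exact hc2.symm
  · intro h u _
    obtain ⟨z, hz, hzj⟩ := exists_index hb hZ h.uniq (Nat.mod_lt (u / (d + 1)) hB)
    by_cases hκ : u % (d + 1) = d
    · refine ⟨z, hz, ?_⟩
      unfold conEB
      rw [if_pos hκ, Bool.and_eq_true, decide_eq_true_eq]
      exact ⟨hzj, h.gd z hz⟩
    · have hκ' : u % (d + 1) < d := by
        have := Nat.mod_lt u (show 0 < d + 1 by omega)
        omega
      by_cases hv : cp b V d z (u % (d + 1)) = u / (d + 1) / b ^ d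
      · obtain ⟨z', hz', hj'⟩ := exists_index hb hZ h.uniq
          (dgn_lt (d := d) hb (u / (d + 1) % b ^ d) (u % (d + 1)))
        refine ⟨z', hz', ?_⟩
        unfold conEB
        rw [if_neg hκ]
        have := h.comp z hz z' hz' _ hκ' (by rw [hj', hzj])
        simp only [Bool.or_eq_true, Bool.and_eq_true, decide_eq_true_eq]
        exact Or.inr ⟨hj', by rw [← this, hv]⟩
      · refine ⟨z, hz, ?_⟩
        unfold conEB
        rw [if_neg hκ]
        simp only [Bool.or_eq_true, Bool.and_eq_true, Bool.not_eq_true', decide_eq_true_eq,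
          decide_eq_false_iff_not]
        exact Or.inl ⟨hzj, hv⟩

theorem div_lt_of_good {z : ℕ} (h : gdB n k g b V d z = true) : z / b ^ d < V ^ d :=
  Nat.div_lt_of_lt_mul (gdB_iff.1 h).1

theorem conUB_iff (hb : 0 < b) (hV : 0 < V) {N N' : ℕ} (hN : (d + 1) * b ^ d ≤ N) (hN' : V ≤ N')
    {Z : Finset ℕ} (hZ : Z.card = b ^ d) :
    (∀ u < N, ∃ v < N', ∀ z ∈ Z, conUB n k g b V d u v z = true) ↔ IsBlk n k g b V d Z := by
  have hB : 0 < b ^ d := Nat.pow_pos hb
  have hcode : ∀ κ ≤ d, ∀ j < b ^ d, κ + (d + 1) * j < N := by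
    intro κ hκ j hj
    refine lt_of_lt_of_le ?_ hN
    calc κ + (d + 1) * j < (d + 1) * (j + 1) := by rw [mul_add]; omega
      _ ≤ (d + 1) * b ^ d := Nat.mul_le_mul_left _ hj
  constructor
  · intro h
    have hgd : ∀ z ∈ Z, gdB n k g b V d z = true := by
      intro z hz
      have hj := Nat.mod_lt z hB
      obtain ⟨v, _, hc⟩ := h _ (hcode d le_rfl _ hj)
      have := hc z hz
      unfold conUB at this
      rw [if_pos (code_mod le_rfl), code_div le_rfl, Nat.mod_eq_of_lt hj] at this
      simpa using this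
    have hval : ∀ z ∈ Z, ∀ p < d, ∃ v, ∀ x ∈ Z, (x % b ^ d = z % b ^ d → cp b V d x p = v) ∧
        (x % b ^ d = dgn b d (dg b (z % b ^ d) p) → cp b V d x 0 = v) := by
      intro z hz p hp
      have hj := Nat.mod_lt z hB
      obtain ⟨v, _, hc⟩ := h _ (hcode p hp.le _ hj)
      refine ⟨v, fun x hx => ?_⟩
      have := hc x hx
      unfold conUB at this
      rw [if_neg (by rw [code_mod hp.le]; omega), code_mod hp.le, code_div hp.le,
        Nat.mod_eq_of_lt hj] at this
      simp only [Bool.and_eq_true, Bool.or_eq_true, Bool.not_eq_true', decide_eq_true_eq,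
        decide_eq_false_iff_not] at this
      exact ⟨fun e => this.1.resolve_left (fun hne => hne e),
        fun e => this.2.resolve_left (fun hne => hne e)⟩
    refine ⟨hgd, ?_, ?_⟩
    · intro z hz z' hz' he
      have h1 : z / b ^ d = z' / b ^ d := by
        refine dg_ext (div_lt_of_good (hgd z hz)) (div_lt_of_good (hgd z' hz')) fun p hp => ?_
        obtain ⟨v, hv⟩ := hval z hz p hp
        exact ((hv z hz).1 rfl).trans ((hv z' hz').1 he.symm).symm
      rw [← Nat.div_add_mod z (b ^ d), ← Nat.div_add_mod z' (b ^ d), h1, he]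
    · intro z hz z' hz' p hp hj
      obtain ⟨v, hv⟩ := hval z hz p hp
      exact ((hv z hz).1 rfl).trans ((hv z' hz').2 hj).symm
  · intro h u _
    by_cases hκ : u % (d + 1) = d
    · refine ⟨0, by omega, fun z hz => ?_⟩
      unfold conUB
      rw [if_pos hκ, h.gd z hz, Bool.or_true]
    · have hκ' : u % (d + 1) < d := by
        have := Nat.mod_lt u (show 0 < d + 1 by omega)
        omega
      obtain ⟨z, hz, hzj⟩ := exists_index hb hZ h.uniq (Nat.mod_lt (u / (d + 1)) hB)
      refine ⟨cp b V d z (u % (d + 1)), lt_of_lt_of_le (dg_lt hV _ _) hN', fun x hx => ?_⟩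
      unfold conUB
      rw [if_neg hκ]
      simp only [Bool.and_eq_true, Bool.or_eq_true, Bool.not_eq_true', decide_eq_true_eq,
        decide_eq_false_iff_not]
      constructor
      · by_cases e : x % b ^ d = u / (d + 1) % b ^ d
        · right
          rw [h.uniq x hx z hz (e.trans hzj.symm)]
        · exact Or.inl e
      · by_cases e : x % b ^ d = dgn b d (dg b (u / (d + 1) % b ^ d) (u % (d + 1)))
        · right
          exact (h.comp z hz x hx _ hκ' (by rw [e, hzj])).symm
        · exact Or.inl e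

end

end Pool.Agent.EWH
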