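import Pool.Agent.EWH.Red

/-!
# Branching: hitting sets given by words
-/

set_option autoImplicit false

namespace Pool.Agent.EWH

open Turing Pool.Agent.TM2Lib

/-- the list `e` contains an element of `B` -/
def hit (B e : List Un) : Bool := e.any fun w => B.any fun x => decide (x.n = w.n)

/-- One step of the branching: an element of the first edge which is not hit is added to `B`; which
one is determined by the last digit of the word. -/
def stepB (b : ℕ) (H : List (List Un)) (s : Un × List Un) : Un × List Un :=
  lcase s (fun e _ => ((⟨s.1.n / b⟩ : Un), e.getD (s.1.n % b) ⟨0⟩ :: s.2))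
    (H.filter fun e => !hit s.2 e)

/-- the set constructed with the word `ω` in `k` steps -/
def runB (b : ℕ) (H : List (List Un)) (k ω : ℕ) : List Un :=
  ((stepB b H)^[k] (⟨ω⟩, [])).2

theorem hit_iff {B e : List Un} : hit B e = true ↔ ∃ w ∈ e, ∃ x ∈ B, x.n = w.n := by
  unfold hit
  rw [List.any_eq_true]
  refine exists_congr fun w => and_congr_right fun _ => ?_
  rw [List.any_eq_true]
  refine exists_congr fun x => and_congr_right fun _ => ?_
  rw [decide_eq_true_eq]

theorem stepB_done {b : ℕ} {H : List (List Un)} {s : Un × List Un}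
    (h : ∀ e ∈ H, hit s.2 e = true) : stepB b H s = s := by
  unfold stepB
  have : (H.filter fun e => !hit s.2 e) = [] := by
    rw [List.filter_eq_nil_iff]
    intro e he
    rw [h e he]
    simp
  rw [this]
  rfl

theorem iter_done {b : ℕ} {H : List (List Un)} {s : Un × List Un}
    (h : ∀ e ∈ H, hit s.2 e = true) (k : ℕ) : (stepB b H)^[k] s = s := by
  induction k with
  | zero => rfl
  | succ k ih => rw [Function.iterate_succ_apply, stepB_done h, ih]

theorem exists_branch {b : ℕ} (hb : 0 < b) (S : Finset ℕ) (H : List (List Un))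
    (hlen : ∀ e ∈ H, e.length ≤ b) (hS : ∀ e ∈ H, ∃ w ∈ e, w.n ∈ S) : ∀ (k : ℕ) (B : List Un),
    (∀ x ∈ B, x.n ∈ S) → (B.map Un.n).Nodup → S.card ≤ B.length + k →
    ∃ ω < b ^ k, (∀ x ∈ ((stepB b H)^[k] (⟨ω⟩, B)).2, x.n ∈ S) ∧
      ∀ e ∈ H, hit ((stepB b H)^[k] (⟨ω⟩, B)).2 e = true := by
  intro k
  induction k with
  | zero =>
    intro B hB hnd hcard
    refine ⟨0, by simp, hB, fun e he => ?_⟩
    obtain ⟨w, hw, hwS⟩ := hS e he
    have h1 : (B.map Un.n).toFinset = S := by
      apply Finset.eq_of_subset_of_card_le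
      · intro x hx
        rw [List.mem_toFinset, List.mem_map] at hx
        obtain ⟨y, hy, rfl⟩ := hx
        exact hB y hy
      · rw [List.toFinset_card_of_nodup hnd, List.length_map]
        simpa using hcard
    rw [← h1, List.mem_toFinset, List.mem_map] at hwS
    obtain ⟨x, hx, hxw⟩ := hwS
    exact hit_iff.2 ⟨w, hw, x, hx, hxw⟩
  | succ k ih =>
    intro B hB hnd hcard
    by_cases hall : ∀ e ∈ H, hit B e = true
    · refine ⟨0, by positivity, ?_⟩
      rw [iter_done hall]
      exact ⟨hB, hall⟩
    · -- the first edge which is not hit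
      push Not at hall
      obtain ⟨e0, he0, hhit0⟩ := hall
      have hne : (H.filter fun e => !hit B e) ≠ [] := by
        intro hnil
        rw [List.filter_eq_nil_iff] at hnil
        have := hnil e0 he0
        simp at this
        exact hhit0 this
      obtain ⟨e, l, hel⟩ := List.exists_cons_of_ne_nil hne
      have heF : e ∈ H.filter fun e => !hit B e := by rw [hel]; exact List.mem_cons_self
      rw [List.mem_filter] at heF
      obtain ⟨heH, heh⟩ := heF
      obtain ⟨w, hw, hwS⟩ := hS e heH
      obtain ⟨i, hi, hiw⟩ := List.getElem_of_mem hw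
      have hib : i < b := lt_of_lt_of_le hi (hlen e heH)
      have hnot : w.n ∉ B.map Un.n := by
        intro hm
        rw [List.mem_map] at hm
        obtain ⟨x, hx, hxw⟩ := hm
        have : hit B e = true := hit_iff.2 ⟨w, hw, x, hx, hxw⟩
        rw [this] at heh
        simp at heh
      obtain ⟨ω, hω, h1, h2⟩ := ih (w :: B) (by
        intro x hx
        rw [List.mem_cons] at hx
        rcases hx with rfl | hx
        · exact hwS
        · exact hB x hx) (by
        rw [List.map_cons, List.nodup_cons]
        exact ⟨hnot, hnd⟩) (by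
        rw [List.length_cons]; omega)
      have hstep : stepB b H (⟨i + b * ω⟩, B) = (⟨ω⟩, w :: B) := by
        unfold stepB
        simp only
        rw [hel]
        simp only [lcase]
        have e1 : (i + b * ω) / b = ω := by
          rw [Nat.add_mul_div_left _ _ hb, Nat.div_eq_of_lt hib, Nat.zero_add]
        have e2 : (i + b * ω) % b = i := by
          rw [Nat.add_mul_mod_self_left, Nat.mod_eq_of_lt hib]
        rw [e1, e2, List.getD_eq_getElem _ _ hi, hiw]
      refine ⟨i + b * ω, ?_, ?_⟩
      · calc i + b * ω < b + b * ω := by omega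
          _ = b * (ω + 1) := by ring
          _ ≤ b * b ^ k := Nat.mul_le_mul_left _ hω
          _ = b ^ (k + 1) := by rw [pow_succ]; ring
      · rw [Function.iterate_succ_apply, hstep]
        exact ⟨h1, h2⟩

/-! ### computation -/

section
variable {α : Type} [Enc α]

theorem p_hit {B e : α → List Un} (hB : Poly B) (he : Poly e) :
    Poly (fun a => hit (B a) (e a)) :=
  Poly.any (h := fun p : α × Un => (B p.1).any fun x => decide (x.n = p.2.n)) he
    (Poly.any (h := fun q : (α × Un) × Un => decide (q.2.n = q.1.2.n)) (hB.comp Poly.fst)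
      ((UPoly.n.comp Poly.snd).eq (UPoly.n.comp Poly.fst.snd')))

theorem p_stepB (b : ℕ) {H : α → List (List Un)} (hH : Poly H) {s : α → Un × List Un}
    (hs : Poly s) : Poly (fun a => stepB b (H a) (s a)) := by
  have h1 : Poly (fun a => (H a).filter fun e => !hit (s a).2 e) :=
    Poly.filter (h := fun p : α × List Un => !hit (s p.1).2 p.2) hH
      (p_hit (hs.snd'.comp Poly.fst) Poly.snd).not
  exact Poly.list_cases (g := s) (h := fun p : α × (List Un × List (List Un)) =>
    (((⟨(s p.1).1.n / b⟩ : Un), p.2.1.getD ((s p.1).1.n % b) (⟨0⟩ : Un) :: (s p.1).2) :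
      Un × List Un)) h1 hs
    (Poly.pair (UPoly.div (UPoly.n.comp (hs.fst'.comp Poly.fst)) (UPoly.const b))
      (Poly.cons (Poly.getD Poly.snd.fst' (UPoly.mod (UPoly.n.comp (hs.fst'.comp Poly.fst))
        (UPoly.const b)) (p_const (⟨0⟩ : Un))) (hs.snd'.comp Poly.fst)))

theorem sz_getD_le {l : List Un} {i : ℕ} : sz (l.getD i (⟨0⟩ : Un)) ≤ sz l := by
  by_cases h : i < l.length
  · rw [List.getD_eq_getElem _ _ h]
    exact Poly.sz_mem_le (List.getElem_mem h)
  · rw [List.getD_eq_default _ _ (by omega)]
    have : sz (⟨0⟩ : Un) = 1 := sz_Un _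
    rw [this]
    exact sz_pos l

theorem sz_stepB (b : ℕ) (H : List (List Un)) (s : Un × List Un) :
    sz (stepB b H s) ≤ sz s + (sz H + 1) := by
  unfold stepB
  cases hF : H.filter (fun e => !hit s.2 e) with
  | nil => simp only [lcase]; omega
  | cons e l =>
    have heH : e ∈ H := (List.mem_filter.1 (by rw [hF]; exact List.mem_cons_self :
      e ∈ H.filter fun e => !hit s.2 e)).1
    simp only [lcase, sz_pair, sz_cons, sz_Un]
    have h1 : sz (e.getD (s.1.n % b) (⟨0⟩ : Un)) ≤ sz H :=
      sz_getD_le.trans (Poly.sz_mem_le heH)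
    have h2 : sz s = sz s.1 + sz s.2 + 1 := sz_pair s.1 s.2
    have h3 : sz s.1 = 2 * s.1.n + 1 := sz_Un _
    have h4 : s.1.n / b ≤ s.1.n := Nat.div_le_self _ _
    rw [sz_Un] at h1
    omega

theorem un_len (n : ℕ) : (un n).length = n := List.length_replicate

theorem foldl_iter {σ : Type} (f : σ → σ) (l : List Unit) (s : σ) :
    l.foldl (fun s _ => f s) s = f^[l.length] s := by
  induction l generalizing s with
  | nil => rfl
  | cons _ l ih =>
    rw [List.foldl_cons, ih, List.length_cons, Function.iterate_succ_apply]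

theorem p_runB (b : ℕ) {H : α → List (List Un)} (hH : Poly H) {k ω : α → ℕ} (hk : UPoly k)
    (hω : UPoly ω) : Poly (fun a => runB b (H a) (k a) (ω a)) := by
  obtain ⟨B, hB⟩ := hH.size
  have h1 := Poly.foldl_add (f := fun a => un (k a)) (g := fun a => ((⟨ω a⟩ : Un), ([] : List Un)))
    (h := fun p : α × ((Un × List Un) × Unit) => stepB b (H p.1) p.2.1) hk.list
    (Poly.pair hω (p_const []))
    (p_stepB b (hH.comp Poly.fst) Poly.snd.fst') (B + 1) (by
      intro a s u _
      have h2 := sz_stepB b (H a) s
      have h3 := hB a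
      rw [Polynomial.eval_add, Polynomial.eval_one]
      simp only
      omega)
  refine h1.snd'.of_eq fun a => ?_
  unfold runB
  rw [foldl_iter (stepB b (H a)), un_len]

end

end Pool.Agent.EWH
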