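import Pool.Agent.EWH.Mat

/-!
# Cells: the consistency constraints, and general facts on quantifier sequences
-/

set_option autoImplicit false

namespace Pool.Agent.EWH

open Pool.Agent.TM2Lib

/-! ### quantifier sequences -/

theorem Pre.const {N : ℕ} (hN : 0 < N) : ∀ (t : ℕ) (q : Bool) (P : Prop),
    (Pre N t q fun _ => P) ↔ P
  | 0, _, P => Iff.rfl
  | t + 1, true, P => by
    rw [pre_true]
    constructor
    · intro h; exact (Pre.const hN t false P).1 (h 0 hN)
    · intro h u _; exact (Pre.const hN t false P).2 h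
  | t + 1, false, P => by
    rw [pre_false]
    constructor
    · rintro ⟨u, _, h⟩; exact (Pre.const hN t true P).1 h
    · intro h; exact ⟨0, hN, (Pre.const hN t true P).2 h⟩

/-- change of the range of the quantifiers -/
theorem Pre.map {N N' : ℕ} {h : ℕ → ℕ} (h1 : ∀ u < N, h u < N') (h2 : ∀ u' < N', ∃ u < N, h u = u') :
    ∀ (t : ℕ) (q : Bool) (P : List ℕ → Prop),
      (Pre N t q fun us => P (us.map h)) ↔ Pre N' t q P
  | 0, _, P => Iff.rfl
  | t + 1, true, P => by
    rw [pre_true, pre_true]
    constructor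
    · intro H u' hu'
      obtain ⟨u, hu, rfl⟩ := h2 u' hu'
      exact (Pre.map h1 h2 t false fun l => P (h u :: l)).1 (H u hu)
    · intro H u hu
      exact (Pre.map h1 h2 t false fun l => P (h u :: l)).2 (H _ (h1 u hu))
  | t + 1, false, P => by
    rw [pre_false, pre_false]
    constructor
    · rintro ⟨u, hu, H⟩
      exact ⟨h u, h1 u hu, (Pre.map h1 h2 t true fun l => P (h u :: l)).1 H⟩
    · rintro ⟨u', hu', H⟩
      obtain ⟨u, hu, rfl⟩ := h2 u' hu'
      exact ⟨u, hu, (Pre.map h1 h2 t true fun l => P (h u :: l)).2 H⟩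

/-- the last quantifier; it is universal iff `Even t ↔ q = true` -/
theorem Pre.snoc {N : ℕ} : ∀ (t : ℕ) (q : Bool) (P : List ℕ → Prop),
    Pre N (t + 1) q P ↔ Pre N t q fun us =>
      if (Even t ↔ q = true) then ∀ u < N, P (us ++ [u]) else ∃ u < N, P (us ++ [u])
  | 0, true, P => by
    rw [pre_true]; simp [Pre]
  | 0, false, P => by
    rw [pre_false]; simp [Pre]
  | t + 1, true, P => by
    rw [pre_true, pre_true]
    refine forall_congr' fun u => forall_congr' fun _ => ?_
    rw [Pre.snoc t false]
    refine Pre.congr fun l _ _ => ?_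
    by_cases h : Even t <;> simp [h, Nat.even_add_one]
  | t + 1, false, P => by
    rw [pre_false, pre_false]
    refine exists_congr fun u => and_congr_right fun _ => ?_
    rw [Pre.snoc t true]
    refine Pre.congr fun l _ _ => ?_
    by_cases h : Even t <;> simp [h, Nat.even_add_one]

/-- The parity of the first (universal) variable selects one of two conditions. -/
theorem Pre.split {N t : ℕ} (C P : List ℕ → Prop) :
    (Pre (2 * N) (t + 1) true fun us =>
      if us.headD 0 % 2 = 1 then C (us.headD 0 / 2 :: us.tail) else P (us.map fun u => u / 2)) ↔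
    (∀ z < N, Pre (2 * N) t false fun us => C (z :: us)) ∧ Pre N (t + 1) true P := by
  have h1 : ∀ u < 2 * N, u / 2 < N := fun u hu => by omega
  have h2 : ∀ u' < N, ∃ u < 2 * N, u / 2 = u' := fun u' hu' => ⟨2 * u', by omega, by omega⟩
  rw [pre_true, pre_true]
  constructor
  · intro H
    refine ⟨fun z hz => ?_, fun z hz => ?_⟩
    · have e : (2 * z + 1) / 2 = z := by omega
      have e' : (2 * z + 1) % 2 = 1 := by omega
      refine (Pre.congr fun l _ _ => ?_).1 (H (2 * z + 1) (by omega))
      show (if (2 * z + 1) % 2 = 1 then C ((2 * z + 1) / 2 :: l) else _) ↔ _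
      rw [if_pos e', e]
    · have e : 2 * z / 2 = z := by omega
      have e' : ¬ (2 * z) % 2 = 1 := by omega
      refine (Pre.map h1 h2 t false fun l => P (z :: l)).1
        ((Pre.congr fun l _ _ => ?_).1 (H (2 * z) (by omega)))
      show (if (2 * z) % 2 = 1 then C ((2 * z) / 2 :: l) else
        P ((2 * z) / 2 :: l.map fun u => u / 2)) ↔ _
      rw [if_neg e', e]
  · rintro ⟨H1, H2⟩ u hu
    by_cases h : u % 2 = 1
    · refine (Pre.congr fun l _ _ => ?_).2 (H1 (u / 2) (by omega))
      show (if u % 2 = 1 then C (u / 2 :: l) else _) ↔ _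
      rw [if_pos h]
    · refine (Pre.congr fun l _ _ => ?_).2
        ((Pre.map h1 h2 t false fun l => P (u / 2 :: l)).2 (H2 (u / 2) (by omega)))
      show (if u % 2 = 1 then _ else P (u / 2 :: l.map fun u => u / 2)) ↔ _
      rw [if_neg h]

/-! ### cells -/

/-- index of a cell -/
def ty (k c : ℕ) : ℕ := c % (k + 1)

/-- left end of the gap -/
def ca (k m c : ℕ) : ℕ := c / (k + 1) % (m + 2)

/-- right end of the gap -/
def cb (k m c : ℕ) : ℕ := c / (k + 1) / (m + 2)

/-- the cell with the index `i` and the gap from `a` to `b` -/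
def cell (k m i a b : ℕ) : ℕ := i + (k + 1) * (a + (m + 2) * b)

theorem ty_le (k c : ℕ) : ty k c ≤ k := Nat.lt_succ_iff.1 (Nat.mod_lt _ (by omega))

theorem ty_cell {k m i a b : ℕ} (hi : i ≤ k) : ty k (cell k m i a b) = i := by
  unfold ty cell
  rw [Nat.add_mul_mod_self_left, Nat.mod_eq_of_lt (by omega)]

theorem ca_cell {k m i a b : ℕ} (hi : i ≤ k) (ha : a < m + 2) :
    ca k m (cell k m i a b) = a := by
  unfold ca cell
  rw [Nat.add_mul_div_left _ _ (by omega), Nat.div_eq_of_lt (show i < k + 1 by omega),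
    Nat.zero_add, Nat.add_mul_mod_self_left, Nat.mod_eq_of_lt ha]

theorem cb_cell {k m i a b : ℕ} (hi : i ≤ k) (ha : a < m + 2) :
    cb k m (cell k m i a b) = b := by
  unfold cb cell
  rw [Nat.add_mul_div_left _ _ (by omega), Nat.div_eq_of_lt (show i < k + 1 by omega),
    Nat.zero_add, Nat.add_mul_div_left _ _ (by omega), Nat.div_eq_of_lt ha, Nat.zero_add]

theorem cell_eq (k m c : ℕ) : cell k m (ty k c) (ca k m c) (cb k m c) = c := by
  unfold cell ty ca cb
  rw [Nat.mod_add_div, Nat.mod_add_div]

theorem cell_lt {k m i a b : ℕ} (hi : i ≤ k) (ha : a < m + 2) (hb : b < m + 2) :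
    cell k m i a b < (k + 1) * ((m + 2) * (m + 2)) := by
  unfold cell
  have h1 : a + (m + 2) * b < (m + 2) * (m + 2) := by
    calc a + (m + 2) * b < (m + 2) + (m + 2) * b := by omega
      _ = (m + 2) * (b + 1) := by ring
      _ ≤ (m + 2) * (m + 2) := Nat.mul_le_mul_left _ (by omega)
  calc i + (k + 1) * (a + (m + 2) * b) < (k + 1) + (k + 1) * (a + (m + 2) * b) := by omega
    _ = (k + 1) * (a + (m + 2) * b + 1) := by ring
    _ ≤ (k + 1) * ((m + 2) * (m + 2)) := Nat.mul_le_mul_left _ h1

/-- a cell which may occur -/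
def good (k m c : ℕ) : Bool :=
  decide (cb k m c < m + 2) && (decide (ca k m c < cb k m c) &&
    ((!decide (ty k c = 0) || decide (ca k m c = 0)) &&
      (!decide (ty k c = k) || decide (cb k m c = m + 1))))

theorem good_iff {k m c : ℕ} : good k m c = true ↔ cb k m c < m + 2 ∧ ca k m c < cb k m c ∧
    (ty k c = 0 → ca k m c = 0) ∧ (ty k c = k → cb k m c = m + 1) := by
  unfold good
  simp only [Bool.and_eq_true, Bool.or_eq_true, Bool.not_eq_true', decide_eq_true_eq,
    decide_eq_false_iff_not]
  constructor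
  · rintro ⟨h1, h2, h3, h4⟩
    exact ⟨h1, h2, fun h => h3.resolve_left fun h' => h' h, fun h => h4.resolve_left fun h' => h' h⟩
  · rintro ⟨h1, h2, h3, h4⟩
    exact ⟨h1, h2, by tauto, by tauto⟩

/-- the set of the cells of an increasing sequence -/
def cells (k m : ℕ) (s : ℕ → ℕ) : Finset ℕ :=
  (Finset.range (k + 1)).image fun i => cell k m i (s i) (s (i + 1))

theorem mem_cells {k m : ℕ} {s : ℕ → ℕ} {y : ℕ} :
    y ∈ cells k m s ↔ ∃ i ≤ k, y = cell k m i (s i) (s (i + 1)) := by
  unfold cells
  rw [Finset.mem_image]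
  constructor
  · rintro ⟨i, hi, rfl⟩
    exact ⟨i, by rw [Finset.mem_range] at hi; omega, rfl⟩
  · rintro ⟨i, hi, rfl⟩
    exact ⟨i, Finset.mem_range.2 (by omega), rfl⟩

section chain
variable {k m : ℕ} {s : ℕ → ℕ} (h : Chain m k s)
include h

theorem Chain.lt2 {i : ℕ} (hi : i ≤ k + 1) : s i < m + 2 := by
  have := h.le_last hi
  omega

omit h in
theorem cells_card : (cells k m s).card = k + 1 := by
  unfold cells
  rw [Finset.card_image_of_injOn, Finset.card_range]
  intro i hi j hj hij
  simp only [Finset.coe_range, Set.mem_Iio] at hi hj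
  have h1 := congrArg (ty k) hij
  simp only at h1
  rwa [ty_cell (by omega), ty_cell (by omega)] at h1

theorem cells_lt {y : ℕ} (hy : y ∈ cells k m s) : y < (k + 1) * ((m + 2) * (m + 2)) := by
  obtain ⟨i, hi, rfl⟩ := mem_cells.1 hy
  exact cell_lt hi (h.lt2 (by omega)) (h.lt2 (by omega))

theorem cells_vals {y : ℕ} (hy : y ∈ cells k m s) :
    ca k m y = s (ty k y) ∧ cb k m y = s (ty k y + 1) := by
  obtain ⟨i, hi, rfl⟩ := mem_cells.1 hy
  rw [ty_cell hi, ca_cell hi (h.lt2 (by omega)), cb_cell hi (h.lt2 (by omega))]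
  exact ⟨rfl, rfl⟩

theorem cells_good {y : ℕ} (hy : y ∈ cells k m s) : good k m y = true := by
  obtain ⟨h1, h2⟩ := cells_vals h hy
  have h3 := ty_le k y
  rw [good_iff, h1, h2]
  refine ⟨h.lt2 (by omega), h.lt _ h3, fun h4 => ?_, fun h4 => ?_⟩
  · rw [h4, h.zero]
  · rw [h4, h.last]

omit h in
theorem cells_ty {i : ℕ} (hi : i ≤ k) : ∃ y ∈ cells k m s, ty k y = i :=
  ⟨_, mem_cells.2 ⟨i, hi, rfl⟩, ty_cell hi⟩

theorem cells_unique {y y' : ℕ} (hy : y ∈ cells k m s) (hy' : y' ∈ cells k m s)
    (ht : ty k y = ty k y') : y = y' := by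
  obtain ⟨h1, h2⟩ := cells_vals h hy
  obtain ⟨h3, h4⟩ := cells_vals h hy'
  rw [← cell_eq k m y, ← cell_eq k m y', h1, h2, h3, h4, ht]

end chain

/-- the two facts which characterise the sets of cells -/
structure IsCells (k m : ℕ) (Y : Finset ℕ) : Prop where
  card : Y.card = k + 1
  gd : ∀ y ∈ Y, good k m y = true
  uniq : ∀ y ∈ Y, ∀ y' ∈ Y, ty k y = ty k y' → y = y'
  link : ∀ y ∈ Y, ∀ y' ∈ Y, ty k y' = ty k y + 1 → cb k m y = ca k m y'

theorem IsCells.exists_ty {k m : ℕ} {Y : Finset ℕ} (h : IsCells k m Y) {i : ℕ} (hi : i ≤ k) :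
    ∃ y ∈ Y, ty k y = i := by
  have h1 : Y.image (ty k) ⊆ Finset.range (k + 1) := by
    intro x hx
    rw [Finset.mem_image] at hx
    obtain ⟨y, _, rfl⟩ := hx
    exact Finset.mem_range.2 (by have := ty_le k y; omega)
  have h2 : (Y.image (ty k)).card = k + 1 := by
    rw [Finset.card_image_of_injOn, h.card]
    intro y hy y' hy' hyy
    exact h.uniq y hy y' hy' hyy
  have h3 := Finset.eq_of_subset_of_card_le h1 (by rw [h2, Finset.card_range])
  have h4 : i ∈ Y.image (ty k) := by rw [h3]; exact Finset.mem_range.2 (by omega)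
  rw [Finset.mem_image] at h4
  exact h4

theorem IsCells.exists_chain {k m : ℕ} {Y : Finset ℕ} (h : IsCells k m Y) :
    ∃ s, Chain m k s ∧ Y = cells k m s := by
  have hex : ∀ i : ℕ, ∃ y, i ≤ k → y ∈ Y ∧ ty k y = i := by
    intro i
    by_cases hi : i ≤ k
    · obtain ⟨y, h1, h2⟩ := h.exists_ty hi
      exact ⟨y, fun _ => ⟨h1, h2⟩⟩
    · exact ⟨0, fun hc => absurd hc hi⟩
  choose g hg using hex
  have hgood : ∀ i, i ≤ k → _ := fun i hi => good_iff.1 (h.gd _ (hg i hi).1)
  have hc : Chain m k (fun i => if i ≤ k then ca k m (g i) else m + 1) := by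
    refine ⟨?_, ?_, ?_⟩
    · simp only [Nat.zero_le, if_true]
      exact (hgood 0 (by omega)).2.2.1 (hg 0 (by omega)).2
    · simp
    · intro i hi
      have h1 := hgood i hi
      simp only [if_pos hi]
      by_cases h2 : i + 1 ≤ k
      · simp only [if_pos h2]
        have h3 := h.link _ (hg i hi).1 _ (hg (i + 1) h2).1
          (by rw [(hg i hi).2, (hg (i + 1) h2).2])
        rw [← h3]
        exact h1.2.1
      · simp only [if_neg h2]
        have h3 := h1.2.2.2 (by rw [(hg i hi).2]; omega)
        rw [← h3]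
        exact h1.2.1
  refine ⟨_, hc, ?_⟩
  apply Finset.eq_of_subset_of_card_le
  · intro y hy
    rw [mem_cells]
    have h1 := ty_le k y
    refine ⟨ty k y, h1, ?_⟩
    have h2 : g (ty k y) = y := h.uniq _ (hg _ h1).1 _ hy (hg _ h1).2
    simp only [if_pos h1, h2]
    by_cases h3 : ty k y + 1 ≤ k
    · simp only [if_pos h3]
      rw [← h.link y hy _ (hg _ h3).1 (hg _ h3).2]
      exact (cell_eq k m y).symm
    · simp only [if_neg h3]
      have h4 := (good_iff.1 (h.gd y hy)).2.2.2 (by omega)
      rw [← h4]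
      exact (cell_eq k m y).symm
  · rw [cells_card, h.card]

theorem cells_isCells {k m : ℕ} {s : ℕ → ℕ} (h : Chain m k s) : IsCells k m (cells k m s) := by
  refine ⟨cells_card, fun y hy => cells_good h hy, fun y hy y' hy' => cells_unique h hy hy', ?_⟩
  intro y hy y' hy' ht
  rw [(cells_vals h hy).2, (cells_vals h hy').1, ht]

/-! ### constraints, existential form -/

/-- The constraint number `z` (existential form): with `τ = z mod (k+1)` and `v = z / (k+1)`, it says
that the cell with the index `τ` is good (`v = 0`), or that its right end is not `v - 1` or the left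
end of the next cell is `v - 1`. -/
def conE (k m z y : ℕ) : Bool :=
  if z / (k + 1) = 0 then decide (ty k y = ty k z) && good k m y
  else (decide (ty k z = k)) || ((decide (ty k y = ty k z) && !decide (cb k m y = z / (k + 1) - 1)) ||
    (decide (ty k y = ty k z + 1) && decide (ca k m y = z / (k + 1) - 1)))

theorem conE_iff {k m N : ℕ} (hN : (k + 1) * (m + 3) ≤ N) {Y : Finset ℕ} (hY : Y.card = k + 1) :
    (∀ z < N, ∃ y ∈ Y, conE k m z y = true) ↔ IsCells k m Y := by
  constructor
  · intro h
    -- one good cell for each index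
    have h1 : ∀ i ≤ k, ∃ y ∈ Y, ty k y = i ∧ good k m y = true := by
      intro i hi
      have hz : i < N := by nlinarith
      obtain ⟨y, hy, hc⟩ := h i hz
      unfold conE at hc
      rw [if_pos (Nat.div_eq_of_lt (by omega))] at hc
      simp only [Bool.and_eq_true, decide_eq_true_eq] at hc
      refine ⟨y, hy, ?_, hc.2⟩
      rw [hc.1]
      exact Nat.mod_eq_of_lt (by omega)
    have h2 : Finset.range (k + 1) ⊆ (Y.filter fun y => good k m y = true).image (ty k) := by
      intro i hi
      obtain ⟨y, hy, h3, h4⟩ := h1 i (by rw [Finset.mem_range] at hi; omega)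
      rw [Finset.mem_image]
      exact ⟨y, Finset.mem_filter.2 ⟨hy, h4⟩, h3⟩
    have h3 := Finset.card_le_card h2
    rw [Finset.card_range] at h3
    have h4 := (Finset.card_image_le (s := Y.filter fun y => good k m y = true) (f := ty k))
    have h5 : (Y.filter fun y => good k m y = true).card ≤ Y.card := Finset.card_filter_le _ _
    have h6 : Y.filter (fun y => good k m y = true) = Y :=
      Finset.eq_of_subset_of_card_le (Finset.filter_subset _ _) (by omega)
    have hgd : ∀ y ∈ Y, good k m y = true := by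
      intro y hy
      rw [← h6] at hy
      exact (Finset.mem_filter.1 hy).2
    have huniq : ∀ y ∈ Y, ∀ y' ∈ Y, ty k y = ty k y' → y = y' := by
      have h7 : (Y.image (ty k)).card = Y.card := by
        rw [h6] at h3 h4
        omega
      intro y hy y' hy' ht
      exact (Finset.card_image_iff.1 h7) hy hy' ht
    refine ⟨hY, hgd, huniq, ?_⟩
    intro y hy y' hy' ht
    have hyk : ty k y + 1 ≤ k := by rw [← ht]; exact ty_le k y'
    have hb := (good_iff.1 (hgd y hy)).1
    -- the constraint for the value `cb y`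
    set z := ty k y + (k + 1) * (cb k m y + 1) with hz
    have hzN : z < N := by
      refine lt_of_lt_of_le ?_ hN
      rw [hz]
      calc ty k y + (k + 1) * (cb k m y + 1) < (k + 1) + (k + 1) * (cb k m y + 1) := by omega
        _ = (k + 1) * (cb k m y + 2) := by ring
        _ ≤ (k + 1) * (m + 3) := Nat.mul_le_mul_left _ (by omega)
    have hz1 : z / (k + 1) = cb k m y + 1 := by
      rw [hz, Nat.add_mul_div_left _ _ (by omega), Nat.div_eq_of_lt (by omega), Nat.zero_add]
    have hz2 : ty k z = ty k y := by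
      unfold ty
      rw [hz, Nat.add_mul_mod_self_left]
      exact Nat.mod_eq_of_lt (by have := ty_le k y; omega)
    obtain ⟨x, hx, hc⟩ := h z hzN
    unfold conE at hc
    rw [if_neg (by omega), hz1, hz2, Nat.add_sub_cancel] at hc
    simp only [Bool.or_eq_true, Bool.and_eq_true, Bool.not_eq_true', decide_eq_true_eq,
      decide_eq_false_iff_not] at hc
    rcases hc with hc | ⟨hc1, hc2⟩ | ⟨hc1, hc2⟩
    · omega
    · rw [huniq x hx y hy hc1] at hc2
      exact absurd rfl hc2
    · rw [huniq x hx y' hy' (by rw [hc1, ht])] at hc2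
      exact hc2.symm
  · intro h z _
    have hzk := ty_le k z
    obtain ⟨y, hy, hty⟩ := h.exists_ty hzk
    by_cases hz : z / (k + 1) = 0
    · refine ⟨y, hy, ?_⟩
      unfold conE
      rw [if_pos hz]
      simp only [Bool.and_eq_true, decide_eq_true_eq]
      exact ⟨hty, h.gd y hy⟩
    · by_cases hk : ty k z = k
      · refine ⟨y, hy, ?_⟩
        unfold conE
        rw [if_neg hz]
        simp [hk]
      · by_cases hb : cb k m y = z / (k + 1) - 1
        · obtain ⟨y', hy', hty'⟩ := h.exists_ty (i := ty k z + 1) (by omega)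
          refine ⟨y', hy', ?_⟩
          unfold conE
          rw [if_neg hz]
          have := h.link y hy y' hy' (by rw [hty, hty'])
          simp only [Bool.or_eq_true, Bool.and_eq_true, decide_eq_true_eq]
          exact Or.inr (Or.inr ⟨hty', by rw [← this, hb]⟩)
        · refine ⟨y, hy, ?_⟩
          unfold conE
          rw [if_neg hz]
          simp only [Bool.or_eq_true, Bool.and_eq_true, Bool.not_eq_true', decide_eq_true_eq,
            decide_eq_false_iff_not]
          exact Or.inr (Or.inl ⟨hty, hb⟩)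

/-! ### constraints, universal form -/

/-- The constraint number `z` (universal form), with the value `v`: the cells with the index
`τ = z mod (k+1)` are good and have the right end `v`, the cells with the next index have the left
end `v`. -/
def conU (k m z v y : ℕ) : Bool :=
  (!decide (ty k y = ty k z) || (good k m y && decide (cb k m y = v))) &&
    (!decide (ty k y = ty k z + 1) || decide (ca k m y = v))

theorem conU_iff {k m N N' : ℕ} (hN : (k + 1) * (m + 3) ≤ N) (hN' : N ≤ N') {Y : Finset ℕ}
    (hY : Y.card = k + 1) :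
    (∀ z < N, ∃ v < N', ∀ y ∈ Y, conU k m z v y = true) ↔ IsCells k m Y := by
  have hsimp : ∀ z v y, conU k m z v y = true ↔ (ty k y = ty k z → good k m y = true ∧
      cb k m y = v) ∧ (ty k y = ty k z + 1 → ca k m y = v) := by
    intro z v y
    unfold conU
    simp only [Bool.or_eq_true, Bool.and_eq_true, Bool.not_eq_true', decide_eq_true_eq,
      decide_eq_false_iff_not]
    tauto
  simp only [hsimp]
  constructor
  · intro h
    have hk : ∀ i ≤ k, i < N := by intro i hi; nlinarith
    have hti : ∀ i ≤ k, ty k i = i := fun i hi => Nat.mod_eq_of_lt (by omega)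
    have hgd : ∀ y ∈ Y, good k m y = true := by
      intro y hy
      obtain ⟨v, _, hv⟩ := h (ty k y) (hk _ (ty_le k y))
      exact ((hv y hy).1 (hti _ (ty_le k y)).symm).1
    have hlink : ∀ y ∈ Y, ∀ y' ∈ Y, ty k y' = ty k y + 1 → cb k m y = ca k m y' := by
      intro y hy y' hy' ht
      obtain ⟨v, _, hv⟩ := h (ty k y) (hk _ (ty_le k y))
      have h1 := ((hv y hy).1 (hti _ (ty_le k y)).symm).2
      have h2 := (hv y' hy').2 (by rw [hti _ (ty_le k y), ht])
      rw [h1, h2]
    have huniq : ∀ y ∈ Y, ∀ y' ∈ Y, ty k y = ty k y' → y = y' := by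
      intro y hy y' hy' ht
      have hb : cb k m y = cb k m y' := by
        obtain ⟨v, _, hv⟩ := h (ty k y) (hk _ (ty_le k y))
        have h1 := ((hv y hy).1 (hti _ (ty_le k y)).symm).2
        have h2 := ((hv y' hy').1 (by rw [hti _ (ty_le k y), ht])).2
        rw [h1, h2]
      have ha : ca k m y = ca k m y' := by
        rcases Nat.eq_zero_or_pos (ty k y) with h0 | h0
        · rw [(good_iff.1 (hgd y hy)).2.2.1 h0, (good_iff.1 (hgd y' hy')).2.2.1 (by rw [← ht, h0])]
        · have h3 := ty_le k y
          obtain ⟨v, _, hv⟩ := h (ty k y - 1) (hk _ (by omega))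
          have h1 := (hv y hy).2 (by rw [hti (ty k y - 1) (by omega)]; omega)
          have h2 := (hv y' hy').2 (by rw [hti (ty k y - 1) (by omega)]; omega)
          rw [h1, h2]
      rw [← cell_eq k m y, ← cell_eq k m y', ht, hb, ha]
    exact ⟨hY, hgd, huniq, hlink⟩
  · intro h z _
    obtain ⟨y, hy, hty⟩ := h.exists_ty (ty_le k z)
    refine ⟨cb k m y, ?_, ?_⟩
    · have := (good_iff.1 (h.gd y hy)).1
      nlinarith
    · intro y' hy'
      refine ⟨fun h1 => ?_, fun h1 => ?_⟩
      · rw [h.uniq y' hy' y hy (by rw [h1, hty])]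
        exact ⟨h.gd y hy, rfl⟩
      · exact (h.link y hy y' hy' (by rw [h1, hty])).symm

end Pool.Agent.EWH
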