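import Pool.Agent.EWH.Cells

/-!
# The main condition: outer atoms are guessed, inner atoms are checked with cells
-/

set_option autoImplicit false

namespace Pool.Agent.EWH

open Pool.Agent.TM2Lib

/-- the `j`-th binary digit -/
def bit (σ j : ℕ) : Bool := decide (σ / 2 ^ j % 2 = 1)

theorem exists_bits (D : ℕ) (f : ℕ → Bool) : ∃ σ < 2 ^ D, ∀ j < D, bit σ j = f j := by
  obtain ⟨u, hu, h⟩ := exists_num (n := 2) D fun j => if f j then 1 else 0
  refine ⟨u, hu, fun j hj => ?_⟩
  have := h ⟨j, hj⟩
  simp only at this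
  unfold bit
  rw [this]
  cases f j <;> simp

/-- the cell `c` is a witness of `w ∈ S` (`b = true`) or of `w ∉ S` (`b = false`) -/
def witc (k m c w : ℕ) (b : Bool) : Bool := wit (ca k m c) (cb k m c) w b

theorem witc_iff {m k : ℕ} {s : ℕ → ℕ} (h : Chain m k s) {S : Finset ℕ} (hS : Rep k s S)
    {w : ℕ} (hw : w < m) (b : Bool) :
    decide (w ∈ S) = b ↔ ∃ y ∈ cells k m s, witc k m y w b = true := by
  rw [h.wit_iff hS hw]
  constructor
  · rintro ⟨i, hi, h1⟩
    refine ⟨_, mem_cells.2 ⟨i, hi, rfl⟩, ?_⟩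
    unfold witc
    rw [ca_cell hi (h.lt2 (by omega)), cb_cell hi (h.lt2 (by omega))]
    exact h1
  · rintro ⟨y, hy, h1⟩
    obtain ⟨i, hi, rfl⟩ := mem_cells.1 hy
    unfold witc at h1
    rw [ca_cell hi (h.lt2 (by omega)), cb_cell hi (h.lt2 (by omega))] at h1
    exact ⟨i, hi, h1⟩

/-- all lists of `D` truth values -/
def allB : ℕ → List (List Bool)
  | 0 => [[]]
  | D + 1 => (allB D).map (List.cons true) ++ (allB D).map (List.cons false)

theorem mem_allB : ∀ {D : ℕ} {τ : List Bool}, τ ∈ allB D ↔ τ.length = D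
  | 0, τ => by
    rw [allB, List.mem_singleton]
    constructor
    · rintro rfl; rfl
    · exact List.length_eq_zero_iff.1
  | D + 1, τ => by
    rw [allB, List.mem_append, List.mem_map, List.mem_map]
    constructor
    · rintro (⟨τ', h, rfl⟩ | ⟨τ', h, rfl⟩) <;> simpa using mem_allB.1 h
    · intro h
      cases τ with
      | nil => simp at h
      | cons b τ =>
        have h1 : τ ∈ allB D := mem_allB.2 (by simpa using h)
        cases b with
        | true => exact Or.inl ⟨τ, h1, rfl⟩
        | false => exact Or.inr ⟨τ, h1, rfl⟩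

/-- The main condition: the cell `cs[0]` shows that the guess `σ` of the truth values of the outer
atoms is wrong, or some `V i τ` holds where `τ` agrees with `σ` for the outer atoms and the cells in
`cs` prove that `τ` is right for the inner atoms with the numbers in `J i`. -/
def mainB {ι : Type} (D : ℕ) (inn : ℕ → Bool) (L : List ι) (J : ι → List ℕ) (k m : ℕ)
    (V : ι → List Bool → Bool) (w : ℕ → ℕ) (σ : ℕ) (cs : List ℕ) : Bool :=
  ((List.range D).any fun j => !inn j && witc k m (cs.getD 0 0) (w j) (!bit σ j)) ||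
  L.any fun i => (allB D).any fun τ => V i τ && (List.range D).all fun j =>
    if inn j then
      (if j ∈ J i then witc k m (cs.getD ((J i).idxOf j) 0) (w j) (τ.getD j false) else true)
    else τ.getD j false == bit σ j

/-- at most `d` atoms are needed, and `V i τ` depends only on the outer atoms and on `J i` -/
structure Fam {ι : Type} (D d : ℕ) (inn : ℕ → Bool) (L : List ι) (J : ι → List ℕ)
    (V : ι → List Bool → Bool) : Prop where
  dpos : 0 < d
  len : ∀ i ∈ L, (J i).length ≤ d
  dep : ∀ i ∈ L, ∀ τ τ' : List Bool, τ.length = D → τ'.length = D →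
    (∀ j < D, (inn j = false ∨ j ∈ J i) → τ.getD j false = τ'.getD j false) → V i τ = V i τ'

/-- the list of the true truth values -/
def chi (D : ℕ) (S : Finset ℕ) (w : ℕ → ℕ) : List Bool :=
  (List.range D).map fun j => decide (w j ∈ S)

theorem chi_getD {D : ℕ} {S : Finset ℕ} {w : ℕ → ℕ} {j : ℕ} (hj : j < D) :
    (chi D S w).getD j false = decide (w j ∈ S) := by
  unfold chi
  rw [List.getD_eq_getElem _ _ (by simpa using hj), List.getElem_map, List.getElem_range]

theorem eq_chi {D : ℕ} {S : Finset ℕ} {w : ℕ → ℕ} {τ : List Bool} (hτ : τ.length = D)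
    (h : ∀ j < D, τ.getD j false = decide (w j ∈ S)) : τ = chi D S w := by
  apply List.ext_getElem
  · simp [chi, hτ]
  · intro j h1 h2
    have h3 := h j (by omega)
    rw [List.getD_eq_getElem _ _ h1] at h3
    have h4 := chi_getD (D := D) (S := S) (w := w) (j := j) (by omega)
    rw [List.getD_eq_getElem _ _ h2] at h4
    rw [h3, h4]

theorem getD_mem {l : List ℕ} {i : ℕ} (hi : i < l.length) : l.getD i 0 ∈ l := by
  rw [List.getD_eq_getElem _ _ hi]
  exact List.getElem_mem hi

theorem mainB_iff {ι : Type} {D d : ℕ} {inn : ℕ → Bool} {L : List ι} {J : ι → List ℕ}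
    {V : ι → List Bool → Bool} (hI : Fam D d inn L J V) {m k : ℕ}
    {s : ℕ → ℕ} (h : Chain m k s) {S : Finset ℕ} (hS : Rep k s S)
    {w : ℕ → ℕ} (hw : ∀ j < D, w j < m) (σ : ℕ) :
    (∃ cs : List ℕ, cs.length = d ∧ (∀ c ∈ cs, c ∈ cells k m s) ∧
      mainB D inn L J k m V w σ cs = true) ↔
    (∃ j < D, inn j = false ∧ bit σ j ≠ decide (w j ∈ S)) ∨
      ∃ i ∈ L, V i (chi D S w) = true := by
  constructor
  · rintro ⟨cs, h1, h2, h3⟩
    unfold mainB at h3
    rw [Bool.or_eq_true, List.any_eq_true, List.any_eq_true] at h3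
    rcases h3 with ⟨j, hj, h4⟩ | ⟨i, hi, h3⟩
    · left
      rw [List.mem_range] at hj
      rw [Bool.and_eq_true, Bool.not_eq_true'] at h4
      refine ⟨j, hj, h4.1, ?_⟩
      have := (witc_iff h hS (hw j hj) _).2 ⟨_, h2 _ (getD_mem (by rw [h1]; exact hI.dpos)), h4.2⟩
      rw [this]
      cases bit σ j <;> simp
    · rw [List.any_eq_true] at h3
      obtain ⟨τ, hτ, h4⟩ := h3
      by_cases hex : ∃ j < D, inn j = false ∧ bit σ j ≠ decide (w j ∈ S)
      · exact Or.inl hex
      right
      push Not at hex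
      rw [Bool.and_eq_true, List.all_eq_true] at h4
      refine ⟨i, hi, ?_⟩
      rw [← hI.dep i hi τ _ (mem_allB.1 hτ) (by simp [chi]) (fun j hj hor => ?_)]
      · exact h4.1
      · have h5 := h4.2 j (List.mem_range.2 hj)
        rw [chi_getD hj]
        cases hin : inn j with
        | true =>
          have hJ : j ∈ J i := by
            rcases hor with hor | hor
            · rw [hin] at hor; cases hor
            · exact hor
          rw [hin, if_pos rfl, if_pos hJ] at h5
          have hlt : (J i).idxOf j < cs.length := by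
            rw [h1]
            exact lt_of_lt_of_le (List.idxOf_lt_length_iff.2 hJ) (hI.len i hi)
          exact ((witc_iff h hS (hw j hj) _).2 ⟨_, h2 _ (getD_mem hlt), h5⟩).symm
        | false =>
          rw [hin, if_neg (by simp)] at h5
          rw [beq_iff_eq] at h5
          rw [h5]
          exact hex j hj hin
  · intro h1
    by_cases hex : ∃ j < D, inn j = false ∧ bit σ j ≠ decide (w j ∈ S)
    · obtain ⟨j, hj, h2, h3⟩ := hex
      obtain ⟨y, hy, h4⟩ := (witc_iff h hS (hw j hj) (!bit σ j)).1 (by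
        cases hb : bit σ j <;> rw [hb] at h3 <;> cases hd : decide (w j ∈ S) <;>
          simp_all)
      refine ⟨List.replicate d y, by simp, fun c hc => ?_, ?_⟩
      · rw [List.eq_of_mem_replicate hc]; exact hy
      · unfold mainB
        rw [Bool.or_eq_true, List.any_eq_true]
        left
        refine ⟨j, List.mem_range.2 hj, ?_⟩
        rw [List.getD_eq_getElem _ _ (by simpa using hI.dpos), List.getElem_replicate, h2, h4]
        rfl
    · obtain ⟨i, hi, hV⟩ := h1.resolve_left hex
      push Not at hex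
      have hne : ∃ y, y ∈ cells k m s := ⟨_, mem_cells.2 ⟨0, by omega, rfl⟩⟩
      have hch : ∀ p : ℕ, ∃ y ∈ cells k m s, ∀ j < D, j ∈ J i → (J i).idxOf j = p →
          witc k m y (w j) (decide (w j ∈ S)) = true := by
        intro p
        by_cases hj : ∃ j < D, j ∈ J i ∧ (J i).idxOf j = p
        · obtain ⟨j, hj, h2, h3⟩ := hj
          obtain ⟨y, hy, h4⟩ := (witc_iff h hS (hw j hj) _).1 rfl
          refine ⟨y, hy, fun j' hj' h5 h6 => ?_⟩
          have h7 : j' = j := (List.idxOf_inj h5).1 (by rw [h6, h3])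
          rw [h7]
          exact h4
        · obtain ⟨y, hy⟩ := hne
          exact ⟨y, hy, fun j hj' h5 h6 => absurd ⟨j, hj', h5, h6⟩ hj⟩
      choose g hg1 hg2 using hch
      refine ⟨(List.range d).map g, by simp, fun c hc => ?_, ?_⟩
      · rw [List.mem_map] at hc
        obtain ⟨p, _, rfl⟩ := hc
        exact hg1 p
      · unfold mainB
        rw [Bool.or_eq_true, List.any_eq_true, List.any_eq_true]
        right
        refine ⟨i, hi, ?_⟩
        rw [List.any_eq_true]
        refine ⟨chi D S w, mem_allB.2 (by simp [chi]), ?_⟩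
        rw [Bool.and_eq_true, List.all_eq_true]
        refine ⟨hV, fun j hj => ?_⟩
        rw [List.mem_range] at hj
        rw [chi_getD hj]
        cases hin : inn j with
        | true =>
          rw [if_pos rfl]
          by_cases hJ : j ∈ J i
          · rw [if_pos hJ]
            have hp : (J i).idxOf j < d :=
              lt_of_lt_of_le (List.idxOf_lt_length_iff.2 hJ) (hI.len i hi)
            rw [List.getD_eq_getElem _ _ (by simpa using hp), List.getElem_map,
              List.getElem_range]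
            exact hg2 _ j hj hJ rfl
          · rw [if_neg hJ]
        | false =>
          rw [if_neg (by simp), beq_iff_eq]
          exact (hex j hj hin).symm

/-- The two last quantifiers. -/
theorem core2 {ι : Type} {D d : ℕ} {inn : ℕ → Bool} {L : List ι} {J : ι → List ℕ}
    {V : List ℕ → ι → List Bool → Bool} (hI : ∀ us, Fam D d inn L J (V us)) {m k : ℕ}
    {s : ℕ → ℕ} (h : Chain m k s) {S : Finset ℕ} (hS : Rep k s S)
    {w : List ℕ → ℕ → ℕ} (hw : ∀ us, ∀ j < D, w us j < m)
    {r : ℕ} (hout : ∀ j < D, inn j = false → ∀ pre : List ℕ, pre.length = r + 1 → ∀ u u',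
      w (pre ++ [u]) j = w (pre ++ [u']) j)
    {N N0 : ℕ} (hN0 : 0 < N0) (hN : N0 * 2 ^ D ≤ N) (us0 : List ℕ) (hus0 : us0.length = r) :
    (∀ v < N, ∃ u < N, ∃ cs : List ℕ, cs.length = d ∧ (∀ c ∈ cs, c ∈ cells k m s) ∧
      mainB D inn L J k m (V ((us0 ++ [v] ++ [u]).map (· % N0)))
        (w ((us0 ++ [v] ++ [u]).map (· % N0))) (v / N0 % 2 ^ D) cs = true) ↔
    ∀ v < N0, ∃ u < N0, ∃ i ∈ L, V (us0.map (· % N0) ++ [v] ++ [u]) i
      (chi D S (w (us0.map (· % N0) ++ [v] ++ [u]))) = true := by
  have hNN : N0 ≤ N := le_trans (Nat.le_mul_of_pos_right _ (by positivity)) hN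
  have hmap : ∀ v u : ℕ, (us0 ++ [v] ++ [u]).map (· % N0) =
      us0.map (· % N0) ++ [v % N0] ++ [u % N0] := by
    intro v u; simp
  simp only [hmap]
  have hm := fun (v u σ : ℕ) => mainB_iff (hI (us0.map (· % N0) ++ [v] ++ [u])) h hS
    (w := w (us0.map (· % N0) ++ [v] ++ [u])) (hw _) σ
  constructor
  · intro H v hv
    -- the right guess
    obtain ⟨σ, hσ, hσ'⟩ := exists_bits D fun j =>
      decide (w (us0.map (· % N0) ++ [v] ++ [0]) j ∈ S)
    have h1 : (v + N0 * σ) % N0 = v := by
      rw [Nat.add_mul_mod_self_left, Nat.mod_eq_of_lt hv]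
    have h2 : (v + N0 * σ) / N0 % 2 ^ D = σ := by
      rw [Nat.add_mul_div_left _ _ hN0, Nat.div_eq_of_lt hv, Nat.zero_add, Nat.mod_eq_of_lt hσ]
    obtain ⟨u, hu, h3⟩ := H (v + N0 * σ) (by
      calc v + N0 * σ < N0 + N0 * σ := by omega
        _ = N0 * (σ + 1) := by ring
        _ ≤ N0 * 2 ^ D := Nat.mul_le_mul_left _ hσ
        _ ≤ N := hN)
    rw [h1, h2, hm] at h3
    refine ⟨u % N0, Nat.mod_lt _ hN0, h3.resolve_left ?_⟩
    rintro ⟨j, hj, h4, h5⟩
    apply h5
    rw [hσ' j hj, hout j hj h4 (us0.map (· % N0) ++ [v]) (by simp [hus0]) 0 (u % N0)]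
  · intro H v hv
    obtain ⟨u, hu, h1⟩ := H (v % N0) (Nat.mod_lt _ hN0)
    refine ⟨u, by omega, ?_⟩
    rw [Nat.mod_eq_of_lt hu, hm]
    exact Or.inr h1

end Pool.Agent.EWH
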