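import Pool.Agent.TM2Lib.NPGlue
import Pool.Agent.TM2Lib.Unary2

/-!
# Weighted Fagin definability and the EW-hierarchy: definitions (MP_2a8d8e)

Parameterized problems, ept-reductions (with Turing machines, Mathlib's `TM2`), first-order
formulas `Π_t` with one free relation variable `X`, the problems `p-WD_φ`, the classes
`p-WD-Π_{t/d}`, `[C]^ept` and `EW[t]`.
-/

set_option autoImplicit false

namespace Pool.Agent.EWH

open Turing Pool.Agent.TM2Lib

/-! ### Parameterized problems and ept-reductions -/

/-- A parameterized problem: instances (coded by bit strings), yes-instances, and a parameter which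
is computable in polynomial time. -/
structure PProb where
  /-- instances -/
  Inst : Type
  /-- the bit string which codes an instance -/
  code : Inst → List Bool
  /-- yes-instances -/
  yes : Inst → Prop
  /-- the parameter `κ` -/
  par : Inst → ℕ
  /-- `κ` is computable in polynomial time -/
  par_poly : NPC.PolyTime code (NPC.code : ℕ → List Bool) par

/-- The function `f` is computed by a Turing machine in time `2^{O(κ)} · |x|^{O(1)}`: the machine
makes at most `2^(c κ(x)) (|x| + 2)^c` steps on the input `x`. -/
def EptTime {α β : Type} (ca : α → List Bool) (cb : β → List Bool) (κ : α → ℕ) (f : α → β) :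
    Prop :=
  ∃ (M : TM2ComputableAux Bool Bool) (c : ℕ), ∀ a,
    Nonempty (TM2OutputsInTime M.tm ((ca a).map M.inputAlphabet.invFun)
      (some ((cb (f a)).map M.outputAlphabet.invFun)) (2 ^ (c * κ a) * ((ca a).length + 2) ^ c))

/-- ept-reductions: the new parameter is at most `d (κ(x) + log |x| + 1)`. (The summand `1` only
matters for `κ(x) = 0`, `|x| = 1`, where `κ(x) + log |x| = 0`.) -/
def EptReduces (P Q : PProb) : Prop :=
  ∃ f : P.Inst → Q.Inst, EptTime P.code Q.code P.par f ∧ (∀ x, P.yes x ↔ Q.yes (f x)) ∧
    ∃ d : ℕ, ∀ x, Q.par (f x) ≤ d * (P.par x + Nat.log 2 (P.code x).length + 1)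

/-- `[C]^ept`: the problems which reduce to a member of `C` -/
def EptClosure (C : Set PProb) : Set PProb := {P | ∃ Q ∈ C, EptReduces P Q}

/-! ### Structures and formulas -/

/-- A finite relational structure with universe `{0, …, n - 1}`, `n > 0`. A relation symbol is a
pair `(i, a)`, `a` being its arity; its relation is the set of the lists of length `a` in the `i`-th
list of lists (lists with entries outside the universe are irrelevant). Numbers inside the code of a
structure are written in unary (`Un` is `ℕ`, coded in unary). -/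
structure Str where
  /-- number of elements -/
  n : ℕ
  /-- the universe is not empty -/
  pos : 0 < n
  /-- the relations -/
  rels : List (List (List Un))

/-- the tuple `l` belongs to the relation with the symbol `(i, l.length)` -/
def Str.R (A : Str) (i : ℕ) (l : List ℕ) : Prop := l.map Un.mk ∈ A.rels.getD i []

/-- Quantifier-free formulas with variables in `v` and a relation variable `X` of arity `s`. -/
inductive QF (s : ℕ) (v : Type) : Type
  | tru : QF s v
  | eq (x y : v) : QF s v
  | rel (i : ℕ) (x : List v) : QF s v
  | X (x : Fin s → v) : QF s v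
  | not (φ : QF s v) : QF s v
  | and (φ ψ : QF s v) : QF s v

/-- number of occurrences of `X` -/
def QF.occ {s : ℕ} {v : Type} : QF s v → ℕ
  | .tru => 0
  | .eq _ _ => 0
  | .rel _ _ => 0
  | .X _ => 1
  | .not φ => φ.occ
  | .and φ ψ => φ.occ + ψ.occ

/-- truth of a quantifier-free formula in the structure `A`, for the value `S` of `X` and the values
`e` of the variables -/
def QF.Holds {s : ℕ} {v : Type} (A : Str) (S : Finset (Fin s → Fin A.n)) (e : v → Fin A.n) :
    QF s v → Prop
  | .tru => True
  | .eq x y => e x = e y
  | .rel i x => A.R i (x.map fun y => (e y : ℕ))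
  | .X x => (fun j => e (x j)) ∈ S
  | .not φ => ¬ φ.Holds A S e
  | .and φ ψ => φ.Holds A S e ∧ ψ.Holds A S e

/-- `Alt U bs q P`: alternating blocks of quantifiers over `U`, of the lengths `bs`, in front of
`P`; the first block is universal iff `q = true`. The values of all quantified variables are
collected in a list (of length `bs.sum`), to which `P` is applied. -/
def Alt (U : Type) : List ℕ → Bool → (List U → Prop) → Prop
  | [], _, P => P []
  | b :: bs, true, P => ∀ a : Fin b → U, Alt U bs false fun l => P (List.ofFn a ++ l)
  | b :: bs, false, P => ∃ a : Fin b → U, Alt U bs true fun l => P (List.ofFn a ++ l)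

/-- A `Π_t`-formula `φ(X)`, `X` of arity `s`: the lengths of the `t` quantifier blocks (the first
one is universal), and the matrix; the variables are numbered consecutively. -/
structure PiForm (s t : ℕ) where
  /-- the lengths of the blocks -/
  bs : List ℕ
  /-- there are `t` blocks -/
  len : bs.length = t
  /-- the blocks are not empty -/
  pos : ∀ b ∈ bs, 0 < b
  /-- the matrix -/
  mat : QF s (Fin bs.sum)

/-- `A ⊨ φ(S)` -/
def PiForm.Sat {s t : ℕ} (φ : PiForm s t) (A : Str) (S : Finset (Fin s → Fin A.n)) : Prop :=
  Alt (Fin A.n) φ.bs true fun l => φ.mat.Holds A S fun x : Fin φ.bs.sum => l.getD x ⟨0, A.pos⟩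

/-- the code of a structure -/
instance : Enc Str := ⟨fun A => enc ((⟨A.n⟩ : Un), A.rels)⟩

theorem Poly.strData {α : Type} [Enc α] {f : α → Str} (hf : Poly f) :
    Poly (fun a => ((⟨(f a).n⟩ : Un), (f a).rels)) :=
  (Poly.of_enc (f := fun A : Str => ((⟨A.n⟩ : Un), A.rels)) fun _ => rfl).comp hf

theorem par_poly_aux : NPC.PolyTime (NPC.code : Str × Un → List Bool)
    (NPC.code : ℕ → List Bool) (fun x => x.2.n) :=
  NPC.polyTime_code (UPoly.toNat (UPoly.n.comp Poly.snd))

/-- The parameterized weighted Fagin definability problem `p-WD_φ`. Instances are pairs `(A, k)`,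
the parameter is `k`; `(A, k)` is a yes-instance iff `A ⊨ φ(S)` for some `S` with `k` elements. -/
def WD {s t : ℕ} (φ : PiForm s t) : PProb where
  Inst := Str × Un
  code := NPC.code
  yes x := ∃ S : Finset (Fin s → Fin x.1.n), S.card = x.2.n ∧ φ.Sat x.1 S
  par x := x.2.n
  par_poly := par_poly_aux

/-- `p-WD-Π_{t/d}`: `X` (of positive arity) occurs at most `d` times -/
def pWD (t d : ℕ) : Set PProb := {P | ∃ s, 0 < s ∧ ∃ φ : PiForm s t, φ.mat.occ ≤ d ∧ P = WD φ}

/-- `p-WD-Π_t` -/
def pWDall (t : ℕ) : Set PProb := {P | ∃ s, 0 < s ∧ ∃ φ : PiForm s t, P = WD φ}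

/-- `EW[t] = [p-WD-Π_{t/1}]^ept` -/
def EW (t : ℕ) : Set PProb := EptClosure (pWD t 1)

/-! ### the canonical formulas -/

/-- conjunction of atoms -/
def conjX {v : Type} (l : List v) : QF 1 v :=
  l.foldr (fun x φ => .and (.X fun _ => x) φ) .tru

/-- lengths of the blocks of the canonical formula -/
def canonBs (t d : ℕ) : List ℕ := List.replicate (t - 1) 1 ++ [1 + d]

theorem canonBs_len {t : ℕ} (ht : 0 < t) (d : ℕ) : (canonBs t d).length = t := by
  simp [canonBs]; omega

/-- matrix of the canonical formula: `R(x, y) ∧ X y₁ ∧ … ∧ X y_d` (if the last block is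
existential), `X y₁ ∧ … ∧ X y_d → R(x, y)` (if the last block is universal) -/
def canonMat (t m : ℕ) : QF 1 (Fin m) :=
  if Even t then .and (.rel 0 (List.finRange m)) (conjX ((List.finRange m).drop t))
  else .not (.and (conjX ((List.finRange m).drop t)) (.not (.rel 0 (List.finRange m))))

/-- The canonical formula of `Π_{t/d}`: the blocks are `x₁`, …, `x_{t-1}` and `x_t y₁ … y_d`. -/
def canon {t : ℕ} (ht : 0 < t) (d : ℕ) : PiForm 1 t where
  bs := canonBs t d
  len := canonBs_len ht d
  pos := by
    intro b hb
    rw [canonBs, List.mem_append, List.mem_replicate, List.mem_singleton] at hb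
    omega
  mat := canonMat t (canonBs t d).sum

/-! ### narrow formulas -/

/-- The matrix is equivalent to the disjunction (last block existential) or to the conjunction
(last block universal) of the formulas in the list. -/
def Equ {s t : ℕ} (φ : PiForm s t) (L : List (QF s (Fin φ.bs.sum))) : Prop :=
  ∀ (A : Str) (S : Finset (Fin s → Fin A.n)) (e : Fin φ.bs.sum → Fin A.n),
    φ.mat.Holds A S e ↔ if Even t then ∃ ψ ∈ L, ψ.Holds A S e else ∀ ψ ∈ L, ψ.Holds A S e

/-- the number of the occurrences `X x₁ … x_s` of `X` such that at least one of the variables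
`x₁, …, x_s` has a number `≥ c` -/
def QF.innerOcc {s m : ℕ} (c : ℕ) : QF s (Fin m) → ℕ
  | .tru => 0
  | .eq _ _ => 0
  | .rel _ _ => 0
  | .X x => if ∃ i, c ≤ (x i : ℕ) then 1 else 0
  | .not φ => φ.innerOcc c
  | .and φ ψ => φ.innerOcc c + ψ.innerOcc c

/-- the number of the first variable of the last block -/
def PiForm.start {s t : ℕ} (φ : PiForm s t) : ℕ := (φ.bs.take (t - 1)).sum

/-- The matrix is equivalent to a disjunction (if the last block is existential) or to a conjunction
(if the last block is universal) of quantifier-free formulas each of which has at most `d` inner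
occurrences of `X`, i.e. occurrences which contain a variable of the last block. -/
def Narrow {s t : ℕ} (φ : PiForm s t) (d : ℕ) : Prop :=
  ∃ L : List (QF s (Fin φ.bs.sum)), Equ φ L ∧ ∀ ψ ∈ L, ψ.innerOcc φ.start ≤ d

/-- the problems `p-WD_φ` with `φ` in `Π_t` narrow (the number of occurrences of `X` is not bounded) -/
def pWDnarrow (t d : ℕ) : Set PProb := {P | ∃ s, 0 < s ∧ ∃ φ : PiForm s t, Narrow φ d ∧ P = WD φ}

end Pool.Agent.EWH
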