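import Pool.Agent.EWH.Pad
import Pool.Agent.EWH.Branch

/-!
# Digits
-/

set_option autoImplicit false

namespace Pool.Agent.EWH

open Turing Pool.Agent.TM2Lib

/-- the digit number `p` of `x` in base `b` -/
def dg (b x p : ℕ) : ℕ := x / b ^ p % b

/-- the number with the digits `f 0, …, f (d - 1)` -/
def en (b d : ℕ) (f : ℕ → ℕ) : ℕ := ∑ p ∈ Finset.range d, f p * b ^ p

theorem dg_lt {b : ℕ} (hb : 0 < b) (x p : ℕ) : dg b x p < b := Nat.mod_lt _ hb

theorem en_succ (b d : ℕ) (f : ℕ → ℕ) : en b (d + 1) f = f 0 + b * en b d (fun p => f (p + 1)) := by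
  unfold en
  rw [Finset.sum_range_succ', Finset.mul_sum, pow_zero, mul_one, add_comm]
  congr 1
  refine Finset.sum_congr rfl fun p _ => ?_
  rw [pow_succ]; ring

theorem en_lt {b : ℕ} : ∀ {d : ℕ} {f : ℕ → ℕ}, (∀ p < d, f p < b) → en b d f < b ^ d := by
  intro d
  induction d with
  | zero => intro f _; simp [en]
  | succ d ih =>
    intro f hf
    have h1 := ih (f := fun p => f (p + 1)) fun p hp => hf (p + 1) (by omega)
    have h2 := hf 0 (by omega)
    rw [en_succ, pow_succ]
    calc f 0 + b * en b d (fun p => f (p + 1)) < b + b * en b d (fun p => f (p + 1)) := by omega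
      _ = b * (en b d (fun p => f (p + 1)) + 1) := by ring
      _ ≤ b * b ^ d := Nat.mul_le_mul_left _ h1
      _ = b ^ d * b := by ring

theorem dg_en {b : ℕ} : ∀ {d : ℕ} {f : ℕ → ℕ}, (∀ p < d, f p < b) → ∀ {p : ℕ}, p < d →
    dg b (en b d f) p = f p := by
  intro d
  induction d with
  | zero => intro f _ p hp; omega
  | succ d ih =>
    intro f hf p hp
    have h2 := hf 0 (by omega)
    cases p with
    | zero =>
      unfold dg
      rw [en_succ, pow_zero, Nat.div_one, Nat.add_mul_mod_self_left, Nat.mod_eq_of_lt h2]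
    | succ p =>
      have h1 := ih (f := fun p => f (p + 1)) (fun p hp => hf (p + 1) (by omega)) (p := p) (by omega)
      unfold dg at h1 ⊢
      rw [en_succ, pow_succ', ← Nat.div_div_eq_div_mul, Nat.add_mul_div_left _ _ (by omega),
        Nat.div_eq_of_lt h2, Nat.zero_add, h1]

theorem dg_zero (b x : ℕ) : dg b x 0 = x % b := by
  unfold dg; rw [pow_zero, Nat.div_one]

theorem dg_succ (b x p : ℕ) : dg b x (p + 1) = dg b (x / b) p := by
  unfold dg; rw [pow_succ', Nat.div_div_eq_div_mul]

theorem dg_ext {b : ℕ} : ∀ {d x y : ℕ}, x < b ^ d → y < b ^ d → (∀ p < d, dg b x p = dg b y p) →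
    x = y := by
  intro d
  induction d with
  | zero => intro x y hx hy _; simp at hx hy; omega
  | succ d ih =>
    intro x y hx hy h
    have h0 := h 0 (by omega)
    rw [dg_zero, dg_zero] at h0
    have hd : x / b = y / b := by
      refine ih ?_ ?_ fun p hp => ?_
      · exact Nat.div_lt_of_lt_mul (by rw [← pow_succ']; exact hx)
      · exact Nat.div_lt_of_lt_mul (by rw [← pow_succ']; exact hy)
      · rw [← dg_succ, ← dg_succ]; exact h (p + 1) (by omega)
    rw [← Nat.div_add_mod x b, ← Nat.div_add_mod y b, hd, h0]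

theorem en_dg {b d x : ℕ} (hb : 0 < b) (hx : x < b ^ d) : en b d (fun p => dg b x p) = x :=
  dg_ext (en_lt fun p _ => dg_lt hb x p) hx fun _ hp => dg_en (fun q _ => dg_lt hb x q) hp

/-! ### computation -/

section

variable {α : Type} [Enc α]

theorem iter_div (n : ℕ) : ∀ (q x : ℕ), (fun y : ℕ => y / n)^[q] x = x / n ^ q := by
  intro q
  induction q with
  | zero => intro x; simp
  | succ q ih =>
    intro x
    rw [Function.iterate_succ_apply', ih, pow_succ, Nat.div_div_eq_div_mul]

/-- iterated division -/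
theorem u_divpow {x n q : α → ℕ} (hx : UPoly x) (hn : UPoly n) (hq : UPoly q) :
    UPoly (fun a => x a / n a ^ q a) := by
  have h1 := Poly.foldl_add (f := fun a => un (q a)) (g := fun a => (⟨x a⟩ : Un))
    (h := fun p : α × (Un × Unit) => (⟨p.2.1.n / n p.1⟩ : Un)) hq.list hx
    ((UPoly.n.comp Poly.snd.fst').div (hn.comp Poly.fst)) 1 (by
      intro a s u _
      rw [sz_Un, sz_Un, Polynomial.eval_one]
      have := Nat.div_le_self s.n (n a)
      simp only
      omega)
  refine (show UPoly _ from h1).of_eq fun a => ?_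
  have h2 : ∀ (l : List Unit) (s : Un),
      (l.foldl (fun (s : Un) (_ : Unit) => (⟨s.n / n a⟩ : Un)) s).n =
        (fun y : ℕ => y / n a)^[l.length] s.n := by
    intro l
    induction l with
    | nil => intro s; rfl
    | cons u l ih =>
      intro s
      rw [List.foldl_cons, ih, List.length_cons, Function.iterate_succ_apply]
  have h3 := h2 (un (q a)) ⟨x a⟩
  rw [un_len, iter_div] at h3
  exact h3

theorem u_dg {b x p : α → ℕ} (hb : UPoly b) (hx : UPoly x) (hp : UPoly p) :
    UPoly (fun a => dg (b a) (x a) (p a)) :=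
  (u_divpow hx hb hp).mod hb

end

end Pool.Agent.EWH
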