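import Pool.Agent.EWH.NF

/-!
# A dummy block: `Π_t` formulas as `Π_{t+1}` formulas without inner occurrences
-/

set_option autoImplicit false

namespace Pool.Agent.EWH

open Turing Pool.Agent.TM2Lib

theorem Alt.last {U : Type} (z : U) (b : ℕ) : ∀ (bs : List ℕ) (q : Bool) (P : List U → Prop),
    Alt U (bs ++ [b]) q (fun l => P (l.take bs.sum)) ↔ Alt U bs q P
  | [], true, P => by
    simp only [List.nil_append, Alt, List.sum_nil, List.take_zero]
    exact ⟨fun h => h fun _ => z, fun h _ => h⟩
  | [], false, P => by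
    simp only [List.nil_append, Alt, List.sum_nil, List.take_zero]
    exact ⟨fun ⟨_, h⟩ => h, fun h => ⟨fun _ => z, h⟩⟩
  | c :: bs, true, P => by
    simp only [List.cons_append, Alt, List.sum_cons]
    refine forall_congr' fun a => ?_
    rw [← Alt.last z b bs false]
    refine Alt.congr fun l _ => ?_
    rw [List.take_append, List.length_ofFn, List.take_of_length_le (by simp),
      Nat.add_sub_cancel_left]
  | c :: bs, false, P => by
    simp only [List.cons_append, Alt, List.sum_cons]
    refine exists_congr fun a => ?_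
    rw [← Alt.last z b bs true]
    refine Alt.congr fun l _ => ?_
    rw [List.take_append, List.length_ofFn, List.take_of_length_le (by simp),
      Nat.add_sub_cancel_left]

/-- renaming of variables -/
def QF.ren {s : ℕ} {v v' : Type} (f : v → v') : QF s v → QF s v'
  | .tru => .tru
  | .eq x y => .eq (f x) (f y)
  | .rel i x => .rel i (x.map f)
  | .X x => .X (fun j => f (x j))
  | .not φ => .not (φ.ren f)
  | .and φ ψ => .and (φ.ren f) (ψ.ren f)

theorem QF.ren_holds {s : ℕ} {v v' : Type} (f : v → v') (A : Str)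
    (S : Finset (Fin s → Fin A.n)) (e : v' → Fin A.n) (φ : QF s v) :
    (φ.ren f).Holds A S e ↔ φ.Holds A S fun x => e (f x) := by
  induction φ with
  | tru => exact Iff.rfl
  | eq x y => exact Iff.rfl
  | rel i x =>
    simp only [QF.ren, QF.Holds, List.map_map]
    exact Iff.rfl
  | X x => exact Iff.rfl
  | not φ ih => exact not_congr ih
  | and φ ψ ih1 ih2 => exact and_congr ih1 ih2

theorem sum_dummy (bs : List ℕ) : bs.sum ≤ (bs ++ [1]).sum := by simp

/-- one more block with one variable which does not occur -/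
def PiForm.dummy {s t : ℕ} (φ : PiForm s t) : PiForm s (t + 1) where
  bs := φ.bs ++ [1]
  len := by rw [List.length_append, φ.len]; rfl
  pos := by
    intro b hb
    rw [List.mem_append, List.mem_singleton] at hb
    rcases hb with hb | rfl
    · exact φ.pos b hb
    · exact one_pos
  mat := φ.mat.ren (Fin.castLE (sum_dummy φ.bs))

theorem PiForm.dummy_sat {s t : ℕ} (φ : PiForm s t) (A : Str) (S : Finset (Fin s → Fin A.n)) :
    φ.dummy.Sat A S ↔ φ.Sat A S := by
  unfold PiForm.Sat
  rw [← Alt.last (⟨0, A.pos⟩ : Fin A.n) 1 φ.bs true]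
  show Alt (Fin A.n) (φ.bs ++ [1]) true _ ↔ _
  refine Alt.congr fun l hl => ?_
  refine (QF.ren_holds (Fin.castLE (sum_dummy φ.bs)) A S
    (fun x : Fin (φ.bs ++ [1]).sum => l.getD x ⟨0, A.pos⟩) φ.mat).trans ?_
  have : (fun x : Fin φ.bs.sum => (fun x : Fin (φ.bs ++ [1]).sum => l.getD x ⟨0, A.pos⟩)
      (Fin.castLE (sum_dummy φ.bs) x)) =
      fun x : Fin φ.bs.sum => (l.take φ.bs.sum).getD x ⟨0, A.pos⟩ := by
    funext x
    simp only [Fin.val_castLE]
    rw [List.getD_eq_getElem?_getD, List.getD_eq_getElem?_getD, List.getElem?_take,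
      if_pos x.2]
  exact iff_of_eq (congrArg (fun e => φ.mat.Holds A S e) this)

theorem PiForm.dummy_innerOcc {s m m' c : ℕ} (hc : m ≤ c) (h : m ≤ m') (ψ : QF s (Fin m)) :
    (ψ.ren (Fin.castLE h)).innerOcc c = 0 := by
  induction ψ with
  | X x =>
    unfold QF.ren QF.innerOcc
    rw [if_neg]
    rintro ⟨i, hi⟩
    have := (x i).2
    rw [Fin.val_castLE] at hi
    omega
  | not φ ih => exact ih
  | and φ ψ ih1 ih2 =>
    unfold QF.ren QF.innerOcc
    rw [ih1, ih2]
  | _ => rfl

theorem PiForm.dummy_narrow {s t : ℕ} (φ : PiForm s t) : Narrow φ.dummy 1 := by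
  refine narrow_of_inner _ (le_trans (le_of_eq ?_) (Nat.zero_le 1))
  refine PiForm.dummy_innerOcc ?_ (sum_dummy φ.bs) φ.mat
  unfold PiForm.start PiForm.dummy
  simp only [Nat.add_sub_cancel]
  have h : (φ.bs ++ [1]).take t = φ.bs := by
    have h1 : (φ.bs ++ [1]).take φ.bs.length = φ.bs := List.take_left
    rwa [φ.len] at h1
  rw [h]

theorem wd_dummy {s t : ℕ} (φ : PiForm s t) : EptReduces (WD φ) (WD φ.dummy) := by
  refine ⟨fun x => x, ?_, fun x => ?_, 1, fun x => ?_⟩
  · exact EptTime.of_comp _ (f := fun x : Str × Un => x) (Poly.id (α := Str × Un))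
  · show (∃ S : Finset (Fin s → Fin x.1.n), S.card = x.2.n ∧ φ.Sat x.1 S) ↔
      ∃ S : Finset (Fin s → Fin x.1.n), S.card = x.2.n ∧ φ.dummy.Sat x.1 S
    refine exists_congr fun S => and_congr_right fun _ => ?_
    rw [PiForm.dummy_sat]
  · show x.2.n ≤ 1 * (x.2.n + _ + 1)
    omega

end Pool.Agent.EWH
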