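import Pool.Agent.EWH.Regime

/-!
# Padding with dummy elements: the weight is the logarithm of the number of elements
-/

set_option autoImplicit false

namespace Pool.Agent.EWH

open Turing Pool.Agent.TM2Lib

theorem Pre.mono {N : ℕ} : ∀ {t : ℕ} {q : Bool} {P P' : List ℕ → Prop},
    (∀ l : List ℕ, l.length = t → (∀ u ∈ l, u < N) → P l → P' l) → Pre N t q P → Pre N t q P'
  | 0, _, _, _, h, hp => h [] rfl (by simp) hp
  | t + 1, true, P, P', h, hp => fun u hu =>
    Pre.mono (fun l hl hl' => h (u :: l) (by simp [hl]) (by simpa using ⟨hu, hl'⟩)) (hp u hu)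
  | t + 1, false, P, P', h, hp => by
    obtain ⟨u, hu, hp⟩ := hp
    exact ⟨u, hu, Pre.mono (fun l hl hl' =>
      h (u :: l) (by simp [hl]) (by simpa using ⟨hu, hl'⟩)) hp⟩

/-- constraints (if the first number is odd) or the main test, abstract form -/
def tstA (e : Bool) (cE : ℕ → ℕ → Bool) (cU : ℕ → ℕ → ℕ → Bool) (mt : List ℕ → List ℕ → Bool)
    (us cs : List ℕ) : Bool :=
  if us.headD 0 % 2 = 1 then
    if e then cE (us.headD 0 / 2) (cs.getD 0 0)
    else cU (us.headD 0 / 2) (us.getD 1 0) (cs.getD 0 0)
  else mt (us.map fun u => u / 2) cs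

theorem full_iffA {r d N : ℕ} (hd : 0 < d) (hNpos : 0 < N) (e : Bool) (he : e = true ↔ Even r)
    (cE : ℕ → ℕ → Bool) (cU : ℕ → ℕ → ℕ → Bool) (mt : List ℕ → List ℕ → Bool) {Z : Finset ℕ} :
    (Pre (2 * N) (r + 2) true fun us => if Even r then
      ∃ cs : List ℕ, cs.length = d ∧ (∀ c' ∈ cs, c' ∈ Z) ∧ tstA e cE cU mt us cs = true
      else ∀ cs : List ℕ, cs.length = d → (∀ c' ∈ cs, c' ∈ Z) →
        tstA e cE cU mt us cs = true) ↔
    (if Even r then ∀ z < N, ∃ y ∈ Z, cE z y = true
      else ∀ z < N, ∃ v < 2 * N, ∀ y ∈ Z, cU z v y = true) ∧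
    Pre N (r + 2) true fun us => if Even r then
      ∃ cs : List ℕ, cs.length = d ∧ (∀ c' ∈ cs, c' ∈ Z) ∧ mt us cs = true
      else ∀ cs : List ℕ, cs.length = d → (∀ c' ∈ cs, c' ∈ Z) → mt us cs = true := by
  have hsplit := Pre.split (N := N) (t := r + 1)
    (fun l => if Even r then ∃ y ∈ Z, cE (l.headD 0) y = true
      else ∀ y ∈ Z, cU (l.headD 0) (l.getD 1 0) y = true)
    (fun us => if Even r then
      ∃ cs : List ℕ, cs.length = d ∧ (∀ c' ∈ cs, c' ∈ Z) ∧ mt us cs = true
      else ∀ cs : List ℕ, cs.length = d → (∀ c' ∈ cs, c' ∈ Z) → mt us cs = true)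
  refine Iff.trans (Pre.congr fun us hus _ => ?_) (hsplit.trans (and_congr_left fun _ => ?_))
  · have hg : (us.headD 0 / 2 :: us.tail).getD 1 0 = us.getD 1 0 := by
      cases us with
      | nil => simp at hus
      | cons u l => rfl
    by_cases hu : us.headD 0 % 2 = 1
    · rw [if_pos hu]
      by_cases hr : Even r
      · obtain rfl : e = true := he.2 hr
        rw [if_pos hr, if_pos hr]
        have h1 : ∀ cs, tstA true cE cU mt us cs = cE (us.headD 0 / 2) (cs.getD 0 0) :=
          fun cs => by unfold tstA; rw [if_pos hu, if_pos rfl]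
        simp only [h1]
        exact exists_first hd Z fun y => cE (us.headD 0 / 2) y = true
      · obtain rfl : e = false := by
          cases e with
          | false => rfl
          | true => exact absurd (he.1 rfl) hr
        rw [if_neg hr, if_neg hr]
        have h1 : ∀ cs, tstA false cE cU mt us cs =
            cU (us.headD 0 / 2) (us.getD 1 0) (cs.getD 0 0) := fun cs => by
          unfold tstA; rw [if_pos hu, if_neg (by simp)]
        simp only [h1]
        rw [hg]
        exact forall_first hd Z fun y => cU (us.headD 0 / 2) (us.getD 1 0) y = true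
    · rw [if_neg hu]
      have h1 : ∀ cs, tstA e cE cU mt us cs = mt (us.map fun u => u / 2) cs :=
        fun cs => by unfold tstA; rw [if_neg hu]
      simp only [h1]
  · by_cases hr : Even r
    · simp only [if_pos hr, List.headD_cons]
      refine forall_congr' fun z => forall_congr' fun _ => ?_
      exact Pre.const (by omega) _ _ _
    · simp only [if_neg hr, List.headD_cons]
      refine forall_congr' fun z => forall_congr' fun _ => ?_
      rw [pre_false]
      refine exists_congr fun v => and_congr_right fun _ => ?_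
      simp only [List.getD_cons_succ, List.getD_cons_zero]
      exact Pre.const (by omega) _ _ _

/-! ### the test -/

/-- the relation of the structure, for the tuple which is given by `us` (modulo `n`) and `cs` -/
def relP (A : Str) (t d : ℕ) (us cs : List ℕ) : Bool :=
  (A.rels.getD 0 []).any (eqL ((List.range (t + d)).map fun x =>
    if x < t then us.getD x 0 % A.n else cs.getD (x - t) 0))

theorem relP_iff {A : Str} {t d : ℕ} {us cs : List ℕ} (hus : us.length = t)
    (hcs : cs.length = d) :
    relP A t d us cs = true ↔ A.R 0 (us.map (· % A.n) ++ cs) := by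
  unfold relP
  rw [any_eqL, range_split hus (fun x => cs.getD x 0), ← list_eq_range hcs]

/-- constraints, existential form: the `m` dummies belong to the set -/
def cEP (n m u y : ℕ) : Bool := decide (m ≤ u) || decide (y = n + u)

/-- constraints, universal form: nothing but elements and dummies belongs to the set -/
def cUP (n m y : ℕ) : Bool := decide (y < n + m)

/-- the main test -/
def mtP (e : Bool) (A : Str) (t k d : ℕ) (us cs : List ℕ) : Bool :=
  if e then decide (k ≤ A.n) && ((cs.all fun c => decide (c < A.n)) && relP A t d us cs)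
  else !(cs.all fun c => decide (c < A.n)) || relP A t d us cs

/-- the main test and the set of the elements which are no dummies -/
theorem mtP_iff {A : Str} {r k d : ℕ} (e : Bool) (he : e = true ↔ Even r) {Z : Finset ℕ}
    {us : List ℕ} (hus : us.length = r + 2) :
    (if Even r then ∃ cs : List ℕ, cs.length = d ∧ (∀ c' ∈ cs, c' ∈ Z) ∧
        mtP e A (r + 2) k d us cs = true
      else ∀ cs : List ℕ, cs.length = d → (∀ c' ∈ cs, c' ∈ Z) →
        mtP e A (r + 2) k d us cs = true) ↔
    ((Even r → k ≤ A.n) ∧ if Even (r + 2) then ∃ ys : List ℕ, ys.length = d ∧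
        (∀ y ∈ ys, y ∈ Z.filter (· < A.n)) ∧ A.R 0 (us.map (· % A.n) ++ ys)
      else ∀ ys : List ℕ, ys.length = d →
        (∀ y ∈ ys, y ∈ Z.filter (· < A.n)) → A.R 0 (us.map (· % A.n) ++ ys)) := by
  have heven : Even (r + 2) ↔ Even r := by
    rw [Nat.even_add]; simp
  rw [if_congr heven rfl rfl]
  by_cases hr : Even r
  · obtain rfl : e = true := he.2 hr
    rw [if_pos hr, if_pos hr]
    have h1 : ∀ cs : List ℕ, cs.length = d → (mtP true A (r + 2) k d us cs = true ↔
        k ≤ A.n ∧ (∀ c ∈ cs, c < A.n) ∧ A.R 0 (us.map (· % A.n) ++ cs)) := by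
      intro cs hcs
      unfold mtP
      rw [if_pos rfl, Bool.and_eq_true, Bool.and_eq_true, relP_iff hus hcs, List.all_eq_true,
        decide_eq_true_eq]
      simp only [decide_eq_true_eq]
    constructor
    · rintro ⟨cs, h2, h3, h4⟩
      obtain ⟨h5, h6, h7⟩ := (h1 cs h2).1 h4
      exact ⟨fun _ => h5, cs, h2, fun y hy => Finset.mem_filter.2 ⟨h3 y hy, h6 y hy⟩, h7⟩
    · rintro ⟨h5, cs, h2, h3, h7⟩
      exact ⟨cs, h2, fun y hy => (Finset.mem_filter.1 (h3 y hy)).1,
        (h1 cs h2).2 ⟨h5 hr, fun y hy => (Finset.mem_filter.1 (h3 y hy)).2, h7⟩⟩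
  · obtain rfl : e = false := by
      cases e with
      | false => rfl
      | true => exact absurd (he.1 rfl) hr
    rw [if_neg hr, if_neg hr]
    have h1 : ∀ cs : List ℕ, cs.length = d → (mtP false A (r + 2) k d us cs = true ↔
        ((∀ c ∈ cs, c < A.n) → A.R 0 (us.map (· % A.n) ++ cs))) := by
      intro cs hcs
      unfold mtP
      rw [if_neg (by simp), Bool.or_eq_true, relP_iff hus hcs, Bool.not_eq_true',
        ← Bool.not_eq_true, List.all_eq_true]
      simp only [decide_eq_true_eq]
      tauto
    constructor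
    · intro h
      refine ⟨fun h' => absurd h' hr, fun ys h2 h3 => ?_⟩
      exact (h1 ys h2).1 (h ys h2 fun y hy => (Finset.mem_filter.1 (h3 y hy)).1)
        fun y hy => (Finset.mem_filter.1 (h3 y hy)).2
    · rintro ⟨-, h⟩ cs h2 h3
      exact (h1 cs h2).2 fun h4 => h cs h2 fun y hy => Finset.mem_filter.2 ⟨h3 y hy, h4 y hy⟩

/-! ### monotonicity -/

theorem CanonSat.mono {r d N : ℕ} {Y Y' : Finset ℕ} {R : List ℕ → Prop}
    (h : if Even r then Y ⊆ Y' else Y' ⊆ Y) (hs : CanonSat (r + 2) d N Y R) :
    CanonSat (r + 2) d N Y' R := by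
  have heven : Even (r + 2) ↔ Even r := by
    rw [Nat.even_add]; simp
  unfold CanonSat at hs ⊢
  refine Pre.mono (fun us _ _ hus => ?_) hs
  rw [if_congr heven rfl rfl] at hus ⊢
  by_cases hr : Even r
  · rw [if_pos hr] at h hus ⊢
    obtain ⟨cs, h1, h2, h3⟩ := hus
    exact ⟨cs, h1, fun c hc => h (h2 c hc), h3⟩
  · rw [if_neg hr] at h hus ⊢
    exact fun cs h1 h2 => hus cs h1 fun c hc => h (h2 c hc)

/-- the dummies -/
def dums (n m : ℕ) : Finset ℕ := (Finset.range m).image fun u => n + u

theorem dums_card (n m : ℕ) : (dums n m).card = m := by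
  unfold dums
  rw [Finset.card_image_of_injective _ (add_right_injective n), Finset.card_range]

theorem mem_dums {n m y : ℕ} : y ∈ dums n m ↔ n ≤ y ∧ y < n + m := by
  unfold dums
  rw [Finset.mem_image]
  constructor
  · rintro ⟨u, hu, rfl⟩
    have := Finset.mem_range.1 hu
    omega
  · rintro ⟨h1, h2⟩
    exact ⟨y - n, Finset.mem_range.2 (by omega), by omega⟩

/-- padding -/
theorem pad_yes {r d : ℕ} (hd : 0 < d) (A : Str) (k : Un) {m N : ℕ} (hm : 0 < m) (hmN : m ≤ N)
    (hN1 : A.n ≤ N) (hN2 : A.n + m ≤ 2 * N) (hNpos : 0 < 2 * N) (e : Bool)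
    (he : e = true ↔ Even r) :
    (WD (canon (t := r + 2) (Nat.succ_pos _) d)).yes (A, k) ↔
      (WD (canon (t := r + 2) (Nat.succ_pos _) d)).yes
      (mkStr (2 * N) hNpos (r + 2 + d) (fun l =>
        tstA e (cEP A.n m) (fun _ _ y => cUP A.n m y) (mtP e A (r + 2) k.n d)
          (nums (takeL (r + 2) l)) (nums (l.drop (r + 2)))),
        ⟨k.n + m⟩) := by
  have hn := A.pos
  rw [canon_yes, canon_yes]
  -- the meaning of the canonical formula in the new structure
  have key : ∀ Z : Finset ℕ, Z ⊆ Finset.range (2 * N) → Z.card = k.n + m →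
      (CanonSat (r + 2) d (2 * N) Z ((mkStr (2 * N) hNpos (r + 2 + d) fun l =>
        tstA e (cEP A.n m) (fun _ _ y => cUP A.n m y) (mtP e A (r + 2) k.n d)
          (nums (takeL (r + 2) l)) (nums (l.drop (r + 2)))).R 0) ↔
      (if Even r then dums A.n m ⊆ Z else Z ⊆ Finset.range (A.n + m)) ∧
      (Even r → k.n ≤ A.n) ∧ CanonSat (r + 2) d A.n (Z.filter (· < A.n)) (A.R 0)) := by
    intro Z hZ hcard
    have hne : Z.Nonempty := Finset.card_pos.1 (by omega)
    rw [canon_mk hNpos _ hZ, full_iffA hd (by omega) e he]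
    refine and_congr ?_ ?_
    · by_cases hr : Even r
      · rw [if_pos hr, if_pos hr]
        constructor
        · intro h y hy
          obtain ⟨h1, h2⟩ := mem_dums.1 hy
          obtain ⟨y', hy', hc⟩ := h (y - A.n) (by omega)
          unfold cEP at hc
          rw [Bool.or_eq_true, decide_eq_true_eq, decide_eq_true_eq] at hc
          have : y' = y := by omega
          rwa [← this]
        · intro h u _
          by_cases hu : m ≤ u
          · obtain ⟨y, hy⟩ := hne
            exact ⟨y, hy, by unfold cEP; simp [hu]⟩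
          · exact ⟨A.n + u, h (mem_dums.2 ⟨by omega, by omega⟩), by unfold cEP; simp⟩
      · rw [if_neg hr, if_neg hr]
        constructor
        · intro h y hy
          obtain ⟨v, _, hv⟩ := h 0 (by omega)
          have := hv y hy
          unfold cUP at this
          exact Finset.mem_range.2 (of_decide_eq_true this)
        · intro h u _
          refine ⟨0, hNpos, fun y hy => ?_⟩
          unfold cUP
          exact decide_eq_true (Finset.mem_range.1 (h hy))
    · have h1 : ∀ us : List ℕ, us.length = r + 2 → (∀ u ∈ us, u < N) → _ := fun us hus _ =>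
        mtP_iff (A := A) (k := k.n) (d := d) e he (Z := Z) hus
      rw [Pre.congr h1]
      unfold CanonSat
      rw [← Pre.map (N := N) (N' := A.n) (h := fun u => u % A.n) (fun u _ => Nat.mod_lt _ hn)
        (fun u hu => ⟨u, lt_of_lt_of_le hu hN1, Nat.mod_eq_of_lt hu⟩)]
      constructor
      · intro h
        exact ⟨(Pre.const (by omega) (r + 2) true (Even r → k.n ≤ A.n)).1
          (Pre.mono (fun _ _ _ h' => h'.1) h), Pre.mono (fun _ _ _ h' => h'.2) h⟩
      · rintro ⟨h2, h3⟩
        exact Pre.mono (fun _ _ _ h' => ⟨h2, h'⟩) h3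
  constructor
  · rintro ⟨S, hS1, hS2, hsat⟩
    have hdisj : Disjoint S (dums A.n m) := by
      rw [Finset.disjoint_left]
      intro y hy hy'
      have h1 := Finset.mem_range.1 (hS1 hy)
      have h2 := mem_dums.1 hy'
      omega
    have hcard : (S ∪ dums A.n m).card = k.n + m := by
      rw [Finset.card_union_of_disjoint hdisj, hS2, dums_card]
    have hsub : S ∪ dums A.n m ⊆ Finset.range (2 * N) := by
      intro y hy
      rw [Finset.mem_union] at hy
      rcases hy with hy | hy
      · have h1 := Finset.mem_range.1 (hS1 hy)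
        exact Finset.mem_range.2 (by omega)
      · have h2 := mem_dums.1 hy
        exact Finset.mem_range.2 (by omega)
    have hfil : (S ∪ dums A.n m).filter (· < A.n) = S := by
      ext y
      rw [Finset.mem_filter, Finset.mem_union]
      constructor
      · rintro ⟨h1 | h1, h2⟩
        · exact h1
        · have h3 := mem_dums.1 h1
          omega
      · intro h1
        exact ⟨Or.inl h1, Finset.mem_range.1 (hS1 h1)⟩
    have hkn : k.n ≤ A.n := by
      have := Finset.card_le_card hS1
      rw [hS2, Finset.card_range] at this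
      exact this
    refine ⟨_, hsub, hcard, (key _ hsub hcard).2 ⟨?_, fun _ => hkn, by rw [hfil]; exact hsat⟩⟩
    split_ifs
    · exact Finset.subset_union_right
    · intro y hy
      rw [Finset.mem_union] at hy
      rcases hy with hy | hy
      · have h1 := Finset.mem_range.1 (hS1 hy)
        exact Finset.mem_range.2 (by omega)
      · exact Finset.mem_range.2 (mem_dums.1 hy).2
  · rintro ⟨Z, hsub, hcard, hsat⟩
    have hcard' : Z.card = k.n + m := hcard
    obtain ⟨h1, h2, h3⟩ := (key Z hsub hcard').1 hsat
    have hrange : Z.filter (· < A.n) ⊆ Finset.range A.n := fun y hy =>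
      Finset.mem_range.2 (Finset.mem_filter.1 hy).2
    by_cases hr : Even r
    · rw [if_pos hr] at h1
      have h4 : (Z.filter (· < A.n)).card ≤ k.n := by
        have h5 : Disjoint (Z.filter (· < A.n)) (dums A.n m) := by
          rw [Finset.disjoint_left]
          intro y hy hy'
          have h6 := (Finset.mem_filter.1 hy).2
          have h7 := mem_dums.1 hy'
          omega
        have h6 := Finset.card_le_card (Finset.union_subset (Finset.filter_subset (· < A.n) Z) h1)
        rw [Finset.card_union_of_disjoint h5, dums_card, hcard'] at h6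
        omega
      obtain ⟨S, hS1, hS2, hS3⟩ := Finset.exists_subsuperset_card_eq hrange h4
        (by rw [Finset.card_range]; exact h2 hr)
      exact ⟨S, hS2, hS3, h3.mono (by rw [if_pos hr]; exact hS1)⟩
    · rw [if_neg hr] at h1
      have h4 : k.n ≤ (Z.filter (· < A.n)).card := by
        have h5 : Z ⊆ Z.filter (· < A.n) ∪ dums A.n m := by
          intro y hy
          rw [Finset.mem_union, Finset.mem_filter, mem_dums]
          have h6 := Finset.mem_range.1 (h1 hy)
          by_cases h7 : y < A.n
          · exact Or.inl ⟨hy, h7⟩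
          · exact Or.inr ⟨by omega, h6⟩
        have h6 := (Finset.card_le_card h5).trans (Finset.card_union_le _ _)
        rw [dums_card, hcard'] at h6
        omega
      obtain ⟨S, hS1, hS2⟩ := Finset.exists_subset_card_eq h4
      exact ⟨S, hS1.trans hrange, hS2, h3.mono (by rw [if_neg hr]; exact hS1)⟩

end Pool.Agent.EWH
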