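import Pool.Agent.EWH.LogA

/-!
# The classical form of the question
-/

set_option autoImplicit false

namespace Pool.Agent.EWH

open Turing Pool.Agent.TM2Lib

/-! ### the problems with logarithmic weight -/

/-- The number `⌊log₂ |A|⌋` is computable. -/
theorem log_eq_size (n : ℕ) : Nat.log 2 n = Nat.size n - 1 := by
  rcases Nat.eq_zero_or_pos n with rfl | hn
  · simp
  · have h1 : Nat.size n ≤ Nat.log 2 n + 1 := size_le_log n
    have h2 : Nat.log 2 n < Nat.size n := Nat.lt_size.2 (Nat.pow_log_le_self 2 hn.ne')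
    omega

theorem u_log {α : Type} [Enc α] {f : α → ℕ} (hf : UPoly f) : UPoly (fun a => Nat.log 2 (f a)) :=
  (hf.size.sub (UPoly.const 1)).of_eq fun a => (log_eq_size (f a)).symm

theorem logPar_poly : NPC.PolyTime (NPC.code : Str → List Bool) (NPC.code : ℕ → List Bool)
    (fun A => Nat.log 2 A.n) :=
  NPC.polyTime_code (UPoly.toNat (u_log (Poly.strData Poly.id).fst'))

/-- The problem `p-WD_φ` for the weight `⌊log₂ |A|⌋`, where `|A|` is the number of elements of `A`:
the instances are structures `A`, and `A` is a yes-instance iff `A ⊨ φ(S)` for some `S` with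
`⌊log₂ |A|⌋` elements. (The parameter is `⌊log₂ |A|⌋`; it is not used by `Karp`.) -/
def LogWD {s t : ℕ} (φ : PiForm s t) : PProb where
  Inst := Str
  code := NPC.code
  yes A := ∃ S : Finset (Fin s → Fin A.n), S.card = Nat.log 2 A.n ∧ φ.Sat A S
  par A := Nat.log 2 A.n
  par_poly := logPar_poly

/-- polynomial time many-one reducibility (the parameters play no role) -/
def Karp (P Q : PProb) : Prop :=
  ∃ f : P.Inst → Q.Inst, NPC.PolyTime P.code Q.code f ∧ ∀ x, P.yes x ↔ Q.yes (f x)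

/-! ### polynomial time and ept time -/

theorem comp_of_compT {α : Type} {x y : α → List Bool} {T : α → ℕ} (h : CompT x y T)
    (P : Polynomial ℕ) (hP : ∀ a, T a ≤ P.eval (x a).length) : Comp x y := by
  obtain ⟨Q⟩ := h
  refine ⟨⟨Q.K, Q.decK, Q.finK, Q.Γ, Q.F, Q.i, Q.o, Q.ei, Q.eo, P, fun a => ?_⟩⟩
  obtain ⟨n, hn, hr⟩ := Q.spec a
  exact ⟨n, hn.trans (hP a), hr⟩

theorem two_pow_log_le (c k L : ℕ) (hk : k ≤ Nat.log 2 L) : 2 ^ (c * k) ≤ (L + 2) ^ c := by
  rw [Nat.mul_comm, pow_mul]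
  refine Nat.pow_le_pow_left ?_ _
  rcases Nat.eq_zero_or_pos L with rfl | hL
  · rw [Nat.log_zero_right] at hk
    have : k = 0 := by omega
    subst this
    norm_num
  · calc 2 ^ k ≤ 2 ^ Nat.log 2 L := Nat.pow_le_pow_right (by norm_num) hk
      _ ≤ L := Nat.pow_log_le_self 2 hL.ne'
      _ ≤ L + 2 := by omega

theorem polyTime_of_ept {α β : Type} {ca : α → List Bool} {cb : β → List Bool} {κ : α → ℕ}
    {f : α → β} (h : EptTime ca cb κ f) (hκ : ∀ a, κ a ≤ Nat.log 2 (ca a).length) :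
    NPC.PolyTime ca cb f := by
  obtain ⟨c, hc⟩ := h.compT
  refine NPC.polyTime_of_comp (comp_of_compT hc
    ((Polynomial.X + 2) ^ c * (Polynomial.X + 2) ^ c + 1) fun a => ?_)
  have h1 := two_pow_log_le c (κ a) (ca a).length (hκ a)
  simp only [Polynomial.eval_add, Polynomial.eval_mul, Polynomial.eval_pow, Polynomial.eval_X,
    Polynomial.eval_ofNat, Polynomial.eval_one]
  exact Nat.succ_le_succ (Nat.mul_le_mul_right _ h1)

/-- the length of an output of a polynomial time function -/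
theorem log_len {α β : Type} {ca : α → List Bool} {cb : β → List Bool} {f : α → β}
    (h : Comp ca (fun a => cb (f a))) :
    ∃ c : ℕ, ∀ a, Nat.log 2 (cb (f a)).length ≤ c * (Nat.log 2 (ca a).length + 1) := by
  obtain ⟨b, hb⟩ := (EptTime.of_comp (fun _ => 0) h).length
  refine ⟨3 * b, fun a => ?_⟩
  have h1 := log_bound (hb a)
  rwa [Nat.zero_add] at h1

theorem Karp.ept {P Q : PProb} (hQ : ∀ y, Q.par y ≤ Nat.log 2 (Q.code y).length)
    (h : Karp P Q) : EptReduces P Q := by
  obtain ⟨f, hf, hyes⟩ := h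
  have hc := NPC.comp_of_polyTime hf
  obtain ⟨c, hlen⟩ := log_len hc
  refine ⟨f, EptTime.of_comp _ hc, hyes, c, fun x => ?_⟩
  calc Q.par (f x) ≤ Nat.log 2 (Q.code (f x)).length := hQ _
    _ ≤ c * (Nat.log 2 (P.code x).length + 1) := hlen x
    _ ≤ c * (P.par x + Nat.log 2 (P.code x).length + 1) := Nat.mul_le_mul_left _ (by omega)

theorem EptReduces.karp {P Q : PProb} (hP : ∀ x, P.par x ≤ Nat.log 2 (P.code x).length)
    (h : EptReduces P Q) : Karp P Q := by
  obtain ⟨f, hf, hyes, -⟩ := h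
  exact ⟨f, polyTime_of_ept hf hP, hyes⟩

theorem str_n_le (A : Str) : A.n ≤ (NPC.code A : List Bool).length := by
  have h1 : (NPC.code A : List Bool).length = sz A := rfl
  have h3 : sz A = sz (((⟨A.n⟩ : Un), A.rels)) := rfl
  have h4 : sz (((⟨A.n⟩ : Un), A.rels)) = sz (⟨A.n⟩ : Un) + sz A.rels + 1 := sz_pair _ _
  have h5 : sz (⟨A.n⟩ : Un) = 2 * A.n + 1 := sz_Un _
  omega

theorem logWD_par {s t : ℕ} (φ : PiForm s t) (A : (LogWD φ).Inst) :
    (LogWD φ).par A ≤ Nat.log 2 ((LogWD φ).code A).length := by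
  have h : ∀ B : Str, Nat.log 2 B.n ≤ Nat.log 2 (NPC.code B : List Bool).length :=
    fun B => Nat.log_mono_right (str_n_le B)
  exact h A

/-! ### from logarithmic weight to arbitrary weight -/

theorem log_reduces {s t : ℕ} (φ : PiForm s t) : EptReduces (LogWD φ) (WD φ) := by
  have h1 : Poly (fun A : Str => (A, (⟨Nat.log 2 A.n⟩ : Un))) :=
    Poly.id.pair (u_log (Poly.strData Poly.id).fst')
  refine ⟨fun A => (A, ⟨Nat.log 2 A.n⟩), EptTime.of_comp _ h1, fun A => Iff.rfl, 1, fun A => ?_⟩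
  show Nat.log 2 A.n ≤ 1 * (Nat.log 2 A.n + _ + 1)
  omega

/-! ### from arbitrary weight to logarithmic weight -/

/-- the padded structure -/
def strP (e : Bool) (t d : ℕ) (x : (Str × Un) × Un) : Str :=
  mkStr (2 * (x.2.n - 1 + 1)) (by omega) (t + d) fun l =>
    tstA e (cEP x.1.1.n (Nat.size x.1.1.n + 2))
      (fun _ _ y => cUP x.1.1.n (Nat.size x.1.1.n + 2) y)
      (mtP e x.1.1 t x.1.2.n d) (nums (takeL t l)) (nums (l.drop t))

section

variable {α : Type} [Enc α]

theorem p_relP {A : α → Str} (hA : Poly A) (t d : ℕ) {us cs : α → List Un} (hus : Poly us)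
    (hcs : Poly cs) : Poly (fun a => relP (A a) t d (nums (us a)) (nums (cs a))) := by
  have hn : UPoly (fun a => (A a).n) := (Poly.strData hA).fst'
  have h1 : Poly (fun a => (A a).rels.getD 0 []) :=
    Poly.getD (Poly.strData hA).snd' (UPoly.const 0) (p_const [])
  have h2 : ∀ x : ℕ, UPoly (fun a => if x < t then (nums (us a)).getD x 0 % (A a).n else
      (nums (cs a)).getD (x - t) 0) := by
    intro x
    by_cases h : x < t
    · simp only [if_pos h]
      exact (u_getD hus x).mod hn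
    · simp only [if_neg h]
      exact u_getD hcs (x - t)
  exact Poly.any (h := fun p : α × List Un => eqL ((List.range (t + d)).map fun x =>
    if x < t then (nums (us p.1)).getD x 0 % (A p.1).n else
      (nums (cs p.1)).getD (x - t) 0) p.2) h1
    (p_eqL (α := α × List Un) (e := fun p x => if x < t then (nums (us p.1)).getD x 0 % (A p.1).n
      else (nums (cs p.1)).getD (x - t) 0)
      (fun x => (h2 x).comp Poly.fst) (List.range (t + d)) Poly.snd)

theorem p_allLt {n : α → ℕ} (hn : UPoly n) {cs : α → List Un} (hcs : Poly cs) :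
    Poly (fun a => (nums (cs a)).all fun c => decide (c < n a)) := by
  have h1 := Poly.all (h := fun p : α × Un => decide (p.2.n < n p.1)) hcs
    ((UPoly.n.comp Poly.snd).lt (hn.comp Poly.fst))
  refine h1.of_eq fun a => ?_
  unfold nums
  rw [List.all_map]
  rfl

theorem p_mtP (e : Bool) {A : α → Str} (hA : Poly A) (t d : ℕ) {k : α → ℕ} (hk : UPoly k)
    {us cs : α → List Un} (hus : Poly us) (hcs : Poly cs) :
    Poly (fun a => mtP e (A a) t (k a) d (nums (us a)) (nums (cs a))) := by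
  have hn : UPoly (fun a => (A a).n) := (Poly.strData hA).fst'
  have h1 := p_allLt hn hcs
  have h2 := p_relP hA t d hus hcs
  unfold mtP
  cases e with
  | false =>
    simp only [Bool.false_eq_true, if_false]
    exact h1.not.or h2
  | true =>
    simp only [if_true]
    exact (hk.le hn).and (h1.and h2)

theorem p_tstP (e : Bool) {A : α → Str} (hA : Poly A) (t d : ℕ) {k m : α → ℕ} (hk : UPoly k)
    (hm : UPoly m) {us cs : α → List Un} (hus : Poly us) (hcs : Poly cs) :
    Poly (fun a => tstA e (cEP (A a).n (m a)) (fun _ _ y => cUP (A a).n (m a) y)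
      (mtP e (A a) t (k a) d) (nums (us a)) (nums (cs a))) := by
  have hn : UPoly (fun a => (A a).n) := (Poly.strData hA).fst'
  have hh : UPoly (fun a => (nums (us a)).headD 0) := (u_getD hus 0).of_eq fun a => by
    rw [headD_eq]
  have hu := hh.div (UPoly.const 2)
  have hz := u_getD hcs 0
  have hus2 : Poly (fun a => (us a).map fun u : Un => (⟨u.n / 2⟩ : Un)) :=
    p_map (h := fun p : α × Un => (⟨p.2.n / 2⟩ : Un)) hus ((UPoly.n.comp Poly.snd).div (UPoly.const 2))
  have hmt := p_mtP e hA t d hk hus2 hcs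
  have h4 := TM2Lib.Poly.ite ((hh.mod (UPoly.const 2)).eq (UPoly.const 1))
    (TM2Lib.Poly.ite (p_const e) ((hm.le hu).or (hz.eq (hn.add hu)))
      (hz.lt (hn.add hm))) hmt
  refine h4.of_eq fun a => ?_
  have hm : nums ((us a).map fun u : Un => (⟨u.n / 2⟩ : Un)) = (nums (us a)).map fun u => u / 2 :=
    nums_map (us a) fun u => u / 2
  rw [hm]
  unfold tstA cEP cUP
  by_cases h : (nums (us a)).headD 0 % 2 = 1 <;> simp

end

theorem p_strP (e : Bool) (t d : ℕ) : Poly (strP e t d) := by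
  have hA : Poly (fun x : (Str × Un) × Un => x.1.1) := Poly.fst.fst'
  have hn : UPoly (fun x : (Str × Un) × Un => x.1.1.n) := (Poly.strData hA).fst'
  have hk : UPoly (fun x : (Str × Un) × Un => x.1.2.n) := UPoly.n.comp Poly.fst.snd'
  have hV : UPoly (fun x : (Str × Un) × Un => x.2.n) := UPoly.n.comp Poly.snd
  have hM : UPoly (fun x : (Str × Un) × Un => 2 * (x.2.n - 1 + 1)) :=
    (UPoly.const 2).mul ((hV.sub (UPoly.const 1)).add (UPoly.const 1))
  have hm : UPoly (fun x : (Str × Un) × Un => Nat.size x.1.1.n + 2) :=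
    hn.size.add (UPoly.const 2)
  have hT : Poly (fun p : ((Str × Un) × Un) × List Un =>
      tstA e (cEP p.1.1.1.n (Nat.size p.1.1.1.n + 2))
        (fun _ _ y => cUP p.1.1.1.n (Nat.size p.1.1.1.n + 2) y)
        (mtP e p.1.1.1 t p.1.1.2.n d) (nums (takeL t p.2)) (nums (p.2.drop t))) :=
    p_tstP e (hA.comp Poly.fst) t d (hk.comp Poly.fst) (hm.comp Poly.fst)
      (p_takeL t Poly.snd) (Poly.dropU Poly.snd (UPoly.const t))
  exact p_str (α := (Str × Un) × Un) (M := fun x => 2 * (x.2.n - 1 + 1))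
    (fun x => by omega) hM (t + d) hT

theorem wd_reduces_log {t d : ℕ} (ht : 2 ≤ t) (hd : 0 < d) :
    EptReduces (WD (canon (t := t) (Nat.zero_lt_of_lt ht) d))
      (LogWD (canon (t := t) (Nat.zero_lt_of_lt ht) d)) := by
  obtain ⟨r, rfl⟩ : ∃ r, t = r + 2 := ⟨t - 2, by omega⟩
  set e : Bool := decide (Even r) with he
  have hone : ∀ n k : ℕ, 2 ^ (k + Nat.size n + 1) - 1 + 1 = 2 ^ (k + Nat.size n + 1) := fun n k => by
    have := Nat.two_pow_pos (k + Nat.size n + 1)
    omega
  have hN : ∀ n k : ℕ, 2 * (2 ^ (k + Nat.size n + 1) - 1 + 1) = 2 ^ (k + (Nat.size n + 2)) :=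
    fun n k => by
      rw [hone]
      have : k + (Nat.size n + 2) = k + Nat.size n + 1 + 1 := by ring
      rw [this, pow_succ 2 (k + Nat.size n + 1)]
      ring
  have hlog : ∀ x : Str × Un, Nat.log 2 (strP e (r + 2) d (x, ⟨2 ^ (x.2.n + Nat.size x.1.n + 1)⟩)).n =
      x.2.n + (Nat.size x.1.n + 2) := by
    intro x
    have h1 : (strP e (r + 2) d (x, ⟨2 ^ (x.2.n + Nat.size x.1.n + 1)⟩)).n =
      2 * (2 ^ (x.2.n + Nat.size x.1.n + 1) - 1 + 1) := rfl
    rw [h1, hN, Nat.log_pow (by norm_num)]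
  have hsz : ∀ x : Str × Un, Nat.size x.1.n ≤ Nat.log 2 (NPC.code x : List Bool).length + 1 :=
    fun x => (size_le_log x.1.n).trans (Nat.succ_le_succ (Nat.log_mono_right (n_le_code x)))
  refine ⟨fun x => strP e (r + 2) d (x, ⟨2 ^ (x.2.n + Nat.size x.1.n + 1)⟩), ?_, ?_, 3, ?_⟩
  · have hn : UPoly (fun x : Str × Un => x.1.n) := (Poly.strData Poly.fst).fst'
    have hk : UPoly (fun x : Str × Un => x.2.n) := UPoly.n.comp Poly.snd
    refine ept_of_pad (α := Str × Un) (β := Str) (κ := fun x => x.2.n)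
      (L := fun x => x.2.n + Nat.size x.1.n + 1)
      ((hk.add hn.size).add (UPoly.const 1)) ⟨2, fun x => ?_⟩ (p_strP e (r + 2) d)
    have h1 := hsz x
    omega
  · rintro ⟨A, k⟩
    have hn := A.pos
    have hs : A.n < 2 ^ Nat.size A.n := Nat.lt_size_self A.n
    have hs2 : 2 ^ Nat.size A.n ≤ 2 ^ (k.n + Nat.size A.n) :=
      Nat.pow_le_pow_right (by norm_num) (by omega)
    have hs3 : 2 ^ (k.n + Nat.size A.n + 1) = 2 ^ (k.n + Nat.size A.n) * 2 := pow_succ _ _
    have hs4 : Nat.size A.n ≤ A.n := by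
      rw [Nat.size_le]
      exact Nat.lt_two_pow_self
    have key := pad_yes (r := r) hd A k (m := Nat.size A.n + 2)
      (N := 2 ^ (k.n + Nat.size A.n + 1) - 1 + 1) (by omega) (by rw [hone]; omega)
      (by rw [hone]; omega) (by rw [hone]; omega) (by omega) e (by simp [he])
    refine key.trans ?_
    show (∃ S : Finset (Fin 1 → Fin (strP e (r + 2) d ((A, k), ⟨2 ^ (k.n + Nat.size A.n + 1)⟩)).n),
        S.card = k.n + (Nat.size A.n + 2) ∧ _) ↔ (∃ S : Finset (Fin 1 → Fin (strP e (r + 2) d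
        ((A, k), ⟨2 ^ (k.n + Nat.size A.n + 1)⟩)).n), S.card = Nat.log 2 _ ∧ _)
    rw [hlog (A, k)]
    exact Iff.rfl
  · rintro ⟨A, k⟩
    have h1 := hsz (A, k)
    have h2 := hlog (A, k)
    refine (show Nat.log 2 (strP e (r + 2) d ((A, k), ⟨2 ^ (k.n + Nat.size A.n + 1)⟩)).n ≤
      3 * (k.n + Nat.log 2 (NPC.code ((A, k) : Str × Un) : List Bool).length + 1) from ?_)
    simp only at h1 h2
    omega

/-! ### the equivalence -/

theorem ept_iff_karp {t : ℕ} (ht : 2 ≤ t) (d d' : ℕ) (hd : 0 < d) (hd' : 0 < d') :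
    EptReduces (WD (canon (t := t) (Nat.zero_lt_of_lt ht) d))
      (WD (canon (t := t) (Nat.zero_lt_of_lt ht) d')) ↔
    Karp (LogWD (canon (t := t) (Nat.zero_lt_of_lt ht) d))
      (LogWD (canon (t := t) (Nat.zero_lt_of_lt ht) d')) := by
  constructor
  · intro h
    exact (((log_reduces _).trans h).trans (wd_reduces_log ht hd')).karp (logWD_par _)
  · intro h
    exact ((wd_reduces_log ht hd).trans (h.ept (logWD_par _))).trans (log_reduces _)

theorem closure_iff_karp {t : ℕ} (ht : 2 ≤ t) (d : ℕ) (hd : 0 < d) :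
    EptClosure (pWD t d) = EW t ↔
    Karp (LogWD (canon (t := t) (Nat.zero_lt_of_lt ht) d))
      (LogWD (canon (t := t) (Nat.zero_lt_of_lt ht) 1)) := by
  rw [← ept_iff_karp ht d 1 hd one_pos]
  constructor
  · intro h
    have h1 : WD (canon (t := t) (Nat.zero_lt_of_lt ht) d) ∈ EW t := by
      rw [← h]
      exact subset_closure _ (canon_mem _ d)
    obtain ⟨Q, ⟨s, hs, φ, hφ, rfl⟩, hQ⟩ := h1
    exact hQ.trans (wd_reduces_canon ht one_pos φ (narrow_of_occ φ hφ))
  · intro h
    refine Set.Subset.antisymm (closure_mono ?_) (closure_mono ?_)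
    · rintro P ⟨s, hs, φ, hφ, rfl⟩
      exact ⟨_, canon_mem _ 1, (wd_reduces_canon ht hd φ (narrow_of_occ φ hφ)).trans h⟩
    · rintro P ⟨s, hs, φ, hφ, rfl⟩
      exact subset_closure _ ⟨s, hs, φ, le_trans hφ hd, rfl⟩

theorem all_iff_karp {t : ℕ} (ht : 2 ≤ t) :
    EptClosure (pWDall t) = EW t ↔ ∀ d : ℕ, 0 < d →
    Karp (LogWD (canon (t := t) (Nat.zero_lt_of_lt ht) d))
      (LogWD (canon (t := t) (Nat.zero_lt_of_lt ht) 1)) := by
  constructor
  · intro h d hd
    rw [← closure_iff_karp ht d hd]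
    refine Set.Subset.antisymm ?_ (closure_mono ?_)
    · rw [← h]
      refine closure_mono ?_
      rintro P ⟨s, hs, φ, -, rfl⟩
      exact subset_closure _ ⟨s, hs, φ, rfl⟩
    · rintro P ⟨s, hs, φ, hφ, rfl⟩
      exact subset_closure _ ⟨s, hs, φ, le_trans hφ hd, rfl⟩
  · intro h
    refine Set.Subset.antisymm (closure_mono ?_) (closure_mono ?_)
    · rintro P ⟨s, hs, φ, rfl⟩
      have h1 := (closure_iff_karp ht (φ.mat.occ + 1) (Nat.succ_pos _)).2 (h _ (Nat.succ_pos _))
      have h2 : WD φ ∈ EptClosure (pWD t (φ.mat.occ + 1)) :=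
        subset_closure _ ⟨s, hs, φ, Nat.le_succ _, rfl⟩
      rw [h1] at h2
      exact h2
    · rintro P ⟨s, hs, φ, -, rfl⟩
      exact subset_closure _ ⟨s, hs, φ, rfl⟩

end Pool.Agent.EWH
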