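import Pool.Agent.EWH.Sem

/-!
# The matrix of a formula, sets of numbers as increasing sequences
-/

set_option autoImplicit false

namespace Pool.Agent.EWH

open Pool.Agent.TM2Lib

/-! ### evaluation -/

/-- equality of a list of numbers and a list of unary numbers -/
def eqL : List ℕ → List Un → Bool
  | [], [] => true
  | x :: xs, y :: ys => decide (x = y.n) && eqL xs ys
  | [], _ :: _ => false
  | _ :: _, [] => false

theorem eqL_iff : ∀ (xs : List ℕ) (ys : List Un), eqL xs ys = true ↔ xs.map Un.mk = ys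
  | [], [] => by simp [eqL]
  | x :: xs, y :: ys => by
    obtain ⟨y⟩ := y
    simp only [eqL, Bool.and_eq_true, decide_eq_true_eq, List.map_cons, List.cons.injEq,
      eqL_iff xs ys, Un.mk.injEq]
  | [], _ :: _ => by simp [eqL]
  | _ :: _, [] => by simp [eqL]

/-- the number which codes a tuple -/
def num (n : ℕ) {s : ℕ} (f : Fin s → ℕ) : ℕ := ∑ j : Fin s, f j * n ^ (j : ℕ)

theorem num_eq {n s : ℕ} (f : Fin s → Fin n) :
    num n (fun j => (f j : ℕ)) = (finFunctionFinEquiv f : ℕ) := rfl

/-- evaluation of the matrix, with an oracle for the atoms `X …` -/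
def ev {s : ℕ} {v : Type} (A : Str) (e : v → ℕ) (ρ : (Fin s → v) → Bool) : QF s v → Bool
  | .tru => true
  | .eq x y => decide (e x = e y)
  | .rel i x => (A.rels.getD i []).any (eqL (x.map e))
  | .X x => ρ x
  | .not φ => !(ev A e ρ φ)
  | .and φ ψ => ev A e ρ φ && ev A e ρ ψ

theorem ev_iff {s : ℕ} {v : Type} (A : Str) (S : Finset (Fin s → Fin A.n)) (e : v → Fin A.n)
    (ρ : (Fin s → v) → Bool) (hρ : ∀ x, ρ x = true ↔ (fun j => e (x j)) ∈ S) (φ : QF s v) :
    φ.Holds A S e ↔ ev A (fun x => (e x : ℕ)) ρ φ = true := by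
  induction φ with
  | tru => simp [QF.Holds, ev]
  | eq x y => simp [QF.Holds, ev, Fin.ext_iff]
  | rel i x =>
    simp only [QF.Holds, ev, List.any_eq_true, Str.R, eqL_iff]
    constructor
    · intro h; exact ⟨_, h, rfl⟩
    · rintro ⟨l, hl, h⟩; rw [h]; exact hl
  | X x => simp only [QF.Holds, ev, hρ]
  | not φ ih => simp only [QF.Holds, ev, ih, Bool.not_eq_true', Bool.not_eq_true]
  | and φ ψ ih1 ih2 => simp only [QF.Holds, ev, ih1, ih2, Bool.and_eq_true]

/-- the atoms with `X` -/
def QF.atoms {s : ℕ} {v : Type} : QF s v → List (Fin s → v)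
  | .tru => []
  | .eq _ _ => []
  | .rel _ _ => []
  | .X x => [x]
  | .not φ => φ.atoms
  | .and φ ψ => φ.atoms ++ ψ.atoms

theorem atoms_length {s : ℕ} {v : Type} (φ : QF s v) : φ.atoms.length = φ.occ := by
  induction φ with
  | not φ ih => exact ih
  | and φ ψ ih1 ih2 => simp [QF.atoms, QF.occ, ih1, ih2]
  | _ => rfl

theorem ev_congr {s : ℕ} {v : Type} (A : Str) (e e' : v → ℕ) (he : ∀ x, e x = e' x)
    (ρ ρ' : (Fin s → v) → Bool) (φ : QF s v) (h : ∀ x ∈ φ.atoms, ρ x = ρ' x) :
    ev A e ρ φ = ev A e' ρ' φ := by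
  obtain rfl : e = e' := funext he
  induction φ with
  | X x => exact h x (by simp [QF.atoms])
  | not φ ih => simp only [ev, ih h]
  | and φ ψ ih1 ih2 =>
    simp only [ev, ih1 (fun x hx => h x (by simp [QF.atoms, hx])),
      ih2 (fun x hx => h x (by simp [QF.atoms, hx]))]
  | _ => rfl

/-- the oracle given by a list of truth values for the list `at` of atoms -/
def rho {s : ℕ} {v : Type} [DecidableEq v] (ats : List (Fin s → v)) (σ : List Bool) :
    (Fin s → v) → Bool := fun x => σ.getD (ats.idxOf x) false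

theorem rho_map {s : ℕ} {v : Type} [DecidableEq v] (ats : List (Fin s → v))
    (ρ : (Fin s → v) → Bool) {x : Fin s → v} (hx : x ∈ ats) : rho ats (ats.map ρ) x = ρ x := by
  unfold rho
  have h : ats.idxOf x < ats.length := List.idxOf_lt_length_iff.2 hx
  rw [List.getD_eq_getElem _ _ (by simpa using h), List.getElem_map, List.getElem_idxOf]

/-- truth value of the formula `ψ`; `ats` is a list of atoms and `σ` the list of their truth
values -/
def val {s : ℕ} (bs : List ℕ) (ats : List (Fin s → Fin bs.sum)) (A : Str) (us : List ℕ)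
    (σ : List Bool) (ψ : QF s (Fin bs.sum)) : Bool :=
  ev A (fun x : Fin bs.sum => decv A.n bs us x) (rho ats σ) ψ

/-- the numbers of the tuples in the atoms -/
def ws {s : ℕ} (bs : List ℕ) (ats : List (Fin s → Fin bs.sum)) (n : ℕ) (us : List ℕ) : List ℕ :=
  ats.map fun x => num n fun j => decv n bs us (x j)

theorem ws_lt {s : ℕ} (bs : List ℕ) (ats : List (Fin s → Fin bs.sum)) {n : ℕ} (hn : 0 < n)
    (us : List ℕ) : ∀ w ∈ ws bs ats n us, w < n ^ s := by
  intro w hw
  rw [ws, List.mem_map] at hw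
  obtain ⟨x, _, rfl⟩ := hw
  have := num_eq (n := n) fun j => ⟨decv n bs us (x j), decv_lt hn _ _ _⟩
  simp only at this
  rw [this]
  exact Fin.is_lt _

/-- the truth of the matrix for the list `χ` of truth values of the atoms -/
def MatOk {s t : ℕ} (φ : PiForm s t) (L : List (QF s (Fin φ.bs.sum))) (A : Str) (us : List ℕ)
    (χ : List Bool) : Prop :=
  if Even t then ∃ ψ ∈ L, val φ.bs (L.flatMap QF.atoms) A us χ ψ = true
  else ∀ ψ ∈ L, val φ.bs (L.flatMap QF.atoms) A us χ ψ = true

theorem wd_yes {s t : ℕ} (φ : PiForm s t) {L : List (QF s (Fin φ.bs.sum))} (hL : Equ φ L)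
    (A : Str) (k : Un) {N : ℕ} (hN : ∀ b ∈ φ.bs, A.n ^ b ≤ N) :
    (WD φ).yes (A, k) ↔ ∃ S : Finset ℕ, S ⊆ Finset.range (A.n ^ s) ∧ S.card = k.n ∧
      Pre N t true fun us => MatOk φ L A us
        ((ws φ.bs (L.flatMap QF.atoms) A.n us).map fun w => decide (w ∈ S)) := by
  have hn := A.pos
  set E : (Fin s → Fin A.n) ≃ Fin (A.n ^ s) := finFunctionFinEquiv with hE
  have hinj : Function.Injective fun f : Fin s → Fin A.n => (E f : ℕ) := by
    intro f g h
    exact E.injective (Fin.ext h)
  have key : ∀ S : Finset (Fin s → Fin A.n), φ.Sat A S ↔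
      Pre N t true fun us => MatOk φ L A us ((ws φ.bs (L.flatMap QF.atoms) A.n us).map fun w =>
        decide (w ∈ S.image fun f => (E f : ℕ))) := by
    intro S
    unfold PiForm.Sat
    rw [alt_pre hn φ.bs true _ hN, φ.len]
    refine Pre.congr fun us _ _ => ?_
    set e : Fin φ.bs.sum → Fin A.n := fun x => (decl A.n hn φ.bs us).getD x ⟨0, hn⟩ with he
    have he' : ∀ x : Fin φ.bs.sum, (e x : ℕ) = decv A.n φ.bs us x := fun x =>
      decl_getD hn _ φ.bs us x x.2
    have hmem : ∀ x : Fin s → Fin φ.bs.sum, ((fun j => e (x j)) ∈ S) ↔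
        (num A.n fun j => decv A.n φ.bs us (x j)) ∈ S.image fun f => (E f : ℕ) := by
      intro x
      have h1 : (num A.n fun j => decv A.n φ.bs us (x j)) = (E fun j => e (x j) : ℕ) := by
        rw [← num_eq]
        unfold num
        refine Finset.sum_congr rfl fun j _ => ?_
        show decv A.n φ.bs us (x j) * _ = (e (x j) : ℕ) * _
        rw [he']
      rw [h1, Finset.mem_image]
      constructor
      · intro h; exact ⟨_, h, rfl⟩
      · rintro ⟨f, hf, hfe⟩
        rw [← hinj hfe]; exact hf
    have hψ : ∀ ψ ∈ L, ψ.Holds A S e ↔ val φ.bs (L.flatMap QF.atoms) A us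
        ((ws φ.bs (L.flatMap QF.atoms) A.n us).map fun w =>
          decide (w ∈ S.image fun f => (E f : ℕ))) ψ = true := by
      intro ψ hψ
      rw [ev_iff A S e (fun x => decide ((fun j => e (x j)) ∈ S)) (fun x => by simp) ψ]
      unfold val
      rw [ev_congr A _ (fun x : Fin φ.bs.sum => decv A.n φ.bs us x) he' _
        (rho (L.flatMap QF.atoms) ((ws φ.bs (L.flatMap QF.atoms) A.n us).map fun w =>
          decide (w ∈ S.image fun f => (E f : ℕ)))) ψ ?_]
      intro x hx
      unfold ws
      rw [List.map_map, rho_map _ _ (List.mem_flatMap.2 ⟨ψ, hψ, hx⟩)]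
      simp only [Function.comp, hmem]
    rw [hL A S e]
    unfold MatOk
    split_ifs
    · exact exists_congr fun ψ => and_congr_right fun h => hψ ψ h
    · exact forall_congr' fun ψ => forall_congr' fun h => hψ ψ h
  show (∃ S : Finset (Fin s → Fin A.n), S.card = k.n ∧ φ.Sat A S) ↔ _
  constructor
  · rintro ⟨S, h1, h2⟩
    refine ⟨S.image fun f => (E f : ℕ), ?_, ?_, (key S).1 h2⟩
    · intro y hy
      rw [Finset.mem_image] at hy
      obtain ⟨f, _, rfl⟩ := hy
      exact Finset.mem_range.2 (E f).2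
    · rw [Finset.card_image_of_injective _ hinj, h1]
  · rintro ⟨S', h1, h2, h3⟩
    set S : Finset (Fin s → Fin A.n) := Finset.univ.filter fun f => (E f : ℕ) ∈ S' with hS
    have himg : S.image (fun f => (E f : ℕ)) = S' := by
      ext y
      rw [Finset.mem_image]
      constructor
      · rintro ⟨f, hf, rfl⟩
        exact (Finset.mem_filter.1 hf).2
      · intro hy
        refine ⟨E.symm ⟨y, Finset.mem_range.1 (h1 hy)⟩, ?_, ?_⟩
        · rw [hS, Finset.mem_filter]
          refine ⟨Finset.mem_univ _, ?_⟩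
          rw [Equiv.apply_symm_apply]
          exact hy
        · rw [Equiv.apply_symm_apply]
    refine ⟨S, ?_, (key S).2 ?_⟩
    · rw [← Finset.card_image_of_injective _ hinj, himg, h2]
    · rw [himg]; exact h3

/-! ### sets of numbers as increasing sequences -/

/-- `0 = s 0 < s 1 < … < s (k + 1) = m + 1` -/
structure Chain (m k : ℕ) (s : ℕ → ℕ) : Prop where
  zero : s 0 = 0
  last : s (k + 1) = m + 1
  lt : ∀ i ≤ k, s i < s (i + 1)

theorem Chain.mono {m k : ℕ} {s : ℕ → ℕ} (h : Chain m k s) :
    ∀ {i j : ℕ}, i < j → j ≤ k + 1 → s i < s j := by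
  intro i j hij
  induction j with
  | zero => omega
  | succ j ih =>
    intro hj
    rcases Nat.lt_or_ge i j with h1 | h1
    · exact (ih h1 (by omega)).trans (h.lt j (by omega))
    · obtain rfl : i = j := by omega
      exact h.lt i (by omega)

theorem Chain.le_last {m k : ℕ} {s : ℕ → ℕ} (h : Chain m k s) {i : ℕ} (hi : i ≤ k + 1) :
    s i ≤ m + 1 := by
  rcases Nat.lt_or_ge i (k + 1) with h1 | h1
  · rw [← h.last]; exact (h.mono h1 le_rfl).le
  · obtain rfl : i = k + 1 := by omega
    rw [h.last]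

/-- witness of `w ∈ S` (`σ = true`) or `w ∉ S` (`σ = false`) in the gap from `a` to `b` -/
def wit (a b w : ℕ) (σ : Bool) : Bool :=
  if σ then decide (a = w + 1) else decide (a < w + 1) && decide (w + 1 < b)

/-- the sequence `s` represents the set `S` -/
def Rep (k : ℕ) (s : ℕ → ℕ) (S : Finset ℕ) : Prop := ∀ w, w ∈ S ↔ ∃ i, i ≤ k ∧ s i = w + 1

theorem Chain.wit_iff {m k : ℕ} {s : ℕ → ℕ} (h : Chain m k s) {S : Finset ℕ} (hS : Rep k s S)
    {w : ℕ} (hw : w < m) (σ : Bool) :
    decide (w ∈ S) = σ ↔ ∃ i ≤ k, wit (s i) (s (i + 1)) w σ = true := by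
  cases σ with
  | true =>
    simp only [decide_eq_true_eq, wit, if_true]
    exact hS w
  | false =>
    simp only [decide_eq_false_iff_not, wit, Bool.false_eq_true, if_false, Bool.and_eq_true,
      decide_eq_true_eq]
    constructor
    · intro hn
      -- the last `i` with `s i < w + 1`
      have hex : ∃ i, w + 1 ≤ s i := ⟨k + 1, by rw [h.last]; omega⟩
      have hspec := Nat.find_spec hex
      have hmin := fun i => Nat.find_min hex (m := i)
      generalize Nat.find hex = j at hspec hmin
      have hj0 : j ≠ 0 := by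
        rintro rfl
        rw [h.zero] at hspec
        omega
      obtain ⟨i, rfl⟩ : ∃ i, j = i + 1 := ⟨j - 1, by omega⟩
      have hik : i ≤ k := by
        by_contra hc
        have := hmin (k + 1) (by omega)
        rw [h.last] at this
        omega
      have h1 := hmin i (by omega)
      refine ⟨i, hik, by omega, lt_of_le_of_ne hspec fun heq => ?_⟩
      rcases Nat.lt_or_ge i k with h2 | h2
      · exact hn ((hS w).2 ⟨i + 1, by omega, heq.symm⟩)
      · obtain rfl : i = k := by omega
        rw [h.last] at heq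
        omega
    · rintro ⟨i, hik, h1, h2⟩ hmem
      obtain ⟨j, hjk, hj⟩ := (hS w).1 hmem
      rcases Nat.lt_trichotomy j i with h3 | h3 | h3
      · have := h.mono h3 (by omega)
        omega
      · rw [h3] at hj; omega
      · rcases Nat.lt_or_ge (i + 1) j with h4 | h4
        · have := h.mono h4 (by omega)
          omega
        · obtain rfl : j = i + 1 := by omega
          omega

theorem chain_of_set {m k : ℕ} {S : Finset ℕ} (h1 : S ⊆ Finset.range m) (h2 : S.card = k) :
    ∃ s : ℕ → ℕ, Chain m k s ∧ Rep k s S := by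
  set g := S.orderEmbOfFin h2 with hg
  have hgm : ∀ i, g i ∈ S := fun i => Finset.orderEmbOfFin_mem S h2 i
  refine ⟨fun i => if h : 1 ≤ i ∧ i ≤ k then g ⟨i - 1, by omega⟩ + 1 else
    if i = 0 then 0 else m + 1, ⟨?_, ?_, ?_⟩, ?_⟩
  · simp
  · simp
  · intro i hi
    have hm : ∀ j, g j < m := fun j => Finset.mem_range.1 (h1 (hgm j))
    rcases Nat.eq_zero_or_pos i with rfl | hi0
    · rcases Nat.eq_zero_or_pos k with rfl | hk0
      · simp
      · rw [dif_neg (by omega), if_pos rfl, dif_pos (by omega)]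
        omega
    · rw [dif_pos (by omega)]
      rcases Nat.lt_or_ge i k with h3 | h3
      · rw [dif_pos (by omega)]
        have : g ⟨i - 1, by omega⟩ < g ⟨i + 1 - 1, by omega⟩ :=
          g.strictMono (by rw [Fin.lt_def]; simp only; omega)
        omega
      · rw [dif_neg (by omega), if_neg (by omega)]
        have := hm ⟨i - 1, by omega⟩
        omega
  · intro w
    constructor
    · intro hw
      have : w ∈ Set.range g := by
        rw [hg, Finset.range_orderEmbOfFin]; exact hw
      obtain ⟨j, hj⟩ := this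
      refine ⟨j + 1, by omega, ?_⟩
      simp only
      rw [dif_pos (by omega)]
      have : (⟨(j : ℕ) + 1 - 1, by omega⟩ : Fin k) = j := Fin.ext (by simp)
      rw [this, hj]
    · rintro ⟨i, hi, h3⟩
      simp only at h3
      split_ifs at h3 with h4 h5
      · have : g ⟨i - 1, by omega⟩ = w := by omega
        rw [← this]; exact hgm _
      · omega

theorem set_of_chain {m k : ℕ} {s : ℕ → ℕ} (h : Chain m k s) :
    ∃ S : Finset ℕ, S ⊆ Finset.range m ∧ S.card = k ∧ Rep k s S := by
  have hpos : ∀ i, 1 ≤ i → i ≤ k + 1 → 1 ≤ s i := by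
    intro i h1 h2
    have := h.mono (i := 0) (j := i) (by omega) h2
    omega
  refine ⟨(Finset.range k).image fun i => s (i + 1) - 1, ?_, ?_, ?_⟩
  · intro y hy
    rw [Finset.mem_image] at hy
    obtain ⟨i, hi, rfl⟩ := hy
    rw [Finset.mem_range] at hi ⊢
    have h1 := h.mono (i := i + 1) (j := k + 1) (by omega) le_rfl
    have h2 := hpos (i + 1) (by omega) (by omega)
    rw [h.last] at h1
    omega
  · rw [Finset.card_image_of_injOn, Finset.card_range]
    intro i hi j hj hij
    simp only [Finset.coe_range, Set.mem_Iio] at hi hj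
    simp only at hij
    have h1 := hpos (i + 1) (by omega) (by omega)
    have h2 := hpos (j + 1) (by omega) (by omega)
    rcases Nat.lt_trichotomy i j with h3 | h3 | h3
    · have := h.mono (i := i + 1) (j := j + 1) (by omega) (by omega)
      omega
    · exact h3
    · have := h.mono (i := j + 1) (j := i + 1) (by omega) (by omega)
      omega
  · intro w
    rw [Finset.mem_image]
    constructor
    · rintro ⟨i, hi, rfl⟩
      rw [Finset.mem_range] at hi
      have h2 := hpos (i + 1) (by omega) (by omega)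
      exact ⟨i + 1, by omega, by omega⟩
    · rintro ⟨i, hi, h3⟩
      have hi0 : i ≠ 0 := by
        rintro rfl
        rw [h.zero] at h3
        omega
      refine ⟨i - 1, Finset.mem_range.2 (by omega), ?_⟩
      have : i - 1 + 1 = i := by omega
      rw [this, h3]
      omega

/-- The problem in terms of increasing sequences. -/
theorem wd_yes_chain {s t : ℕ} (φ : PiForm s t) {L : List (QF s (Fin φ.bs.sum))} (hL : Equ φ L)
    (A : Str) (k : Un) {N : ℕ} (hN : ∀ b ∈ φ.bs, A.n ^ b ≤ N) :
    (WD φ).yes (A, k) ↔ ∃ (c : ℕ → ℕ) (S : Finset ℕ), Chain (A.n ^ s) k.n c ∧ Rep k.n c S ∧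
      Pre N t true fun us => MatOk φ L A us
        ((ws φ.bs (L.flatMap QF.atoms) A.n us).map fun w => decide (w ∈ S)) := by
  rw [wd_yes φ hL A k hN]
  constructor
  · rintro ⟨S, h1, h2, h3⟩
    obtain ⟨c, h4, h5⟩ := chain_of_set h1 h2
    exact ⟨c, S, h4, h5, h3⟩
  · rintro ⟨c, S, h1, h2, h3⟩
    obtain ⟨S', h4, h5, h6⟩ := set_of_chain h1
    have : S = S' := by
      ext w; rw [h2 w, h6 w]
    exact ⟨S, by rw [this]; exact h4, by rw [this]; exact h5, h3⟩

end Pool.Agent.EWH
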