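import Pool.Agent.EWH.Defs

/-!
# Time bounds: composition of machines, transitivity of ept-reductions
-/

set_option autoImplicit false

namespace Pool.Agent.EWH

open Function Turing Pool.Agent.TM2Lib

/-! ### procedures with a time bound -/

/-- A procedure transforming `x a` into `y a` in at most `T a` steps. -/
structure ProcT {α : Type} (x y : α → List Bool) (T : α → ℕ) where
  K : Type
  decK : DecidableEq K
  finK : Fintype K
  Γ : K → Type
  F : Frag K Γ
  i : K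
  o : K
  ei : Γ i ≃ Bool
  eo : Γ o ≃ Bool
  spec : ∀ a, ∃ n ≤ T a,
    F.Run (single i ((x a).map ei.symm)) (single o ((y a).map eo.symm)) n

attribute [instance] ProcT.decK ProcT.finK

/-- `y a` can be computed from `x a` in time `T a` -/
def CompT {α : Type} (x y : α → List Bool) (T : α → ℕ) : Prop := Nonempty (ProcT x y T)

theorem CompT.mono {α : Type} {x y : α → List Bool} {T T' : α → ℕ} (h : CompT x y T)
    (hT : ∀ a, T a ≤ T' a) : CompT x y T' := by
  obtain ⟨P⟩ := h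
  refine ⟨⟨P.K, P.decK, P.finK, P.Γ, P.F, P.i, P.o, P.ei, P.eo, fun a => ?_⟩⟩
  obtain ⟨n, hn, hr⟩ := P.spec a
  exact ⟨n, hn.trans (hT a), hr⟩

theorem CompT.reindex {α β : Type} {x y : β → List Bool} {T : β → ℕ} (h : CompT x y T)
    (f : α → β) : CompT (fun a => x (f a)) (fun a => y (f a)) (fun a => T (f a)) := by
  obtain ⟨P⟩ := h
  exact ⟨⟨P.K, P.decK, P.finK, P.Γ, P.F, P.i, P.o, P.ei, P.eo, fun a => P.spec (f a)⟩⟩

theorem CompT.of_comp {α : Type} {x y : α → List Bool} (h : Comp x y) :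
    ∃ P : Polynomial ℕ, CompT x y (fun a => P.eval (x a).length) := by
  obtain ⟨P⟩ := h
  exact ⟨P.T, ⟨⟨P.K, P.decK, P.finK, P.Γ, P.F, P.i, P.o, P.ei, P.eo, P.spec⟩⟩⟩

/-- the output is not much longer than the running time -/
theorem CompT.size {α : Type} {x y : α → List Bool} {T : α → ℕ} (h : CompT x y T) :
    ∃ C : ℕ, ∀ a, (y a).length ≤ (x a).length + T a * C := by
  obtain ⟨P⟩ := h
  have := P.F.finΛ
  refine ⟨∑ l, pushes (P.F.M l), fun a => ?_⟩
  obtain ⟨n, hn, hr⟩ := P.spec a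
  obtain ⟨v', hv⟩ := hr P.F.inh
  have h1 := total_reach _ n hv
  have h2 : total (single P.o ((y a).map P.eo.symm)) ≤ total (single P.i ((x a).map P.ei.symm))
    + n * ∑ l, pushes (P.F.M l) := h1
  rw [total_single, total_single, List.length_map, List.length_map] at h2
  have h3 : n * ∑ l, pushes (P.F.M l) ≤ T a * ∑ l, pushes (P.F.M l) :=
    Nat.mul_le_mul_right _ hn
  omega

/-- Composition. -/
theorem CompT.trans {α : Type} {x y z : α → List Bool} {T1 T2 : α → ℕ} (h1 : CompT x y T1)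
    (h2 : CompT y z T2) : CompT x z (fun a => T1 a + T2 a + 4 * (y a).length + 2) := by
  obtain ⟨P⟩ := h1
  obtain ⟨Q⟩ := h2
  let Γ0 : Unit → Type := fun _ => Bool
  let Γ : P.K ⊕ (Q.K ⊕ Unit) → Type := SG P.Γ (SG Q.Γ Γ0)
  let kp : P.K ⊕ (Q.K ⊕ Unit) := Sum.inl P.o
  let kt : P.K ⊕ (Q.K ⊕ Unit) := Sum.inr (Sum.inr ())
  let kq : P.K ⊕ (Q.K ⊕ Unit) := Sum.inr (Sum.inl Q.i)
  let F1 : Frag (P.K ⊕ (Q.K ⊕ Unit)) Γ := P.F.liftL
  let F2 : Frag (P.K ⊕ (Q.K ⊕ Unit)) Γ := moveAll kp kt P.eo (Equiv.refl Bool).symm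
  let F3 : Frag (P.K ⊕ (Q.K ⊕ Unit)) Γ := moveAll kt kq (Equiv.refl Bool) Q.ei.symm
  let F4 : Frag (P.K ⊕ (Q.K ⊕ Unit)) Γ := Frag.liftR (Q.F.liftL (K2 := Unit) (Γ2 := Γ0))
  refine ⟨⟨P.K ⊕ (Q.K ⊕ Unit), inferInstance, inferInstance, Γ,
    (F1.seq F2).seq (F3.seq F4), Sum.inl P.i, Sum.inr (Sum.inl Q.o), P.ei, Q.eo, ?_⟩⟩
  intro a
  obtain ⟨n1, hn1, hr1⟩ := P.spec a
  obtain ⟨n2, hn2, hr2⟩ := Q.spec a
  have r1 : F1.Run (join (single P.i ((x a).map P.ei.symm)) emp)
      (join (single P.o ((y a).map P.eo.symm)) emp) n1 := Frag.liftL_run hr1 _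
  have r2 : F2.Run (join (single P.o ((y a).map P.eo.symm)) emp)
      (join emp (join emp (single () (y a).reverse))) (2 * (y a).length + 1) := by
    refine moveAll_spec (Γ := Γ) kp kt (by simp [kp, kt]) P.eo (Equiv.refl Bool) _ _
      (y a) [] (by simp [kp]) (by simp [kt]) (by simp [kp]) (by
        rw [List.append_nil]; exact (map_refl _).symm) ?_
    intro m h1 h2
    rcases m with m | m | m
    · have : m ≠ P.o := fun h => h1 (by rw [h])
      exact (single_of_ne this _).symm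
    · rfl
    · exact absurd rfl h2
  have r3 : F3.Run (join emp (join emp (single () (y a).reverse)))
      (join emp (join (single Q.i ((y a).map Q.ei.symm)) emp)) (2 * (y a).reverse.length + 1) := by
    refine moveAll_spec (Γ := Γ) kt kq (by simp [kt, kq]) (Equiv.refl Bool) Q.ei _ _
      (y a).reverse [] (map_refl _).symm (by simp [kq]) (by simp [kt]) (by simp [kq]) ?_
    intro m h1 h2
    rcases m with m | m | m
    · rfl
    · have : m ≠ Q.i := fun h => h2 (by rw [h])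
      exact single_of_ne this _
    · exact absurd rfl h1
  have r4 : F4.Run (join emp (join (single Q.i ((y a).map Q.ei.symm)) emp))
      (join emp (join (single Q.o ((z a).map Q.eo.symm)) emp)) n2 :=
    Frag.liftR_run (Frag.liftL_run hr2 _) _
  have e1 : join (single P.i ((x a).map P.ei.symm)) emp =
      (single (Sum.inl P.i) ((x a).map P.ei.symm) : ∀ k, List (Γ k)) := (single_inl _ _).symm
  have e2 : join emp (join (single Q.o ((z a).map Q.eo.symm)) emp) =
      (single (Sum.inr (Sum.inl Q.o)) ((z a).map Q.eo.symm) : ∀ k, List (Γ k)) := by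
    rw [← single_inl, ← single_inr]
  have r := (Frag.seq_run (Frag.seq_run r1 r2) (Frag.seq_run r3 r4)).cast e1 e2
  refine ⟨_, ?_, r⟩
  simp only [List.length_reverse]
  omega

/-! ### machines -/

/-- from a procedure to a machine -/
theorem EptTime.of_compT {α β : Type} {ca : α → List Bool} {cb : β → List Bool} {κ : α → ℕ}
    {f : α → β} {T : α → ℕ} (h : CompT ca (fun a => cb (f a)) T) {c : ℕ}
    (hT : ∀ a, T a + 1 ≤ 2 ^ (c * κ a) * ((ca a).length + 2) ^ c) : EptTime ca cb κ f := by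
  obtain ⟨P⟩ := h
  let _ : Fintype (P.Γ P.i) := Fintype.ofEquiv Bool P.ei.symm
  refine ⟨⟨P.F.toTM P.i P.o, P.ei, P.eo⟩, c, fun a => ?_⟩
  obtain ⟨n, hn, hr⟩ := P.spec a
  exact Frag.toTM_outputs P.F P.i P.o hr (by have := hT a; omega)

/-- from a machine to a procedure -/
theorem EptTime.compT {α β : Type} {ca : α → List Bool} {cb : β → List Bool} {κ : α → ℕ}
    {f : α → β} (h : EptTime ca cb κ f) :
    ∃ c : ℕ, CompT ca (fun a => cb (f a)) fun a => 2 ^ (c * κ a) * ((ca a).length + 2) ^ c + 1 := by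
  obtain ⟨M, c, hM⟩ := h
  refine ⟨c, ⟨⟨M.tm.K, M.tm.kDecidableEq, M.tm.kFin, M.tm.Γ, Frag.ofTM M.tm, M.tm.k₀, M.tm.k₁,
    M.inputAlphabet, M.outputAlphabet, fun a => ?_⟩⟩⟩
  obtain ⟨hM'⟩ := hM a
  obtain ⟨n, hn, hr⟩ := Frag.ofTM_run M.tm hM'
  rw [initList_stk, haltList_stk] at hr
  exact ⟨n, by simpa using hn, hr⟩

/-- a polynomial is at most a power of `x + 2` -/
theorem poly_le (P : Polynomial ℕ) : ∃ c : ℕ, ∀ x : ℕ, P.eval x ≤ (x + 2) ^ c := by
  induction P using Polynomial.induction_on' with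
  | add p q hp hq =>
    obtain ⟨c, hc⟩ := hp
    obtain ⟨d, hd⟩ := hq
    refine ⟨c + d + 1, fun x => ?_⟩
    rw [Polynomial.eval_add]
    have h1 : (x + 2) ^ c ≤ (x + 2) ^ (c + d) := Nat.pow_le_pow_right (by omega) (by omega)
    have h2 : (x + 2) ^ d ≤ (x + 2) ^ (c + d) := Nat.pow_le_pow_right (by omega) (by omega)
    have h3 : (x + 2) ^ (c + d + 1) = (x + 2) ^ (c + d) * (x + 2) := pow_succ _ _
    have h4 := hc x
    have h5 := hd x
    rw [h3]
    nlinarith
  | monomial n a =>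
    refine ⟨a + n, fun x => ?_⟩
    rw [Polynomial.eval_monomial, pow_add]
    have h1 : a ≤ (x + 2) ^ a := by
      calc a ≤ 2 ^ a := Nat.lt_two_pow_self.le
        _ ≤ (x + 2) ^ a := Nat.pow_le_pow_left (by omega) a
    exact Nat.mul_le_mul h1 (Nat.pow_le_pow_left (by omega) n)

/-- polynomial time is ept time -/
theorem EptTime.of_comp {α β : Type} {ca : α → List Bool} {cb : β → List Bool} (κ : α → ℕ)
    {f : α → β} (h : Comp ca (fun a => cb (f a))) : EptTime ca cb κ f := by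
  obtain ⟨P, hP⟩ := CompT.of_comp h
  obtain ⟨c, hc⟩ := poly_le (P + 1)
  refine EptTime.of_compT hP (c := c) fun a => ?_
  have h1 := hc (ca a).length
  rw [Polynomial.eval_add, Polynomial.eval_one] at h1
  calc P.eval (ca a).length + 1 ≤ ((ca a).length + 2) ^ c := h1
    _ = 1 * ((ca a).length + 2) ^ c := (one_mul _).symm
    _ ≤ _ := Nat.mul_le_mul_right _ Nat.one_le_two_pow

/-! ### transitivity -/

theorem two_le_len (n : ℕ) : 2 ≤ n + 2 := by omega

/-- the length of the output of an ept-computable function -/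
theorem EptTime.length {α β : Type} {ca : α → List Bool} {cb : β → List Bool} {κ : α → ℕ}
    {f : α → β} (h : EptTime ca cb κ f) :
    ∃ c : ℕ, ∀ a, (cb (f a)).length + 2 ≤ 2 ^ (c * κ a) * ((ca a).length + 2) ^ c := by
  obtain ⟨c, hc⟩ := h.compT
  obtain ⟨C, hC⟩ := hc.size
  refine ⟨c + C + 3, fun a => ?_⟩
  have h1 := hC a
  set L := (ca a).length + 2 with hL
  set E := 2 ^ (c * κ a) * L ^ c with hE
  have hL2 : 2 ≤ L := by omega
  have hE1 : 1 ≤ E := Nat.one_le_iff_ne_zero.2 (by positivity)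
  have h2 : (cb (f a)).length + 2 ≤ L * (E * 2 ^ (C + 2)) := by
    have h3 : C + 1 ≤ 2 ^ (C + 1) := Nat.lt_two_pow_self.le
    have h4 : 2 ^ (C + 2) = 2 * 2 ^ (C + 1) := by rw [pow_succ]; ring
    rw [h4]
    have h5 : (E + 1) * C ≤ (2 * E) * C := Nat.mul_le_mul_right _ (by omega)
    have h6 : L + 2 * (E * C) ≤ L * (2 * E * (C + 1)) := by
      have : 2 * E * (C + 1) = 2 * (E * C) + 2 * E := by ring
      rw [this]
      nlinarith [Nat.zero_le (E * C)]
    calc (cb (f a)).length + 2 ≤ L + (E + 1) * C := by omega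
      _ ≤ L + 2 * (E * C) := by nlinarith
      _ ≤ L * (2 * E * (C + 1)) := h6
      _ ≤ L * (2 * E * 2 ^ (C + 1)) := by gcongr
      _ = L * (E * (2 * 2 ^ (C + 1))) := by ring
  calc (cb (f a)).length + 2 ≤ L * (E * 2 ^ (C + 2)) := h2
    _ ≤ L * (E * L ^ (C + 2)) := by gcongr
    _ = 2 ^ (c * κ a) * L ^ (c + C + 3) := by rw [hE]; ring
    _ ≤ 2 ^ ((c + C + 3) * κ a) * L ^ (c + C + 3) := by
      refine Nat.mul_le_mul_right _ (Nat.pow_le_pow_right (by norm_num) ?_)
      exact Nat.mul_le_mul_right _ (by omega)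

/-- logarithm of the bounds -/
theorem log_bound {n c k L : ℕ} (h : n + 2 ≤ 2 ^ (c * k) * (L + 2) ^ c) :
    Nat.log 2 n ≤ 3 * c * (k + Nat.log 2 L + 1) := by
  have h1 : L + 2 ≤ 2 ^ (Nat.log 2 L + 2) := by
    have h2 : L < 2 ^ (Nat.log 2 L + 1) := Nat.lt_pow_succ_log_self (by norm_num) L
    have h3 : 2 ^ (Nat.log 2 L + 2) = 2 * 2 ^ (Nat.log 2 L + 1) := by rw [pow_succ]; ring
    have h4 : 1 ≤ 2 ^ Nat.log 2 L := Nat.one_le_two_pow
    have h5 : 2 ^ (Nat.log 2 L + 1) = 2 * 2 ^ (Nat.log 2 L) := by rw [pow_succ]; ring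
    omega
  have h2 : n ≤ 2 ^ (c * k + (Nat.log 2 L + 2) * c) := by
    calc n ≤ 2 ^ (c * k) * (L + 2) ^ c := by omega
      _ ≤ 2 ^ (c * k) * (2 ^ (Nat.log 2 L + 2)) ^ c := by gcongr
      _ = _ := by rw [← pow_mul, ← pow_add]
  have h3 : Nat.log 2 n ≤ c * k + (Nat.log 2 L + 2) * c := by
    calc Nat.log 2 n ≤ Nat.log 2 (2 ^ (c * k + (Nat.log 2 L + 2) * c)) := Nat.log_mono_right h2
      _ = _ := Nat.log_pow (by norm_num) _
  calc Nat.log 2 n ≤ c * k + (Nat.log 2 L + 2) * c := h3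
    _ ≤ 3 * c * (k + Nat.log 2 L + 1) := by nlinarith [Nat.zero_le (c * k), Nat.zero_le (c * Nat.log 2 L)]

theorem EptReduces.trans {P Q R : PProb} (h1 : EptReduces P Q) (h2 : EptReduces Q R) :
    EptReduces P R := by
  obtain ⟨f, hf, hfy, d, hd⟩ := h1
  obtain ⟨g, hg, hgy, e, he⟩ := h2
  obtain ⟨b, hb⟩ := hf.length
  refine ⟨fun x => g (f x), ?_, fun x => (hfy x).trans (hgy (f x)), e * (d + 3 * b + 1), ?_⟩
  · obtain ⟨c1, hc1⟩ := hf.compT
    obtain ⟨c2, hc2⟩ := hg.compT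
    have h3 := hc1.trans (hc2.reindex f)
    -- exponents
    refine EptTime.of_compT h3 (c := c1 + 4 * b + 6 + c2 * d * 2 + c2 * b) fun x => ?_
    have i1 := hb x
    have i2 := hd x
    set L := (P.code x).length + 2 with hL
    set k := P.par x with hk
    have hL2 : 2 ≤ L := by omega
    have hlog : 2 ^ (Nat.log 2 (P.code x).length + 1) ≤ L ^ 2 := by
      rcases Nat.eq_zero_or_pos (P.code x).length with h0 | h0
      · rw [h0, Nat.log_zero_right]
        calc 2 ^ (0 + 1) ≤ 2 ^ 2 := by norm_num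
          _ ≤ L ^ 2 := Nat.pow_le_pow_left hL2 2
      · have := Nat.pow_log_le_self 2 h0.ne'
        calc 2 ^ (Nat.log 2 (P.code x).length + 1)
            = 2 ^ Nat.log 2 (P.code x).length * 2 := pow_succ _ _
          _ ≤ L * L := Nat.mul_le_mul (by omega) hL2
          _ = L ^ 2 := by ring
    have i3 : 2 ^ (c2 * Q.par (f x)) ≤ 2 ^ (c2 * d * 2 * k) * L ^ (c2 * d * 2) := by
      calc 2 ^ (c2 * Q.par (f x)) ≤ 2 ^ (c2 * (d * (k + Nat.log 2 (P.code x).length + 1))) := by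
            apply Nat.pow_le_pow_right (by norm_num)
            exact Nat.mul_le_mul_left _ i2
        _ = 2 ^ (c2 * d * k) * (2 ^ (Nat.log 2 (P.code x).length + 1)) ^ (c2 * d) := by
            rw [← pow_mul, ← pow_add]
            congr 1; ring
        _ ≤ 2 ^ (c2 * d * 2 * k) * (L ^ 2) ^ (c2 * d) := by
            refine Nat.mul_le_mul (Nat.pow_le_pow_right (by norm_num) ?_)
              (Nat.pow_le_pow_left hlog _)
            calc c2 * d * k ≤ c2 * d * k * 2 := by omega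
              _ = c2 * d * 2 * k := by ring
        _ = _ := by rw [← pow_mul]; congr 2; ring
    have i4 : ((Q.code (f x)).length + 2) ^ c2 ≤ 2 ^ (c2 * b * k) * L ^ (c2 * b) := by
      calc ((Q.code (f x)).length + 2) ^ c2 ≤ (2 ^ (b * k) * L ^ b) ^ c2 :=
            Nat.pow_le_pow_left i1 c2
        _ = _ := by rw [mul_pow, ← pow_mul, ← pow_mul]; congr 2 <;> ring
    -- sum of four terms
    have j1 : 2 ^ (c1 * k) * L ^ c1 ≤ 2 ^ ((c1 + 4 * b + 3 + c2 * d * 2 + c2 * b) * k) *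
        L ^ (c1 + 4 * b + 3 + c2 * d * 2 + c2 * b) := by
      gcongr <;> first | norm_num | omega | skip
      all_goals nlinarith [Nat.zero_le (c2 * d), Nat.zero_le (c2 * b)]
    have j2 : 2 ^ (c2 * Q.par (f x)) * ((Q.code (f x)).length + 2) ^ c2 ≤
        2 ^ ((c1 + 4 * b + 3 + c2 * d * 2 + c2 * b) * k) *
        L ^ (c1 + 4 * b + 3 + c2 * d * 2 + c2 * b) := by
      calc _ ≤ (2 ^ (c2 * d * 2 * k) * L ^ (c2 * d * 2)) * (2 ^ (c2 * b * k) * L ^ (c2 * b)) :=
            Nat.mul_le_mul i3 i4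
        _ = 2 ^ ((c2 * d * 2 + c2 * b) * k) * L ^ (c2 * d * 2 + c2 * b) := by
            rw [add_mul, pow_add, pow_add]; ring
        _ ≤ _ := by
            gcongr <;> first | norm_num | omega | skip
            all_goals nlinarith [Nat.zero_le (c2 * d), Nat.zero_le (c2 * b)]
    have j3 : (Q.code (f x)).length + 2 ≤ 2 ^ ((c1 + 4 * b + 3 + c2 * d * 2 + c2 * b) * k) *
        L ^ (c1 + 4 * b + 3 + c2 * d * 2 + c2 * b) := by
      refine i1.trans ?_
      gcongr <;> first | norm_num | omega | skip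
      all_goals nlinarith [Nat.zero_le (c2 * d), Nat.zero_le (c2 * b)]
    set W := 2 ^ ((c1 + 4 * b + 3 + c2 * d * 2 + c2 * b) * k) *
        L ^ (c1 + 4 * b + 3 + c2 * d * 2 + c2 * b) with hW
    have hW1 : 1 ≤ W := Nat.one_le_iff_ne_zero.2 (by positivity)
    have hW8 : 8 * W ≤ 2 ^ ((c1 + 4 * b + 6 + c2 * d * 2 + c2 * b) * k) *
        L ^ (c1 + 4 * b + 6 + c2 * d * 2 + c2 * b) := by
      have e1 : c1 + 4 * b + 6 + c2 * d * 2 + c2 * b =
        (c1 + 4 * b + 3 + c2 * d * 2 + c2 * b) + 3 := by ring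
      rw [e1, add_mul, pow_add, pow_add, hW]
      have e2 : 8 ≤ L ^ 3 := by
        calc 8 = 2 ^ 3 := by norm_num
          _ ≤ L ^ 3 := Nat.pow_le_pow_left hL2 3
      have e3 : 1 ≤ 2 ^ (3 * k) := Nat.one_le_two_pow
      calc 8 * (2 ^ ((c1 + 4 * b + 3 + c2 * d * 2 + c2 * b) * k) *
            L ^ (c1 + 4 * b + 3 + c2 * d * 2 + c2 * b))
          = (2 ^ ((c1 + 4 * b + 3 + c2 * d * 2 + c2 * b) * k) * 1) *
            (L ^ (c1 + 4 * b + 3 + c2 * d * 2 + c2 * b) * 8) := by ring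
        _ ≤ _ := by gcongr
    refine le_trans ?_ hW8
    omega
  · intro x
    have h3 := he (f x)
    have h4 := log_bound (hb x)
    have h5 := hd x
    set k := P.par x
    set l := Nat.log 2 (P.code x).length
    have h6 : Q.par (f x) + Nat.log 2 (Q.code (f x)).length + 1 ≤ (d + 3 * b + 1) * (k + l + 1) := by
      have : (d + 3 * b + 1) * (k + l + 1) = d * (k + l + 1) + 3 * b * (k + l + 1) + (k + l + 1) := by
        ring
      omega
    calc R.par (g (f x)) ≤ e * (Q.par (f x) + Nat.log 2 (Q.code (f x)).length + 1) := h3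
      _ ≤ e * ((d + 3 * b + 1) * (k + l + 1)) := Nat.mul_le_mul_left _ h6
      _ = _ := by ring

theorem EptReduces.refl (P : PProb) : EptReduces P P :=
  ⟨fun x => x, EptTime.of_comp _ (Comp.refl _), fun _ => Iff.rfl, 1,
    fun x => by show P.par x ≤ _; omega⟩

theorem subset_closure (C : Set PProb) : C ⊆ EptClosure C := fun P hP => ⟨P, hP, EptReduces.refl P⟩

theorem closure_mono {C C' : Set PProb} (h : C ⊆ EptClosure C') :
    EptClosure C ⊆ EptClosure C' := by
  rintro P ⟨Q, hQ, hPQ⟩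
  obtain ⟨R, hR, hQR⟩ := h hQ
  exact ⟨R, hR, hPQ.trans hQR⟩

end Pool.Agent.EWH
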