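import Pool.Agent.EWH.Cells
import Pool.Agent.EWH.Time

/-!
# Computation of structures and of the matrix in polynomial time
-/

set_option autoImplicit false

namespace Pool.Agent.EWH

open Turing Pool.Agent.TM2Lib

section
variable {α β γ : Type} [Enc α] [Enc β] [Enc γ]

theorem p_const (b : β) : Poly (fun _ : α => b) := TM2Lib.Poly.const b

theorem p_map {f : α → List β} {h : α × β → γ} (hf : Poly f) (hh : Poly h) :
    Poly (fun a => (f a).map fun b => h (a, b)) := TM2Lib.Poly.map hf hh

/-! ### all lists -/

/-- all lists of the length `r` of numbers below `M` -/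
def allL (M : ℕ) : ℕ → List (List Un)
  | 0 => [[]]
  | r + 1 => (allL M r).flatMap fun l => (List.range M).map fun i => (⟨i⟩ : Un) :: l

theorem mem_allL {M : ℕ} : ∀ {r : ℕ} {l : List Un},
    l ∈ allL M r ↔ l.length = r ∧ ∀ u ∈ l, u.n < M
  | 0, l => by
    rw [allL, List.mem_singleton]
    constructor
    · rintro rfl; simp
    · rintro ⟨h, _⟩; exact List.length_eq_zero_iff.1 h
  | r + 1, l => by
    rw [allL, List.mem_flatMap]
    constructor
    · rintro ⟨l', h1, h2⟩
      rw [List.mem_map] at h2
      obtain ⟨i, hi, rfl⟩ := h2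
      rw [mem_allL] at h1
      rw [List.mem_range] at hi
      refine ⟨by simp [h1.1], ?_⟩
      intro u hu
      rw [List.mem_cons] at hu
      rcases hu with rfl | hu
      · exact hi
      · exact h1.2 u hu
    · rintro ⟨h1, h2⟩
      cases l with
      | nil => simp at h1
      | cons u l =>
        refine ⟨l, mem_allL.2 ⟨by simpa using h1, fun x hx => h2 x (by simp [hx])⟩, ?_⟩
        rw [List.mem_map]
        exact ⟨u.n, List.mem_range.2 (h2 u (by simp)), rfl⟩

theorem p_allL {f : α → ℕ} (hf : UPoly f) : ∀ r : ℕ, Poly (fun a => allL (f a) r)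
  | 0 => p_const _
  | r + 1 => by
    have h1 : Poly (fun p : α × List Un => (List.range (f p.1)).map fun i =>
        (⟨i⟩ : Un) :: p.2) :=
      (Poly.tab (α := α × List Un) (h := fun q : (α × List Un) × Un => q.2 :: q.1.2)
        (hf.comp Poly.fst) (Poly.snd.cons Poly.fst.snd'))
    exact Poly.flatMap (h := fun p : α × List Un => (List.range (f p.1)).map fun i =>
        (⟨i⟩ : Un) :: p.2) (p_allL hf r) h1

/-! ### constant lists -/

theorem p_any_const {ι : Type} (L : List ι) {h : α → ι → Bool}
    (hh : ∀ i, Poly (fun a => h a i)) : Poly (fun a => L.any (h a)) := by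
  induction L with
  | nil => exact p_const _
  | cons i L ih => exact ((hh i).or ih).of_eq fun a => by rw [List.any_cons]

theorem p_all_const {ι : Type} (L : List ι) {h : α → ι → Bool}
    (hh : ∀ i, Poly (fun a => h a i)) : Poly (fun a => L.all (h a)) := by
  induction L with
  | nil => exact p_const _
  | cons i L ih => exact ((hh i).and ih).of_eq fun a => by rw [List.all_cons]

theorem u_sum {ι : Type} (F : Finset ι) {f : α → ι → ℕ} (hf : ∀ i, UPoly (fun a => f a i)) :
    UPoly (fun a => ∑ i ∈ F, f a i) := by
  classical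
  induction F using Finset.induction_on with
  | empty => exact (UPoly.const 0).of_eq fun a => by simp
  | insert i F hi ih =>
    exact ((hf i).add ih).of_eq fun a => by rw [Finset.sum_insert hi]

theorem u_pow {f : α → ℕ} (hf : UPoly f) (k : ℕ) : UPoly (fun a => f a ^ k) :=
  (UPoly.eval hf (Polynomial.X ^ k)).of_eq fun a => by simp

/-! ### structures -/

/-- the structure with one relation given by a test -/
def mkStr (M : ℕ) (hM : 0 < M) (r : ℕ) (T : List Un → Bool) : Str :=
  ⟨M, hM, [(allL M r).filter T]⟩

/-- structures with one relation, given by a test -/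
theorem p_str {M : α → ℕ} (hM : ∀ a, 0 < M a) (hM' : UPoly M) (r : ℕ)
    {T : α × List Un → Bool} (hT : Poly T) :
    Poly (fun a => mkStr (M a) (hM a) r fun l => T (a, l)) := by
  have h1 : Poly (fun a => (allL (M a) r).filter fun l => T (a, l)) :=
    Poly.filter (p_allL hM' r) hT
  have h2 : Poly (fun a => [(allL (M a) r).filter fun l => T (a, l)]) :=
    h1.cons (p_const [])
  have h3 : Poly (fun a => ((⟨M a⟩ : Un), [(allL (M a) r).filter fun l => T (a, l)])) :=
    Poly.pair hM' h2
  exact h3

theorem mkStr_R {M r : ℕ} (hM : 0 < M) (T : List Un → Bool) (l : List ℕ) :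
    (mkStr M hM r T).R 0 l ↔
      (l.length = r ∧ ∀ u ∈ l, u < M) ∧ T (l.map Un.mk) = true := by
  unfold Str.R mkStr
  rw [List.getD_cons_zero, List.mem_filter, mem_allL]
  refine and_congr_left fun _ => ?_
  rw [List.length_map]
  refine and_congr_right fun _ => ?_
  constructor
  · intro h u hu
    exact h ⟨u⟩ (List.mem_map_of_mem hu)
  · intro h u hu
    rw [List.mem_map] at hu
    obtain ⟨x, hx, rfl⟩ := hu
    exact h x hx

/-! ### evaluation of the matrix -/

/-- the numbers of a list of unary numbers -/
def nums (l : List Un) : List ℕ := l.map Un.n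

theorem nums_mk (l : List ℕ) : nums (l.map Un.mk) = l := by
  unfold nums
  rw [List.map_map]
  exact List.map_id l

theorem u_decv {n : α → ℕ} (hn : UPoly n) : ∀ (bs : List ℕ) (x : ℕ) {l : α → List Un},
    Poly l → UPoly (fun a => decv (n a) bs (nums (l a)) x)
  | [], x, l, hl => UPoly.const 0
  | b :: bs, x, l, hl => by
    by_cases h : x < b
    · have h1 : UPoly (fun a => ((l a).headD ⟨0⟩).n) := UPoly.n.comp (Poly.headD hl (p_const _))
      exact (((h1.div (u_pow hn x)).mod hn)).of_eq fun a => by
        unfold decv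
        rw [if_pos h]
        congr 2
        cases l a <;> rfl
    · exact (u_decv hn bs (x - b) (Poly.tail hl)).of_eq fun a => by
        conv_rhs => unfold decv
        rw [if_neg h]
        congr 1
        unfold nums
        rw [List.map_tail]

theorem u_num {n : α → ℕ} (hn : UPoly n) {s : ℕ} {f : α → Fin s → ℕ}
    (hf : ∀ j, UPoly (fun a => f a j)) : UPoly (fun a => num (n a) (f a)) :=
  u_sum Finset.univ fun j => (hf j).mul (u_pow hn _)

theorem p_eqL {v : Type} {e : α → v → ℕ} (he : ∀ x, UPoly (fun a => e a x)) : ∀ (x : List v)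
    {l : α → List Un}, Poly l → Poly (fun a => eqL (x.map (e a)) (l a))
  | [], l, hl => (Poly.isEmpty hl).of_eq fun a => by cases l a <;> rfl
  | x :: xs, l, hl => by
    have h1 : UPoly (fun a => ((l a).headD ⟨0⟩).n) := UPoly.n.comp (Poly.headD hl (p_const _))
    have h2 := (Poly.not (Poly.isEmpty hl)).and (((he x).eq h1).and (p_eqL he xs (Poly.tail hl)))
    exact h2.of_eq fun a => by
      cases l a with
      | nil => rfl
      | cons u l => simp [eqL]

theorem p_ev {s : ℕ} {v : Type} {A : α → Str} (hA : Poly A) {e : α → v → ℕ}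
    (he : ∀ x, UPoly (fun a => e a x)) {ρ : α → (Fin s → v) → Bool}
    (hρ : ∀ x, Poly (fun a => ρ a x)) (φ : QF s v) :
    Poly (fun a => ev (A a) (e a) (ρ a) φ) := by
  induction φ with
  | tru => exact p_const _
  | eq x y => exact (he x).eq (he y)
  | rel i x =>
    have h1 : Poly (fun a => (A a).rels.getD i []) :=
      Poly.getD (Poly.strData hA).snd' (UPoly.const i) (p_const [])
    exact Poly.any (h := fun p : α × List Un => eqL (x.map (e p.1)) p.2) h1
      (p_eqL (α := α × List Un) (e := fun p => e p.1) (fun x => (he x).comp Poly.fst) x Poly.snd)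
  | X x => exact hρ x
  | not φ ih => exact ih.not
  | and φ ψ ih1 ih2 => exact ih1.and ih2

theorem p_val {s : ℕ} (bs : List ℕ) (ats : List (Fin s → Fin bs.sum)) {A : α → Str}
    (hA : Poly A) {l : α → List Un} (hl : Poly l) (σ : List Bool) (ψ : QF s (Fin bs.sum)) :
    Poly (fun a => val bs ats (A a) (nums (l a)) σ ψ) :=
  p_ev (v := Fin bs.sum) hA (e := fun a x => decv (A a).n bs (nums (l a)) x)
    (fun x => u_decv (Poly.strData hA).fst' bs x hl)
    (ρ := fun _ => rho ats σ) (fun _ => p_const _) ψ

theorem u_ws {s : ℕ} (bs : List ℕ) (ats : List (Fin s → Fin bs.sum)) {n : α → ℕ}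
    (hn : UPoly n) {l : α → List Un} (hl : Poly l) (j : ℕ) :
    UPoly (fun a => (ws bs ats (n a) (nums (l a))).getD j 0) := by
  unfold ws
  by_cases h : j < ats.length
  · refine (u_num hn (f := fun a i => decv (n a) bs (nums (l a)) (ats[j] i))
      (fun i => u_decv hn bs _ hl)).of_eq fun a => ?_
    rw [List.getD_eq_getElem _ _ (by simpa using h), List.getElem_map]
  · refine (UPoly.const 0).of_eq fun a => ?_
    rw [List.getD_eq_default _ _ (by simpa using h)]

end

end Pool.Agent.EWH
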