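import Pool.Agent.EWH.Core
import Pool.Agent.EWH.Red

/-!
# The reduction to the canonical problem
-/

set_option autoImplicit false

namespace Pool.Agent.EWH

open Turing Pool.Agent.TM2Lib

/-! ### inner atoms -/

theorem QF.innerOcc_le {s m : ℕ} (c : ℕ) (ψ : QF s (Fin m)) : ψ.innerOcc c ≤ ψ.occ := by
  induction ψ with
  | X x => unfold QF.innerOcc QF.occ; split_ifs <;> omega
  | not φ ih => exact ih
  | and φ ψ ih1 ih2 => exact Nat.add_le_add ih1 ih2
  | _ => exact le_rfl

/-- few inner occurrences -/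
theorem narrow_of_inner {s t d : ℕ} (φ : PiForm s t) (h : φ.mat.innerOcc φ.start ≤ d) :
    Narrow φ d := by
  refine ⟨[φ.mat], fun A S e => ?_, fun ψ hψ => ?_⟩
  · simp
  · rw [List.mem_singleton] at hψ
    rw [hψ]; exact h

theorem narrow_of_occ {s t d : ℕ} (φ : PiForm s t) (h : φ.mat.occ ≤ d) : Narrow φ d :=
  narrow_of_inner φ ((QF.innerOcc_le _ _).trans h)

/-- is the atom inner? -/
def isInner {s m : ℕ} (c : ℕ) (x : Fin s → Fin m) : Bool := decide (∃ i, c ≤ (x i : ℕ))

theorem innerOcc_eq {s m : ℕ} (c : ℕ) (ψ : QF s (Fin m)) :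
    ψ.innerOcc c = (ψ.atoms.filter (isInner c)).length := by
  induction ψ with
  | X x =>
    unfold QF.innerOcc QF.atoms isInner
    by_cases h : ∃ i, c ≤ (x i : ℕ) <;> simp [h]
  | not φ ih => exact ih
  | and φ ψ ih1 ih2 =>
    unfold QF.innerOcc QF.atoms
    rw [List.filter_append, List.length_append, ih1, ih2]
  | _ => rfl

/-- is the `j`-th atom inner? -/
def inn {s m : ℕ} (c : ℕ) (ats : List (Fin s → Fin m)) (j : ℕ) : Bool :=
  (ats[j]?).any (isInner c)

theorem inn_eq {s m : ℕ} (c : ℕ) (ats : List (Fin s → Fin m)) {j : ℕ} (hj : j < ats.length) :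
    inn c ats j = isInner c ats[j] := by
  unfold inn
  rw [List.getElem?_eq_getElem hj]
  rfl

/-- the numbers of the inner atoms of a formula -/
def jnum {s m : ℕ} (c : ℕ) (ats : List (Fin s → Fin m)) (ψ : QF s (Fin m)) : List ℕ :=
  (ψ.atoms.filter (isInner c)).map fun x => ats.idxOf x

theorem fam_val {s d : ℕ} (bs : List ℕ) (c : ℕ) (L : List (QF s (Fin bs.sum))) (e : Bool)
    (A : Str) (us : List ℕ) (hd : 0 < d) (hL : ∀ ψ ∈ L, ψ.innerOcc c ≤ d) :
    Fam (L.flatMap QF.atoms).length d (inn c (L.flatMap QF.atoms)) L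
      (jnum c (L.flatMap QF.atoms))
      (fun ψ τ => xor (!e) (val bs (L.flatMap QF.atoms) A us τ ψ)) where
  dpos := hd
  len ψ hψ := by
    unfold jnum
    rw [List.length_map, ← innerOcc_eq]
    exact hL ψ hψ
  dep ψ hψ τ τ' h1 h2 h := by
    congr 1
    unfold val
    refine ev_congr A _ _ (fun _ => rfl) _ _ ψ fun x hx => ?_
    have hmem : x ∈ L.flatMap QF.atoms := List.mem_flatMap.2 ⟨ψ, hψ, hx⟩
    have hlt : (L.flatMap QF.atoms).idxOf x < (L.flatMap QF.atoms).length :=
      List.idxOf_lt_length_iff.2 hmem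
    unfold rho
    refine h _ hlt ?_
    cases hin : isInner c x with
    | true =>
      right
      unfold jnum
      exact List.mem_map_of_mem (f := fun x => (L.flatMap QF.atoms).idxOf x)
        (List.mem_filter.2 ⟨hx, hin⟩)
    | false =>
      left
      rw [inn_eq _ _ hlt, List.getElem_idxOf]
      exact hin

theorem decv_congr {n : ℕ} : ∀ (bs us us' : List ℕ) (x r : ℕ), x < (bs.take r).sum →
    us.take r = us'.take r → decv n bs us x = decv n bs us' x
  | [], _, _, x, r, h, _ => by simp at h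
  | b :: bs, us, us', x, 0, h, _ => by simp at h
  | b :: bs, us, us', x, r + 1, h, he => by
    rw [List.take_succ_cons, List.sum_cons] at h
    unfold decv
    split_ifs with hx
    · congr 2
      cases us <;> cases us' <;> simp_all
    · refine decv_congr bs _ _ _ r (by omega) ?_
      cases us <;> cases us' <;> simp_all

theorem ws_outer {s t : ℕ} (φ : PiForm s t) (ats : List (Fin s → Fin φ.bs.sum)) {n : ℕ}
    {us us' : List ℕ} (h : us.take (t - 1) = us'.take (t - 1)) {j : ℕ} (hj : j < ats.length)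
    (hi : inn φ.start ats j = false) :
    (ws φ.bs ats n us).getD j 0 = (ws φ.bs ats n us').getD j 0 := by
  rw [inn_eq _ _ hj] at hi
  unfold isInner at hi
  rw [decide_eq_false_iff_not] at hi
  push Not at hi
  unfold ws
  rw [List.getD_eq_getElem _ _ (by simpa using hj), List.getD_eq_getElem _ _ (by simpa using hj),
    List.getElem_map, List.getElem_map]
  unfold num
  refine Finset.sum_congr rfl fun i _ => ?_
  exact congrArg (· * n ^ (i : ℕ)) (decv_congr φ.bs us us' _ (t - 1) (hi i) h)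

/-! ### two last quantifiers -/

theorem Pre.snoc2 {N r : ℕ} (P : List ℕ → Prop) :
    Pre N (r + 2) true P ↔ Pre N r true fun us => if Even r then
      ∀ v < N, ∃ u < N, P (us ++ [v] ++ [u]) else ∃ v < N, ∀ u < N, P (us ++ [v] ++ [u]) := by
  rw [Pre.snoc, Pre.snoc]
  refine Pre.congr fun us _ _ => ?_
  by_cases h : Even r <;> simp [h, Nat.even_add_one]

/-! ### the main part of the test -/

/-- the main part of the test: `e` says whether `t` is even -/
def mtst {s t : ℕ} (φ : PiForm s t) (L : List (QF s (Fin φ.bs.sum))) (e : Bool) (A : Str)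
    (k N0 : ℕ) (us cs : List ℕ) : Bool :=
  xor (!e) (mainB (L.flatMap QF.atoms).length (inn φ.start (L.flatMap QF.atoms)) L
    (jnum φ.start (L.flatMap QF.atoms)) k (A.n ^ s)
    (fun ψ τ => xor (!e) (val φ.bs (L.flatMap QF.atoms) A (us.map fun u => u % N0) τ ψ))
    (fun j => (ws φ.bs (L.flatMap QF.atoms) A.n (us.map fun u => u % N0)).getD j 0)
    (us.getD (t - 2) 0 / N0 % 2 ^ (L.flatMap QF.atoms).length) cs)

theorem chi_ws {s : ℕ} (bs : List ℕ) (ats : List (Fin s → Fin bs.sum)) (n : ℕ) (us : List ℕ)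
    (S : Finset ℕ) :
    chi ats.length S (fun j => (ws bs ats n us).getD j 0) =
      (ws bs ats n us).map fun w => decide (w ∈ S) := by
  symm
  apply eq_chi
  · simp [ws]
  · intro j hj
    have hj' : j < (ws bs ats n us).length := by simpa [ws] using hj
    rw [List.getD_eq_getElem _ _ (by simpa using hj'), List.getElem_map,
      List.getD_eq_getElem _ _ hj']

theorem main_iff {s r d : ℕ} (φ : PiForm s (r + 2)) (L : List (QF s (Fin φ.bs.sum)))
    (hd : 0 < d) (hφ : ∀ ψ ∈ L, ψ.innerOcc φ.start ≤ d) (A : Str)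
    {k : ℕ} {c : ℕ → ℕ} (h : Chain (A.n ^ s) k c) {S : Finset ℕ} (hS : Rep k c S) {N N0 : ℕ}
    (hN0 : 0 < N0) (hN : N0 * 2 ^ (L.flatMap QF.atoms).length ≤ N) (e : Bool)
    (he : e = true ↔ Even r) :
    (Pre N (r + 2) true fun us => if Even r then
      ∃ cs : List ℕ, cs.length = d ∧ (∀ c' ∈ cs, c' ∈ cells k (A.n ^ s) c) ∧
        mtst φ L e A k N0 us cs = true
      else ∀ cs : List ℕ, cs.length = d → (∀ c' ∈ cs, c' ∈ cells k (A.n ^ s) c) →
        mtst φ L e A k N0 us cs = true) ↔
    Pre N0 (r + 2) true fun us => MatOk φ L A us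
      ((ws φ.bs (L.flatMap QF.atoms) A.n us).map fun w => decide (w ∈ S)) := by
  have hA := A.pos
  have hw : ∀ us : List ℕ, ∀ j < (L.flatMap QF.atoms).length,
      (ws φ.bs (L.flatMap QF.atoms) A.n us).getD j 0 < A.n ^ s := by
    intro us j hj
    exact ws_lt φ.bs _ hA us _ (getD_mem (by simpa only [ws, List.length_map] using hj))
  have hout : ∀ j < (L.flatMap QF.atoms).length, inn φ.start (L.flatMap QF.atoms) j = false →
      ∀ pre : List ℕ, pre.length = r + 1 → ∀ u u',
        (ws φ.bs (L.flatMap QF.atoms) A.n (pre ++ [u])).getD j 0 =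
          (ws φ.bs (L.flatMap QF.atoms) A.n (pre ++ [u'])).getD j 0 := by
    intro j hj hi pre hpre u u'
    refine ws_outer φ _ ?_ hj hi
    have : r + 2 - 1 = pre.length := by omega
    rw [this, List.take_left, List.take_left]
  have hNN : N0 ≤ N := le_trans (Nat.le_mul_of_pos_right _ (by positivity)) hN
  have hcore := core2 (V := fun us ψ τ =>
    xor (!e) (val φ.bs (L.flatMap QF.atoms) A us τ ψ))
    (fun us => fam_val φ.bs φ.start L e A us hd hφ) h hS hw hout hN0 hN
  have hget : ∀ (us : List ℕ) (v u : ℕ), us.length = r →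
      (us ++ [v] ++ [u]).getD (r + 2 - 2) 0 = v := by
    intro us v u hus
    rw [Nat.add_sub_cancel, List.append_assoc, List.getD_append_right _ _ _ _ (by omega), hus,
      Nat.sub_self]
    rfl
  have heven : Even (r + 2) ↔ Even r := by
    rw [Nat.even_add]; simp
  rw [Pre.snoc2, Pre.snoc2]
  have hmap := Pre.map (N := N) (N' := N0) (h := fun u => u % N0)
    (fun u _ => Nat.mod_lt _ hN0) (fun u' hu' => ⟨u', by omega, Nat.mod_eq_of_lt hu'⟩) r true
    fun us => if Even r then ∀ v < N0, ∃ u < N0, MatOk φ L A (us ++ [v] ++ [u])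
        ((ws φ.bs (L.flatMap QF.atoms) A.n (us ++ [v] ++ [u])).map fun w => decide (w ∈ S))
      else ∃ v < N0, ∀ u < N0, MatOk φ L A (us ++ [v] ++ [u])
        ((ws φ.bs (L.flatMap QF.atoms) A.n (us ++ [v] ++ [u])).map fun w => decide (w ∈ S))
  rw [← hmap]
  refine Pre.congr fun us hus _ => ?_
  by_cases hr : Even r
  · have he' : e = true := he.2 hr
    subst he'
    rw [if_pos hr, if_pos hr]
    have h1 := hcore us hus
    simp only [chi_ws, Bool.not_true, Bool.false_xor] at h1
    simp only [MatOk, if_pos (heven.2 hr)]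
    rw [← h1]
    refine forall_congr' fun v => forall_congr' fun _ => exists_congr fun u =>
      and_congr_right fun _ => ?_
    rw [if_pos hr]
    refine exists_congr fun cs => and_congr_right fun _ =>
      and_congr_right fun _ => ?_
    unfold mtst
    simp only [Bool.not_true, Bool.false_xor, hget us v u hus]
  · have he' : e = false := by
      cases e with
      | false => rfl
      | true => exact absurd (he.1 rfl) hr
    subst he'
    rw [if_neg hr, if_neg hr]
    have hne : ∀ b : Bool, ((!b) ≠ true) ↔ b = true := by intro b; cases b <;> simp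
    have hne' : ∀ b : Bool, ((!b) = true) ↔ b ≠ true := by intro b; cases b <;> simp
    have h1 := hcore us hus
    simp only [chi_ws, Bool.not_false, Bool.true_xor] at h1
    have h2 := not_congr h1
    push Not at h2
    simp only [hne] at h2
    simp only [MatOk, if_neg (fun h => hr (heven.1 h))]
    rw [← h2]
    refine exists_congr fun v => and_congr_right fun _ => forall_congr' fun u =>
      forall_congr' fun _ => ?_
    rw [if_neg hr]
    refine forall_congr' fun cs => forall_congr' fun _ =>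
      forall_congr' fun _ => ?_
    unfold mtst
    simp only [Bool.not_false, Bool.true_xor, hget us v u hus, hne']

/-! ### the whole test -/

/-- the relation of the structure -/
def tst {s t : ℕ} (φ : PiForm s t) (L : List (QF s (Fin φ.bs.sum))) (e : Bool) (A : Str)
    (k N0 : ℕ) (us cs : List ℕ) : Bool :=
  if us.headD 0 % 2 = 1 then
    if e then conE k (A.n ^ s) (us.headD 0 / 2) (cs.getD 0 0)
    else conU k (A.n ^ s) (us.headD 0 / 2) (us.getD 1 0) (cs.getD 0 0)
  else mtst φ L e A k N0 (us.map fun u => u / 2) cs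

theorem exists_first {d : ℕ} (hd : 0 < d) (Z : Finset ℕ) (F : ℕ → Prop) :
    (∃ cs : List ℕ, cs.length = d ∧ (∀ c ∈ cs, c ∈ Z) ∧ F (cs.getD 0 0)) ↔ ∃ y ∈ Z, F y := by
  constructor
  · rintro ⟨cs, h1, h2, h3⟩
    exact ⟨_, h2 _ (getD_mem (by omega)), h3⟩
  · rintro ⟨y, hy, h⟩
    refine ⟨List.replicate d y, by simp, fun c hc => ?_, ?_⟩
    · rw [List.eq_of_mem_replicate hc]; exact hy
    · rw [List.getD_eq_getElem _ _ (by simpa using hd), List.getElem_replicate]
      exact h

theorem forall_first {d : ℕ} (hd : 0 < d) (Z : Finset ℕ) (F : ℕ → Prop) :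
    (∀ cs : List ℕ, cs.length = d → (∀ c ∈ cs, c ∈ Z) → F (cs.getD 0 0)) ↔ ∀ y ∈ Z, F y := by
  constructor
  · intro h y hy
    have := h (List.replicate d y) (by simp) (fun c hc => by
      rw [List.eq_of_mem_replicate hc]; exact hy)
    rwa [List.getD_eq_getElem _ _ (by simpa using hd), List.getElem_replicate] at this
  · intro h cs h1 h2
    exact h _ (h2 _ (getD_mem (by omega)))

theorem full_iff {s r d : ℕ} (φ : PiForm s (r + 2)) (L : List (QF s (Fin φ.bs.sum)))
    (hd : 0 < d) (A : Str)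
    {k N N0 : ℕ} (hN : (k + 1) * (A.n ^ s + 3) ≤ N) (e : Bool) (he : e = true ↔ Even r)
    {Z : Finset ℕ} (hZ : Z.card = k + 1) :
    (Pre (2 * N) (r + 2) true fun us => if Even r then
      ∃ cs : List ℕ, cs.length = d ∧ (∀ c' ∈ cs, c' ∈ Z) ∧ tst φ L e A k N0 us cs = true
      else ∀ cs : List ℕ, cs.length = d → (∀ c' ∈ cs, c' ∈ Z) →
        tst φ L e A k N0 us cs = true) ↔
    IsCells k (A.n ^ s) Z ∧ Pre N (r + 2) true fun us => if Even r then
      ∃ cs : List ℕ, cs.length = d ∧ (∀ c' ∈ cs, c' ∈ Z) ∧ mtst φ L e A k N0 us cs = true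
      else ∀ cs : List ℕ, cs.length = d → (∀ c' ∈ cs, c' ∈ Z) →
        mtst φ L e A k N0 us cs = true := by
  have hNpos : 0 < N := lt_of_lt_of_le (by positivity) hN
  have hsplit := Pre.split (N := N) (t := r + 1)
    (fun l => if Even r then ∃ y ∈ Z, conE k (A.n ^ s) (l.headD 0) y = true
      else ∀ y ∈ Z, conU k (A.n ^ s) (l.headD 0) (l.getD 1 0) y = true)
    (fun us => if Even r then
      ∃ cs : List ℕ, cs.length = d ∧ (∀ c' ∈ cs, c' ∈ Z) ∧ mtst φ L e A k N0 us cs = true
      else ∀ cs : List ℕ, cs.length = d → (∀ c' ∈ cs, c' ∈ Z) →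
        mtst φ L e A k N0 us cs = true)
  refine Iff.trans (Pre.congr fun us hus _ => ?_) (hsplit.trans (and_congr_left fun _ => ?_))
  · have hg : (us.headD 0 / 2 :: us.tail).getD 1 0 = us.getD 1 0 := by
      cases us with
      | nil => simp at hus
      | cons u l => rfl
    by_cases hu : us.headD 0 % 2 = 1
    · rw [if_pos hu]
      by_cases hr : Even r
      · obtain rfl : e = true := he.2 hr
        rw [if_pos hr, if_pos hr]
        have h1 : ∀ cs, tst φ L true A k N0 us cs =
            conE k (A.n ^ s) (us.headD 0 / 2) (cs.getD 0 0) := fun cs => by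
          unfold tst; rw [if_pos hu, if_pos rfl]
        simp only [h1]
        exact exists_first hd Z fun y => conE k (A.n ^ s) (us.headD 0 / 2) y = true
      · obtain rfl : e = false := by
          cases e with
          | false => rfl
          | true => exact absurd (he.1 rfl) hr
        rw [if_neg hr, if_neg hr]
        have h1 : ∀ cs, tst φ L false A k N0 us cs =
            conU k (A.n ^ s) (us.headD 0 / 2) (us.getD 1 0) (cs.getD 0 0) := fun cs => by
          unfold tst; rw [if_pos hu, if_neg (by simp)]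
        simp only [h1]
        rw [hg]
        exact forall_first hd Z fun y => conU k (A.n ^ s) (us.headD 0 / 2) (us.getD 1 0) y = true
    · rw [if_neg hu]
      have h1 : ∀ cs, tst φ L e A k N0 us cs = mtst φ L e A k N0 (us.map fun u => u / 2) cs :=
        fun cs => by unfold tst; rw [if_neg hu]
      simp only [h1]
  · by_cases hr : Even r
    · simp only [if_pos hr, List.headD_cons]
      rw [← conE_iff hN hZ]
      refine forall_congr' fun z => forall_congr' fun _ => ?_
      exact Pre.const (by omega) _ _ _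
    · simp only [if_neg hr, List.headD_cons]
      rw [← conU_iff hN (N' := 2 * N) (by omega) hZ]
      refine forall_congr' fun z => forall_congr' fun _ => ?_
      rw [pre_false]
      refine exists_congr fun v => and_congr_right fun _ => ?_
      simp only [List.getD_cons_succ, List.getD_cons_zero]
      exact Pre.const (by omega) _ _ _

/-! ### computation of the test -/

section
variable {α : Type} [Enc α]

theorem u_ty {k c : α → ℕ} (hk : UPoly k) (hc : UPoly c) : UPoly (fun a => ty (k a) (c a)) :=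
  hc.mod (hk.add (UPoly.const 1))

theorem u_ca {k m c : α → ℕ} (hk : UPoly k) (hm : UPoly m) (hc : UPoly c) :
    UPoly (fun a => ca (k a) (m a) (c a)) :=
  (hc.div (hk.add (UPoly.const 1))).mod (hm.add (UPoly.const 2))

theorem u_cb {k m c : α → ℕ} (hk : UPoly k) (hm : UPoly m) (hc : UPoly c) :
    UPoly (fun a => cb (k a) (m a) (c a)) :=
  (hc.div (hk.add (UPoly.const 1))).div (hm.add (UPoly.const 2))

theorem p_good {k m c : α → ℕ} (hk : UPoly k) (hm : UPoly m) (hc : UPoly c) :
    Poly (fun a => good (k a) (m a) (c a)) :=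
  ((u_cb hk hm hc).lt (hm.add (UPoly.const 2))).and
    (((u_ca hk hm hc).lt (u_cb hk hm hc)).and
      (((((u_ty hk hc).eq (UPoly.const 0)).not).or ((u_ca hk hm hc).eq (UPoly.const 0))).and
        ((((u_ty hk hc).eq hk).not).or ((u_cb hk hm hc).eq (hm.add (UPoly.const 1))))))

theorem p_conE {k m z c : α → ℕ} (hk : UPoly k) (hm : UPoly m) (hz : UPoly z) (hc : UPoly c) :
    Poly (fun a => conE (k a) (m a) (z a) (c a)) := by
  have hq : UPoly (fun a => z a / (k a + 1)) := hz.div (hk.add (UPoly.const 1))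
  have h1 := TM2Lib.Poly.ite (hq.eq (UPoly.const 0))
    (((u_ty hk hc).eq (u_ty hk hz)).and (p_good hk hm hc))
    (((u_ty hk hz).eq hk).or ((((u_ty hk hc).eq (u_ty hk hz)).and
      ((u_cb hk hm hc).eq (hq.sub (UPoly.const 1))).not).or
      (((u_ty hk hc).eq ((u_ty hk hz).add (UPoly.const 1))).and
        ((u_ca hk hm hc).eq (hq.sub (UPoly.const 1))))))
  refine h1.of_eq fun a => ?_
  unfold conE
  by_cases h : z a / (k a + 1) = 0 <;> simp [h]

theorem p_conU {k m z v c : α → ℕ} (hk : UPoly k) (hm : UPoly m) (hz : UPoly z) (hv : UPoly v)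
    (hc : UPoly c) : Poly (fun a => conU (k a) (m a) (z a) (v a) (c a)) :=
  (((u_ty hk hc).eq (u_ty hk hz)).not.or ((p_good hk hm hc).and ((u_cb hk hm hc).eq hv))).and
    ((((u_ty hk hc).eq ((u_ty hk hz).add (UPoly.const 1))).not).or ((u_ca hk hm hc).eq hv))

theorem p_witc {k m c w : α → ℕ} {b : α → Bool} (hk : UPoly k) (hm : UPoly m) (hc : UPoly c)
    (hw : UPoly w) (hb : Poly b) : Poly (fun a => witc (k a) (m a) (c a) (w a) (b a)) := by
  have h1 := TM2Lib.Poly.ite hb ((u_ca hk hm hc).eq (hw.add (UPoly.const 1)))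
    (((u_ca hk hm hc).lt (hw.add (UPoly.const 1))).and
      ((hw.add (UPoly.const 1)).lt (u_cb hk hm hc)))
  exact h1.of_eq fun a => rfl

theorem p_bit {σ : α → ℕ} (hσ : UPoly σ) (j : ℕ) : Poly (fun a => bit (σ a) j) :=
  ((hσ.div (UPoly.const (2 ^ j))).mod (UPoly.const 2)).eq (UPoly.const 1)

theorem u_getD {l : α → List Un} (hl : Poly l) (i : ℕ) : UPoly (fun a => (nums (l a)).getD i 0) :=
  (UPoly.n.comp (Poly.getD hl (UPoly.const i) (p_const ⟨0⟩))).of_eq fun a => by
    unfold nums
    rw [List.getD_map (f := Un.n) (n := i) (l := l a) (d := ⟨0⟩)]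

theorem p_mainB {ι : Type} {D : ℕ} {inn : ℕ → Bool} {L : List ι} {J : ι → List ℕ}
    {k m σ : α → ℕ} (hk : UPoly k)
    (hm : UPoly m) {V : α → ι → List Bool → Bool} (hV : ∀ i τ, Poly (fun a => V a i τ))
    {w : α → ℕ → ℕ} (hw : ∀ j, UPoly (fun a => w a j)) (hσ : UPoly σ) {l : α → List Un}
    (hl : Poly l) :
    Poly (fun a => mainB D inn L J (k a) (m a) (V a) (w a) (σ a) (nums (l a))) := by
  refine (p_any_const _ fun j => ?_).or (p_any_const _ fun i => p_any_const _ fun τ => ?_)
  · exact (p_const _).and (p_witc hk hm (u_getD hl 0) (hw j) (p_bit hσ j).not)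
  · refine (hV i τ).and (p_all_const _ fun j => ?_)
    cases inn j with
    | true =>
      by_cases hJ : j ∈ J i
      · refine (p_witc hk hm (u_getD hl ((J i).idxOf j)) (hw j)
          (p_const (τ.getD j false))).of_eq fun a => ?_
        rw [if_pos rfl, if_pos hJ]
      · refine (p_const true).of_eq fun a => ?_
        rw [if_pos rfl, if_neg hJ]
    | false =>
      have h1 := TM2Lib.Poly.not (TM2Lib.Poly.bne (p_const (τ.getD j false)) (p_bit hσ j))
      refine h1.of_eq fun a => ?_
      cases τ.getD j false <;> cases bit (σ a) j <;> rfl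

theorem nums_map (l : List Un) (g : ℕ → ℕ) :
    nums (l.map fun u => (⟨g u.n⟩ : Un)) = (nums l).map g := by
  unfold nums
  rw [List.map_map, List.map_map]
  rfl

theorem p_mtst {s t : ℕ} (φ : PiForm s t) (L : List (QF s (Fin φ.bs.sum))) (e : Bool)
    {A : α → Str} (hA : Poly A)
    {k N0 : α → ℕ} (hk : UPoly k) (hN0 : UPoly N0) {us cs : α → List Un} (hus : Poly us)
    (hcs : Poly cs) :
    Poly (fun a => mtst φ L e (A a) (k a) (N0 a) (nums (us a)) (nums (cs a))) := by
  have hn : UPoly (fun a => (A a).n) := (Poly.strData hA).fst'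
  have h1 : Poly (fun a => (us a).map fun u => (⟨u.n % N0 a⟩ : Un)) :=
    p_map (h := fun p : α × Un => (⟨p.2.n % N0 p.1⟩ : Un)) hus
      (UPoly.mod (UPoly.n.comp Poly.snd) (hN0.comp Poly.fst))
  have h2 : ∀ a, nums ((us a).map fun u => (⟨u.n % N0 a⟩ : Un)) =
      (nums (us a)).map fun u => u % N0 a :=
    fun a => nums_map (us a) (fun u => u % N0 a)
  unfold mtst
  refine TM2Lib.Poly.bne (p_const (!e)) (p_mainB hk (u_pow hn s)
    (V := fun a ψ τ => xor (!e) (val φ.bs (L.flatMap QF.atoms) (A a)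
      ((nums (us a)).map fun u => u % N0 a) τ ψ))
    (fun ψ τ => TM2Lib.Poly.bne (p_const (!e)) ?_)
    (w := fun a j => (ws φ.bs (L.flatMap QF.atoms) (A a).n
      ((nums (us a)).map fun u => u % N0 a)).getD j 0)
    (fun j => ?_) (((u_getD hus _).div hN0).mod (UPoly.const _)) hcs)
  · exact (p_val φ.bs _ hA h1 τ ψ).of_eq fun a => by rw [h2]
  · exact (u_ws φ.bs _ hn h1 j).of_eq fun a => by rw [h2]

theorem headD_eq (l : List ℕ) : l.headD 0 = l.getD 0 0 := by cases l <;> rfl

theorem p_tst {s t : ℕ} (φ : PiForm s t) (L : List (QF s (Fin φ.bs.sum))) (e : Bool)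
    {A : α → Str} (hA : Poly A)
    {k N0 : α → ℕ} (hk : UPoly k) (hN0 : UPoly N0) {us cs : α → List Un} (hus : Poly us)
    (hcs : Poly cs) :
    Poly (fun a => tst φ L e (A a) (k a) (N0 a) (nums (us a)) (nums (cs a))) := by
  have hn : UPoly (fun a => (A a).n) := (Poly.strData hA).fst'
  have hm := u_pow hn s
  have hh : UPoly (fun a => (nums (us a)).headD 0) := (u_getD hus 0).of_eq fun a => by
    rw [headD_eq]
  have hz := hh.div (UPoly.const 2)
  have h1 : Poly (fun a => (us a).map fun u => (⟨u.n / 2⟩ : Un)) :=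
    p_map (h := fun p : α × Un => (⟨p.2.n / 2⟩ : Un)) hus
      (UPoly.div (UPoly.n.comp Poly.snd) (UPoly.const 2))
  have h2 : ∀ a, nums ((us a).map fun u => (⟨u.n / 2⟩ : Un)) =
      (nums (us a)).map fun u => u / 2 :=
    fun a => nums_map (us a) (fun u => u / 2)
  have h3 := p_mtst φ L e hA hk hN0 h1 hcs
  have h4 := TM2Lib.Poly.ite ((hh.mod (UPoly.const 2)).eq (UPoly.const 1))
    (TM2Lib.Poly.ite (p_const e) (p_conE hk hm hz (u_getD hcs 0))
      (p_conU hk hm hz (u_getD hus 1) (u_getD hcs 0))) h3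
  refine h4.of_eq fun a => ?_
  unfold tst
  rw [h2]
  by_cases h : (nums (us a)).headD 0 % 2 = 1 <;> simp [h]

/-- the first `t` elements -/
def takeL (t : ℕ) (l : List Un) : List Un := List.ofFn fun i : Fin t => l.getD i ⟨0⟩

theorem takeL_append {us cs : List ℕ} :
    takeL us.length ((us ++ cs).map Un.mk) = us.map Un.mk := by
  unfold takeL
  apply List.ext_getElem
  · simp
  · intro i h1 h2
    rw [List.getElem_ofFn, List.getElem_map]
    have h3 : i < us.length := by simpa using h2
    rw [List.getD_eq_getElem _ _ (by simp; omega), List.getElem_map,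
      List.getElem_append_left h3]

theorem p_takeL (t : ℕ) {l : α → List Un} (hl : Poly l) : Poly (fun a => takeL t (l a)) :=
  Poly.ofFn fun i => Poly.getD hl (UPoly.const _) (p_const _)

end

/-! ### the reduction -/

/-- size of the ranges -/
def bigN {s t : ℕ} (φ : PiForm s t) (L : List (QF s (Fin φ.bs.sum))) (n k : ℕ) : ℕ :=
  n ^ φ.bs.sum * 2 ^ (L.flatMap QF.atoms).length * ((k + 1) * (n ^ s + 3) ^ 2)

theorem bigN_pos {s t : ℕ} (φ : PiForm s t) (L : List (QF s (Fin φ.bs.sum))) {n : ℕ}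
    (hn : 0 < n) (k : ℕ) : 0 < 2 * bigN φ L n k := by
  unfold bigN; positivity

theorem bigN_le1 {s t : ℕ} (φ : PiForm s t) (L : List (QF s (Fin φ.bs.sum))) (n k : ℕ) :
    n ^ φ.bs.sum * 2 ^ (L.flatMap QF.atoms).length ≤ bigN φ L n k :=
  Nat.le_mul_of_pos_right _ (by positivity)

theorem bigN_le2 {s t : ℕ} (φ : PiForm s t) (L : List (QF s (Fin φ.bs.sum))) {n : ℕ}
    (hn : 0 < n) (k : ℕ) : (k + 1) * (n ^ s + 3) ^ 2 ≤ bigN φ L n k :=
  Nat.le_mul_of_pos_left _ (by positivity)

theorem bigN_le3 {s t : ℕ} (φ : PiForm s t) (L : List (QF s (Fin φ.bs.sum))) {n : ℕ}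
    (hn : 0 < n) (k : ℕ) : (k + 1) * (n ^ s + 3) ≤ bigN φ L n k := by
  refine le_trans ?_ (bigN_le2 φ L hn k)
  exact Nat.mul_le_mul_left _ (Nat.le_self_pow (by norm_num) _)

theorem bigN_le4 {s t : ℕ} (φ : PiForm s t) (L : List (QF s (Fin φ.bs.sum))) {n : ℕ}
    (hn : 0 < n) (k : ℕ) : (k + 1) * ((n ^ s + 2) * (n ^ s + 2)) ≤ 2 * bigN φ L n k := by
  have h1 := bigN_le2 φ L hn k
  have h2 : (k + 1) * ((n ^ s + 2) * (n ^ s + 2)) ≤ (k + 1) * (n ^ s + 3) ^ 2 := by
    refine Nat.mul_le_mul_left _ ?_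
    rw [sq]
    exact Nat.mul_le_mul (by omega) (by omega)
  omega

/-- the reduction -/
def red {s t : ℕ} (φ : PiForm s t) (L : List (QF s (Fin φ.bs.sum))) (e : Bool) (d : ℕ)
    (x : Str × Un) : Str × Un :=
  (mkStr (2 * bigN φ L x.1.n x.2.n) (bigN_pos φ L x.1.pos _) (t + d) fun l =>
    tst φ L e x.1 x.2.n (x.1.n ^ φ.bs.sum) (nums (takeL t l)) (nums (l.drop t)), ⟨x.2.n + 1⟩)

theorem p_red {s t : ℕ} (φ : PiForm s t) (L : List (QF s (Fin φ.bs.sum))) (e : Bool) (d : ℕ) :
    Poly (red φ L e d) := by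
  have hA : Poly (fun x : Str × Un => x.1) := Poly.fst
  have hn : UPoly (fun x : Str × Un => x.1.n) := (Poly.strData hA).fst'
  have hk : UPoly (fun x : Str × Un => x.2.n) := UPoly.n.comp Poly.snd
  have hM : UPoly (fun x : Str × Un => 2 * bigN φ L x.1.n x.2.n) :=
    (UPoly.const 2).mul ((((u_pow hn _).mul (UPoly.const _))).mul
      ((hk.add (UPoly.const 1)).mul (u_pow ((u_pow hn s).add (UPoly.const 3)) 2)))
  have hT : Poly (fun p : (Str × Un) × List Un =>
      tst φ L e p.1.1 p.1.2.n (p.1.1.n ^ φ.bs.sum) (nums (takeL t p.2)) (nums (p.2.drop t))) :=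
    p_tst φ L e (hA.comp Poly.fst) (hk.comp Poly.fst) ((u_pow hn _).comp Poly.fst)
      (p_takeL t Poly.snd) (Poly.dropU Poly.snd (UPoly.const t))
  exact (p_str (α := Str × Un) (M := fun x => 2 * bigN φ L x.1.n x.2.n)
    (fun x => bigN_pos φ L x.1.pos _) hM (t + d) hT).pair (hk.add (UPoly.const 1))

theorem red_yes {s r d : ℕ} (φ : PiForm s (r + 2)) {L : List (QF s (Fin φ.bs.sum))}
    (hL : Equ φ L) (hd : 0 < d) (hφ : ∀ ψ ∈ L, ψ.innerOcc φ.start ≤ d) (e : Bool)
    (he : e = true ↔ Even r) (x : Str × Un) :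
    (WD φ).yes x ↔ (WD (canon (t := r + 2) (by omega) d)).yes (red φ L e d x) := by
  obtain ⟨A, k⟩ := x
  have hn := A.pos
  have hbs : ∀ b ∈ φ.bs, A.n ^ b ≤ A.n ^ φ.bs.sum := by
    intro b hb
    exact Nat.pow_le_pow_right hn (List.le_sum_of_mem hb)
  set N := bigN φ L A.n k.n with hNd
  unfold red
  rw [wd_yes_chain φ hL A k hbs, canon_yes]
  have heven : Even (r + 2) ↔ Even r := by
    rw [Nat.even_add]; simp
  -- the meaning of the canonical formula
  have hsem : ∀ Z : Finset ℕ, Z ⊆ Finset.range (2 * N) →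
      (CanonSat (r + 2) d (2 * N) Z ((mkStr (2 * N) (bigN_pos φ L hn _) (r + 2 + d) fun l =>
        tst φ L e A k.n (A.n ^ φ.bs.sum) (nums (takeL (r + 2) l))
          (nums (l.drop (r + 2)))).R 0) ↔
      Pre (2 * N) (r + 2) true fun us => if Even r then
        ∃ cs : List ℕ, cs.length = d ∧ (∀ c' ∈ cs, c' ∈ Z) ∧
          tst φ L e A k.n (A.n ^ φ.bs.sum) us cs = true
        else ∀ cs : List ℕ, cs.length = d → (∀ c' ∈ cs, c' ∈ Z) →
          tst φ L e A k.n (A.n ^ φ.bs.sum) us cs = true) := by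
    intro Z hZ
    unfold CanonSat
    refine Pre.congr fun us hus hus' => ?_
    have h1 : ∀ cs : List ℕ, cs.length = d → (∀ c' ∈ cs, c' ∈ Z) →
        ((mkStr (2 * N) (bigN_pos φ L hn _) (r + 2 + d) fun l =>
          tst φ L e A k.n (A.n ^ φ.bs.sum) (nums (takeL (r + 2) l))
            (nums (l.drop (r + 2)))).R 0
            (us ++ cs) ↔ tst φ L e A k.n (A.n ^ φ.bs.sum) us cs = true) := by
      intro cs hcs hcs'
      rw [mkStr_R]
      have h2 : takeL (r + 2) ((us ++ cs).map Un.mk) = us.map Un.mk := by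
        rw [← hus]; exact takeL_append
      have h3 : ((us ++ cs).map Un.mk).drop (r + 2) = cs.map Un.mk := by
        rw [← List.map_drop, ← hus, List.drop_left]
      rw [h2, h3, nums_mk, nums_mk]
      refine and_iff_right ⟨by simp [hus, hcs], fun u hu => ?_⟩
      rw [List.mem_append] at hu
      rcases hu with hu | hu
      · exact hus' u hu
      · exact Finset.mem_range.1 (hZ (hcs' u hu))
    rw [if_congr heven rfl rfl]
    by_cases hr : Even r
    · rw [if_pos hr, if_pos hr]
      refine exists_congr fun cs => and_congr_right fun hcs => and_congr_right fun hcs' => ?_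
      exact h1 cs hcs hcs'
    · rw [if_neg hr, if_neg hr]
      refine forall_congr' fun cs => forall_congr' fun hcs => forall_congr' fun hcs' => ?_
      exact h1 cs hcs hcs'
  have hN1 := bigN_le1 φ L A.n k.n
  have hN3 := bigN_le3 φ L hn k.n
  have hN4 := bigN_le4 φ L hn k.n
  constructor
  · rintro ⟨c, S, h, hS, hyes⟩
    have hsub : cells k.n (A.n ^ s) c ⊆ Finset.range (2 * N) := by
      intro y hy
      exact Finset.mem_range.2 (lt_of_lt_of_le (cells_lt h hy) hN4)
    refine ⟨cells k.n (A.n ^ s) c, hsub, cells_card, ?_⟩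
    refine (hsem _ hsub).2 ?_
    refine (full_iff φ L hd A hN3 e he (cells_card)).2 ⟨cells_isCells h, ?_⟩
    exact (main_iff φ L hd hφ A h hS (Nat.pow_pos hn) hN1 e he).2 hyes
  · rintro ⟨Z, hsub, hcard, hsat⟩
    have h1 := (hsem Z hsub).1 hsat
    obtain ⟨hcells, h2⟩ := (full_iff φ L hd A hN3 e he hcard).1 h1
    obtain ⟨c, h, rfl⟩ := hcells.exists_chain
    obtain ⟨S, -, -, hS⟩ := set_of_chain h
    exact ⟨c, S, h, hS, (main_iff φ L hd hφ A h hS (Nat.pow_pos hn) hN1 e he).1 h2⟩

/-- The canonical problem is complete for the formulas with at most `d` inner occurrences. -/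
theorem wd_reduces_canon {s t d : ℕ} (ht : 2 ≤ t) (hd : 0 < d) (φ : PiForm s t)
    (hφ : Narrow φ d) : EptReduces (WD φ) (WD (canon (t := t) (by omega) d)) := by
  obtain ⟨r, rfl⟩ : ∃ r, t = r + 2 := ⟨t - 2, by omega⟩
  obtain ⟨L, hL, hL'⟩ := hφ
  refine ⟨red φ L (decide (Even r)) d, ?_, red_yes φ hL hd hL' _ (by simp), 1, fun x => ?_⟩
  · exact EptTime.of_comp _ (p_red φ L (decide (Even r)) d)
  · show x.2.n + 1 ≤ 1 * (x.2.n + _ + 1)
    omega

end Pool.Agent.EWH
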