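import Pool.Agent.EWH.Red

/-!
# Padding: numbers `2 ^ L` in unary, in ept time
-/

set_option autoImplicit false

namespace Pool.Agent.EWH

open Function Turing Pool.Agent.TM2Lib D

/-! ### iteration with a general bound -/

theorem CompT.iter {α σ : Type} {encσ : σ → D} {step : σ → σ}
    (hs : Comp (fun s => encD (encσ s)) (fun s => encD (encσ (step s))))
    (cnt : α → D) (init : α → σ) : ∃ P : Polynomial ℕ, ∀ B : α → ℕ,
    (∀ a, ∀ k ≤ (cnt a).len, (encσ (step^[k] (init a))).size ≤ B a) →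
    CompT (fun a => encD (cons (cnt a) (encσ (init a))))
      (fun a => encD (encσ (step^[(cnt a).len] (init a))))
      (fun a => (encD (cons (cnt a) (encσ (init a)))).length *
        (6 * (encD (cons (cnt a) (encσ (init a)))).length + 8 * B a + P.eval (B a) + 9) +
        20 * (encD (cons (cnt a) (encσ (init a)))).length + 20) := by
  obtain ⟨P⟩ := hs
  refine ⟨P.T, fun B hB => ?_⟩
  let A := Fin 4
  let Γ : P.K ⊕ A → Type := SG P.Γ (GB A)
  let E : Equiv Bool Bool := Equiv.refl Bool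
  let G0 : Frag A (GB A) := (Frag.pop 0).seq ((ext 0 1 2).seq ((moveAll 0 2 E E.symm).seq
    ((moveAll 2 3 E E.symm).seq (moveAll 1 0 E E.symm))))
  refine ⟨⟨P.K ⊕ A, inferInstance, inferInstance, Γ,
    (Frag.liftR G0).seq ((Frag.whl (Γ := Γ) (Sum.inr 0) (fun o => o == some true)
      (iterBody P)).seq (Frag.liftR (Frag.pop 0))),
    Sum.inr 0, Sum.inr 3, E, E, ?_⟩⟩
  intro a
  obtain ⟨c, hc⟩ : ∃ c, c = cnt a := ⟨_, rfl⟩
  obtain ⟨s, hs⟩ : ∃ s, s = init a := ⟨_, rfl⟩
  have hBa := hB a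
  simp only [← hc, ← hs] at hBa ⊢
  obtain ⟨N, hN⟩ : ∃ N, N = (encD (cons c (encσ s))).length := ⟨_, rfl⟩
  rw [← hN]
  have hN' : N = c.size + (encσ s).size + 1 := by rw [hN]; exact size_cons _ _
  have t1 : (Frag.pop 0 : Frag (Fin 4) (GB (Fin 4))).Run
      ![encD (cons c (encσ s)), [], [], []]
      ![encD c ++ encD (encσ s), [], [], []] 1 := by
    refine popB 0 _ _ ?_ ?_
    · simp [encD]
    · intro m hm; fin_cases m <;> simp_all
  have t2 : (ext 0 1 2 : Frag (Fin 4) (GB (Fin 4))).Run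
      ![encD c ++ encD (encσ s), [], [], []]
      ![encD (encσ s), (encD c).reverse, [], []] (4 * c.size + 2) := by
    refine ext_spec 0 1 2 (by decide) (by decide) (by decide) c _ _ (encD (encσ s)) []
      ?_ ?_ ?_ ?_ ?_ ?_ ?_ <;> try simp
    intro m h1 h2 h3; fin_cases m <;> simp_all
  have t3 : (moveAll 0 2 E E.symm : Frag A (GB A)).Run
      ![encD (encσ s), (encD c).reverse, [], []]
      ![[], (encD c).reverse, (encD (encσ s)).reverse, []]
      (2 * (encD (encσ s)).length + 1) := by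
    refine moveB 0 2 (by decide) _ _ (encD (encσ s)) [] ?_ ?_ ?_ ?_ ?_ <;> try simp
    intro m h1 h2; fin_cases m <;> simp_all
  have t4 : (moveAll 2 3 E E.symm : Frag A (GB A)).Run
      ![[], (encD c).reverse, (encD (encσ s)).reverse, []]
      ![[], (encD c).reverse, [], encD (encσ s)]
      (2 * (encD (encσ s)).reverse.length + 1) := by
    refine moveB 2 3 (by decide) _ _ (encD (encσ s)).reverse [] ?_ ?_ ?_ ?_ ?_ <;> try simp
    intro m h1 h2; fin_cases m <;> simp_all
  have t5 : (moveAll 1 0 E E.symm : Frag A (GB A)).Run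
      ![[], (encD c).reverse, [], encD (encσ s)]
      ![encD c, [], [], encD (encσ s)]
      (2 * (encD c).reverse.length + 1) := by
    refine moveB 1 0 (by decide) _ _ (encD c).reverse [] ?_ ?_ ?_ ?_ ?_ <;> try simp
    intro m h1 h2; fin_cases m <;> simp_all
  have t6 : (Frag.liftR G0 : Frag (P.K ⊕ A) Γ).Run
      (join emp (![encD (cons c (encσ s)), [], [], []] : BS A))
      (join emp (![encD c, [], [], encD (encσ s)] : BS A)) _ :=
    Frag.liftR_run (Frag.seq_run t1 (Frag.seq_run t2 (Frag.seq_run t3 (Frag.seq_run t4 t5)))) _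
  obtain ⟨n, hn, r⟩ := iter_loop P (B a) c.size c s le_rfl hBa
  have t7 : (Frag.liftR (Frag.pop 0) : Frag (P.K ⊕ A) Γ).Run
      (join emp (![encD nil, [], [], encD (encσ (step^[c.len] s))] : BS A))
      (join emp (![[], [], [], encD (encσ (step^[c.len] s))] : BS A)) 1 := by
    refine Frag.liftR_run (popB 0 _ _ ?_ ?_) _
    · simp [encD]
    · intro m hm; fin_cases m <;> simp_all
  have e1 : join emp (![encD (cons c (encσ s)), [], [], []] : BS A) =
      (single (Sum.inr 0) ((encD (cons c (encσ s))).map E.symm) : ∀ k, List (Γ k)) := by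
    rw [← join_one]
    congr 1
    funext m; fin_cases m <;> rfl
  have e2 : join emp (![[], [], [], encD (encσ (step^[c.len] s))] : BS A) =
      (single (Sum.inr 3) ((encD (encσ (step^[c.len] s))).map E.symm) :
        ∀ k, List (Γ k)) := by
    rw [← join_one]
    congr 1
    funext m; fin_cases m <;> rfl
  refine ⟨_, ?_, (Frag.seq_run t6 (Frag.seq_run r t7)).cast e1 e2⟩
  have b4 : (encD c).length = c.size := rfl
  have b5 : (encD (encσ s)).length = (encσ s).size := rfl
  have b6 := c.len_lt_size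
  have b7 : c.len * (6 * c.size + 8 * B a + P.T.eval (B a) + 9) ≤
      N * (6 * N + 8 * B a + P.T.eval (B a) + 9) := by
    apply Nat.mul_le_mul (by omega)
    omega
  simp only [List.length_reverse, b4, b5]
  omega

/-! ### functions bounded by `2^{O(κ)} n^{O(1)}` -/

/-- `E ≤ 2 ^ (c κ) (n + 2) ^ c` -/
def EB {α : Type} (κ n E : α → ℕ) : Prop := ∃ c : ℕ, ∀ a, E a ≤ 2 ^ (c * κ a) * (n a + 2) ^ c

section
variable {α : Type} {κ n E F : α → ℕ}

theorem EB.mono (h : EB κ n E) (hF : ∀ a, F a ≤ E a) : EB κ n F := by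
  obtain ⟨c, hc⟩ := h
  exact ⟨c, fun a => (hF a).trans (hc a)⟩

theorem EB.mul (h1 : EB κ n E) (h2 : EB κ n F) : EB κ n fun a => E a * F a := by
  obtain ⟨c1, hc1⟩ := h1
  obtain ⟨c2, hc2⟩ := h2
  refine ⟨c1 + c2, fun a => (Nat.mul_le_mul (hc1 a) (hc2 a)).trans (le_of_eq ?_)⟩
  ring

theorem EB.add (h1 : EB κ n E) (h2 : EB κ n F) : EB κ n fun a => E a + F a := by
  obtain ⟨c1, hc1⟩ := h1
  obtain ⟨c2, hc2⟩ := h2
  refine ⟨c1 + c2 + 1, fun a => ?_⟩
  set X := 2 ^ (c1 * κ a) * (n a + 2) ^ c1 with hX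
  set Y := 2 ^ (c2 * κ a) * (n a + 2) ^ c2 with hY
  have hX1 : 1 ≤ X := Nat.one_le_iff_ne_zero.2 (by positivity)
  have hY1 : 1 ≤ Y := Nat.one_le_iff_ne_zero.2 (by positivity)
  have h3 : X + Y ≤ 2 * (X * Y) := by nlinarith
  calc E a + F a ≤ X + Y := Nat.add_le_add (hc1 a) (hc2 a)
    _ ≤ 2 * (X * Y) := h3
    _ ≤ (2 ^ κ a * (n a + 2)) * (X * Y) := by
      refine Nat.mul_le_mul_right _ ?_
      have : 1 ≤ 2 ^ κ a := Nat.one_le_two_pow
      nlinarith
    _ = 2 ^ ((c1 + c2 + 1) * κ a) * (n a + 2) ^ (c1 + c2 + 1) := by rw [hX, hY]; ring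

theorem EB.const (k : ℕ) : EB κ n fun _ => k := by
  refine ⟨k, fun a => ?_⟩
  calc k ≤ 2 ^ k := Nat.lt_two_pow_self.le
    _ ≤ (n a + 2) ^ k := Nat.pow_le_pow_left (by omega) k
    _ = 1 * (n a + 2) ^ k := (one_mul _).symm
    _ ≤ _ := Nat.mul_le_mul_right _ Nat.one_le_two_pow

theorem EB.len : EB κ n n := by
  refine ⟨1, fun a => ?_⟩
  have : 1 ≤ 2 ^ (1 * κ a) := Nat.one_le_two_pow
  rw [pow_one]
  nlinarith

theorem EB.eval (P : Polynomial ℕ) (h : EB κ n E) : EB κ n fun a => P.eval (E a) := by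
  obtain ⟨c, hc⟩ := poly_le P
  have h1 : ∀ k : ℕ, EB κ n fun a => (E a + 2) ^ k := by
    intro k
    induction k with
    | zero => exact (EB.const 1).mono fun a => by simp
    | succ k ih => exact (ih.mul (h.add (EB.const 2))).mono fun a => by rw [pow_succ]
  exact (h1 c).mono fun a => hc _

theorem EB.two_pow {L : α → ℕ} (hL : ∃ c : ℕ, ∀ a, L a ≤ c * (κ a + Nat.log 2 (n a) + 1))
    (hn : ∀ a, n a ≠ 0) : EB κ n fun a => 2 ^ L a := by
  obtain ⟨c, hc⟩ := hL
  refine ⟨2 * c, fun a => ?_⟩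
  calc 2 ^ L a ≤ 2 ^ (c * (κ a + Nat.log 2 (n a) + 1)) :=
        Nat.pow_le_pow_right (by norm_num) (hc a)
    _ = 2 ^ (c * κ a) * (2 ^ Nat.log 2 (n a)) ^ c * 2 ^ c := by
        rw [← pow_mul, ← pow_add, ← pow_add]; ring_nf
    _ ≤ 2 ^ (c * κ a) * (n a + 2) ^ c * (n a + 2) ^ c := by
        have h1 : 2 ^ Nat.log 2 (n a) ≤ n a := Nat.pow_log_le_self 2 (hn a)
        have h2 : (2 ^ Nat.log 2 (n a)) ^ c ≤ (n a + 2) ^ c :=
          Nat.pow_le_pow_left (by omega) c
        have h3 : 2 ^ c ≤ (n a + 2) ^ c := Nat.pow_le_pow_left (by omega) c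
        exact Nat.mul_le_mul (Nat.mul_le_mul_left _ h2) h3
    _ = 2 ^ (c * κ a) * (n a + 2) ^ (2 * c) := by ring
    _ ≤ 2 ^ (2 * c * κ a) * (n a + 2) ^ (2 * c) := by
        refine Nat.mul_le_mul_right _ (Nat.pow_le_pow_right (by norm_num) ?_)
        exact Nat.mul_le_mul_right _ (by omega)

end

/-! ### padding -/

section
variable {α β : Type} [Enc α] [Enc β]

theorem code_length (a : α) : (NPC.code a : List Bool).length = sz a := rfl

/-- a polynomial time function of `a` and of `2 ^ L a` in unary is ept -/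
theorem ept_of_pad {κ L : α → ℕ} (hL : UPoly L)
    (hL' : ∃ c : ℕ, ∀ a, L a ≤ c * (κ a + Nat.log 2 (NPC.code a).length + 1))
    {f : α × Un → β} (hf : Poly f) :
    EptTime (NPC.code : α → List Bool) (NPC.code : β → List Bool) κ
      (fun a => f (a, ⟨2 ^ L a⟩)) := by
  -- start
  have hstart : Poly (fun a => (un (L a), (a, un 1))) :=
    hL.list.pair (Poly.id.pair (p_const _))
  have hstep : Comp (fun s : α × List Unit => encD (enc s))
      (fun s : α × List Unit => encD (enc ((s.1, s.2 ++ s.2) : α × List Unit))) :=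
    Poly.pair Poly.fst (Poly.append Poly.snd Poly.snd)
  have hit : ∀ (a : α) (k : ℕ), (fun s : α × List Unit => ((s.1, s.2 ++ s.2) : α × List Unit))^[k]
      (a, un 1) = (a, un (2 ^ k)) := by
    intro a k
    induction k with
    | zero => rfl
    | succ k ih =>
      rw [Function.iterate_succ_apply', ih]
      show (a, un (2 ^ k) ++ un (2 ^ k)) = _
      rw [pow_succ, mul_two]
      congr 1
      exact (List.replicate_add _ _ _).symm
  obtain ⟨P, hP⟩ := CompT.iter (α := α) (σ := α × List Unit) (encσ := enc)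
    (step := fun s => (s.1, s.2 ++ s.2)) hstep (fun a => enc (un (L a))) (fun a => (a, un 1))
  have hlen : ∀ a, (enc (un (L a)) : D).len = L a := by
    intro a
    rw [len_enc]
    exact List.length_replicate
  have hszp : ∀ (a : α) (m : ℕ), (enc ((a, un m) : α × List Unit)).size = sz a + 2 * m + 2 := by
    intro a m
    show (cons (enc a) (enc (un m))).size = _
    rw [size_cons]
    have : (enc (un m) : D).size = 2 * m + 1 := sz_un m
    rw [this]
    show sz a + _ + 1 = _
    omega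
  have h2 := hP (fun a => sz a + 2 * 2 ^ L a + 2) (by
    intro a k hk
    rw [hlen] at hk
    rw [hit, hszp]
    have : 2 ^ k ≤ 2 ^ L a := Nat.pow_le_pow_right (by norm_num) hk
    omega)
  obtain ⟨Q, h1⟩ := CompT.of_comp hstart
  obtain ⟨W, h3⟩ := CompT.of_comp (Comp.reindex hf (fun a : α => ((a, ⟨2 ^ L a⟩) : α × Un)))
  have e1 : (fun a : α => encD (enc ((un (L a), (a, un 1)) : List Unit × (α × List Unit)))) =
      fun a => encD (cons (enc (un (L a))) (enc ((a, un 1) : α × List Unit))) := rfl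
  rw [e1] at h1
  have e2 : (fun a : α => encD (enc ((fun s : α × List Unit =>
      ((s.1, s.2 ++ s.2) : α × List Unit))^[(enc (un (L a)) : D).len] (a, un 1)))) =
      fun a => encD (enc ((a, ⟨2 ^ L a⟩) : α × Un)) := by
    funext a
    rw [hlen, hit]
    rfl
  rw [e2] at h2
  have h4 := (h1.trans h2).trans h3
  -- the time
  set n : α → ℕ := fun a => (NPC.code a).length with hn
  have hn0 : ∀ a, n a ≠ 0 := fun a => (sz_pos a).ne'
  have b1 : EB κ n fun a => 2 ^ L a := EB.two_pow hL' hn0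
  have b2 : EB κ n fun a => L a := b1.mono fun a => Nat.lt_two_pow_self.le
  have hs1 : ∀ a, (encD (cons (enc (un (L a))) (enc ((a, un 1) : α × List Unit)))).length =
      n a + 2 * L a + 6 := by
    intro a
    have h5 := size_cons (enc (un (L a))) (enc ((a, un 1) : α × List Unit))
    have h6 : (enc (un (L a)) : D).size = 2 * L a + 1 := sz_un (L a)
    have h7 := hszp a 1
    have h8 : n a = sz a := rfl
    rw [h6, h7] at h5
    have h9 : (encD (cons (enc (un (L a))) (enc ((a, un 1) : α × List Unit)))).length =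
      (cons (enc (un (L a))) (enc ((a, un 1) : α × List Unit))).size := rfl
    omega
  have hs2 : ∀ a, (encD (enc ((a, ⟨2 ^ L a⟩) : α × Un))).length = n a + 2 * 2 ^ L a + 2 :=
    fun a => hszp a (2 ^ L a)
  have c1 : EB κ n fun a => n a + 2 * L a + 6 :=
    (EB.len.add ((EB.const 2).mul b2)).add (EB.const 6)
  have c2 : EB κ n fun a => n a + 2 * 2 ^ L a + 2 :=
    (EB.len.add ((EB.const 2).mul b1)).add (EB.const 2)
  have hT : EB κ n fun a => (Q.eval (n a) + ((n a + 2 * L a + 6) *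
      (6 * (n a + 2 * L a + 6) + 8 * (n a + 2 * 2 ^ L a + 2) + P.eval (n a + 2 * 2 ^ L a + 2) + 9)
      + 20 * (n a + 2 * L a + 6) + 20) + 4 * (n a + 2 * L a + 6) + 2) +
      W.eval (n a + 2 * 2 ^ L a + 2) + 4 * (n a + 2 * 2 ^ L a + 2) + 2 + 1 :=
    ((((((EB.eval Q EB.len).add (((c1.mul (((((EB.const 6).mul c1).add ((EB.const 8).mul c2)).add
      (EB.eval P c2)).add (EB.const 9))).add ((EB.const 20).mul c1)).add (EB.const 20))).add
      ((EB.const 4).mul c1)).add (EB.const 2)).add (EB.eval W c2)).add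
      ((EB.const 4).mul c2)).add (EB.const 2) |>.add (EB.const 1)
  obtain ⟨c, hc⟩ := hT
  refine EptTime.of_compT h4 (c := c) fun a => ?_
  refine le_trans (le_of_eq ?_) (hc a)
  simp only [hs1, hs2]
  rfl

end

end Pool.Agent.EWH
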