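import Pool.Agent.EWH.BlockH

/-!
# The regime theorem
-/

set_option autoImplicit false

namespace Pool.Agent.EWH

open Turing Pool.Agent.TM2Lib

/-- size of the blocks -/
def gB (n k : ℕ) : ℕ := k / Nat.size n + 1

/-- number of blocks -/
def bB (n k : ℕ) : ℕ := k / gB n k + 1

/-- size of the universe (half of it) -/
def nB (d n b V : ℕ) : ℕ := n + (d + 1) * (b ^ d * V) + b ^ d * V ^ d

theorem nB_pos {d n b V : ℕ} (hn : 0 < n) : 0 < 2 * nB d n b V := by
  unfold nB; positivity

/-- the block reduction (the last argument is the padding) -/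
def redB (e : Bool) (t d : ℕ) (x : (Str × Un) × Un) : Str × Un :=
  (mkStr (2 * nB d x.1.1.n (bB x.1.1.n x.1.2.n) x.2.n) (nB_pos x.1.1.pos) (t + 1) fun l =>
    tstB e x.1.1 t x.1.2.n (gB x.1.1.n x.1.2.n) (bB x.1.1.n x.1.2.n) x.2.n d (nums (takeL t l))
      (nums (l.drop t)), ⟨bB x.1.1.n x.1.2.n ^ d⟩)

theorem p_redB (e : Bool) (t d : ℕ) : Poly (redB e t d) := by
  have hA : Poly (fun x : (Str × Un) × Un => x.1.1) := Poly.fst.fst'
  have hn : UPoly (fun x : (Str × Un) × Un => x.1.1.n) := (Poly.strData hA).fst'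
  have hk : UPoly (fun x : (Str × Un) × Un => x.1.2.n) := UPoly.n.comp Poly.fst.snd'
  have hV : UPoly (fun x : (Str × Un) × Un => x.2.n) := UPoly.n.comp Poly.snd
  have hg : UPoly (fun x : (Str × Un) × Un => gB x.1.1.n x.1.2.n) :=
    (hk.div hn.size).add (UPoly.const 1)
  have hb : UPoly (fun x : (Str × Un) × Un => bB x.1.1.n x.1.2.n) :=
    (hk.div hg).add (UPoly.const 1)
  have hM : UPoly (fun x : (Str × Un) × Un => 2 * nB d x.1.1.n (bB x.1.1.n x.1.2.n) x.2.n) :=
    (UPoly.const 2).mul ((hn.add ((UPoly.const (d + 1)).mul ((u_pow hb d).mul hV))).add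
      ((u_pow hb d).mul (u_pow hV d)))
  have hT : Poly (fun p : ((Str × Un) × Un) × List Un =>
      tstB e p.1.1.1 t p.1.1.2.n (gB p.1.1.1.n p.1.1.2.n) (bB p.1.1.1.n p.1.1.2.n) p.1.2.n d
        (nums (takeL t p.2)) (nums (p.2.drop t))) :=
    p_tstB e (hA.comp Poly.fst) t (hk.comp Poly.fst) (hg.comp Poly.fst) (hb.comp Poly.fst)
      (hV.comp Poly.fst) d (p_takeL t Poly.snd) (Poly.dropU Poly.snd (UPoly.const t))
  exact (p_str (α := (Str × Un) × Un)
    (M := fun x => 2 * nB d x.1.1.n (bB x.1.1.n x.1.2.n) x.2.n)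
    (fun x => nB_pos x.1.1.pos) hM (t + 1) hT).pair (u_pow hb d)

/-! ### sizes -/

theorem gB_pos (n k : ℕ) : 0 < gB n k := Nat.succ_pos _

theorem bB_pos (n k : ℕ) : 0 < bB n k := Nat.succ_pos _

theorem bB_gB (n k : ℕ) : k ≤ bB n k * gB n k := by
  have h := Nat.lt_div_mul_add (a := k) (gB_pos n k)
  unfold bB
  rw [add_mul, one_mul]
  exact h.le

theorem bB_le (n k : ℕ) : bB n k ≤ k + 1 := Nat.succ_le_succ (Nat.div_le_self _ _)

theorem bB_le' {n : ℕ} (hn : 0 < n) (k : ℕ) : bB n k ≤ Nat.size n := by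
  have h0 : 0 < Nat.size n := Nat.size_pos.2 hn
  have h := Nat.lt_div_mul_add (a := k) h0
  have h1 : k < Nat.size n * gB n k := by
    unfold gB
    calc k < k / Nat.size n * Nat.size n + Nat.size n := h
      _ = Nat.size n * (k / Nat.size n + 1) := by ring
  have h2 : k / gB n k < Nat.size n :=
    Nat.div_lt_of_lt_mul (by rw [Nat.mul_comm]; exact h1)
  exact h2

/-- the length of the padding -/
def lB (n k : ℕ) : ℕ := Nat.size n * gB n k

theorem pow_gB (n k : ℕ) : n ^ gB n k ≤ 2 ^ lB n k := by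
  unfold lB
  rw [pow_mul]
  exact Nat.pow_le_pow_left (Nat.lt_size_self n).le _

theorem lB_le (n k : ℕ) : lB n k ≤ k + Nat.size n := by
  unfold lB gB
  rw [mul_add, mul_one]
  exact Nat.add_le_add_right (Nat.mul_div_le _ _) _

theorem size_le_log (n : ℕ) : Nat.size n ≤ Nat.log 2 n + 1 := by
  rw [Nat.size_le]
  exact Nat.lt_pow_succ_log_self (by norm_num) n

theorem n_le_code (x : Str × Un) : x.1.n ≤ (NPC.code x : List Bool).length := by
  have h1 : (NPC.code x : List Bool).length = sz x := rfl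
  have h2 : sz x = sz x.1 + sz x.2 + 1 := sz_pair x.1 x.2
  have h3 : sz x.1 = sz (((⟨x.1.n⟩ : Un), x.1.rels)) := rfl
  have h4 : sz (((⟨x.1.n⟩ : Un), x.1.rels)) = sz (⟨x.1.n⟩ : Un) + sz x.1.rels + 1 := sz_pair _ _
  have h5 : sz (⟨x.1.n⟩ : Un) = 2 * x.1.n + 1 := sz_Un _
  omega

theorem min_pow_le (a d : ℕ) : (a + 1) ^ d ≤ 2 ^ d * (a ^ d + 1) := by
  rcases Nat.eq_zero_or_pos a with rfl | ha
  · rw [Nat.zero_add, one_pow]
    exact Nat.one_le_iff_ne_zero.2 (by positivity)
  · calc (a + 1) ^ d ≤ (2 * a) ^ d := Nat.pow_le_pow_left (by omega) _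
      _ = 2 ^ d * a ^ d := mul_pow _ _ _
      _ ≤ 2 ^ d * (a ^ d + 1) := Nat.mul_le_mul_left _ (Nat.le_succ _)

/-- The regime theorem: a problem with (at most) `d` inner occurrences reduces to the canonical
problem with one occurrence; the new parameter is `O(min (k, log |x|) ^ d + 1)`. -/
theorem regime {s t d : ℕ} (ht : 2 ≤ t) (hd : 2 ≤ d) (φ : PiForm s t) (hφ : Narrow φ d) :
    ∃ f : Str × Un → Str × Un,
      EptTime (NPC.code : Str × Un → List Bool) (NPC.code : Str × Un → List Bool)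
        (fun x => x.2.n) f ∧
      (∀ x, (WD φ).yes x ↔ (WD (canon (t := t) (Nat.zero_lt_of_lt ht) 1)).yes (f x)) ∧
      ∃ c : ℕ, ∀ x : Str × Un, (f x).2.n ≤
        c * ((min x.2.n (Nat.log 2 (NPC.code x : List Bool).length)) ^ d + 1) := by
  obtain ⟨r, rfl⟩ : ∃ r, t = r + 2 := ⟨t - 2, by omega⟩
  obtain ⟨L, hL, hL'⟩ := hφ
  set e : Bool := decide (Even r) with he
  have hpr := p_red φ L e d
  -- the length of the first structure
  obtain ⟨b, hb⟩ := (EptTime.of_comp (fun _ => 0) hpr).length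
  have hsize : ∀ x : Str × Un, Nat.size (red φ L e d x).1.n ≤
      3 * b * (Nat.log 2 (NPC.code x : List Bool).length + 1) + 1 := by
    intro x
    have h1 := log_bound (hb x)
    have h2 := size_le_log (red φ L e d x).1.n
    have h3 := Nat.log_mono_right (b := 2) (n_le_code (red φ L e d x))
    rw [Nat.zero_add] at h1
    exact h2.trans (Nat.succ_le_succ (h3.trans h1))
  refine ⟨fun x => redB e (r + 2) d (red φ L e d x,
    ⟨2 ^ lB (red φ L e d x).1.n (red φ L e d x).2.n⟩), ?_, ?_, ?_⟩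
  · have hn : UPoly (fun x : Str × Un => (red φ L e d x).1.n) := (Poly.strData hpr.fst').fst'
    have hk : UPoly (fun x : Str × Un => (red φ L e d x).2.n) := UPoly.n.comp hpr.snd'
    have hu : UPoly (fun x : Str × Un => lB (red φ L e d x).1.n (red φ L e d x).2.n) :=
      hn.size.mul ((hk.div hn.size).add (UPoly.const 1))
    refine ept_of_pad (α := Str × Un) (β := Str × Un) (κ := fun x => x.2.n) hu
      ⟨3 * b + 2, fun x => ?_⟩ (f := fun p : (Str × Un) × Un => redB e (r + 2) d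
        (red φ L e d p.1, p.2)) ((p_redB e (r + 2) d).comp ((hpr.comp Poly.fst).pair Poly.snd))
    refine (lB_le _ _).trans ?_
    have h1 := hsize x
    have h2 : (red φ L e d x).2.n = x.2.n + 1 := rfl
    rw [h2]
    set l := Nat.log 2 (NPC.code x : List Bool).length with hl
    have h3 : (3 * b + 2) * (x.2.n + l + 1) = 3 * b * (l + 1) + 3 * b * x.2.n + 2 * x.2.n +
      2 * (l + 1) := by ring
    rw [h3]
    omega
  · intro x
    have hn := (red φ L e d x).1.pos
    rw [red_yes φ hL (by omega) hL' e (by simp [he]) x]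
    refine blk_yes hd (red φ L e d x).1 (red φ L e d x).2
      (g := gB (red φ L e d x).1.n (red φ L e d x).2.n)
      (b := bB (red φ L e d x).1.n (red φ L e d x).2.n)
      (V := 2 ^ lB (red φ L e d x).1.n (red φ L e d x).2.n)
      (N := nB d (red φ L e d x).1.n (bB (red φ L e d x).1.n (red φ L e d x).2.n)
        (2 ^ lB (red φ L e d x).1.n (red φ L e d x).2.n))
      (gB_pos _ _) (bB_pos _ _) (bB_gB _ _) (pow_gB _ _) ?_ ?_ ?_ (nB_pos hn) e (by simp [he])
    · unfold nB; omega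
    · unfold nB; omega
    · unfold nB; omega
  · refine ⟨(3 * b + 2) ^ d * 2 ^ d, fun x => ?_⟩
    show bB (red φ L e d x).1.n (red φ L e d x).2.n ^ d ≤ _
    have hn := (red φ L e d x).1.pos
    set l := Nat.log 2 (NPC.code x : List Bool).length with hl
    have h1 : bB (red φ L e d x).1.n (red φ L e d x).2.n ≤ (3 * b + 2) * (min x.2.n l + 1) := by
      have h2 := bB_le (red φ L e d x).1.n (red φ L e d x).2.n
      have h3 := (bB_le' hn (red φ L e d x).2.n).trans (hsize x)
      have h4 : (red φ L e d x).2.n = x.2.n + 1 := rfl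
      rw [h4] at h2 ⊢
      rw [← hl] at h3
      rcases le_total x.2.n l with h | h
      · rw [min_eq_left h]
        have h5 : (3 * b + 2) * (x.2.n + 1) = 3 * b * (x.2.n + 1) + 2 * (x.2.n + 1) := by ring
        omega
      · rw [min_eq_right h]
        have h5 : (3 * b + 2) * (l + 1) = 3 * b * (l + 1) + 2 * (l + 1) := by ring
        rw [h4] at h3
        omega
    calc bB (red φ L e d x).1.n (red φ L e d x).2.n ^ d
        ≤ ((3 * b + 2) * (min x.2.n l + 1)) ^ d := Nat.pow_le_pow_left h1 _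
      _ = (3 * b + 2) ^ d * (min x.2.n l + 1) ^ d := mul_pow _ _ _
      _ ≤ (3 * b + 2) ^ d * (2 ^ d * ((min x.2.n l) ^ d + 1)) :=
        Nat.mul_le_mul_left _ (min_pow_le _ _)
      _ = _ := by ring

end Pool.Agent.EWH
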