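import Pool.Agent.EWH.LogB

/-!
# Restricted problems; the problems outside the middle regime
-/

set_option autoImplicit false

namespace Pool.Agent.EWH

open Turing Pool.Agent.TM2Lib

/-- the restriction of a parameterized problem to the instances in `F` -/
def PProb.restr (P : PProb) (F : P.Inst → Prop) : PProb where
  Inst := {x : P.Inst // F x}
  code x := P.code x.1
  yes x := P.yes x.1
  par x := P.par x.1
  par_poly := NPC.polyTime_of_comp (Comp.reindex (NPC.comp_of_polyTime P.par_poly) Subtype.val)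

/-- Reductions in time `2^{O(κ)} |x|^{O(1)}` with the new parameter `O(min(κ, log |x|)^d + 1)`. -/
def RegReduces (d : ℕ) (P Q : PProb) : Prop :=
  ∃ f : P.Inst → Q.Inst, EptTime P.code Q.code P.par f ∧ (∀ x, P.yes x ↔ Q.yes (f x)) ∧
    ∃ c : ℕ, ∀ x, Q.par (f x) ≤ c * (min (P.par x) (Nat.log 2 (P.code x).length) ^ d + 1)

/-- the instances with `κ ^ d ≤ C log |x|` or `(log |x|) ^ d ≤ C κ` -/
def Outer (P : PProb) (d C : ℕ) (x : P.Inst) : Prop :=
  P.par x ^ d ≤ C * Nat.log 2 (P.code x).length ∨ Nat.log 2 (P.code x).length ^ d ≤ C * P.par x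

theorem EptTime.restr {α β : Type} {ca : α → List Bool} {cb : β → List Bool} {κ : α → ℕ}
    {f : α → β} (h : EptTime ca cb κ f) (F : α → Prop) :
    EptTime (fun x : {x : α // F x} => ca x.1) cb (fun x => κ x.1) (fun x => f x.1) := by
  obtain ⟨M, c, hM⟩ := h
  exact ⟨M, c, fun x => hM x.1⟩

theorem RegReduces.outer {d : ℕ} {P Q : PProb} (h : RegReduces d P Q) (C : ℕ) :
    EptReduces (P.restr (Outer P d C)) Q := by
  obtain ⟨f, hf, hyes, c, hc⟩ := h
  refine ⟨fun x => f x.1, hf.restr _, fun x => hyes x.1, c * (C + 1), fun x => ?_⟩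
  obtain ⟨x, hx⟩ := x
  show Q.par (f x) ≤ c * (C + 1) * (P.par x + Nat.log 2 (P.code x).length + 1)
  refine (hc x).trans ?_
  rw [mul_assoc]
  refine Nat.mul_le_mul_left _ ?_
  have h1 : min (P.par x) (Nat.log 2 (P.code x).length) ^ d ≤
      C * (P.par x + Nat.log 2 (P.code x).length) := by
    rcases hx with hx | hx
    · calc min (P.par x) (Nat.log 2 (P.code x).length) ^ d ≤ P.par x ^ d :=
            Nat.pow_le_pow_left (min_le_left _ _) _
        _ ≤ C * Nat.log 2 (P.code x).length := hx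
        _ ≤ _ := Nat.mul_le_mul_left _ (Nat.le_add_left _ _)
    · calc min (P.par x) (Nat.log 2 (P.code x).length) ^ d ≤ Nat.log 2 (P.code x).length ^ d :=
            Nat.pow_le_pow_left (min_le_right _ _) _
        _ ≤ C * P.par x := hx
        _ ≤ _ := Nat.mul_le_mul_left _ (Nat.le_add_right _ _)
  calc min (P.par x) (Nat.log 2 (P.code x).length) ^ d + 1
      ≤ C * (P.par x + Nat.log 2 (P.code x).length) + 1 := Nat.add_le_add_right h1 1
    _ ≤ (C + 1) * (P.par x + Nat.log 2 (P.code x).length + 1) := by ring_nf; omega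

theorem regime' {s t d : ℕ} (ht : 2 ≤ t) (hd : 2 ≤ d) (φ : PiForm s t) (hφ : Narrow φ d) :
    RegReduces d (WD φ) (WD (canon (t := t) (Nat.zero_lt_of_lt ht) 1)) :=
  regime ht hd φ hφ

end Pool.Agent.EWH
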