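import Pool.Agent.EWH.Defs

/-!
# Semantics: single quantifiers over numbers, the canonical formula
-/

set_option autoImplicit false

namespace Pool.Agent.EWH

open Pool.Agent.TM2Lib

/-- `t` alternating quantifiers over the numbers below `N` -/
def Pre (N : ℕ) : ℕ → Bool → (List ℕ → Prop) → Prop
  | 0, _, P => P []
  | t + 1, true, P => ∀ u < N, Pre N t false fun l => P (u :: l)
  | t + 1, false, P => ∃ u < N, Pre N t true fun l => P (u :: l)

theorem pre_true {N t : ℕ} {P : List ℕ → Prop} :
    Pre N (t + 1) true P = ∀ u < N, Pre N t false fun l => P (u :: l) := rfl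

theorem pre_false {N t : ℕ} {P : List ℕ → Prop} :
    Pre N (t + 1) false P = ∃ u < N, Pre N t true fun l => P (u :: l) := rfl

theorem Pre.congr {N : ℕ} : ∀ {t : ℕ} {q : Bool} {P P' : List ℕ → Prop},
    (∀ l : List ℕ, l.length = t → (∀ u ∈ l, u < N) → (P l ↔ P' l)) → (Pre N t q P ↔ Pre N t q P')
  | 0, _, _, _, h => h [] rfl (by simp)
  | t + 1, true, P, P', h => by
    refine forall_congr' fun u => forall_congr' fun hu => Pre.congr fun l hl hl' => ?_
    exact h (u :: l) (by simp [hl]) (by simpa using ⟨hu, hl'⟩)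
  | t + 1, false, P, P', h => by
    refine exists_congr fun u => and_congr_right fun hu => Pre.congr fun l hl hl' => ?_
    exact h (u :: l) (by simp [hl]) (by simpa using ⟨hu, hl'⟩)

/-! ### blocks -/

/-- the value of the variable `x`: the digits of the number `us[i]` in the base `n` are the values
of the variables of the block `i` -/
def decv (n : ℕ) : List ℕ → List ℕ → ℕ → ℕ
  | [], _, _ => 0
  | b :: bs, us, x => if x < b then us.headD 0 / n ^ x % n else decv n bs us.tail (x - b)

theorem decv_lt {n : ℕ} (hn : 0 < n) : ∀ (bs us : List ℕ) (x : ℕ), decv n bs us x < n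
  | [], _, _ => hn
  | b :: bs, us, x => by
    unfold decv
    split_ifs
    · exact Nat.mod_lt _ hn
    · exact decv_lt hn bs _ _

/-- a tuple as a number -/
theorem exists_num {n : ℕ} (b : ℕ) (a : Fin b → Fin n) :
    ∃ u < n ^ b, ∀ j : Fin b, u / n ^ (j : ℕ) % n = a j := by
  refine ⟨(finFunctionFinEquiv a : ℕ), (finFunctionFinEquiv a).2, fun j => ?_⟩
  have h := congrArg (fun f => (f j : ℕ)) (finFunctionFinEquiv.symm_apply_apply a)
  rw [← h]
  rfl

/-- the values of all variables -/
def decl (n : ℕ) (hn : 0 < n) : List ℕ → List ℕ → List (Fin n)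
  | [], _ => []
  | b :: bs, us => List.ofFn (fun j : Fin b => (⟨us.headD 0 / n ^ (j : ℕ) % n, Nat.mod_lt _ hn⟩ :
      Fin n)) ++ decl n hn bs us.tail

theorem decl_getD {n : ℕ} (hn : 0 < n) (z : Fin n) : ∀ (bs us : List ℕ) (x : ℕ), x < bs.sum →
    (((decl n hn bs us).getD x z : Fin n) : ℕ) = decv n bs us x
  | [], _, x, h => by simp at h
  | b :: bs, us, x, h => by
    rw [List.sum_cons] at h
    unfold decl decv
    split_ifs with hx
    · rw [List.getD_append _ _ _ _ (by simpa using hx)]
      rw [List.getD_eq_getElem _ _ (by simpa using hx), List.getElem_ofFn]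
    · rw [List.getD_append_right _ _ _ _ (by simpa using hx)]
      rw [List.length_ofFn]
      exact decl_getD hn z bs us.tail (x - b) (by omega)

theorem alt_pre {n N : ℕ} (hn : 0 < n) : ∀ (bs : List ℕ) (q : Bool)
    (P : List (Fin n) → Prop), (∀ b ∈ bs, n ^ b ≤ N) →
    (Alt (Fin n) bs q P ↔ Pre N bs.length q fun us => P (decl n hn bs us))
  | [], q, P, _ => by simp only [Alt, Pre, List.length_nil, decl]
  | b :: bs, q, P, hN => by
    have hb : n ^ b ≤ N := hN b (by simp)
    have ih := fun q P => alt_pre hn (N := N) bs q P (fun c hc => hN c (by simp [hc]))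
    have key : ∀ (u : ℕ) (us : List ℕ) (a : Fin b → Fin n),
        (∀ j : Fin b, u / n ^ (j : ℕ) % n = a j) →
        List.ofFn a ++ decl n hn bs us = decl n hn (b :: bs) (u :: us) := by
      intro u us a ha
      have : a = fun j : Fin b => (⟨u / n ^ (j : ℕ) % n, Nat.mod_lt _ hn⟩ : Fin n) :=
        funext fun j => Fin.ext (ha j).symm
      rw [this]
      rfl
    cases q with
    | true =>
      simp only [Alt, Pre, List.length_cons]
      constructor
      · intro h u hu
        have h1 := (ih _ _).1 (h fun j => ⟨u / n ^ (j : ℕ) % n, Nat.mod_lt _ hn⟩)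
        refine (Pre.congr fun us _ _ => ?_).1 h1
        rw [key u us _ (fun j => rfl)]
      · intro h a
        obtain ⟨u, hu, hua⟩ := exists_num b a
        refine (ih _ _).2 ((Pre.congr fun us _ _ => ?_).2 (h u (by omega)))
        rw [key u us a hua]
    | false =>
      simp only [Alt, Pre, List.length_cons]
      constructor
      · rintro ⟨a, h⟩
        obtain ⟨u, hu, hua⟩ := exists_num b a
        refine ⟨u, by omega, (Pre.congr fun us _ _ => ?_).1 ((ih _ _).1 h)⟩
        rw [key u us a hua]
      · rintro ⟨u, hu, h⟩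
        refine ⟨fun j => ⟨u / n ^ (j : ℕ) % n, Nat.mod_lt _ hn⟩, (ih _ _).2 ?_⟩
        refine (Pre.congr fun us _ _ => ?_).2 h
        rw [key u us _ (fun j => rfl)]

/-! ### the canonical formula -/

theorem conjX_occ {v : Type} (l : List v) : (conjX l).occ = l.length := by
  induction l with
  | nil => rfl
  | cons a l ih =>
    have : conjX (a :: l) = .and (.X fun _ => a) (conjX l) := rfl
    rw [this]
    simp only [QF.occ, ih, List.length_cons]
    omega

theorem conjX_holds {v : Type} (A : Str) (S : Finset (Fin 1 → Fin A.n)) (e : v → Fin A.n)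
    (l : List v) : (conjX l).Holds A S e ↔ ∀ x ∈ l, (fun _ => e x) ∈ S := by
  induction l with
  | nil => simp [conjX, QF.Holds]
  | cons a l ih =>
    have : conjX (a :: l) = .and (.X fun _ => a) (conjX l) := rfl
    rw [this]
    simp only [QF.Holds, ih, List.mem_cons, forall_eq_or_imp]

theorem canonBs_sum {t : ℕ} (ht : 0 < t) (d : ℕ) : (canonBs t d).sum = t + d := by
  simp [canonBs]; omega

theorem canon_occ {t : ℕ} (ht : 0 < t) (d : ℕ) : (canon ht d).mat.occ = d := by
  have h : ((List.finRange (canonBs t d).sum).drop t).length = d := by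
    rw [List.length_drop, List.length_finRange, canonBs_sum ht]; omega
  show (canonMat t (canonBs t d).sum).occ = d
  unfold canonMat
  split_ifs <;> simp only [QF.occ, conjX_occ, h] <;> omega

theorem canon_mem {t : ℕ} (ht : 0 < t) (d : ℕ) : WD (canon ht d) ∈ pWD t d :=
  ⟨1, one_pos, canon ht d, (canon_occ ht d).le, rfl⟩

/-- blocks of quantifiers over numbers, the values being collected in a list -/
def AltL (N : ℕ) : List ℕ → Bool → (List ℕ → Prop) → Prop
  | [], _, P => P []
  | b :: bs, true, P => ∀ a : Fin b → Fin N,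
      AltL N bs false fun l => P (List.ofFn (fun i => (a i : ℕ)) ++ l)
  | b :: bs, false, P => ∃ a : Fin b → Fin N,
      AltL N bs true fun l => P (List.ofFn (fun i => (a i : ℕ)) ++ l)

theorem Alt.congr {U : Type} : ∀ {bs : List ℕ} {q : Bool} {P P' : List U → Prop},
    (∀ l : List U, l.length = bs.sum → (P l ↔ P' l)) → (Alt U bs q P ↔ Alt U bs q P')
  | [], _, _, _, h => h [] rfl
  | b :: bs, true, P, P', h => by
    refine forall_congr' fun a => Alt.congr fun l hl => h _ ?_
    simp [hl]
  | b :: bs, false, P, P', h => by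
    refine exists_congr fun a => Alt.congr fun l hl => h _ ?_
    simp [hl]

theorem alt_altL {N : ℕ} : ∀ (bs : List ℕ) (q : Bool) (P : List ℕ → Prop),
    Alt (Fin N) bs q (fun l => P (l.map Fin.val)) ↔ AltL N bs q P
  | [], q, P => by
    simp only [Alt, AltL, List.map_nil]
  | b :: bs, true, P => by
    simp only [Alt, AltL]
    refine forall_congr' fun a => ?_
    rw [← alt_altL bs false]
    refine Alt.congr fun l _ => ?_
    rw [List.map_append, List.map_ofFn]
    rfl
  | b :: bs, false, P => by
    simp only [Alt, AltL]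
    refine exists_congr fun a => ?_
    rw [← alt_altL bs true]
    refine Alt.congr fun l _ => ?_
    rw [List.map_append, List.map_ofFn]
    rfl

theorem forall_one {N : ℕ} (F : List ℕ → Prop) :
    (∀ a : Fin 1 → Fin N, F (List.ofFn fun i => (a i : ℕ))) ↔ ∀ u < N, F [u] := by
  constructor
  · intro h u hu
    simpa using h fun _ => ⟨u, hu⟩
  · intro h a
    simpa using h (a 0) (a 0).2

theorem exists_one {N : ℕ} (F : List ℕ → Prop) :
    (∃ a : Fin 1 → Fin N, F (List.ofFn fun i => (a i : ℕ))) ↔ ∃ u < N, F [u] := by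
  constructor
  · rintro ⟨a, h⟩
    exact ⟨a 0, (a 0).2, by simpa using h⟩
  · rintro ⟨u, hu, h⟩
    exact ⟨fun _ => ⟨u, hu⟩, by simpa using h⟩

/-- the last block -/
theorem forall_last {N d : ℕ} (F : List ℕ → Prop) :
    (∀ a : Fin (1 + d) → Fin N, F (List.ofFn fun i => (a i : ℕ))) ↔
      ∀ u < N, ∀ cs : List ℕ, cs.length = d → (∀ c ∈ cs, c < N) → F (u :: cs) := by
  constructor
  · intro h u hu cs hcs hlt
    have hl : (u :: cs).length = 1 + d := by simp [hcs]; omega
    have hlt' : ∀ c ∈ u :: cs, c < N := by simpa using ⟨hu, hlt⟩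
    have := h fun i => ⟨(u :: cs)[(i : ℕ)]'(by rw [hl]; exact i.2),
      hlt' _ (List.getElem_mem _)⟩
    have e : (List.ofFn fun i : Fin (1 + d) => (u :: cs)[(i : ℕ)]'(by rw [hl]; exact i.2)) =
        u :: cs := by
      apply List.ext_getElem
      · simp [hl]
      · intro i h1 h2
        rw [List.getElem_ofFn]
    rw [← e]
    exact this
  · intro h a
    have e : (List.ofFn fun i => (a i : ℕ)) =
        (a (Fin.cast (by omega) (0 : Fin (d + 1))) : ℕ) ::
          List.ofFn (fun i : Fin d => (a (Fin.cast (by omega) (Fin.succ i)) : ℕ)) := by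
      apply List.ext_getElem
      · simp; omega
      · intro i h1 h2
        rw [List.getElem_ofFn]
        cases i with
        | zero => rfl
        | succ i => 
          rw [List.getElem_cons_succ, List.getElem_ofFn]
          rfl
    rw [e]
    refine h _ (Fin.is_lt _) _ (by simp) ?_
    intro c hc
    rw [List.mem_ofFn] at hc
    obtain ⟨i, rfl⟩ := hc
    exact Fin.is_lt _

theorem exists_last {N d : ℕ} (F : List ℕ → Prop) :
    (∃ a : Fin (1 + d) → Fin N, F (List.ofFn fun i => (a i : ℕ))) ↔
      ∃ u < N, ∃ cs : List ℕ, cs.length = d ∧ (∀ c ∈ cs, c < N) ∧ F (u :: cs) := by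
  have h := forall_last (N := N) (d := d) (fun l => ¬ F l)
  constructor
  · rintro ⟨a, ha⟩
    by_contra hc
    exact h.2 (fun u hu cs h1 h2 h3 => hc ⟨u, hu, cs, h1, h2, h3⟩) a ha
  · rintro ⟨u, hu, cs, h1, h2, h3⟩
    by_contra hc
    exact h.1 (fun a ha => hc ⟨a, ha⟩) u hu cs h1 h2 h3

/-- the quantifiers of the canonical formula -/
theorem altL_canon {N d : ℕ} : ∀ (r : ℕ) (q : Bool) (P : List ℕ → Prop),
    AltL N (List.replicate r 1 ++ [1 + d]) q P ↔
      Pre N (r + 1) q fun us =>
        if (Even r ↔ q = true) then ∀ cs : List ℕ, cs.length = d → (∀ c ∈ cs, c < N) → P (us ++ cs)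
        else ∃ cs : List ℕ, cs.length = d ∧ (∀ c ∈ cs, c < N) ∧ P (us ++ cs)
  | 0, true, P => by
    simp only [List.replicate_zero, List.nil_append, AltL, Pre, List.append_nil,
      Even.zero, if_true]
    rw [forall_last]
    simp
  | 0, false, P => by
    simp only [List.replicate_zero, List.nil_append, AltL, Pre, List.append_nil]
    rw [exists_last]
    simp
  | r + 1, true, P => by
    have e : List.replicate (r + 1) 1 ++ [1 + d] = 1 :: (List.replicate r 1 ++ [1 + d]) := rfl
    rw [e]
    rw [pre_true]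
    simp only [AltL]
    rw [forall_one (fun x => AltL N (List.replicate r 1 ++ [1 + d]) false fun l => P (x ++ l))]
    refine forall_congr' fun u => forall_congr' fun _ => ?_
    rw [altL_canon r false]
    refine Pre.congr fun l _ _ => ?_
    by_cases h : Even r <;> simp [h, Nat.even_add_one]
  | r + 1, false, P => by
    have e : List.replicate (r + 1) 1 ++ [1 + d] = 1 :: (List.replicate r 1 ++ [1 + d]) := rfl
    rw [e]
    rw [pre_false]
    simp only [AltL]
    rw [exists_one (fun x => AltL N (List.replicate r 1 ++ [1 + d]) true fun l => P (x ++ l))]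
    refine exists_congr fun u => and_congr_right fun _ => ?_
    rw [altL_canon r true]
    refine Pre.congr fun l _ _ => ?_
    by_cases h : Even r <;> simp [h, Nat.even_add_one]

/-- The meaning of the canonical formula. -/
def CanonSat (t d N : ℕ) (Y : Finset ℕ) (R : List ℕ → Prop) : Prop :=
  Pre N t true fun us =>
    if Even t then ∃ cs : List ℕ, cs.length = d ∧ (∀ c ∈ cs, c ∈ Y) ∧ R (us ++ cs)
    else ∀ cs : List ℕ, cs.length = d → (∀ c ∈ cs, c ∈ Y) → R (us ++ cs)

theorem canon_yes {t : ℕ} (ht : 0 < t) (d : ℕ) (B : Str) (k : Un) :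
    (WD (canon ht d)).yes (B, k) ↔
      ∃ Y : Finset ℕ, Y ⊆ Finset.range B.n ∧ Y.card = k.n ∧ CanonSat t d B.n Y (B.R 0) := by
  -- sets of 1-tuples and sets of numbers
  have hY : ∀ P : Finset ℕ → Prop, (∃ S : Finset (Fin 1 → Fin B.n), P (S.image fun f => (f 0 : ℕ)))
      ↔ ∃ Y : Finset ℕ, Y ⊆ Finset.range B.n ∧ P Y := by
    intro P
    constructor
    · rintro ⟨S, hS⟩
      refine ⟨_, ?_, hS⟩
      intro y hy
      rw [Finset.mem_image] at hy
      obtain ⟨f, _, rfl⟩ := hy
      exact Finset.mem_range.2 (f 0).2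
    · rintro ⟨Y, h1, h2⟩
      refine ⟨(Finset.univ : Finset (Fin 1 → Fin B.n)).filter fun f => (f 0 : ℕ) ∈ Y, ?_⟩
      have : ((Finset.univ : Finset (Fin 1 → Fin B.n)).filter fun f => (f 0 : ℕ) ∈ Y).image
          (fun f => (f 0 : ℕ)) = Y := by
        ext y
        rw [Finset.mem_image]
        constructor
        · rintro ⟨f, hf, rfl⟩
          exact (Finset.mem_filter.1 hf).2
        · intro hy
          refine ⟨fun _ => ⟨y, Finset.mem_range.1 (h1 hy)⟩, ?_, rfl⟩
          rw [Finset.mem_filter]
          exact ⟨Finset.mem_univ _, hy⟩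
      rw [this]
      exact h2
  have hinj : Function.Injective fun f : Fin 1 → Fin B.n => (f 0 : ℕ) := by
    intro f g h
    funext i
    rw [Subsingleton.elim i 0]
    exact Fin.ext h
  rw [← hY fun Y => Y.card = k.n ∧ CanonSat t d B.n Y (B.R 0)]
  show (∃ S : Finset (Fin 1 → Fin B.n), S.card = k.n ∧ (canon ht d).Sat B S) ↔ _
  refine exists_congr fun S => ?_
  rw [Finset.card_image_of_injective _ hinj]
  refine and_congr_right fun _ => ?_
  set Y := S.image fun f => (f 0 : ℕ) with hYd
  have hmem : ∀ u : Fin B.n, ((fun _ => u) ∈ S) ↔ (u : ℕ) ∈ Y := by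
    intro u
    rw [hYd, Finset.mem_image]
    constructor
    · intro h; exact ⟨_, h, rfl⟩
    · rintro ⟨f, hf, hfu⟩
      have : f = fun _ => u := hinj hfu
      rw [← this]; exact hf
  have hYN : ∀ y ∈ Y, y < B.n := by
    intro y hy
    rw [hYd, Finset.mem_image] at hy
    obtain ⟨f, _, rfl⟩ := hy
    exact (f 0).2
  -- the matrix
  set P' : List ℕ → Prop := fun l =>
    if Even t then B.R 0 l ∧ ∀ c ∈ l.drop t, c ∈ Y else (∀ c ∈ l.drop t, c ∈ Y) → B.R 0 l with hP'
  have hmat : ∀ l : List (Fin B.n), l.length = (canonBs t d).sum →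
      ((canonMat t (canonBs t d).sum).Holds B S (fun x : Fin (canonBs t d).sum => l.getD x ⟨0, B.pos⟩) ↔
        P' (l.map Fin.val)) := by
    intro l hl
    have e1 : (List.finRange (canonBs t d).sum).map
        (fun y : Fin (canonBs t d).sum => ((l.getD y ⟨0, B.pos⟩ : Fin B.n) : ℕ)) = l.map Fin.val := by
      apply List.ext_getElem
      · simp [hl]
      · intro i h1 h2
        rw [List.getElem_map, List.getElem_map, List.getElem_finRange]
        rw [List.length_map] at h2
        simp [List.getElem?_eq_getElem h2]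
    have e2 : (∀ x ∈ (List.finRange (canonBs t d).sum).drop t,
        (fun _ => l.getD (x : ℕ) ⟨0, B.pos⟩) ∈ S) ↔
        ∀ c ∈ (l.map Fin.val).drop t, c ∈ Y := by
      rw [← e1, ← List.map_drop]
      simp only [List.mem_map, forall_exists_index, and_imp]
      constructor
      · rintro h c x hx rfl
        exact (hmem _).1 (h x hx)
      · intro h x hx
        exact (hmem _).2 (h _ x hx rfl)
    unfold canonMat
    simp only [hP']
    split_ifs with h
    · simp only [QF.Holds, conjX_holds, e1, e2]
    · simp only [QF.Holds, conjX_holds, e1, e2, not_and, not_not]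
  have h1 : (canon ht d).Sat B S ↔ AltL B.n (canonBs t d) true P' := by
    rw [← alt_altL]
    exact Alt.congr hmat
  rw [h1]
  unfold canonBs
  rw [altL_canon]
  obtain ⟨r, rfl⟩ : ∃ r, t = r + 1 := ⟨t - 1, by omega⟩
  rw [Nat.add_sub_cancel]
  unfold CanonSat
  refine Pre.congr fun us hus _ => ?_
  have hdrop : ∀ cs : List ℕ, (us ++ cs).drop (r + 1) = cs := by
    intro cs
    rw [← hus, List.drop_left]
  simp only [hP', hdrop, Nat.even_add_one]
  by_cases hr : Even r
  · rw [if_pos (by simp [hr]), if_neg (by simp [hr])]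
    simp only [hr, not_true_eq_false, if_false]
    refine forall_congr' fun cs => forall_congr' fun _ => ?_
    constructor
    · intro h hc
      exact h (fun c hc' => hYN c (hc c hc')) hc
    · intro h _ hc
      exact h hc
  · rw [if_neg (by simp [hr]), if_pos (by simp [hr])]
    simp only [hr, not_false_eq_true, if_true]
    refine exists_congr fun cs => and_congr_right fun _ => ?_
    constructor
    · rintro ⟨_, h2, h3⟩
      exact ⟨h3, h2⟩
    · rintro ⟨h2, h3⟩
      exact ⟨fun c hc => hYN c (h2 c hc), h3, h2⟩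

end Pool.Agent.EWH
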