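import Pool.Agent.EWH.Gen
import Pool.Agent.EWH.Branch

/-!
# Inner occurrences of the right sign: the two last quantifiers
-/

set_option autoImplicit false

namespace Pool.Agent.EWH

open Turing Pool.Agent.TM2Lib

/-! ### edges -/

/-- the numbers of the atoms in `J` which are false -/
def edge (J : List ℕ) (w : ℕ → ℕ) (τ : List Bool) : List Un :=
  (J.filter fun j => !τ.getD j false).map fun j => (⟨w j⟩ : Un)

/-- does `τ` agree with `σ` for the outer atoms? -/
def agree (D : ℕ) (inn : ℕ → Bool) (σ : ℕ) (τ : List Bool) : Bool :=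
  (List.range D).all fun j => inn j || (τ.getD j false == bit σ j)

/-- the edges for one value of the last variable -/
def edgesAt {ι : Type} (D : ℕ) (inn : ℕ → Bool) (L : List ι) (J : ι → List ℕ)
    (V : ι → List Bool → Bool) (w : ℕ → ℕ) (σ : ℕ) : List (List Un) :=
  L.flatMap fun i => (allB D).flatMap fun τ =>
    if V i τ && agree D inn σ τ then [edge (J i) w τ] else []

/-- all edges -/
def edges {ι : Type} (D : ℕ) (inn : ℕ → Bool) (L : List ι) (J : ι → List ℕ)
    (V : List ℕ → ι → List Bool → Bool) (w : List ℕ → ℕ → ℕ) (N0 : ℕ) (pre : List ℕ) (σ : ℕ) :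
    List (List Un) :=
  (List.range N0).flatMap fun u => edgesAt D inn L J (V (pre ++ [u])) (w (pre ++ [u])) σ

theorem mem_edges {ι : Type} {D : ℕ} {inn : ℕ → Bool} {L : List ι} {J : ι → List ℕ}
    {V : List ℕ → ι → List Bool → Bool} {w : List ℕ → ℕ → ℕ} {N0 : ℕ} {pre : List ℕ} {σ : ℕ}
    {e : List Un} : e ∈ edges D inn L J V w N0 pre σ ↔ ∃ u < N0, ∃ i ∈ L, ∃ τ : List Bool,
      τ.length = D ∧ V (pre ++ [u]) i τ = true ∧ agree D inn σ τ = true ∧
        e = edge (J i) (w (pre ++ [u])) τ := by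
  unfold edges edgesAt
  simp only [List.mem_flatMap, List.mem_range, mem_allB]
  constructor
  · rintro ⟨u, hu, i, hi, τ, hτ, he⟩
    by_cases hc : (V (pre ++ [u]) i τ && agree D inn σ τ) = true
    · rw [if_pos hc, List.mem_singleton] at he
      rw [Bool.and_eq_true] at hc
      exact ⟨u, hu, i, hi, τ, hτ, hc.1, hc.2, he⟩
    · rw [if_neg hc] at he
      simp at he
  · rintro ⟨u, hu, i, hi, τ, hτ, h1, h2, he⟩
    refine ⟨u, hu, i, hi, τ, hτ, ?_⟩
    rw [if_pos (by rw [h1, h2]; rfl), List.mem_singleton]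
    exact he

theorem agree_iff {D : ℕ} {inn : ℕ → Bool} {σ : ℕ} {τ : List Bool} :
    agree D inn σ τ = true ↔ ∀ j < D, inn j = false → τ.getD j false = bit σ j := by
  unfold agree
  rw [List.all_eq_true]
  constructor
  · intro h j hj hin
    have := h j (List.mem_range.2 hj)
    rw [hin, Bool.false_or, beq_iff_eq] at this
    exact this
  · intro h j hj
    cases hin : inn j with
    | true => rfl
    | false =>
      rw [Bool.false_or, beq_iff_eq]
      exact h j (List.mem_range.1 hj) hin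

/-- `V` is antitone in the inner atoms -/
structure Anti {ι : Type} (D : ℕ) (inn : ℕ → Bool) (L : List ι) (J : ι → List ℕ)
    (V : ι → List Bool → Bool) : Prop where
  lt : ∀ i ∈ L, ∀ j ∈ J i, j < D
  anti : ∀ i ∈ L, ∀ τ τ' : List Bool, τ.length = D → τ'.length = D →
    (∀ j < D, inn j = false → τ.getD j false = τ'.getD j false) →
    (∀ j ∈ J i, τ.getD j false = true → τ'.getD j false = true) →
    V i τ' = true → V i τ = true

theorem edges_iff {ι : Type} {D : ℕ} {inn : ℕ → Bool} {L : List ι} {J : ι → List ℕ}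
    {V : List ℕ → ι → List Bool → Bool} (hA : ∀ us, Anti D inn L J (V us))
    {w : List ℕ → ℕ → ℕ} {N0 : ℕ} {pre : List ℕ} {σ : ℕ} {S : Finset ℕ}
    (hσ : ∀ u, ∀ j < D, inn j = false → bit σ j = decide (w (pre ++ [u]) j ∈ S)) :
    (∃ e ∈ edges D inn L J V w N0 pre σ, ∀ x ∈ e, x.n ∉ S) ↔
      ∃ u < N0, ∃ i ∈ L, V (pre ++ [u]) i (chi D S (w (pre ++ [u]))) = true := by
  constructor
  · rintro ⟨e, he, hx⟩
    obtain ⟨u, hu, i, hi, τ, hτ, h1, h2, rfl⟩ := mem_edges.1 he
    refine ⟨u, hu, i, hi, (hA _).anti i hi _ τ (by simp [chi]) hτ (fun j hj hin => ?_)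
      (fun j hj hc => ?_) h1⟩
    · rw [chi_getD hj, agree_iff.1 h2 j hj hin, hσ u j hj hin]
    · rw [chi_getD ((hA (pre ++ [u])).lt i hi j hj), decide_eq_true_eq] at hc
      by_contra hne
      rw [Bool.not_eq_true] at hne
      refine hx ⟨w (pre ++ [u]) j⟩ ?_ hc
      unfold edge
      exact List.mem_map_of_mem (f := fun j => (⟨w (pre ++ [u]) j⟩ : Un))
        (List.mem_filter.2 ⟨hj, by rw [hne]; rfl⟩)
  · rintro ⟨u, hu, i, hi, hV⟩
    refine ⟨edge (J i) (w (pre ++ [u])) (chi D S (w (pre ++ [u]))),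
      mem_edges.2 ⟨u, hu, i, hi, _, by simp [chi], hV, ?_, rfl⟩, ?_⟩
    · rw [agree_iff]
      intro j hj hin
      rw [chi_getD hj, hσ u j hj hin]
    · intro x hx
      unfold edge at hx
      rw [List.mem_map] at hx
      obtain ⟨j, hj, rfl⟩ := hx
      rw [List.mem_filter] at hj
      have h1 := hj.2
      rw [chi_getD ((hA (pre ++ [u])).lt i hi j hj.1)] at h1
      simpa using h1

/-! ### the main condition -/

/-- The main condition. `H` is the list of the edges, `B` the set constructed with the word. -/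
def mainM {ι : Type} (D : ℕ) (inn : ℕ → Bool) (L : List ι) (J : ι → List ℕ) (k m : ℕ)
    (V : ι → List Bool → Bool) (w : ℕ → ℕ) (σ : ℕ) (H : List (List Un)) (B : List Un)
    (cs : List ℕ) : Bool :=
  mainB D inn L J k m V w σ cs || (!(H.all (hit B)) ||
    B.any fun x => witc k m (cs.getD 0 0) x.n false)

theorem mem_lt {m k : ℕ} {s : ℕ → ℕ} (h : Chain m k s) {S : Finset ℕ} (hS : Rep k s S) {w : ℕ}
    (hw : w ∈ S) : w < m := by
  obtain ⟨i, hi, h1⟩ := (hS w).1 hw
  have h2 := h.mono (i := i) (j := k + 1) (by omega) le_rfl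
  rw [h.last] at h2
  omega

theorem core3 {ι : Type} {D b d : ℕ} {inn : ℕ → Bool} {L1 L2 : List ι} {J : ι → List ℕ}
    {V : List ℕ → ι → List Bool → Bool} (hI : ∀ us, Fam D d inn L1 J (V us))
    (hA : ∀ us, Anti D inn L2 J (V us)) (hb : 0 < b) (hJb : ∀ i ∈ L2, (J i).length ≤ b)
    {m k : ℕ} {s : ℕ → ℕ} (h : Chain m k s) {S : Finset ℕ} (hcard : S.card = k)
    (hS : Rep k s S) {w : List ℕ → ℕ → ℕ} (hw : ∀ us, ∀ j < D, w us j < m)
    {r : ℕ} (hout : ∀ j < D, inn j = false → ∀ pre : List ℕ, pre.length = r + 1 → ∀ u u',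
      w (pre ++ [u]) j = w (pre ++ [u']) j)
    {N N0 : ℕ} (hN0 : 0 < N0) (hN : N0 * (2 ^ D * b ^ k) ≤ N) (us0 : List ℕ)
    (hus0 : us0.length = r) :
    (∀ v < N, ∃ u < N, ∃ cs : List ℕ, cs.length = d ∧ (∀ c ∈ cs, c ∈ cells k m s) ∧
      mainM D inn L1 J k m (V ((us0 ++ [v] ++ [u]).map (· % N0)))
        (w ((us0 ++ [v] ++ [u]).map (· % N0))) (v / N0 % 2 ^ D)
        (edges D inn L2 J V w N0 ((us0 ++ [v]).map (· % N0)) (v / N0 % 2 ^ D))
        (runB b (edges D inn L2 J V w N0 ((us0 ++ [v]).map (· % N0)) (v / N0 % 2 ^ D)) k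
          (v / N0 / 2 ^ D)) cs = true) ↔
    ∀ v < N0, ∃ u < N0, ∃ i ∈ L1 ++ L2, V (us0.map (· % N0) ++ [v] ++ [u]) i
      (chi D S (w (us0.map (· % N0) ++ [v] ++ [u]))) = true := by
  have hbk : 0 < b ^ k := Nat.pow_pos hb
  have hNN : N0 ≤ N := le_trans (Nat.le_mul_of_pos_right _ (by positivity)) hN
  have hmap : ∀ v u : ℕ, (us0 ++ [v] ++ [u]).map (· % N0) =
      us0.map (· % N0) ++ [v % N0] ++ [u % N0] := by
    intro v u; simp
  have hmap' : ∀ v : ℕ, (us0 ++ [v]).map (· % N0) = us0.map (· % N0) ++ [v % N0] := by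
    intro v; simp
  simp only [hmap, hmap']
  have hm := fun (v u σ : ℕ) => mainB_iff (hI (us0.map (· % N0) ++ [v] ++ [u])) h hS
    (w := w (us0.map (· % N0) ++ [v] ++ [u])) (hw _) σ
  have hlen : ∀ v : ℕ, (us0.map (· % N0) ++ [v]).length = r + 1 := by
    intro v; simp [hus0]
  constructor
  · intro H v hv
    by_contra hcon
    push Not at hcon
    -- the right guess
    obtain ⟨σ, hσ, hσ'⟩ := exists_bits D fun j =>
      decide (w (us0.map (· % N0) ++ [v] ++ [0]) j ∈ S)
    have hσr : ∀ u, ∀ j < D, inn j = false →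
        bit σ j = decide (w (us0.map (· % N0) ++ [v] ++ [u]) j ∈ S) := by
      intro u j hj hin
      rw [hσ' j hj, hout j hj hin (us0.map (· % N0) ++ [v]) (hlen v) 0 u]
    have hhit : ∀ e ∈ edges D inn L2 J V w N0 (us0.map (· % N0) ++ [v]) σ,
        ∃ x ∈ e, x.n ∈ S := by
      intro e he
      by_contra hne
      push Not at hne
      obtain ⟨u, hu, i, hi, h1⟩ := (edges_iff hA hσr).1 ⟨e, he, hne⟩
      exact hcon u hu i (List.mem_append_right _ hi) h1
    obtain ⟨ω, hω, h1, h2⟩ := exists_branch hb S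
      (edges D inn L2 J V w N0 (us0.map (· % N0) ++ [v]) σ) (by
        intro e he
        obtain ⟨u, hu, i, hi, τ, hτ, -, -, rfl⟩ := mem_edges.1 he
        unfold edge
        rw [List.length_map]
        exact (List.length_filter_le _ _).trans (hJb i hi)) hhit k [] (by simp) (by simp)
        (by simp [hcard])
    have h3 : (v + N0 * (σ + 2 ^ D * ω)) % N0 = v := by
      rw [Nat.add_mul_mod_self_left, Nat.mod_eq_of_lt hv]
    have h4 : (v + N0 * (σ + 2 ^ D * ω)) / N0 = σ + 2 ^ D * ω := by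
      rw [Nat.add_mul_div_left _ _ hN0, Nat.div_eq_of_lt hv, Nat.zero_add]
    have h5 : (σ + 2 ^ D * ω) % 2 ^ D = σ := by
      rw [Nat.add_mul_mod_self_left, Nat.mod_eq_of_lt hσ]
    have h6 : (σ + 2 ^ D * ω) / 2 ^ D = ω := by
      rw [Nat.add_mul_div_left _ _ (by positivity), Nat.div_eq_of_lt hσ, Nat.zero_add]
    obtain ⟨u, hu, cs, hcs1, hcs2, hmain⟩ := H (v + N0 * (σ + 2 ^ D * ω)) (by
      calc v + N0 * (σ + 2 ^ D * ω) < N0 + N0 * (σ + 2 ^ D * ω) := by omega
        _ = N0 * (σ + 2 ^ D * ω + 1) := by ring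
        _ ≤ N0 * (2 ^ D * b ^ k) := by
          refine Nat.mul_le_mul_left _ ?_
          calc σ + 2 ^ D * ω + 1 ≤ 2 ^ D + 2 ^ D * ω := by omega
            _ = 2 ^ D * (ω + 1) := by ring
            _ ≤ 2 ^ D * b ^ k := Nat.mul_le_mul_left _ hω
        _ ≤ N := hN)
    rw [h3, h4, h5, h6] at hmain
    unfold mainM at hmain
    rw [Bool.or_eq_true, Bool.or_eq_true] at hmain
    rcases hmain with hmain | hmain | hmain
    · rcases (hm v (u % N0) σ).1 ⟨cs, hcs1, hcs2, hmain⟩ with ⟨j, hj, h7, h8⟩ | ⟨i, hi, h7⟩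
      · exact h8 (hσr _ j hj h7)
      · exact hcon (u % N0) (Nat.mod_lt _ hN0) i (List.mem_append_left _ hi) h7
    · rw [Bool.not_eq_true'] at hmain
      have : (edges D inn L2 J V w N0 (us0.map (· % N0) ++ [v]) σ).all
          (hit (runB b (edges D inn L2 J V w N0 (us0.map (· % N0) ++ [v]) σ) k ω)) = true :=
        List.all_eq_true.2 fun e he => h2 e he
      rw [this] at hmain
      cases hmain
    · rw [List.any_eq_true] at hmain
      obtain ⟨x, hx, h7⟩ := hmain
      have h8 : x.n ∈ S := h1 x hx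
      have h9 := (witc_iff h hS (mem_lt h hS h8) false).2
        ⟨_, hcs2 _ (getD_mem (by rw [hcs1]; exact (hI []).dpos)), h7⟩
      rw [decide_eq_false_iff_not] at h9
      exact h9 h8
  · intro H v hv
    obtain ⟨u, hu, i, hi, h1⟩ := H (v % N0) (Nat.mod_lt _ hN0)
    refine ⟨u, by omega, ?_⟩
    rw [Nat.mod_eq_of_lt hu]
    unfold mainM
    simp only [Bool.or_eq_true]
    by_cases hex : ∃ j < D, inn j = false ∧ bit (v / N0 % 2 ^ D) j ≠
        decide (w (us0.map (· % N0) ++ [v % N0] ++ [u]) j ∈ S)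
    · obtain ⟨cs, h2, h3, h4⟩ := (hm (v % N0) u (v / N0 % 2 ^ D)).2 (Or.inl hex)
      exact ⟨cs, h2, h3, Or.inl h4⟩
    · push Not at hex
      rw [List.mem_append] at hi
      rcases hi with hi | hi
      · obtain ⟨cs, h2, h3, h4⟩ := (hm (v % N0) u (v / N0 % 2 ^ D)).2 (Or.inr ⟨i, hi, h1⟩)
        exact ⟨cs, h2, h3, Or.inl h4⟩
      · have hσr : ∀ u', ∀ j < D, inn j = false → bit (v / N0 % 2 ^ D) j =
            decide (w (us0.map (· % N0) ++ [v % N0] ++ [u']) j ∈ S) := by
          intro u' j hj hin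
          rw [hex j hj hin, hout j hj hin (us0.map (· % N0) ++ [v % N0]) (hlen _) u u']
        obtain ⟨e, he, hav⟩ := (edges_iff hA hσr).2 ⟨u, hu, i, hi, h1⟩
        set Hs := edges D inn L2 J V w N0 (us0.map (· % N0) ++ [v % N0]) (v / N0 % 2 ^ D)
          with hHs
        by_cases hall : Hs.all (hit (runB b Hs k (v / N0 / 2 ^ D))) = true
        · have h2 := List.all_eq_true.1 hall e he
          obtain ⟨x, hx, y, hy, hxy⟩ := hit_iff.1 h2
          have hxm : x.n < m := by
            obtain ⟨u', hu', i', hi', τ, hτ, -, -, rfl⟩ := mem_edges.1 he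
            unfold edge at hx
            rw [List.mem_map] at hx
            obtain ⟨j, hj, rfl⟩ := hx
            exact hw _ j ((hA []).lt i' hi' j (List.mem_filter.1 hj).1)
          obtain ⟨c, hc, hwit⟩ := (witc_iff h hS hxm false).1 (by
            rw [decide_eq_false_iff_not]; exact hav x hx)
          refine ⟨List.replicate d c, by simp, fun c' hc' => ?_, Or.inr (Or.inr ?_)⟩
          · rw [List.eq_of_mem_replicate hc']; exact hc
          · rw [List.any_eq_true]
            refine ⟨y, hy, ?_⟩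
            rw [List.getD_eq_getElem _ _ (by simpa using (hI []).dpos), List.getElem_replicate,
              hxy]
            exact hwit
        · refine ⟨List.replicate d (cell k m 0 (s 0) (s 1)), by simp, fun c' hc' => ?_,
            Or.inr (Or.inl ?_)⟩
          · rw [List.eq_of_mem_replicate hc']
            exact mem_cells.2 ⟨0, by omega, rfl⟩
          · rw [Bool.not_eq_true] at hall
            rw [hall]
            rfl

end Pool.Agent.EWH
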