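import Pool.Agent.EWH.Sign
import Pool.Agent.EWH.Pad

/-!
# Inner occurrences of the right sign: the reduction
-/

set_option autoImplicit false

namespace Pool.Agent.EWH

open Turing Pool.Agent.TM2Lib

/-- Every inner occurrence of `X` (an occurrence which contains a variable with a number `≥ c`) is
positive (`b = true`) or negative (`b = false`). -/
def QF.InnerSign {s m : ℕ} (c : ℕ) : Bool → QF s (Fin m) → Prop
  | _, .tru => True
  | _, .eq _ _ => True
  | _, .rel _ _ => True
  | b, .X x => (∃ i, c ≤ (x i : ℕ)) → b = true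
  | b, .not φ => φ.InnerSign c (!b)
  | b, .and φ ψ => φ.InnerSign c b ∧ ψ.InnerSign c b

/-- If the last block is existential, then the matrix is equivalent to a disjunction of formulas each
of which has at most one inner occurrence of `X` or only negative inner occurrences of `X`. If the
last block is universal, then the matrix is equivalent to a conjunction of formulas each of which
has at most one inner occurrence of `X` or only positive inner occurrences of `X`. -/
def SignNarrow {s t : ℕ} (φ : PiForm s t) : Prop :=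
  ∃ L : List (QF s (Fin φ.bs.sum)), Equ φ L ∧
    ∀ ψ ∈ L, ψ.innerOcc φ.start ≤ 1 ∨ ψ.InnerSign φ.start (!decide (Even t))

/-- the problems `p-WD_φ` for these formulas -/
def pWDsign (t : ℕ) : Set PProb := {P | ∃ s, 0 < s ∧ ∃ φ : PiForm s t, SignNarrow φ ∧ P = WD φ}

theorem ev_sign {s m c : ℕ} (A : Str) (e : Fin m → ℕ) {ρ ρ' : (Fin s → Fin m) → Bool}
    (ψ : QF s (Fin m)) : ∀ b : Bool, ψ.InnerSign c b →
    (∀ x ∈ ψ.atoms, isInner c x = false → ρ x = ρ' x) →
    (∀ x ∈ ψ.atoms, isInner c x = true → ρ x = true → ρ' x = true) →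
    (b = true → ev A e ρ ψ = true → ev A e ρ' ψ = true) ∧
      (b = false → ev A e ρ' ψ = true → ev A e ρ ψ = true) := by
  induction ψ with
  | tru => intro b _ _ _; simp [ev]
  | eq x y => intro b _ _ _; exact ⟨fun _ h => h, fun _ h => h⟩
  | rel i x => intro b _ _ _; exact ⟨fun _ h => h, fun _ h => h⟩
  | X x =>
    intro b hs h1 h2
    have hx : x ∈ (QF.X x : QF s (Fin m)).atoms := List.mem_singleton.2 rfl
    cases hin : isInner c x with
    | true =>
      have hb : b = true := by
        unfold isInner at hin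
        exact hs (of_decide_eq_true hin)
      subst hb
      exact ⟨fun _ => h2 x hx hin, fun h => by simp at h⟩
    | false =>
      have := h1 x hx hin
      simp only [ev]
      rw [this]
      exact ⟨fun _ h => h, fun _ h => h⟩
  | not φ ih =>
    intro b hs h1 h2
    have h3 := ih (!b) hs h1 h2
    simp only [ev, Bool.not_eq_true']
    constructor
    · intro hb h4
      by_contra h5
      rw [Bool.not_eq_false] at h5
      have := h3.2 (by rw [hb]; rfl) h5
      rw [this] at h4
      simp at h4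
    · intro hb h4
      by_contra h5
      rw [Bool.not_eq_false] at h5
      have := h3.1 (by rw [hb]; rfl) h5
      rw [this] at h4
      simp at h4
  | and φ ψ ih1 ih2 =>
    intro b hs h1 h2
    have h3 := ih1 b hs.1 (fun x hx => h1 x (List.mem_append_left _ hx))
      (fun x hx => h2 x (List.mem_append_left _ hx))
    have h4 := ih2 b hs.2 (fun x hx => h1 x (List.mem_append_right _ hx))
      (fun x hx => h2 x (List.mem_append_right _ hx))
    simp only [ev, Bool.and_eq_true]
    exact ⟨fun hb h => ⟨h3.1 hb h.1, h4.1 hb h.2⟩, fun hb h => ⟨h3.2 hb h.1, h4.2 hb h.2⟩⟩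

/-- the first `n` entries -/
def takeN (n : ℕ) (us : List ℕ) : List ℕ := List.ofFn fun i : Fin n => us.getD i 0

theorem takeN_eq {n : ℕ} {us : List ℕ} (h : n ≤ us.length) : takeN n us = us.take n := by
  unfold takeN
  apply List.ext_getElem
  · simp [h]
  · intro i h1 h2
    rw [List.getElem_ofFn, List.getElem_take]
    have h3 : i < n := by simpa using h1
    rw [List.getD_eq_getElem _ _ (by omega)]

theorem nums_takeL (n : ℕ) (l : List Un) : nums (takeL n l) = takeN n (nums l) := by
  unfold nums takeL takeN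
  rw [List.map_ofFn]
  congr 1
  funext i
  simp only [Function.comp]
  rw [List.getD_map (f := Un.n)]

section
variable {s t : ℕ} (φ : PiForm s t) (L L1 L2 : List (QF s (Fin φ.bs.sum))) (e : Bool)

/-- the value `V` -/
def Vv (A : Str) (us : List ℕ) (ψ : QF s (Fin φ.bs.sum)) (τ : List Bool) : Bool :=
  xor (!e) (val φ.bs (L.flatMap QF.atoms) A us τ ψ)

/-- the numbers `w` -/
def Wv (n : ℕ) (us : List ℕ) (j : ℕ) : ℕ := (ws φ.bs (L.flatMap QF.atoms) n us).getD j 0

/-- the edges -/
def Hv (A : Str) (N0 : ℕ) (us : List ℕ) : List (List Un) :=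
  edges (L.flatMap QF.atoms).length (inn φ.start (L.flatMap QF.atoms)) L2
    (jnum φ.start (L.flatMap QF.atoms)) (Vv φ L e A) (Wv φ L A.n) N0
    ((takeN (t - 1) us).map fun u => u % N0)
    (us.getD (t - 2) 0 / N0 % 2 ^ (L.flatMap QF.atoms).length)

/-- the main part of the test -/
def mtM (A : Str) (k N0 : ℕ) (us cs : List ℕ) : Bool :=
  xor (!e) (mainM (L.flatMap QF.atoms).length (inn φ.start (L.flatMap QF.atoms)) L1
    (jnum φ.start (L.flatMap QF.atoms)) k (A.n ^ s)
    (Vv φ L e A (us.map fun u => u % N0)) (Wv φ L A.n (us.map fun u => u % N0))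
    (us.getD (t - 2) 0 / N0 % 2 ^ (L.flatMap QF.atoms).length)
    (Hv φ L L2 e A N0 us)
    (runB (2 ^ (L.flatMap QF.atoms).length) (Hv φ L L2 e A N0 us) k
      (us.getD (t - 2) 0 / N0 / 2 ^ (L.flatMap QF.atoms).length)) cs)

end

theorem fam_val' {s d : ℕ} (bs : List ℕ) (c : ℕ) (L L1 : List (QF s (Fin bs.sum)))
    (hsub : ∀ ψ ∈ L1, ψ ∈ L) (e : Bool)
    (A : Str) (us : List ℕ) (hd : 0 < d) (hL : ∀ ψ ∈ L1, ψ.innerOcc c ≤ d) :
    Fam (L.flatMap QF.atoms).length d (inn c (L.flatMap QF.atoms)) L1
      (jnum c (L.flatMap QF.atoms))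
      (fun ψ τ => xor (!e) (val bs (L.flatMap QF.atoms) A us τ ψ)) where
  dpos := hd
  len ψ hψ := by
    unfold jnum
    rw [List.length_map, ← innerOcc_eq]
    exact hL ψ hψ
  dep ψ hψ τ τ' h1 h2 h := by
    congr 1
    unfold val
    refine ev_congr A _ _ (fun _ => rfl) _ _ ψ fun x hx => ?_
    have hmem : x ∈ L.flatMap QF.atoms := List.mem_flatMap.2 ⟨ψ, hsub ψ hψ, hx⟩
    have hlt : (L.flatMap QF.atoms).idxOf x < (L.flatMap QF.atoms).length :=
      List.idxOf_lt_length_iff.2 hmem
    unfold rho
    refine h _ hlt ?_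
    cases hin : isInner c x with
    | true =>
      right
      unfold jnum
      exact List.mem_map_of_mem (f := fun x => (L.flatMap QF.atoms).idxOf x)
        (List.mem_filter.2 ⟨hx, hin⟩)
    | false =>
      left
      rw [inn_eq _ _ hlt, List.getElem_idxOf]
      exact hin

theorem anti_val {s : ℕ} (bs : List ℕ) (c : ℕ) (L L2 : List (QF s (Fin bs.sum)))
    (hsub : ∀ ψ ∈ L2, ψ ∈ L) (e : Bool) (A : Str) (us : List ℕ)
    (hL : ∀ ψ ∈ L2, ψ.InnerSign c (!e)) :
    Anti (L.flatMap QF.atoms).length (inn c (L.flatMap QF.atoms)) L2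
      (jnum c (L.flatMap QF.atoms))
      (fun ψ τ => xor (!e) (val bs (L.flatMap QF.atoms) A us τ ψ)) where
  lt ψ hψ j hj := by
    unfold jnum at hj
    rw [List.mem_map] at hj
    obtain ⟨x, hx, rfl⟩ := hj
    exact List.idxOf_lt_length_iff.2
      (List.mem_flatMap.2 ⟨ψ, hsub ψ hψ, (List.mem_filter.1 hx).1⟩)
  anti ψ hψ τ τ' h1 h2 hout hle hV := by
    have key := ev_sign (c := c) A (fun x : Fin bs.sum => decv A.n bs us x)
      (ρ := rho (L.flatMap QF.atoms) τ) (ρ' := rho (L.flatMap QF.atoms) τ') ψ (!e) (hL ψ hψ)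
      (fun x hx hin => by
        have hlt : (L.flatMap QF.atoms).idxOf x < (L.flatMap QF.atoms).length :=
          List.idxOf_lt_length_iff.2 (List.mem_flatMap.2 ⟨ψ, hsub ψ hψ, hx⟩)
        unfold rho
        refine hout _ hlt ?_
        rw [inn_eq _ _ hlt, List.getElem_idxOf]
        exact hin)
      (fun x hx hin => by
        unfold rho
        refine hle _ ?_
        unfold jnum
        exact List.mem_map_of_mem (f := fun x => (L.flatMap QF.atoms).idxOf x)
          (List.mem_filter.2 ⟨hx, hin⟩))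
    cases e with
    | true =>
      simp only [Bool.not_true, Bool.false_xor] at hV ⊢
      exact key.2 rfl hV
    | false =>
      simp only [Bool.not_false, Bool.true_xor, Bool.not_eq_true'] at hV ⊢
      by_contra h
      rw [Bool.not_eq_false] at h
      have := key.1 rfl h
      unfold val at hV
      rw [this] at hV
      simp at hV

theorem jnum_le {s m : ℕ} (c : ℕ) (L : List (QF s (Fin m))) {ψ : QF s (Fin m)} (hψ : ψ ∈ L) :
    (jnum c (L.flatMap QF.atoms) ψ).length ≤ 2 ^ (L.flatMap QF.atoms).length := by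
  unfold jnum
  rw [List.length_map]
  have h1 : ψ.atoms.length ≤ (L.flatMap QF.atoms).length := by
    rw [List.length_flatMap]
    exact List.le_sum_of_mem (List.mem_map_of_mem hψ)
  have h2 := List.length_filter_le (isInner c) ψ.atoms
  have h3 : (L.flatMap QF.atoms).length < 2 ^ (L.flatMap QF.atoms).length :=
    Nat.lt_two_pow_self
  omega

theorem main_iffM {s r : ℕ} (φ : PiForm s (r + 2)) (L L1 L2 : List (QF s (Fin φ.bs.sum)))
    (h12 : ∀ ψ, ψ ∈ L ↔ ψ ∈ L1 ++ L2) (e : Bool) (he : e = true ↔ Even r)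
    (hL1 : ∀ ψ ∈ L1, ψ.innerOcc φ.start ≤ 1) (hL2 : ∀ ψ ∈ L2, ψ.InnerSign φ.start (!e))
    (A : Str) {k : ℕ} {c : ℕ → ℕ} (h : Chain (A.n ^ s) k c) {S : Finset ℕ} (hcard : S.card = k)
    (hS : Rep k c S) {N N0 : ℕ} (hN0 : 0 < N0)
    (hN : N0 * (2 ^ (L.flatMap QF.atoms).length * (2 ^ (L.flatMap QF.atoms).length) ^ k) ≤ N) :
    (Pre N (r + 2) true fun us => if Even r then
      ∃ cs : List ℕ, cs.length = 1 ∧ (∀ c' ∈ cs, c' ∈ cells k (A.n ^ s) c) ∧
        mtM φ L L1 L2 e A k N0 us cs = true
      else ∀ cs : List ℕ, cs.length = 1 → (∀ c' ∈ cs, c' ∈ cells k (A.n ^ s) c) →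
        mtM φ L L1 L2 e A k N0 us cs = true) ↔
    Pre N0 (r + 2) true fun us => MatOk φ L A us
      ((ws φ.bs (L.flatMap QF.atoms) A.n us).map fun w => decide (w ∈ S)) := by
  have hA := A.pos
  have hsub1 : ∀ ψ ∈ L1, ψ ∈ L := fun ψ hψ => (h12 ψ).2 (List.mem_append_left _ hψ)
  have hsub2 : ∀ ψ ∈ L2, ψ ∈ L := fun ψ hψ => (h12 ψ).2 (List.mem_append_right _ hψ)
  have hw : ∀ us : List ℕ, ∀ j < (L.flatMap QF.atoms).length,
      (ws φ.bs (L.flatMap QF.atoms) A.n us).getD j 0 < A.n ^ s := by
    intro us j hj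
    exact ws_lt φ.bs _ hA us _ (getD_mem (by simpa only [ws, List.length_map] using hj))
  have hout : ∀ j < (L.flatMap QF.atoms).length, inn φ.start (L.flatMap QF.atoms) j = false →
      ∀ pre : List ℕ, pre.length = r + 1 → ∀ u u',
        (ws φ.bs (L.flatMap QF.atoms) A.n (pre ++ [u])).getD j 0 =
          (ws φ.bs (L.flatMap QF.atoms) A.n (pre ++ [u'])).getD j 0 := by
    intro j hj hi pre hpre u u'
    refine ws_outer φ _ ?_ hj hi
    have : r + 2 - 1 = pre.length := by omega
    rw [this, List.take_left, List.take_left]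
  have hbk : 0 < (2 ^ (L.flatMap QF.atoms).length) ^ k := by positivity
  have hNN : N0 ≤ N := le_trans (Nat.le_mul_of_pos_right _ (by positivity)) hN
  have hcore := core3 (V := fun us ψ τ =>
    xor (!e) (val φ.bs (L.flatMap QF.atoms) A us τ ψ))
    (fun us => fam_val' φ.bs φ.start L L1 hsub1 e A us one_pos hL1)
    (fun us => anti_val φ.bs φ.start L L2 hsub2 e A us hL2)
    (b := 2 ^ (L.flatMap QF.atoms).length) (by positivity)
    (fun ψ hψ => jnum_le φ.start L (hsub2 ψ hψ)) h hcard hS hw hout hN0 hN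
  have hget : ∀ (us : List ℕ) (v u : ℕ), us.length = r →
      (us ++ [v] ++ [u]).getD (r + 2 - 2) 0 = v := by
    intro us v u hus
    rw [Nat.add_sub_cancel, List.append_assoc, List.getD_append_right _ _ _ _ (by omega), hus,
      Nat.sub_self]
    rfl
  have htake : ∀ (us : List ℕ) (v u : ℕ), us.length = r →
      takeN (r + 2 - 1) (us ++ [v] ++ [u]) = us ++ [v] := by
    intro us v u hus
    rw [takeN_eq (by simp; omega)]
    have : r + 2 - 1 = (us ++ [v]).length := by simp [hus]
    rw [this, List.take_left]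
  have heven : Even (r + 2) ↔ Even r := by
    rw [Nat.even_add]; simp
  have hmem : ∀ P : QF s (Fin φ.bs.sum) → Prop, (∃ i ∈ L1 ++ L2, P i) ↔ ∃ i ∈ L, P i := by
    intro P
    exact exists_congr fun i => and_congr_left fun _ => (h12 i).symm
  rw [Pre.snoc2, Pre.snoc2]
  have hmap := Pre.map (N := N) (N' := N0) (h := fun u => u % N0)
    (fun u _ => Nat.mod_lt _ hN0) (fun u' hu' => ⟨u', by omega, Nat.mod_eq_of_lt hu'⟩) r true
    fun us => if Even r then ∀ v < N0, ∃ u < N0, MatOk φ L A (us ++ [v] ++ [u])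
        ((ws φ.bs (L.flatMap QF.atoms) A.n (us ++ [v] ++ [u])).map fun w => decide (w ∈ S))
      else ∃ v < N0, ∀ u < N0, MatOk φ L A (us ++ [v] ++ [u])
        ((ws φ.bs (L.flatMap QF.atoms) A.n (us ++ [v] ++ [u])).map fun w => decide (w ∈ S))
  rw [← hmap]
  refine Pre.congr fun us hus _ => ?_
  by_cases hr : Even r
  · have he' : e = true := he.2 hr
    subst he'
    rw [if_pos hr, if_pos hr]
    have h1 := hcore us hus
    simp only [chi_ws, hmem, Bool.not_true, Bool.false_xor] at h1
    simp only [MatOk, if_pos (heven.2 hr)]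
    rw [← h1]
    refine forall_congr' fun v => forall_congr' fun _ => exists_congr fun u =>
      and_congr_right fun _ => ?_
    rw [if_pos hr]
    refine exists_congr fun cs => and_congr_right fun _ =>
      and_congr_right fun _ => ?_
    unfold mtM Hv Vv Wv
    simp only [Bool.not_true, Bool.false_xor, hget us v u hus, htake us v u hus]
  · have he' : e = false := by
      cases e with
      | false => rfl
      | true => exact absurd (he.1 rfl) hr
    subst he'
    rw [if_neg hr, if_neg hr]
    have hne : ∀ b : Bool, ((!b) ≠ true) ↔ b = true := by intro b; cases b <;> simp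
    have hne' : ∀ b : Bool, ((!b) = true) ↔ b ≠ true := by intro b; cases b <;> simp
    have h1 := hcore us hus
    simp only [chi_ws, hmem, Bool.not_false, Bool.true_xor] at h1
    have h2 := not_congr h1
    push Not at h2
    simp only [hne] at h2
    simp only [MatOk, if_neg (fun h => hr (heven.1 h))]
    rw [← h2]
    refine exists_congr fun v => and_congr_right fun _ => forall_congr' fun u =>
      forall_congr' fun _ => ?_
    rw [if_neg hr]
    refine forall_congr' fun cs => forall_congr' fun _ =>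
      forall_congr' fun _ => ?_
    unfold mtM Hv Vv Wv
    simp only [Bool.not_false, Bool.true_xor, hget us v u hus, htake us v u hus, hne']

end Pool.Agent.EWH
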