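import Pool.Agent.EWH.SignF

/-!
# Inner occurrences of the right sign: computation and the theorem
-/

set_option autoImplicit false

namespace Pool.Agent.EWH

open Turing Pool.Agent.TM2Lib

section
variable {α γ : Type} [Enc α] [Enc γ]

theorem p_flatMap_const {ι : Type} (L : List ι) {h : α → ι → List γ}
    (hh : ∀ i, Poly (fun a => h a i)) : Poly (fun a => L.flatMap (h a)) := by
  induction L with
  | nil => exact p_const []
  | cons i L ih => exact ((hh i).append ih).of_eq fun a => by rw [List.flatMap_cons]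

theorem p_map_const {ι : Type} (L : List ι) {h : α → ι → γ}
    (hh : ∀ i, Poly (fun a => h a i)) : Poly (fun a => L.map (h a)) := by
  induction L with
  | nil => exact p_const []
  | cons i L ih => exact ((hh i).cons ih).of_eq fun a => by rw [List.map_cons]

theorem p_agree (D : ℕ) (inn : ℕ → Bool) {σ : α → ℕ} (hσ : UPoly σ) (τ : List Bool) :
    Poly (fun a => agree D inn (σ a) τ) := by
  refine p_all_const _ fun j => ?_
  have h1 := TM2Lib.Poly.or (p_const (inn j))
    (TM2Lib.Poly.not (TM2Lib.Poly.bne (p_const (τ.getD j false)) (p_bit hσ j)))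
  refine h1.of_eq fun a => ?_
  cases τ.getD j false <;> cases bit (σ a) j <;> rfl

theorem p_edgesAt {ι : Type} (D : ℕ) (inn : ℕ → Bool) (L : List ι) (J : ι → List ℕ)
    {V : α → ι → List Bool → Bool} (hV : ∀ i τ, Poly (fun a => V a i τ)) {w : α → ℕ → ℕ}
    (hw : ∀ j, UPoly (fun a => w a j)) {σ : α → ℕ} (hσ : UPoly σ) :
    Poly (fun a => edgesAt D inn L J (V a) (w a) (σ a)) := by
  refine p_flatMap_const _ fun i => p_flatMap_const _ fun τ => ?_
  refine TM2Lib.Poly.ite ((hV i τ).and (p_agree D inn hσ τ)) (Poly.cons ?_ (p_const []))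
    (p_const [])
  exact p_map_const (γ := Un) _ fun j => hw j

theorem p_Hv {s t : ℕ} (φ : PiForm s t) (L L2 : List (QF s (Fin φ.bs.sum))) (e : Bool)
    {A : α → Str} (hA : Poly A) {N0 : α → ℕ} (hN0 : UPoly N0) {us : α → List Un}
    (hus : Poly us) : Poly (fun a => Hv φ L L2 e (A a) (N0 a) (nums (us a))) := by
  have hn : UPoly (fun a => (A a).n) := (Poly.strData hA).fst'
  have hpre : Poly (fun a => (takeL (t - 1) (us a)).map fun u => (⟨u.n % N0 a⟩ : Un)) :=
    p_map (h := fun p : α × Un => (⟨p.2.n % N0 p.1⟩ : Un)) (p_takeL _ hus)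
      (UPoly.mod (UPoly.n.comp Poly.snd) (hN0.comp Poly.fst))
  have hpre' : ∀ a, nums ((takeL (t - 1) (us a)).map fun u => (⟨u.n % N0 a⟩ : Un)) =
      (takeN (t - 1) (nums (us a))).map fun u => u % N0 a := fun a => by
    rw [nums_map _ (fun u => u % N0 a), nums_takeL]
  have hσ : UPoly (fun a => (nums (us a)).getD (t - 2) 0 / N0 a %
      2 ^ (L.flatMap QF.atoms).length) := ((u_getD hus _).div hN0).mod (UPoly.const _)
  -- the list of the variables with the last one
  have hl : Poly (fun p : α × Un => ((takeL (t - 1) (us p.1)).map fun u =>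
      (⟨u.n % N0 p.1⟩ : Un)) ++ [p.2]) :=
    Poly.append (hpre.comp Poly.fst) (Poly.cons Poly.snd (p_const []))
  have hl' : ∀ p : α × Un, nums (((takeL (t - 1) (us p.1)).map fun u =>
      (⟨u.n % N0 p.1⟩ : Un)) ++ [p.2]) =
      ((takeN (t - 1) (nums (us p.1))).map fun u => u % N0 p.1) ++ [p.2.n] := fun p => by
    rw [← hpre']
    unfold nums
    rw [List.map_append]
    rfl
  have h1 : Poly (fun p : α × Un => edgesAt (L.flatMap QF.atoms).length
      (inn φ.start (L.flatMap QF.atoms)) L2 (jnum φ.start (L.flatMap QF.atoms))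
      (Vv φ L e (A p.1) (((takeN (t - 1) (nums (us p.1))).map fun u => u % N0 p.1) ++ [p.2.n]))
      (Wv φ L (A p.1).n (((takeN (t - 1) (nums (us p.1))).map fun u => u % N0 p.1) ++ [p.2.n]))
      ((nums (us p.1)).getD (t - 2) 0 / N0 p.1 % 2 ^ (L.flatMap QF.atoms).length)) := by
    refine p_edgesAt _ _ _ _ (fun ψ τ => ?_) (fun j => ?_) (hσ.comp Poly.fst)
    · unfold Vv
      refine TM2Lib.Poly.bne (p_const (!e)) ?_
      exact (p_val φ.bs _ (hA.comp Poly.fst) hl τ ψ).of_eq fun p => by rw [hl']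
    · exact (u_ws φ.bs _ (hn.comp Poly.fst) hl j).of_eq fun p => by rw [hl']; rfl
  have h2 := Poly.flatMap (f := fun a => (List.range (N0 a)).map Un.mk)
    (h := fun p : α × Un => edgesAt (L.flatMap QF.atoms).length
      (inn φ.start (L.flatMap QF.atoms)) L2 (jnum φ.start (L.flatMap QF.atoms))
      (Vv φ L e (A p.1) (((takeN (t - 1) (nums (us p.1))).map fun u => u % N0 p.1) ++ [p.2.n]))
      (Wv φ L (A p.1).n (((takeN (t - 1) (nums (us p.1))).map fun u => u % N0 p.1) ++ [p.2.n]))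
      ((nums (us p.1)).getD (t - 2) 0 / N0 p.1 % 2 ^ (L.flatMap QF.atoms).length))
    (Poly.range hN0) h1
  refine h2.of_eq fun a => ?_
  unfold Hv edges
  rw [List.flatMap_map]

theorem p_mtM {s t : ℕ} (φ : PiForm s t) (L L1 L2 : List (QF s (Fin φ.bs.sum))) (e : Bool)
    {A : α → Str} (hA : Poly A)
    {k N0 : α → ℕ} (hk : UPoly k) (hN0 : UPoly N0) {us cs : α → List Un} (hus : Poly us)
    (hcs : Poly cs) :
    Poly (fun a => mtM φ L L1 L2 e (A a) (k a) (N0 a) (nums (us a)) (nums (cs a))) := by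
  have hn : UPoly (fun a => (A a).n) := (Poly.strData hA).fst'
  have h1 : Poly (fun a => (us a).map fun u => (⟨u.n % N0 a⟩ : Un)) :=
    p_map (h := fun p : α × Un => (⟨p.2.n % N0 p.1⟩ : Un)) hus
      (UPoly.mod (UPoly.n.comp Poly.snd) (hN0.comp Poly.fst))
  have h2 : ∀ a, nums ((us a).map fun u => (⟨u.n % N0 a⟩ : Un)) =
      (nums (us a)).map fun u => u % N0 a :=
    fun a => nums_map (us a) (fun u => u % N0 a)
  have hq := (u_getD hus (t - 2)).div hN0
  have hH := p_Hv φ L L2 e hA hN0 hus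
  have hB := p_runB (2 ^ (L.flatMap QF.atoms).length) hH hk
    (hq.div (UPoly.const (2 ^ (L.flatMap QF.atoms).length)))
  unfold mtM mainM
  refine TM2Lib.Poly.bne (p_const (!e)) ((p_mainB hk (u_pow hn s)
    (V := fun a ψ τ => Vv φ L e (A a) ((nums (us a)).map fun u => u % N0 a) ψ τ)
    (fun ψ τ => TM2Lib.Poly.bne (p_const (!e)) ?_)
    (w := fun a j => Wv φ L (A a).n ((nums (us a)).map fun u => u % N0 a) j)
    (fun j => ?_) (hq.mod (UPoly.const _)) hcs).or (TM2Lib.Poly.or (TM2Lib.Poly.not ?_) ?_))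
  · exact (p_val φ.bs _ hA h1 τ ψ).of_eq fun a => by rw [h2]
  · exact (u_ws φ.bs _ hn h1 j).of_eq fun a => by rw [h2]; rfl
  · exact Poly.all (h := fun p : α × List Un => hit (runB (2 ^ (L.flatMap QF.atoms).length)
      (Hv φ L L2 e (A p.1) (N0 p.1) (nums (us p.1))) (k p.1)
      ((nums (us p.1)).getD (t - 2) 0 / N0 p.1 / 2 ^ (L.flatMap QF.atoms).length)) p.2) hH
      (p_hit (hB.comp Poly.fst) Poly.snd)
  · exact Poly.any (h := fun p : α × Un => witc (k p.1) ((A p.1).n ^ s)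
      ((nums (cs p.1)).getD 0 0) p.2.n false) hB
      (p_witc (hk.comp Poly.fst) ((u_pow hn s).comp Poly.fst) ((u_getD hcs 0).comp Poly.fst)
        (UPoly.n.comp Poly.snd) (p_const _))

end

/-! ### the reduction -/

section
variable {s t : ℕ} (φ : PiForm s t) (L L1 L2 : List (QF s (Fin φ.bs.sum))) (e : Bool)

/-- size of the ranges; `P` is the padding -/
def bigM (n k P : ℕ) : ℕ :=
  n ^ φ.bs.sum * (2 ^ (L.flatMap QF.atoms).length * (P + 1)) * ((k + 1) * (n ^ s + 3) ^ 2)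

theorem bigM_pos {n : ℕ} (hn : 0 < n) (k P : ℕ) : 0 < 2 * bigM φ L n k P := by
  unfold bigM; positivity

theorem bigM_le1 (n k P : ℕ) :
    n ^ φ.bs.sum * (2 ^ (L.flatMap QF.atoms).length * P) ≤ bigM φ L n k P := by
  refine le_trans ?_ (Nat.le_mul_of_pos_right _ (by positivity))
  exact Nat.mul_le_mul_left _ (Nat.mul_le_mul_left _ (by omega))

theorem bigM_le2 {n : ℕ} (hn : 0 < n) (k P : ℕ) :
    (k + 1) * (n ^ s + 3) ^ 2 ≤ bigM φ L n k P :=
  Nat.le_mul_of_pos_left _ (by positivity)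

theorem bigM_le3 {n : ℕ} (hn : 0 < n) (k P : ℕ) :
    (k + 1) * (n ^ s + 3) ≤ bigM φ L n k P := by
  refine le_trans ?_ (bigM_le2 φ L hn k P)
  exact Nat.mul_le_mul_left _ (Nat.le_self_pow (by norm_num) _)

theorem bigM_le4 {n : ℕ} (hn : 0 < n) (k P : ℕ) :
    (k + 1) * ((n ^ s + 2) * (n ^ s + 2)) ≤ 2 * bigM φ L n k P := by
  have h1 := bigM_le2 φ L hn k P
  have h2 : (k + 1) * ((n ^ s + 2) * (n ^ s + 2)) ≤ (k + 1) * (n ^ s + 3) ^ 2 := by
    refine Nat.mul_le_mul_left _ ?_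
    rw [sq]
    exact Nat.mul_le_mul (by omega) (by omega)
  omega

/-- the reduction -/
def redM (x : (Str × Un) × Un) : Str × Un :=
  (mkStr (2 * bigM φ L x.1.1.n x.1.2.n x.2.n) (bigM_pos φ L x.1.1.pos _ _) (t + 1) fun l =>
    tstG e x.1.2.n (x.1.1.n ^ s) (mtM φ L L1 L2 e x.1.1 x.1.2.n (x.1.1.n ^ φ.bs.sum))
      (nums (takeL t l)) (nums (l.drop t)), ⟨x.1.2.n + 1⟩)

theorem p_redM : Poly (redM φ L L1 L2 e) := by
  have hA : Poly (fun x : (Str × Un) × Un => x.1.1) := Poly.fst.fst'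
  have hn : UPoly (fun x : (Str × Un) × Un => x.1.1.n) := (Poly.strData hA).fst'
  have hk : UPoly (fun x : (Str × Un) × Un => x.1.2.n) := UPoly.n.comp Poly.fst.snd'
  have hP : UPoly (fun x : (Str × Un) × Un => x.2.n) := UPoly.n.comp Poly.snd
  have hM : UPoly (fun x : (Str × Un) × Un => 2 * bigM φ L x.1.1.n x.1.2.n x.2.n) :=
    (UPoly.const 2).mul (((u_pow hn _).mul ((UPoly.const _).mul (hP.add (UPoly.const 1)))).mul
      ((hk.add (UPoly.const 1)).mul (u_pow ((u_pow hn s).add (UPoly.const 3)) 2)))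
  have hus : Poly (fun p : ((Str × Un) × Un) × List Un => takeL t p.2) := p_takeL t Poly.snd
  have hcs : Poly (fun p : ((Str × Un) × Un) × List Un => p.2.drop t) :=
    Poly.dropU Poly.snd (UPoly.const t)
  have hhalf : Poly (fun p : ((Str × Un) × Un) × List Un =>
      (takeL t p.2).map fun u => (⟨u.n / 2⟩ : Un)) :=
    p_map (h := fun p : (((Str × Un) × Un) × List Un) × Un => (⟨p.2.n / 2⟩ : Un)) hus
      (UPoly.div (UPoly.n.comp Poly.snd) (UPoly.const 2))
  have hmt := p_mtM φ L L1 L2 e (hA.comp (Poly.fst (α := (Str × Un) × Un) (β := List Un)))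
    (hk.comp Poly.fst) ((u_pow hn φ.bs.sum).comp Poly.fst) hhalf hcs
  have hT : Poly (fun p : ((Str × Un) × Un) × List Un =>
      tstG e p.1.1.2.n (p.1.1.1.n ^ s) (mtM φ L L1 L2 e p.1.1.1 p.1.1.2.n
        (p.1.1.1.n ^ φ.bs.sum)) (nums (takeL t p.2)) (nums (p.2.drop t))) := by
    refine p_tstG (mt := fun p => mtM φ L L1 L2 e p.1.1.1 p.1.1.2.n (p.1.1.1.n ^ φ.bs.sum)) e
      (hk.comp Poly.fst) ((u_pow hn s).comp Poly.fst) hus hcs ?_
    refine hmt.of_eq fun p => ?_
    rw [nums_map (takeL t p.2) (fun u => u / 2)]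
  exact (p_str (α := (Str × Un) × Un) (M := fun x => 2 * bigM φ L x.1.1.n x.1.2.n x.2.n)
    (fun x => bigM_pos φ L x.1.1.pos _ _) hM (t + 1) hT).pair (hk.add (UPoly.const 1))

end

theorem k_le_sz (x : Str × Un) : x.2.n ≤ (NPC.code x : List Bool).length := by
  have h1 : (NPC.code x : List Bool).length = sz x := rfl
  have h2 : sz x = sz x.1 + sz x.2 + 1 := sz_pair x.1 x.2
  have h3 : sz x.2 = 2 * x.2.n + 1 := sz_Un x.2
  omega

/-- The problems with the right signs belong to `EW[t]`. -/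
theorem wd_reduces_sign {s t : ℕ} (ht : 2 ≤ t) (φ : PiForm s t) (hφ : SignNarrow φ) :
    EptReduces (WD φ) (WD (canon (t := t) (Nat.zero_lt_of_lt ht) 1)) := by
  obtain ⟨r, rfl⟩ : ∃ r, t = r + 2 := ⟨t - 2, by omega⟩
  obtain ⟨L, hL, hL'⟩ := hφ
  have heven : Even (r + 2) ↔ Even r := by
    rw [Nat.even_add]; simp
  classical
  set L1 := L.filter fun ψ => decide (ψ.innerOcc φ.start ≤ 1) with hL1
  set L2 := L.filter fun ψ => !decide (ψ.innerOcc φ.start ≤ 1) with hL2
  have h12 : ∀ ψ, ψ ∈ L ↔ ψ ∈ L1 ++ L2 := by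
    intro ψ
    rw [List.mem_append, hL1, hL2, List.mem_filter, List.mem_filter]
    cases decide (ψ.innerOcc φ.start ≤ 1) <;> simp
  have hl1 : ∀ ψ ∈ L1, ψ.innerOcc φ.start ≤ 1 := by
    intro ψ hψ
    rw [hL1, List.mem_filter] at hψ
    exact of_decide_eq_true hψ.2
  have hl2 : ∀ ψ ∈ L2, ψ.InnerSign φ.start (!decide (Even r)) := by
    intro ψ hψ
    rw [hL2, List.mem_filter] at hψ
    have h1 := (hL' ψ hψ.1).resolve_left (by
      have := hψ.2
      simpa using this)
    have h2 : decide (Even (r + 2)) = decide (Even r) := decide_eq_decide.2 heven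
    rwa [h2] at h1
  set D := (L.flatMap QF.atoms).length with hD
  refine ⟨fun x => redM φ L L1 L2 (decide (Even r)) (x, ⟨2 ^ (D * x.2.n)⟩), ?_, fun x => ?_, 1,
    fun x => ?_⟩
  · have hu : UPoly (fun x : Str × Un => D * x.2.n) :=
      (UPoly.const D).mul (UPoly.n.comp Poly.snd)
    have hb : ∃ c : ℕ, ∀ x : Str × Un,
        D * x.2.n ≤ c * (x.2.n + Nat.log 2 (NPC.code x : List Bool).length + 1) :=
      ⟨D, fun x => Nat.mul_le_mul_left _ (by omega)⟩
    exact ept_of_pad (α := Str × Un) (β := Str × Un) (κ := fun x => x.2.n) hu hb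
      (p_redM φ L L1 L2 (decide (Even r)))
  · obtain ⟨A, k⟩ := x
    have hn := A.pos
    have hbs : ∀ b ∈ φ.bs, A.n ^ b ≤ A.n ^ φ.bs.sum := by
      intro b hb
      exact Nat.pow_le_pow_right hn (List.le_sum_of_mem hb)
    have hN1 := bigM_le1 φ L A.n k.n (2 ^ (D * k.n))
    rw [pow_mul] at hN1
    exact gen_yes φ hL one_pos (decide (Even r)) (by simp) A k
      (bigM_le3 φ L hn k.n _) (bigM_le4 φ L hn k.n _) hbs (bigM_pos φ L hn _ _) _
      (fun c S h hcard hS => main_iffM φ L L1 L2 h12 (decide (Even r)) (by simp) hl1 hl2 A h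
        hcard hS (Nat.pow_pos hn) (by rw [pow_mul]; exact hN1))
  · show x.2.n + 1 ≤ 1 * (x.2.n + _ + 1)
    omega

end Pool.Agent.EWH
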